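import Pool.Agent.Work.MP_7453a1_lh.Interface

set_option autoImplicit false

/-! # Block BNG (adaptation of the block BNS of helper82) -/

namespace Pool.LH

open Finset Real
open Pool.LG (Pt Mat ev xv Fr Sg Dm pP pQ DD HH th LL TT xt rho ro co Ax Bx Wx Phi At Bt IsB)

theorem BNG_exp (y C Q : ℝ) (hQ : 0 < Q) (h : |log Q - y| ≤ C) :
    exp (y - C) ≤ Q ∧ Q ≤ exp (y + C) := by
  rw [abs_le] at h
  constructor
  · rw [← Real.le_log_iff_exp_le hQ]
    linarith [h.1]
  · rw [← Real.log_le_iff_le_exp hQ]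
    linarith [h.2]

theorem p_BNG (hCSB : Stmt_CSB) (hKTG : Stmt_KTG) : Stmt_BNG := by
  intro m n δ η τ hδ hη hτ
  obtain ⟨-, hD2, -, -, -, -, -, -, -, -, -, -, -, -, -, -, -, -, -, hE1, hL1000, -, hEB, -, -, -, -⟩ :=
    hCSB m n
  have hEp : 0 < EB m n := by linarith
  have hLp : 0 < LB m n := by linarith
  obtain ⟨hKx, hKe, -⟩ := hKTG m n δ η (dB m n) hδ hη
  have hexpE : exp (log (EB m n)) = EB m n := exp_log hEp
  have hexpE' : exp (-log (EB m n)) = 1 / EB m n := by
    rw [exp_neg, hexpE, one_div]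
  constructor
  · intro j
    have h1 := hKx τ hτ j
    have h2 := hδ j
    rw [abs_le] at h1 h2
    constructor
    · rw [← hexpE']
      apply exp_le_exp.mpr
      linarith [h1.1, h2.1]
    · calc exp (δ j + Kx m n δ η τ j) ≤ exp (log (EB m n)) := by
            apply exp_le_exp.mpr
            linarith [h1.2, h2.2]
        _ = EB m n := hexpE
  · intro ε s z i hε hs hz h
    have h1 := hKe τ hτ i
    have hη' := hη i
    have hPL : 0 < LB m n ^ Bx m n τ i := by positivity
    have hlog : log (s / ε * LB m n ^ Bx m n τ i) =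
        log (s / ε) + Bx m n τ i * log (LB m n) := by
      rw [Real.log_mul (by positivity) (by positivity), Real.log_pow]
    have h2 : |log (s / ε * LB m n ^ Bx m n τ i) - 0| ≤ log (EB m n) := by
      rw [hlog]
      rw [abs_le] at h h1 hη' ⊢
      constructor <;> linarith [h.1, h.2, h1.1, h1.2, hη'.1, hη'.2]
    obtain ⟨h3, h4⟩ := BNG_exp 0 (log (EB m n)) _ (by positivity) h2
    rw [zero_sub, hexpE'] at h3
    rw [zero_add, hexpE] at h4
    rw [one_div (LB m n), inv_pow]
    have h5 : s / ε * LB m n ^ Bx m n τ i = s * LB m n ^ Bx m n τ i / ε := by ring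
    rw [h5, le_div_iff₀ hε] at h3
    rw [h5, div_le_iff₀ hε] at h4
    constructor
    · rw [← div_eq_mul_inv, div_le_iff₀ hPL]
      linarith
    · rw [← div_eq_mul_inv, le_div_iff₀ hPL]
      linarith

end Pool.LH
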