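import Pool.Agent.Work.MP_7453a1_lh.Interface

set_option autoImplicit false

/-! # Block BSH: a pair of signs which is not beaten gives a best approximation -/

namespace Pool.LH

open Finset Real
open Pool.LG (Pt Mat ev xv Fr Sg Dm pP pQ DD HH th LL TT xt rho ro co Ax Bx Wx Phi At Bt IsB)

theorem BSH_xv_neg {m n : ℕ} (w : Pt m n) : ‖xv (-w)‖ = ‖xv w‖ := by
  have h : xv (-w) = -xv w := by
    funext l
    simp [xv]
  rw [h, norm_neg]

theorem BSH_ev_neg {m n : ℕ} (Θ : Mat m n) (w : Pt m n) : ‖ev Θ (-w)‖ = ‖ev Θ w‖ := by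
  have h : ev Θ (-w) = -ev Θ w := by
    funext l
    simp only [ev, Prod.fst_neg, Prod.snd_neg, Pi.neg_apply, Int.cast_neg, mul_neg,
      Finset.sum_neg_distrib]
    ring
  rw [h, norm_neg]

theorem BSH_half {m n : ℕ} (w z : Pt m n) (h : w + w = z + z) : w = z := by
  have h1 : ∀ l, w.1 l = z.1 l := by
    intro l
    have := congrFun (congrArg Prod.fst h) l
    simp only [Prod.fst_add, Pi.add_apply] at this
    omega
  have h2 : ∀ l, w.2 l = z.2 l := by
    intro l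
    have := congrFun (congrArg Prod.snd h) l
    simp only [Prod.snd_add, Pi.add_apply] at this
    omega
  exact Prod.ext (funext h1) (funext h2)

theorem BSH_Sg_neg {N : ℕ} (σ : Fin N → ℤ) (h : Sg σ) : Sg (-σ) := by
  intro k
  rcases h k with h | h
  · right
    simp [h]
  · left
    simp [h]

theorem p_BSH (hCLD : Stmt_CLD) (hCEH : Stmt_CEH) (hNMH : Stmt_NMH) : Stmt_BSH := by
  intro m n F X ε Θ hC σ τ hσ hτ hσ0 hτl
  obtain ⟨⟨z, hz⟩, ha1, ha2, -, he2, hpos, -, -, hnorm⟩ := hCLD m n F X ε Θ hC σ τ hσ hτ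
  obtain ⟨hzx, hze⟩ := hnorm z hz
  have haa : |aa F σ τ| = aa F σ τ := abs_of_pos (hpos hσ0)
  have hXp := hC.Xp
  -- the case of signs beginning with 1
  have key : ∀ w : Pt m n, ‖xv w‖ ≤ ‖xv z‖ → ‖ev Θ w‖ ≤ ‖ev Θ z‖ →
      ∀ (σ' : Fin (m + 1) → ℤ) (τ' : Fin (n + 1) → ℤ), Sg σ' → Sg τ' → σ' 0 = 1 →
      w + w = ∑ j, σ' j • F.v j + ∑ k, τ' k • F.f k → w = z := by
    intro w hw1 hw2 σ' τ' hσ' hτ' h0 hw
    obtain ⟨-, -, -, -, -, hpos', -, -, hnorm'⟩ := hCLD m n F X ε Θ hC σ' τ' hσ' hτ'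
    obtain ⟨hwx, hwe⟩ := hnorm' w hw
    have haa' : |aa F σ' τ'| = aa F σ' τ' := abs_of_pos (hpos' h0)
    obtain ⟨h1, h2⟩ := hNMH m n F X ε Θ hC σ σ' τ τ' hσ hσ' hτ hτ' hσ0 h0 hτl
      (by rw [← haa, ← haa', ← hwx, ← hzx]; linarith)
      (by rw [← hwe, ← hze]; linarith)
    apply BSH_half
    rw [hw, hz, h1, h2]
  refine ⟨z, ⟨?_, ?_⟩, ?_, ?_, ?_⟩
  · intro h0
    have h1 : xv z = 0 := by
      funext l
      simp [xv, h0]
    rw [h1, norm_zero] at hzx
    linarith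
  · intro w hw1 hw2
    rcases hCEH m n F X ε Θ hC w (fun p => by
        have h1 : |(w.1 p : ℝ)| ≤ ‖xv w‖ := norm_le_pi_norm (xv w) p
        linarith) (fun p => by
        have h1 : |ev Θ w p| ≤ ‖ev Θ w‖ := norm_le_pi_norm (ev Θ w) p
        linarith) with h | ⟨σ', τ', hσ', hτ', hw⟩
    · exact Or.inl h
    · right
      rcases hσ' 0 with h0 | h0
      · exact Or.inl (key w hw1 hw2 σ' τ' hσ' hτ' h0 hw)
      · right
        have h1 := key (-w) (by rw [BSH_xv_neg]; exact hw1) (by rw [BSH_ev_neg]; exact hw2)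
          (-σ') (-τ') (BSH_Sg_neg _ hσ') (BSH_Sg_neg _ hτ') (by simp [h0]) (by
            rw [← neg_add, hw]
            simp only [Pi.neg_apply, neg_smul, Finset.sum_neg_distrib, neg_add])
        rw [← h1, neg_neg]
  · rw [hzx, haa]
  · linarith
  · linarith

end Pool.LH
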