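import Pool.Agent.Work.MP_7453a1_lh.Interface
import Pool.Agent.Work.MP_7453a1_lg.B_CEC
import Pool.Agent.Work.MP_7453a1_lg.B_CST
import Pool.Agent.Work.MP_7453a1_lg.B_PAT

set_option autoImplicit false

/-! # CEH: classification of the points of the cluster -/

namespace Pool.LH

open Finset Real
open Pool.LG (Pt Mat ev xv Fr Sg Dm pP pQ DD HH th LL TT xt rho ro co Ax Bx Wx Phi At Bt IsB)

theorem CEH_pR (hPTG : Stmt_PTG) (m n : ℕ) (q : ℝ) (hq : 0 < q) (hq1 : q ≤ 1) (j : Fin (n + 1)) :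
    1 + ∑ l ∈ univ.erase j, |pR n q l j| ≤ pR n q j j := by
  obtain ⟨-, hpat, hz, hl, hd, hs⟩ := hPTG m n q hq hq1
  by_cases hj : j = Fin.last n
  · rw [hj, hl]
    have : ∑ l ∈ univ.erase (Fin.last n), |pR n q l (Fin.last n)| =
        ∑ l ∈ univ.erase (Fin.last n), pR n q l (Fin.last n) :=
      Finset.sum_congr rfl fun l _ => abs_of_nonneg (hpat.nn l (Fin.last n))
    rw [this]
    linarith
  · have : ∑ l ∈ univ.erase j, |pR n q l j| = 0 := by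
      refine Finset.sum_eq_zero fun l hl => ?_
      rw [hz l j hj (Finset.ne_of_mem_erase hl).symm, abs_zero]
    rw [this, (hd j hj).1, add_zero]

theorem p_CEH (hPTG : Stmt_PTG) (hCSB : Stmt_CSB) : Stmt_CEH := by
  intro m n F X ε Θ hC z hz1 hz2
  obtain ⟨-, -, -, -, -, -, hth, -, -, hDth, -⟩ := Pool.LG.p_CST m n
  obtain ⟨-, -, -, -, -, -, -, -, -, -, -, -, -, -, hq0, -, hq1, -⟩ := hCSB m n
  obtain ⟨h, hh, hgen⟩ := hC.good
  obtain ⟨t, a, b, hz⟩ := hgen z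
  have hzz : z + z = ∑ j, (t + 2 * a j) • F.v j + ∑ k, (t + 2 * b k) • F.f k := by
    have e1 : ∑ j, (t + 2 * a j) • F.v j =
        t • ∑ j, F.v j + (∑ j, a j • F.v j + ∑ j, a j • F.v j) := by
      rw [Finset.smul_sum, ← Finset.sum_add_distrib, ← Finset.sum_add_distrib]
      refine Finset.sum_congr rfl fun j _ => ?_
      module
    have e2 : ∑ k, (t + 2 * b k) • F.f k =
        t • ∑ k, F.f k + (∑ k, b k • F.f k + ∑ k, b k • F.f k) := by
      rw [Finset.smul_sum, ← Finset.sum_add_distrib, ← Finset.sum_add_distrib]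
      refine Finset.sum_congr rfl fun j _ => ?_
      module
    have e3 : z + z = t • (h + h) + (∑ j, a j • F.v j + ∑ j, a j • F.v j) +
        (∑ k, b k • F.f k + ∑ k, b k • F.f k) := by
      rw [hz]
      module
    rw [e1, e2, e3, hh]
    module
  obtain ⟨j0, -, hj0⟩ := Finset.exists_max_image (univ : Finset (Fin (m + 1)))
    (fun j => |t + 2 * a j|) ⟨0, Finset.mem_univ _⟩
  obtain ⟨k0, -, hk0⟩ := Finset.exists_max_image (univ : Finset (Fin (n + 1)))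
    (fun k => |t + 2 * b k|) ⟨0, Finset.mem_univ _⟩
  have hj : ∀ j, |((t + 2 * a j : ℤ) : ℝ)| ≤ |((t + 2 * a j0 : ℤ) : ℝ)| := fun j => by
    exact_mod_cast hj0 j (Finset.mem_univ _)
  have hk : ∀ k, |((t + 2 * b k : ℤ) : ℝ)| ≤ |((t + 2 * b k0 : ℤ) : ℝ)| := fun k => by
    exact_mod_cast hk0 k (Finset.mem_univ _)
  have k1 : |((t + 2 * a j0 : ℤ) : ℝ)| ≤ 3 / 2 + ((m + 1 : ℕ) : ℝ) * th m n *
      |((t + 2 * a j0 : ℤ) : ℝ)| + ((n + 1 : ℕ) : ℝ) * th m n * |((t + 2 * b k0 : ℤ) : ℝ)| := by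
    refine Pool.LG.CEC_dom (pP m) F.X F.U X (th m n) _ hC.Xp (fun j => ((t + 2 * a j : ℤ) : ℝ))
      (fun k => ((t + 2 * b k : ℤ) : ℝ)) j0 (Pool.LG.CEC_pP Pool.LG.p_PAT m j0) (fun l => hC.hx l j0)
      (fun k => hC.hf k j0) hj hk ?_
    have e := Pool.LG.CEC_hom F (Pool.LG.CEC_xHom m n j0) z _ _ hzz
    have e2 : ∑ l, ((t + 2 * a l : ℤ) : ℝ) * F.X l j0 + ∑ k, ((t + 2 * b k : ℤ) : ℝ) * F.U k j0 =
        2 * (z.1 j0 : ℝ) := e.symm
    rw [e2, abs_mul, abs_of_pos (by norm_num : (0 : ℝ) < 2)]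
    exact hz1 j0
  have k2 : |((t + 2 * b k0 : ℤ) : ℝ)| ≤ 3 / 2 + ((n + 1 : ℕ) : ℝ) * th m n *
      |((t + 2 * b k0 : ℤ) : ℝ)| + ((m + 1 : ℕ) : ℝ) * th m n * |((t + 2 * a j0 : ℤ) : ℝ)| := by
    refine Pool.LG.CEC_dom (pR n (qq m n)) (fun k p => ev Θ (F.f k) p) (fun j p => ev Θ (F.v j) p)
      ε (th m n) _ hC.ep (fun k => ((t + 2 * b k : ℤ) : ℝ)) (fun j => ((t + 2 * a j : ℤ) : ℝ)) k0
      (CEH_pR hPTG m n _ hq0 hq1 k0) (fun l => hC.he l k0) (fun k => hC.hv k k0) hk hj ?_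
    have e := Pool.LG.CEC_hom F (Pool.LG.CEC_eHom Θ k0) z _ _ hzz
    have e2 : ∑ k, ((t + 2 * b k : ℤ) : ℝ) * ev Θ (F.f k) k0 +
        ∑ j, ((t + 2 * a j : ℤ) : ℝ) * ev Θ (F.v j) k0 = 2 * ev Θ z k0 := by
      rw [add_comm]
      exact e.symm
    rw [e2, abs_mul, abs_of_pos (by norm_num : (0 : ℝ) < 2)]
    exact hz2 k0
  have hκ : (((m + 1 : ℕ) : ℝ) + ((n + 1 : ℕ) : ℝ)) * th m n ≤ 1 / 1000 := by
    have e : ((m + 1 : ℕ) : ℝ) + ((n + 1 : ℕ) : ℝ) = DD m n := by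
      rw [DD]
      push_cast
      ring
    rw [e, hDth]
    refine one_div_le_one_div_of_le (by norm_num) ?_
    have : (1 : ℝ) ≤ 3 ^ (m + n + 2) := one_le_pow₀ (by norm_num)
    linarith
  obtain ⟨hA, hB⟩ := Pool.LG.CEC_num (abs_nonneg _) (Nat.cast_nonneg _) (Nat.cast_nonneg _) hth.le
    hκ k1 k2
  have hA2 : |t + 2 * a j0| < 2 := by exact_mod_cast hA
  have hB2 : |t + 2 * b k0| < 2 := by exact_mod_cast hB
  have hα : ∀ j, -1 ≤ t + 2 * a j ∧ t + 2 * a j ≤ 1 := fun j => by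
    have h1 : |t + 2 * a j| ≤ |t + 2 * a j0| := hj0 j (Finset.mem_univ _)
    have h2 : |t + 2 * a j| ≤ 1 := by omega
    exact abs_le.mp h2
  have hβ : ∀ k, -1 ≤ t + 2 * b k ∧ t + 2 * b k ≤ 1 := fun k => by
    have h1 : |t + 2 * b k| ≤ |t + 2 * b k0| := hk0 k (Finset.mem_univ _)
    have h2 : |t + 2 * b k| ≤ 1 := by omega
    exact abs_le.mp h2
  rcases Int.even_or_odd t with ⟨r, hr⟩ | ⟨r, hr⟩
  · left
    have z1 : ∀ j, t + 2 * a j = 0 := fun j => by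
      have := hα j
      omega
    have z2 : ∀ k, t + 2 * b k = 0 := fun k => by
      have := hβ k
      omega
    have h0 : z + z = 0 := by
      rw [hzz]
      simp only [z1, z2, zero_smul, Finset.sum_const_zero, add_zero]
    ext l
    · have h1 : z.1 l + z.1 l = 0 := congrArg (fun w : Pt m n => w.1 l) h0
      change z.1 l = 0
      omega
    · have h1 : z.2 l + z.2 l = 0 := congrArg (fun w : Pt m n => w.2 l) h0
      change z.2 l = 0
      omega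
  · right
    refine ⟨fun j => t + 2 * a j, fun k => t + 2 * b k, fun j => ?_, fun k => ?_, hzz⟩
    · have := hα j
      change t + 2 * a j = 1 ∨ t + 2 * a j = -1
      omega
    · have := hβ k
      change t + 2 * b k = 1 ∨ t + 2 * b k = -1
      omega

end Pool.LH
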