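import Pool.Agent.Work.MP_7453a1_lh.Interface
import Pool.Agent.Work.MP_7453a1_lg.B_CLC
import Pool.Agent.Work.MP_7453a1_lg.B_PAT
import Pool.Agent.Work.MP_7453a1_lg.B_CST

set_option autoImplicit false

/-! # Block CLD -/

namespace Pool.LH

open Finset Real
open Pool.LG (Pt Mat ev xv Fr Sg Dm pP pQ DD HH th LL TT xt rho ro co Ax Bx Wx Phi At Bt IsB
  CLC_gen CLC_norm CLC_evh CLC_xvh CLC_hom)

theorem p_CLD (hPTG : Stmt_PTG) (hCSB : Stmt_CSB) : Stmt_CLD := by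
  intro m n F X ε Θ hF σ τ hσ hτ
  obtain ⟨⟨a1, a2, a3, a4, a5, a6, a7, a8⟩, -⟩ := Pool.LG.p_PAT m
  obtain ⟨-, -, -, -, -, -, -, -, -, -, -, -, -, -, q0, -, q1, -⟩ := hCSB m n
  obtain ⟨-, b1, b2, b3, b4, b5⟩ := hPTG m n (qq m n) q0 q1
  have hth := (Pool.LG.p_CST m n).2.2.2.2.2.2.2.2.2.1
  have hk : DD m n * th m n ≤ 1 / 9000 := by
    rw [hth]
    apply one_div_le_one_div_of_le (by norm_num)
    have : (9 : ℝ) ≤ 3 ^ (m + n + 2) := by
      calc (9 : ℝ) = 3 ^ 2 := by norm_num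
        _ ≤ 3 ^ (m + n + 2) := pow_le_pow_right₀ (by norm_num) (by omega)
    linarith
  unfold DD at hk
  have hx := CLC_gen (N := m) (M := n) (pP m) 0 (fun j p => (a1 j p).1) (a3 0) a4 a6 a7 X
    (th m n) hF.Xp F.X F.U hF.hx hF.hf hk σ τ hσ hτ
  have he := CLC_gen (N := n) (M := m) (pR n (qq m n)) (Fin.last n) b1.nn
    (b1.of _) b2 (fun k hk => (b4 k hk).1) b3 ε
    (th m n) hF.ep (fun k p => ev Θ (F.f k) p) (fun j p => ev Θ (F.v j) p) hF.he hF.hv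
    (by rw [add_comm (n : ℝ) (m : ℝ)]; exact hk) τ σ hτ hσ
  have haa : aa F σ τ = ∑ j, (σ j : ℝ) * F.X j 0 + ∑ k, (τ k : ℝ) * F.U k 0 := rfl
  have hee : ee Θ F σ τ = ∑ k, (τ k : ℝ) * ev Θ (F.f k) (Fin.last n) +
      ∑ j, (σ j : ℝ) * ev Θ (F.v j) (Fin.last n) := add_comm _ _
  refine ⟨?_, ?_⟩
  · obtain ⟨h, hh, -⟩ := hF.good
    have hs : ∀ j, ∃ a : ℤ, σ j = 1 + 2 * a := fun j => by
      rcases hσ j with e | e
      · exact ⟨0, by rw [e]; norm_num⟩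
      · exact ⟨-1, by rw [e]; norm_num⟩
    have ht : ∀ j, ∃ a : ℤ, τ j = 1 + 2 * a := fun j => by
      rcases hτ j with e | e
      · exact ⟨0, by rw [e]; norm_num⟩
      · exact ⟨-1, by rw [e]; norm_num⟩
    choose a ha using hs
    choose b hb using ht
    refine ⟨h + ∑ j, a j • F.v j + ∑ k, b k • F.f k, ?_⟩
    have e1 : ∑ j, σ j • F.v j = ∑ j, F.v j + (∑ j, a j • F.v j + ∑ j, a j • F.v j) := by
      rw [← Finset.sum_add_distrib, ← Finset.sum_add_distrib]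
      refine Finset.sum_congr rfl fun j _ => ?_
      rw [ha j, add_smul, one_smul, two_mul, add_smul]
    have e2 : ∑ j, τ j • F.f j = ∑ j, F.f j + (∑ j, b j • F.f j + ∑ j, b j • F.f j) := by
      rw [← Finset.sum_add_distrib, ← Finset.sum_add_distrib]
      refine Finset.sum_congr rfl fun j _ => ?_
      rw [hb j, add_smul, one_smul, two_mul, add_smul]
    rw [e1, e2]
    have e3 : h + ∑ j, a j • F.v j + ∑ k, b k • F.f k +
        (h + ∑ j, a j • F.v j + ∑ k, b k • F.f k) = (h + h) +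
        (∑ j, a j • F.v j + ∑ j, a j • F.v j) + (∑ j, b j • F.f j + ∑ j, b j • F.f j) := by
      abel
    rw [e3, hh]
    abel
  rw [hee, haa]
  refine ⟨hx.1, hx.2.1, he.1, he.2.1, hx.2.2.2.1, he.2.2.2.2, he.2.2.2.1, fun z hz => ⟨?_, ?_⟩⟩
  · refine CLC_norm (xv z) (fun p => ∑ j, (σ j : ℝ) * F.X j p + ∑ k, (τ k : ℝ) * F.U k p) 0
      (fun p => ?_) hx.2.2.1
    have h1 := congrArg (CLC_xvh (m := m) (n := n) p) hz
    rw [CLC_hom, map_add] at h1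
    rw [two_mul]
    exact h1
  · refine CLC_norm (ev Θ z) (fun p => ∑ k, (τ k : ℝ) * ev Θ (F.f k) p +
      ∑ j, (σ j : ℝ) * ev Θ (F.v j) p) (Fin.last n) (fun p => ?_) he.2.2.1
    have h1 := congrArg (CLC_evh Θ p) hz
    rw [CLC_hom, map_add] at h1
    rw [two_mul]
    exact h1.trans (add_comm _ _)

end Pool.LH
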