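import Pool.Agent.Work.MP_7453a1_lh.Interface
import Pool.Agent.Work.MP_7453a1_lg.All

set_option autoImplicit false

/-!
# MP_7453a1_nt, sup norms, second construction: block CLH (helper53, after `B_CLF.lean` of helper21)
-/

namespace Pool.LH

open Finset Real Filter
open Pool.LG (Pt Mat ev xv Fr Sg Dm pP pQ DD HH th LL TT xt rho ro co Ax Bx Wx Phi At Bt IsB)

/-- All constants. -/
structure CLH_K (m n : ℕ) (q g : ℝ) : Prop where
  qd : 1 / L1 m n = q
  q0 : 0 < q
  q1 : q ≤ 1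
  gd : EB m n / LB m n = g
  g0 : 0 < g
  gf : g ≤ fB m n ^ 2
  E1 : 1 ≤ EB m n
  L0 : 1 ≤ LB m n
  xm1 : 1 ≤ xm m n
  f0 : 0 < fB m n
  fm : 1000000 * fB m n ≤ qq m n
  tp : 0 < th m n
  ths : th m n ≤ 1 / 18000
  qp : 0 < qq m n
  q1' : qq m n ≤ 1
  qt : qq m n ≤ th m n / 1000
  ea : 36 * exp 21 * q ≤ 1
  ev9 : 3 * exp 9 * q ≤ th m n / 100
  LE : 2 * exp 12 ≤ LB m n
  iL : 1 / LB m n ≤ fB m n ^ 2
  nf : 30 * ((n : ℝ) + 1) * 3 ^ m * (EB m n ^ 2 / LB m n) < 1
  vf : 3 * (m : ℝ) * exp 9 * q ^ 2 + ((m : ℝ) + 2) * q ^ 3 < exp (-11)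
  Df : ((m : ℝ) + n + 2) * fB m n ≤ qq m n / (1000000 * 3 ^ (m + n + 2))
  qb : ∀ j, j ≤ m → qq m n ≤ q ^ (bb j + 3)

theorem CLH_consts (hCSB : Stmt_CSB) (m n : ℕ) : ∃ q g : ℝ, CLH_K m n q g := by
  obtain ⟨c1, c2, c3, c4, c5, c6, c7, c8, c9, c10, c11, c12, c13, c14, c15, c16, c17, c18, c19,
    c20, c21, c22, c23, c24, c25, c26, c27⟩ := hCSB m n
  have hk : (1 : ℝ) ≤ 3 ^ (m + n + 2) := one_le_pow₀ (by norm_num)
  have hk9 : (9 : ℝ) ≤ 3 ^ (m + n + 2) := by
    calc (9 : ℝ) = 3 ^ 2 := by norm_num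
      _ ≤ 3 ^ (m + n + 2) := pow_le_pow_right₀ (by norm_num) (by omega)
  have hD0 : 0 < DD m n := by linarith
  have hD6 : DD m n ≤ DD m n ^ 6 := by
    calc DD m n = DD m n ^ 1 := (pow_one _).symm
      _ ≤ DD m n ^ 6 := pow_le_pow_right₀ (by linarith) (by norm_num)
  have hD5 : 1 ≤ DD m n ^ 5 := one_le_pow₀ (by linarith)
  have he32 : 0 < exp 32 := exp_pos _
  have hDe : 10 ^ 6 * (DD m n * 3 ^ (m + n + 2) * exp 32) ≤ L1 m n := by
    refine le_trans ?_ c6
    calc 10 ^ 6 * (DD m n * 3 ^ (m + n + 2) * exp 32)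
        ≤ 10 ^ 6 * (DD m n ^ 6 * 3 ^ (m + n + 2) * exp 32) := by gcongr
      _ = 10 ^ 6 * DD m n ^ 6 * 3 ^ (m + n + 2) * exp 32 := by ring
  have hD3 : 2 ≤ DD m n * 3 ^ (m + n + 2) := by nlinarith
  have hL32 : 10 ^ 6 * exp 32 ≤ L1 m n := by
    refine le_trans ?_ hDe
    nlinarith
  have hL0 : 0 < L1 m n := lt_of_lt_of_le (by positivity) hL32
  have hLB : 0 < LB m n := by linarith
  have hEB : 0 < EB m n := by linarith
  have hthd : th m n = 1 / (1000 * DD m n * 3 ^ (m + n + 2)) := rfl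
  have htp : 0 < th m n := by
    rw [hthd]
    positivity
  have hths : th m n ≤ 1 / 18000 := by
    rw [hthd]
    apply one_div_le_one_div_of_le (by norm_num)
    nlinarith
  have hDth : DD m n * th m n = 1 / (1000 * 3 ^ (m + n + 2)) := by
    rw [hthd]
    field_simp
  have hfq : fB m n ≤ qq m n * (th m n / 1000) := by
    refine c14.trans (le_of_eq ?_)
    ring
  have hqL : (1 / L1 m n) * L1 m n = 1 := by field_simp
  have hq0 : 0 < 1 / L1 m n := by positivity
  have hDD : DD m n = (m : ℝ) + n + 2 := rfl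
  have hm0 : (0 : ℝ) ≤ m := Nat.cast_nonneg m
  have hn0 : (0 : ℝ) ≤ n := Nat.cast_nonneg n
  have he12 : (1 : ℝ) ≤ exp 12 := one_le_exp (by norm_num)
  refine ⟨1 / L1 m n, EB m n / LB m n, rfl, hq0, ?_, rfl, by positivity, c25, c20, by linarith,
    c26, c13, ?_, htp, hths, c15, c17, c16, ?_, ?_, ?_, ?_, ?_, ?_, ?_, c18⟩
  · -- q1
    rw [div_le_one hL0]
    have : (1 : ℝ) ≤ exp 32 := one_le_exp (by norm_num)
    linarith
  · -- fm
    have h1 : th m n / 1000 ≤ 1 / 1000000 := by linarith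
    have h2 : qq m n * (th m n / 1000) ≤ qq m n * (1 / 1000000) := by gcongr
    linarith
  · -- ea
    have h1 : 36 * exp 21 ≤ L1 m n := by
      have h2 : exp 21 ≤ exp 32 := exp_le_exp.mpr (by norm_num)
      linarith
    calc 36 * exp 21 * (1 / L1 m n) ≤ L1 m n * (1 / L1 m n) := by gcongr
      _ = 1 := by field_simp
  · -- ev9
    have h1 : 1000 * exp 32 ≤ th m n * L1 m n := by
      calc 1000 * exp 32 ≤ 1000 * DD m n ^ 5 * exp 32 := by nlinarith
        _ = th m n * (10 ^ 6 * DD m n ^ 6 * 3 ^ (m + n + 2) * exp 32) := by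
          rw [hthd]
          field_simp
          norm_num
        _ ≤ th m n * L1 m n := by gcongr
    have h2 : exp 9 ≤ exp 32 := exp_le_exp.mpr (by norm_num)
    have h3 : 300 * exp 9 ≤ th m n * L1 m n := by linarith
    calc 3 * exp 9 * (1 / L1 m n) = (300 * exp 9) * (1 / L1 m n) / 100 := by ring
      _ ≤ (th m n * L1 m n) * (1 / L1 m n) / 100 := by gcongr
      _ = th m n / 100 := by field_simp
  · -- LE
    have h2 : exp 12 ≤ exp 32 := exp_le_exp.mpr (by norm_num)
    linarith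
  · -- iL
    refine le_trans ?_ c25
    gcongr
  · -- nf
    have h1 := c24 0 (Nat.zero_le _)
    have h2 : (1 / L1 m n) ^ (bb 0 + 6) ≤ (1 / L1 m n) ^ 1 :=
      pow_le_pow_of_le_one hq0.le (by
        rw [div_le_one hL0]
        have : (1 : ℝ) ≤ exp 32 := one_le_exp (by norm_num)
        linarith) (by omega)
    rw [pow_one] at h2
    have h3 : (0 : ℝ) < 3 ^ m := by positivity
    have h4 : (3 : ℝ) ^ m ≤ 3 ^ (m + n + 2) := pow_le_pow_right₀ (by norm_num) (by omega)
    have h5 : ((n : ℝ) + 1) * 3 ^ m ≤ DD m n * 3 ^ (m + n + 2) := by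
      have : (n : ℝ) + 1 ≤ DD m n := by rw [hDD]; linarith
      gcongr
    have h6 : 30 * (((n : ℝ) + 1) * 3 ^ m) < L1 m n := by
      have h7 : (1 : ℝ) ≤ exp 32 := one_le_exp (by norm_num)
      have h8 : DD m n * 3 ^ (m + n + 2) ≤ DD m n * 3 ^ (m + n + 2) * exp 32 := by
        have : 0 < DD m n * 3 ^ (m + n + 2) := by linarith
        nlinarith
      linarith
    calc 30 * ((n : ℝ) + 1) * 3 ^ m * (EB m n ^ 2 / LB m n)
        ≤ 30 * ((n : ℝ) + 1) * 3 ^ m * (1 / L1 m n) := by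
          have : 0 ≤ 30 * ((n : ℝ) + 1) * 3 ^ m := by positivity
          exact mul_le_mul_of_nonneg_left (h1.trans h2) this
      _ = (30 * (((n : ℝ) + 1) * 3 ^ m)) * (1 / L1 m n) := by ring
      _ < L1 m n * (1 / L1 m n) := by gcongr
      _ = 1 := by field_simp
  · -- vf
    set q := 1 / L1 m n with hq
    have hq1 : q ≤ 1 := by
      rw [hq, div_le_one hL0]
      have : (1 : ℝ) ≤ exp 32 := one_le_exp (by norm_num)
      linarith
    have h1 : 10 ^ 6 * (DD m n * q * exp 32) ≤ 1 := by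
      have h2 : 10 ^ 6 * (DD m n * exp 32) ≤ L1 m n := by
        refine le_trans ?_ hDe
        have h3 : DD m n * exp 32 ≤ DD m n * 3 ^ (m + n + 2) * exp 32 := by
          have : 0 < DD m n * exp 32 := by positivity
          nlinarith
        linarith
      calc 10 ^ 6 * (DD m n * q * exp 32) = 10 ^ 6 * (DD m n * exp 32) * q := by ring
        _ ≤ L1 m n * q := by gcongr
        _ = 1 := by rw [mul_comm]; exact hqL
    have hm : (m : ℝ) ≤ DD m n := by rw [hDD]; linarith
    have hm2 : (m : ℝ) + 2 ≤ DD m n := by rw [hDD]; linarith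
    have e9 : (1 : ℝ) ≤ exp 9 := one_le_exp (by norm_num)
    have hqq2 : q ^ 2 ≤ q := by nlinarith
    have hq3 : q ^ 3 ≤ q := by nlinarith
    have h4 : 3 * (m : ℝ) * exp 9 * q ^ 2 + ((m : ℝ) + 2) * q ^ 3 ≤ DD m n * q * (4 * exp 9) := by
      have h5 : 3 * (m : ℝ) * exp 9 * q ^ 2 ≤ 3 * DD m n * exp 9 * q := by gcongr
      have h6 : ((m : ℝ) + 2) * q ^ 3 ≤ DD m n * q := by gcongr
      have h7 : DD m n * q ≤ DD m n * q * exp 9 := by
        have : 0 < DD m n * q := by positivity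
        nlinarith
      calc 3 * (m : ℝ) * exp 9 * q ^ 2 + ((m : ℝ) + 2) * q ^ 3
          ≤ 3 * DD m n * exp 9 * q + DD m n * q * exp 9 := by linarith
        _ = DD m n * q * (4 * exp 9) := by ring
    refine lt_of_le_of_lt h4 ?_
    have h8 : exp (-11) * exp 32 = exp 21 := by
      rw [← exp_add]
      norm_num
    have h9 : exp 9 ≤ exp 21 := exp_le_exp.mpr (by norm_num)
    have h10 : DD m n * q * (4 * exp 9) * exp 32 < exp (-11) * exp 32 := by
      rw [h8]
      have h11 : DD m n * q * exp 32 ≤ 1 / 10 ^ 6 := by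
        rw [le_div_iff₀ (by norm_num)]
        linarith
      calc DD m n * q * (4 * exp 9) * exp 32 = (DD m n * q * exp 32) * (4 * exp 9) := by ring
        _ ≤ 1 / 10 ^ 6 * (4 * exp 9) := by gcongr
        _ < exp 21 := by linarith
    exact lt_of_mul_lt_mul_right h10 he32.le
  · -- Df
    rw [← hDD]
    calc DD m n * fB m n ≤ DD m n * (qq m n * (th m n / 1000)) := by gcongr
      _ = qq m n / 1000 * (DD m n * th m n) := by ring
      _ = qq m n / (1000000 * 3 ^ (m + n + 2)) := by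
        rw [hDth]
        field_simp
        norm_num

theorem CLH_bb (j l : ℕ) (h : j < l) : bb j + 2 ≤ bb l := by
  have h1 : 2 * bb j = (j + 1) * (j + 2) := by
    unfold bb
    exact Nat.mul_div_cancel' (Nat.even_mul_succ_self (j + 1)).two_dvd
  have h2 : 2 * bb l = (l + 1) * (l + 2) := by
    unfold bb
    exact Nat.mul_div_cancel' (Nat.even_mul_succ_self (l + 1)).two_dvd
  have h3 : (j + 2) * (j + 3) ≤ (l + 1) * (l + 2) := Nat.mul_le_mul (by omega) (by omega)
  nlinarith

theorem CLH_bb1 (j : ℕ) : 1 ≤ bb j := by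
  have h1 : 2 * bb j = (j + 1) * (j + 2) := by
    unfold bb
    exact Nat.mul_div_cancel' (Nat.even_mul_succ_self (j + 1)).two_dvd
  nlinarith

/-- Powers. -/
theorem CLH_pow {L : ℝ} (hL : 1 ≤ L) {w a : ℕ} (h : w < a) : L ^ w ≤ L ^ a * (1 / L) := by
  have hL0 : 0 < L := by linarith
  have h1 : L ^ w * L ≤ L ^ a := by
    rw [← pow_succ]
    exact pow_le_pow_right₀ hL h
  rw [mul_one_div, le_div_iff₀ hL0]
  exact h1

theorem CLH_tri (a b c : ℝ) : |a - c| ≤ |a - b| + |b - c| := abs_sub_le a b c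

theorem CLH_tri0 (a b : ℝ) : |a| ≤ |a - b| + |b| := by
  have := abs_add_le (a - b) b
  rwa [sub_add_cancel] at this

theorem p_CLH (hPTG : Stmt_PTG) (hCSB : Stmt_CSB) (hSQH : Stmt_SQH) : Stmt_CLH := by
  intro m n
  obtain ⟨q, g, K⟩ := CLH_consts hCSB m n
  obtain ⟨F, Θ, ε, η, W, hs⟩ := hSQH m n
  obtain ⟨-, -, -, -, -, -, -, -, -, hWA, hWW, -, -⟩ := Pool.LG.q_SCH m n
  obtain ⟨hPP, hPR, -, -, hRk, hRs⟩ := hPTG m n (qq m n) K.qp K.q1'
  obtain ⟨⟨-, -, -, -, hPlo, -, -, hPs⟩, -⟩ := Pool.LG.p_PAT m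
  have hL0 : 0 < LB m n := lt_of_lt_of_le one_pos K.L0
  have hqp := K.q0
  have hgp := K.g0
  have hfp := K.f0
  have hf1 : fB m n ≤ 1 / 1000000 := by
    have := K.fm
    have := K.q1'
    linarith
  have hff : fB m n ^ 2 ≤ fB m n * (1 / 1000000) := by
    rw [pow_two]
    gcongr
  have hgf := K.gf
  have hAt : 1 ≤ At m n := by
    have := hWA 0
    omega
  have hKB : LB m n ≤ KB m n := by
    unfold KB
    calc LB m n = 1 * LB m n ^ 1 := by ring
      _ ≤ xm m n * LB m n ^ At m n := by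
        have := K.xm1
        have h2 : LB m n ^ 1 ≤ LB m n ^ At m n := pow_le_pow_right₀ K.L0 hAt
        gcongr
  have hKB0 : 0 < KB m n := lt_of_lt_of_le hL0 hKB
  have hep : ∀ s, 0 < ε s := fun s => (hs s).1.ep
  have hXp : ∀ s, 0 < KB m n ^ (s + 1) := fun s => by positivity
  have hBt : 1 ≤ Bt m n := by
    unfold Bt
    have h1 : 0 < (m + 1) ^ 2 := by positivity
    exact Nat.one_le_iff_ne_zero.mpr (Nat.mul_ne_zero h1.ne' (by omega))
  -- growth of the errors
  have hgr : ∀ s, ε (s + 1) ≤ ε s * exp 12 * (1 / LB m n) := by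
    intro s
    have h := (hs s).2.2.eps
    refine h.trans ?_
    have h1 : (1 / LB m n) ^ Bt m n ≤ 1 / LB m n := by
      calc (1 / LB m n) ^ Bt m n ≤ (1 / LB m n) ^ 1 :=
            pow_le_pow_of_le_one (by positivity) (by rw [div_le_one hL0]; exact K.L0) hBt
        _ = 1 / LB m n := pow_one _
    have h2 : 0 < ε s * exp 12 := mul_pos (hep s) (exp_pos _)
    gcongr
  set μ : ℕ → ℝ := fun s => 12 * exp 9 * (ε s / KB m n ^ (s + 1)) * q with hμ
  have hμ0 : ∀ s, 0 ≤ μ s := fun s => by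
    have := hep s
    have := hXp s
    simp only [hμ]
    positivity
  have hμ2 : ∀ s, μ (s + 1) ≤ μ s / 2 := by
    intro s
    have e1 : ε (s + 1) ≤ ε s * (1 / 2) := by
      refine (hgr s).trans ?_
      have h1 : exp 12 * (1 / LB m n) ≤ 1 / 2 := by
        rw [mul_one_div, div_le_iff₀ hL0]
        linarith [K.LE]
      have := hep s
      calc ε s * exp 12 * (1 / LB m n) = ε s * (exp 12 * (1 / LB m n)) := by ring
        _ ≤ ε s * (1 / 2) := by gcongr
    have hK1 : 1 ≤ KB m n := K.L0.trans hKB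
    have e2 : ε (s + 1) / KB m n ^ (s + 1 + 1) ≤ ε s / KB m n ^ (s + 1) * (1 / 2) := by
      rw [div_le_iff₀ (hXp (s + 1))]
      refine e1.trans ?_
      have h3 : ε s / KB m n ^ (s + 1) * (1 / 2) * KB m n ^ (s + 1 + 1)
          = ε s * (1 / 2) * KB m n := by
        rw [pow_succ (KB m n) (s + 1)]
        have := (hXp s).ne'
        field_simp
      rw [h3]
      have h4 : 0 < ε s * (1 / 2) := mul_pos (hep s) (by norm_num)
      nlinarith
    simp only [hμ]
    calc 12 * exp 9 * (ε (s + 1) / KB m n ^ (s + 1 + 1)) * q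
        ≤ 12 * exp 9 * (ε s / KB m n ^ (s + 1) * (1 / 2)) * q := by gcongr
      _ = 12 * exp 9 * (ε s / KB m n ^ (s + 1)) * q / 2 := by ring
  obtain ⟨Θ', hΘ⟩ := Pool.LG.p_LMT m n Θ μ (fun s => ⟨hμ0 s, hμ2 s⟩) (by
    intro s w R hR p
    have h := (hs s).2.2.mov w R hR p
    refine h.trans (le_of_eq ?_)
    simp only [hμ]
    rw [← K.qd]
    ring)
  refine ⟨fun s => F (s + 1), fun s => ε (s + 1), Θ', ?_⟩
  intro s
  have hX1 : 0 < KB m n ^ (s + 2) := by positivity
  have he1 : 0 < ε (s + 1) := hep (s + 1)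
  have S1 := (hs (s + 1)).1
  have N0 := (hs s).2.2
  have N1 := (hs (s + 1)).2.2
  have hfth : fB m n ≤ th m n / 1000000 := by
    have h1 := K.fm
    have h2 := K.qt
    have h3 := K.tp
    linarith
  -- bound for `x(f k)`
  have hU : ∀ k p, |(F (s + 1)).U k p| ≤ 3 / 2 * g * KB m n ^ (s + 2) := by
    intro k p
    refine (N0.fup k p).trans ?_
    have h1 := CLH_pow K.L0 (hWA k)
    have hx := K.xm1
    have hE := K.E1
    calc 3 / 2 * (KB m n ^ (s + 1) * xm m n * EB m n * LB m n ^ Wx m n (TT m n) k)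
        ≤ 3 / 2 * (KB m n ^ (s + 1) * xm m n * EB m n * (LB m n ^ At m n * (1 / LB m n))) := by
          gcongr
      _ = 3 / 2 * (EB m n / LB m n) * (KB m n ^ (s + 1) * (xm m n * LB m n ^ At m n)) := by ring
      _ = 3 / 2 * g * KB m n ^ (s + 2) := by
        rw [K.gd, pow_succ (KB m n) (s + 1)]
        rfl
  have hUf : ∀ k p, |(F (s + 1)).U k p| ≤ fB m n * KB m n ^ (s + 2) := by
    intro k p
    refine (hU k p).trans ?_
    have : 3 / 2 * g ≤ fB m n := by linarith
    gcongr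
  have hP7 : ∀ j p, 0 ≤ pP m j p ∧ pP m j p ≤ 7 / 5 := fun j p => ⟨hPP.nn j p, hPP.le j p⟩
  have hXd : ∀ j p, |(F (s + 1)).X j p - KB m n ^ (s + 2) * pP m j p| ≤
      fB m n * KB m n ^ (s + 2) := fun j p => S1.sta.hx j p
  -- bound for `x(v j)`
  have hV : ∀ j p, |(F (s + 1)).X j p| ≤ 3 / 2 * KB m n ^ (s + 2) := by
    intro j p
    have h1 := hXd j p
    have h2 := (hP7 j p).2
    have h3 := (hP7 j p).1
    have h5 := CLH_tri0 ((F (s + 1)).X j p) (KB m n ^ (s + 2) * pP m j p)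
    rw [abs_of_nonneg (mul_nonneg hX1.le h3)] at h5
    nlinarith
  -- the tail
  have htail : ∀ (j : Fin (m + 1)) p, |ev Θ' ((F (s + 1)).v j) p - ev (Θ (s + 2)) ((F (s + 1)).v j) p|
      ≤ ε (s + 1) * fB m n ^ 2 := by
    intro j p
    have h1 := hΘ (s + 2) ((F (s + 1)).v j) (3 / 2 * KB m n ^ (s + 2)) (fun l => hV j l) p
    refine h1.trans ?_
    simp only [hμ]
    have h2 := hgr (s + 1)
    have hK1 : 1 ≤ KB m n := K.L0.trans hKB
    have h6 : ε (s + 2) / KB m n ^ (s + 2 + 1) ≤ ε (s + 1) * exp 12 * (1 / LB m n)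
        / KB m n ^ (s + 2) := by
      rw [div_le_div_iff₀ (by positivity) hX1]
      have h7 : 0 ≤ ε (s + 1) * exp 12 * (1 / LB m n) := by positivity
      calc ε (s + 2) * KB m n ^ (s + 2)
          ≤ ε (s + 1) * exp 12 * (1 / LB m n) * KB m n ^ (s + 2) := by gcongr
        _ ≤ ε (s + 1) * exp 12 * (1 / LB m n) * KB m n ^ (s + 2) * KB m n := by
          have h8 : 0 ≤ ε (s + 1) * exp 12 * (1 / LB m n) * KB m n ^ (s + 2) := by positivity
          nlinarith
        _ = ε (s + 1) * exp 12 * (1 / LB m n) * KB m n ^ (s + 2 + 1) := by ring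
    have h21 : exp 9 * exp 12 = exp 21 := by
      rw [← exp_add]
      norm_num
    calc 2 * (12 * exp 9 * (ε (s + 2) / KB m n ^ (s + 2 + 1)) * q) * (3 / 2 * KB m n ^ (s + 2))
        ≤ 2 * (12 * exp 9 * (ε (s + 1) * exp 12 * (1 / LB m n) / KB m n ^ (s + 2)) * q)
          * (3 / 2 * KB m n ^ (s + 2)) := by gcongr
      _ = (36 * (exp 9 * exp 12) * q) * (ε (s + 1) * (1 / LB m n)) := by
        field_simp
        ring
      _ ≤ 1 * (ε (s + 1) * (1 / LB m n)) := by
        rw [h21]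
        have := K.ea
        gcongr
      _ ≤ ε (s + 1) * fB m n ^ 2 := by
        rw [one_mul]
        have := K.iL
        gcongr
  have hmob : ∀ (j : Fin (m + 1)) p, |ev (Θ (s + 2)) ((F (s + 1)).v j) p|
      ≤ ε (s + 1) * (3 * exp 9) * q ^ bb j := by
    intro j p
    have h1 := N1.mob j p
    rw [K.qd] at h1
    refine h1.trans (le_of_eq ?_)
    ring
  have hv : ∀ (j : Fin (m + 1)) p, |ev Θ' ((F (s + 1)).v j) p|
      ≤ ε (s + 1) * (3 * exp 9 * q ^ bb j + fB m n ^ 2) := by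
    intro j p
    have h1 := htail j p
    have h2 := hmob j p
    have h3 := CLH_tri0 (ev Θ' ((F (s + 1)).v j) p) (ev (Θ (s + 2)) ((F (s + 1)).v j) p)
    refine h3.trans ((add_le_add h1 h2).trans (le_of_eq ?_))
    ring
  -- the errors of the `f i`
  have hη : ∀ i, |η (s + 1) i| ≤ th m n / 5 := (hs s).2.1
  have hex : ∀ i, |exp (η (s + 1) i) - 1| ≤ 2 / 5 * th m n := by
    intro i
    have h1 : |η (s + 1) i| ≤ 1 := by linarith [K.ths, hη i]
    have h2 := Real.abs_exp_sub_one_le h1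
    linarith [hη i]
  have hex2 : ∀ i, exp (η (s + 1) i) ≤ 1 + 2 / 5 * th m n := fun i => by
    linarith [(abs_le.mp (hex i)).2]
  have hex3 : ∀ i, 1 - 2 / 5 * th m n ≤ exp (η (s + 1) i) := fun i => by
    linarith [(abs_le.mp (hex i)).1]
  have hfe : ∀ i p, |ev Θ' ((F (s + 1)).f i) p - ε (s + 1) * exp (η (s + 1) i) * pR n (qq m n) i p|
      ≤ ε (s + 1) * (3 * fB m n) := by
    intro i p
    have h1 := S1.sta.he i p
    have h2 := hΘ (s + 1) ((F (s + 1)).f i) (3 / 2 * g * KB m n ^ (s + 2)) (fun l => hU i l) p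
    have h3 : 2 * μ (s + 1) * (3 / 2 * g * KB m n ^ (s + 2))
        = ε (s + 1) * ((36 * exp 9 * q) * g) := by
      simp only [hμ]
      have h4 : KB m n ^ (s + 1 + 1) = KB m n ^ (s + 2) := rfl
      rw [h4]
      field_simp
      ring
    rw [h3] at h2
    have h5 : 36 * exp 9 * q ≤ 1 := by
      have h6 : exp 9 ≤ exp 21 := exp_le_exp.mpr (by norm_num)
      have h7 : 36 * exp 9 * q ≤ 36 * exp 21 * q := by gcongr
      linarith [K.ea]
    have h8 : ε (s + 1) * ((36 * exp 9 * q) * g) ≤ ε (s + 1) * fB m n := by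
      have h9 : (36 * exp 9 * q) * g ≤ 1 * g := by gcongr
      have h10 : (36 * exp 9 * q) * g ≤ fB m n := by linarith
      gcongr
    have t1 : |ev (Θ (s + 1)) ((F (s + 1)).f i) p - ε (s + 1) * exp (η (s + 1) i) * pR n (qq m n) i p|
        ≤ ε (s + 1) * (2 * fB m n) := by
      refine h1.trans ?_
      have h11 : exp (η (s + 1) i) ≤ 2 := by linarith [hex2 i, K.ths]
      have : fB m n * (ε (s + 1) * exp (η (s + 1) i)) ≤ fB m n * (ε (s + 1) * 2) := by gcongr
      linarith
    have h12 := CLH_tri (ev Θ' ((F (s + 1)).f i) p) (ev (Θ (s + 1)) ((F (s + 1)).f i) p)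
      (ε (s + 1) * exp (η (s + 1) i) * pR n (qq m n) i p)
    linarith
  have hq7 : ∀ i p, 0 ≤ pR n (qq m n) i p ∧ pR n (qq m n) i p ≤ 7 / 5 :=
    fun i p => ⟨hPR.nn i p, hPR.le i p⟩
  have hm0 : (0 : ℝ) ≤ m := Nat.cast_nonneg m
  have hn0 : (0 : ℝ) ≤ n := Nat.cast_nonneg n
  have h3k : (1 : ℝ) ≤ 3 ^ (m + n + 2) := one_le_pow₀ (by norm_num)
  have hDf1 : ((m : ℝ) + n + 2) * fB m n ≤ qq m n / 1000000 := by
    refine K.Df.trans ?_
    have := K.qp
    apply div_le_div_of_nonneg_left this.le (by norm_num)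
    linarith
  refine ⟨S1.sta.good, hX1, he1, ?_, ?_, ?_, ?_, ?_, ?_, ?_, ?_⟩
  · -- hx
    intro j p
    refine (hXd j p).trans ?_
    have : fB m n ≤ th m n := by linarith [K.tp]
    gcongr
  · -- hf
    intro k p
    refine (hUf k p).trans ?_
    have : fB m n ≤ th m n := by linarith [K.tp]
    gcongr
  · -- he
    intro i p
    have t1 := hfe i p
    have t2 : |ε (s + 1) * exp (η (s + 1) i) * pR n (qq m n) i p - ε (s + 1) * pR n (qq m n) i p|
        ≤ ε (s + 1) * (14 / 25 * th m n) := by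
      have e1 : ε (s + 1) * exp (η (s + 1) i) * pR n (qq m n) i p - ε (s + 1) * pR n (qq m n) i p
          = ε (s + 1) * (exp (η (s + 1) i) - 1) * pR n (qq m n) i p := by ring
      rw [e1, abs_mul, abs_mul, abs_of_pos he1, abs_of_nonneg (hq7 i p).1]
      calc ε (s + 1) * |exp (η (s + 1) i) - 1| * pR n (qq m n) i p
          ≤ ε (s + 1) * (2 / 5 * th m n) * (7 / 5) := by
            have := K.tp
            gcongr
            · exact (hq7 i p).1
            · exact hex i
            · exact (hq7 i p).2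
        _ = ε (s + 1) * (14 / 25 * th m n) := by ring
    have t3 := CLH_tri (ev Θ' ((F (s + 1)).f i) p)
      (ε (s + 1) * exp (η (s + 1) i) * pR n (qq m n) i p) (ε (s + 1) * pR n (qq m n) i p)
    have h5 : 3 * fB m n + 14 / 25 * th m n ≤ th m n := by linarith [K.tp]
    calc |ev Θ' ((F (s + 1)).f i) p - ε (s + 1) * pR n (qq m n) i p|
        ≤ ε (s + 1) * (3 * fB m n) + ε (s + 1) * (14 / 25 * th m n) := by linarith
      _ = ε (s + 1) * (3 * fB m n + 14 / 25 * th m n) := by ring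
      _ ≤ ε (s + 1) * th m n := by gcongr
      _ = th m n * ε (s + 1) := mul_comm _ _
  · -- hv
    intro j p
    refine (hv j p).trans ?_
    have h1 : q ^ bb j ≤ q := by
      calc q ^ bb j ≤ q ^ 1 := pow_le_pow_of_le_one hqp.le K.q1 (CLH_bb1 j)
        _ = q := pow_one q
    have h2 : 3 * exp 9 * q ^ bb j ≤ 3 * exp 9 * q := by gcongr
    have h3 : 3 * exp 9 * q ^ bb j + fB m n ^ 2 ≤ th m n := by
      linarith [K.ev9, K.tp]
    calc ε (s + 1) * (3 * exp 9 * q ^ bb j + fB m n ^ 2) ≤ ε (s + 1) * th m n := by gcongr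
      _ = th m n * ε (s + 1) := mul_comm _ _
  · -- xo
    intro j hj
    set Y : ℝ := KB m n ^ (s + 2) with hY
    have hlo : Y * (pP m j 0 - fB m n) ≤ (F (s + 1)).X j 0 := by
      have := (abs_le.mp (hXd j 0)).1
      linarith
    have hup : ∀ l, |(F (s + 1)).X l 0| ≤ Y * pP m l 0 + Y * fB m n := by
      intro l
      have h1 := CLH_tri0 ((F (s + 1)).X l 0) (Y * pP m l 0)
      rw [abs_of_nonneg (mul_nonneg hX1.le (hP7 l 0).1)] at h1
      linarith [hXd l 0]
    have hsum1 : ∑ l ∈ univ.filter (j < ·), |(F (s + 1)).X l 0| ≤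
        Y * (pP m j 0 / 2) + (m : ℝ) * (Y * fB m n) := by
      calc ∑ l ∈ univ.filter (j < ·), |(F (s + 1)).X l 0|
          ≤ ∑ l ∈ univ.filter (j < ·), (Y * pP m l 0 + Y * fB m n) := sum_le_sum fun l _ => hup l
        _ = Y * ∑ l ∈ univ.filter (j < ·), pP m l 0 + ∑ l ∈ univ.filter (j < ·), Y * fB m n := by
          rw [sum_add_distrib, mul_sum]
        _ ≤ Y * (pP m j 0 / 2) + (m : ℝ) * (Y * fB m n) := by
          refine add_le_add (mul_le_mul_of_nonneg_left (hPs j hj) hX1.le) ?_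
          exact Pool.LG.CLF_sum' (fun l => j < l) (fun _ => Y * fB m n) (by positivity)
            (fun l _ => le_rfl) j (lt_irrefl j)
    have hsum2 : ∑ k, |(F (s + 1)).U k 0| ≤ ((n : ℝ) + 1) * (fB m n * Y) := by
      calc ∑ k, |(F (s + 1)).U k 0| ≤ ∑ k : Fin (n + 1), fB m n * Y :=
            sum_le_sum fun k _ => hUf k 0
        _ = ((n : ℝ) + 1) * (fB m n * Y) := by
          rw [sum_const, card_univ, Fintype.card_fin, nsmul_eq_mul]
          push_cast
          ring
    have hP0 := hPlo j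
    have h3m : (0 : ℝ) < 3 ^ m := by positivity
    have hsm : ((m : ℝ) + n + 2) * fB m n < pP m j 0 / 2 := by
      have h1 : ((m : ℝ) + n + 2) * fB m n ≤ 1 / (1000000 * 3 ^ m) := by
        refine K.Df.trans ?_
        rw [div_le_div_iff₀ (by positivity) (by positivity)]
        have h4 : (3 : ℝ) ^ m ≤ 3 ^ (m + n + 2) := pow_le_pow_right₀ (by norm_num) (by omega)
        have h5 : qq m n * (1000000 * 3 ^ m) ≤ 1 * (1000000 * 3 ^ (m + n + 2)) := by
          have := K.q1'
          have := K.qp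
          gcongr
        linarith
      have h2 : 1 / (1000000 * (3 : ℝ) ^ m) < 1 / (20 * 3 ^ m) := by
        apply one_div_lt_one_div_of_lt (by positivity)
        linarith
      have h3 : 1 / (20 * (3 : ℝ) ^ m) = 1 / (10 * 3 ^ m) / 2 := by
        field_simp
        norm_num
      linarith
    have hfin : Y * (((m : ℝ) + n + 2) * fB m n) < Y * (pP m j 0 / 2) := by gcongr
    nlinarith
  · -- fo
    intro k
    set w : ℕ := Wx m n (TT m n) k with hw
    have hlo := N0.flo k
    have h3m : (0 : ℝ) < 3 ^ m := by positivity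
    have hx := K.xm1
    have hE := K.E1
    have hx0 : 0 < xm m n := by linarith
    have hE0 : 0 < EB m n := by linarith
    set B : ℝ := 3 / 2 * (KB m n ^ (s + 1) * xm m n * EB m n * (LB m n ^ w * (1 / LB m n))) with hB
    have hB0 : 0 ≤ B := by rw [hB]; positivity
    have hsum := Pool.LG.CLF_sum (fun l => l < k) (fun l => |(F (s + 1)).U l 0|) hB0 (by
      intro l hl
      refine (N0.fup l 0).trans ?_
      have h1 := CLH_pow K.L0 (hWW l k hl)
      rw [hB]
      gcongr)
    refine lt_of_le_of_lt hsum (lt_of_lt_of_le ?_ hlo)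
    have hP : 0 < KB m n ^ (s + 1) * xm m n * LB m n ^ w := by positivity
    have e1 : ((n : ℝ) + 1) * B = KB m n ^ (s + 1) * xm m n * LB m n ^ w *
        (3 / 2 * ((n : ℝ) + 1) * (EB m n / LB m n)) := by
      rw [hB]
      ring
    have e2 : 1 / (20 * 3 ^ m) * (KB m n ^ (s + 1) * xm m n * (1 / EB m n) * LB m n ^ w)
        = KB m n ^ (s + 1) * xm m n * LB m n ^ w * (1 / (20 * 3 ^ m * EB m n)) := by
      field_simp
    rw [e1, e2]
    apply mul_lt_mul_of_pos_left _ hP
    rw [lt_div_iff₀ (by positivity)]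
    have e3 : 3 / 2 * ((n : ℝ) + 1) * (EB m n / LB m n) * (20 * 3 ^ m * EB m n)
        = 30 * ((n : ℝ) + 1) * 3 ^ m * (EB m n ^ 2 / LB m n) := by
      ring
    rw [e3]
    exact K.nf
  · -- vo
    intro j
    have hlo := N1.mol j
    rw [K.qd] at hlo
    have htl := (abs_le.mp (htail j (Fin.last n))).1
    set P : ℝ := ε (s + 1) * q ^ bb j with hP
    have hPp : 0 < P := by rw [hP]; positivity
    have hqb := K.qb j (Nat.lt_succ_iff.mp j.2)
    have hf3 : fB m n ^ 2 ≤ q ^ (bb j + 3) := by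
      have h1 := K.fm
      have h2 := K.qp
      nlinarith
    have e4 : q ^ (bb j + 3) = q ^ bb j * q ^ 3 := pow_add _ _ _
    set B : ℝ := P * (3 * exp 9 * q ^ 2 + q ^ 3) with hB
    have hB0 : 0 ≤ B := by rw [hB]; positivity
    have hsum := Pool.LG.CLF_sum' (fun l => j < l) (fun l => |ev Θ' ((F (s + 1)).v l) (Fin.last n)|)
      hB0 (by
      intro l hl
      refine (hv l (Fin.last n)).trans ?_
      have h1 : bb j + 2 ≤ bb l := CLH_bb j l hl
      have h2 : q ^ bb l ≤ q ^ bb j * q ^ 2 := by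
        rw [← pow_add]
        exact pow_le_pow_of_le_one hqp.le K.q1 h1
      calc ε (s + 1) * (3 * exp 9 * q ^ bb l + fB m n ^ 2)
          ≤ ε (s + 1) * (3 * exp 9 * (q ^ bb j * q ^ 2) + q ^ bb j * q ^ 3) := by
            rw [← e4]
            gcongr
        _ = B := by
          rw [hB, hP]
          ring) j (lt_irrefl j)
    have hsum2 : ∑ k ∈ univ.erase (Fin.last n), |ev Θ' ((F (s + 1)).f k) (Fin.last n)| ≤
        P * q ^ 3 := by
      have h1 : ∀ k, |ev Θ' ((F (s + 1)).f k) (Fin.last n)| ≤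
          ε (s + 1) * (2 * pR n (qq m n) k (Fin.last n) + 3 * fB m n) := by
        intro k
        have h2 := CLH_tri0 (ev Θ' ((F (s + 1)).f k) (Fin.last n))
          (ε (s + 1) * exp (η (s + 1) k) * pR n (qq m n) k (Fin.last n))
        have h0 := (hq7 k (Fin.last n)).1
        rw [abs_of_nonneg (by positivity :
          0 ≤ ε (s + 1) * exp (η (s + 1) k) * pR n (qq m n) k (Fin.last n))] at h2
        have h3 : exp (η (s + 1) k) ≤ 2 := by linarith [hex2 k, K.ths]
        have h4 : ε (s + 1) * exp (η (s + 1) k) * pR n (qq m n) k (Fin.last n) ≤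
            ε (s + 1) * 2 * pR n (qq m n) k (Fin.last n) := by gcongr
        linarith [hfe k (Fin.last n)]
      calc ∑ k ∈ univ.erase (Fin.last n), |ev Θ' ((F (s + 1)).f k) (Fin.last n)|
          ≤ ∑ k ∈ univ.erase (Fin.last n),
            (ε (s + 1) * (2 * pR n (qq m n) k (Fin.last n)) + ε (s + 1) * (3 * fB m n)) :=
            sum_le_sum fun k _ => (h1 k).trans (le_of_eq (by ring))
        _ = ε (s + 1) * 2 * ∑ k ∈ univ.erase (Fin.last n), pR n (qq m n) k (Fin.last n) +
            n * (ε (s + 1) * (3 * fB m n)) := by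
          rw [sum_add_distrib, mul_sum, sum_const, card_erase_of_mem (mem_univ _), card_univ,
            Fintype.card_fin, nsmul_eq_mul]
          congr 1
          apply sum_congr rfl
          intro k _
          ring
        _ ≤ ε (s + 1) * 2 * (qq m n / 20) + n * (ε (s + 1) * (3 * fB m n)) := by gcongr
        _ = ε (s + 1) * (qq m n / 10 + 3 * (n * fB m n)) := by ring
        _ ≤ ε (s + 1) * qq m n := by
          have h5 : (n : ℝ) * fB m n ≤ qq m n / 1000000 := by
            refine le_trans ?_ hDf1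
            have : (n : ℝ) ≤ m + n + 2 := by linarith
            gcongr
          have h6 : qq m n / 10 + 3 * (n * fB m n) ≤ qq m n := by
            linarith [K.qp]
          gcongr
        _ ≤ ε (s + 1) * (q ^ bb j * q ^ 3) := by
          rw [← e4]
          gcongr
        _ = P * q ^ 3 := by
          rw [hP]
          ring
    have hlo2 : P * exp (-11) - P * q ^ 3 ≤ ev Θ' ((F (s + 1)).v j) (Fin.last n) := by
      have h1 : ε (s + 1) * fB m n ^ 2 ≤ P * q ^ 3 := by
        calc ε (s + 1) * fB m n ^ 2 ≤ ε (s + 1) * (q ^ bb j * q ^ 3) := by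
              rw [← e4]
              gcongr
          _ = P * q ^ 3 := by
            rw [hP]
            ring
      have h2 : exp (-11) * ε (s + 1) * q ^ bb j = P * exp (-11) := by
        rw [hP]
        ring
      rw [h2] at hlo
      linarith
    have hgoal : (m : ℝ) * B + P * q ^ 3 < P * exp (-11) - P * q ^ 3 := by
      have h1 : P * (3 * (m : ℝ) * exp 9 * q ^ 2 + ((m : ℝ) + 2) * q ^ 3) < P * exp (-11) :=
        mul_lt_mul_of_pos_left K.vf hPp
      rw [hB]
      linarith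
    linarith
  · -- eo
    intro k hk
    obtain ⟨-, hk1, hk2, hk3⟩ := hRk k hk
    set c : ℝ := pR n (qq m n) k (Fin.last n) with hc
    have hup : ∀ l, |ev Θ' ((F (s + 1)).f l) (Fin.last n)| ≤
        ε (s + 1) * ((1 + 2 / 5 * th m n) * pR n (qq m n) l (Fin.last n)) +
          ε (s + 1) * (3 * fB m n) := by
      intro l
      have h2 := CLH_tri0 (ev Θ' ((F (s + 1)).f l) (Fin.last n))
        (ε (s + 1) * exp (η (s + 1) l) * pR n (qq m n) l (Fin.last n))
      have h0 := (hq7 l (Fin.last n)).1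
      rw [abs_of_nonneg (by positivity :
        0 ≤ ε (s + 1) * exp (η (s + 1) l) * pR n (qq m n) l (Fin.last n))] at h2
      have h4 : ε (s + 1) * exp (η (s + 1) l) * pR n (qq m n) l (Fin.last n) ≤
          ε (s + 1) * (1 + 2 / 5 * th m n) * pR n (qq m n) l (Fin.last n) := by
        have := hex2 l
        gcongr
      linarith [hfe l (Fin.last n)]
    have hsum : ∑ l ∈ univ.filter (· < k), |ev Θ' ((F (s + 1)).f l) (Fin.last n)| ≤
        ε (s + 1) * ((1 + 2 / 5 * th m n) * (c / 2)) + n * (ε (s + 1) * (3 * fB m n)) := by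
      calc ∑ l ∈ univ.filter (· < k), |ev Θ' ((F (s + 1)).f l) (Fin.last n)|
          ≤ ∑ l ∈ univ.filter (· < k),
            (ε (s + 1) * ((1 + 2 / 5 * th m n) * pR n (qq m n) l (Fin.last n)) +
              ε (s + 1) * (3 * fB m n)) := sum_le_sum fun l _ => hup l
        _ = ε (s + 1) * ((1 + 2 / 5 * th m n) *
            ∑ l ∈ univ.filter (· < k), pR n (qq m n) l (Fin.last n)) +
            ∑ l ∈ univ.filter (· < k), ε (s + 1) * (3 * fB m n) := by
          rw [sum_add_distrib, mul_sum, mul_sum]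
        _ ≤ ε (s + 1) * ((1 + 2 / 5 * th m n) * (c / 2)) + n * (ε (s + 1) * (3 * fB m n)) := by
          refine add_le_add ?_ ?_
          · have := K.tp
            gcongr
          · exact Pool.LG.CLF_sum' (fun l => l < k) (fun _ => ε (s + 1) * (3 * fB m n))
              (by positivity) (fun l _ => le_rfl) k (lt_irrefl k)
    have hlo : ε (s + 1) * ((1 - 2 / 5 * th m n) * c) - ε (s + 1) * (3 * fB m n) ≤
        ev Θ' ((F (s + 1)).f k) (Fin.last n) := by
      have h1 := (abs_le.mp (hfe k (Fin.last n))).1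
      have h0 := (hq7 k (Fin.last n)).1
      have h4 : ε (s + 1) * (1 - 2 / 5 * th m n) * c ≤ ε (s + 1) * exp (η (s + 1) k) * c := by
        have := hex3 k
        gcongr
      linarith
    refine lt_of_le_of_lt hsum (lt_of_lt_of_le ?_ hlo)
    have h3n : (0 : ℝ) < 3 ^ n := by positivity
    have hcf : 3 * (((n : ℝ) + 1) * fB m n) ≤ c / 10000 := by
      have h1 : ((n : ℝ) + 1) * fB m n ≤ ((m : ℝ) + n + 2) * fB m n := by
        have : (n : ℝ) + 1 ≤ m + n + 2 := by linarith
        gcongr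
      have h2 : qq m n / (1000000 * 3 ^ (m + n + 2)) ≤ qq m n / (1000000 * 3 ^ n) := by
        have h4 : (3 : ℝ) ^ n ≤ 3 ^ (m + n + 2) := pow_le_pow_right₀ (by norm_num) (by omega)
        have := K.qp
        gcongr
      have h5 : qq m n / (1000000 * 3 ^ n) = qq m n / (10 * 3 ^ n) / 100000 := by
        rw [div_div]
        congr 1
        ring
      have h6 := K.Df
      have h7 : ((n : ℝ) + 1) * fB m n ≤ c / 100000 := by
        rw [h5] at h2
        linarith
      have h8 : 0 ≤ c := (hq7 k (Fin.last n)).1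
      linarith
    have hc0 : 0 < c := by
      have h1 : 0 < qq m n / (10 * 3 ^ n) := by
        have := K.qp
        positivity
      linarith
    have hth := K.ths
    have htp := K.tp
    have key : (1 + 2 / 5 * th m n) * (c / 2) + 3 * (((n : ℝ) + 1) * fB m n) <
        (1 - 2 / 5 * th m n) * c := by
      have h1 : th m n * c ≤ 1 / 18000 * c := by gcongr
      nlinarith
    have h2 : ε (s + 1) * ((1 + 2 / 5 * th m n) * (c / 2) + 3 * (((n : ℝ) + 1) * fB m n)) <
        ε (s + 1) * ((1 - 2 / 5 * th m n) * c) := mul_lt_mul_of_pos_left key he1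
    linarith

end Pool.LH
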