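import Pool.Agent.Work.MP_7453a1_lh.Interface
import Pool.Agent.Work.MP_7453a1_lg.All

set_option autoImplicit false

/-!
# Sup norms, all `m, n`, block CNH: `2 ^ (m + n)` best approximations in a cluster
-/

namespace Pool.LH

open Finset Real
open Pool.LG (Pt Mat ev xv Fr Sg Dm pP pQ DD HH th LL TT xt rho ro co Ax Bx Wx Phi At Bt IsB)

/-- signs from a Boolean -/
def CNH_b (b : Bool) : ℤ := if b then 1 else -1

theorem CNH_b_sg (b : Bool) : CNH_b b = 1 ∨ CNH_b b = -1 := by cases b <;> simp [CNH_b]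

theorem CNH_b_inj : Function.Injective CNH_b := by
  intro a b h
  cases a <;> cases b <;> simp_all [CNH_b]

theorem CNH_ne {N : ℕ} (σ σ' : Fin N → ℤ) (hσ : Sg σ) (hσ' : Sg σ') (k : Fin N)
    (hk : σ k ≠ σ' k) : (σ k = -1 ∧ σ' k = 1) ∨ (σ' k = -1 ∧ σ k = 1) := by
  rcases hσ k with h | h <;> rcases hσ' k with h' | h'
  · exact absurd (h.trans h'.symm) hk
  · exact Or.inr ⟨h', h⟩
  · exact Or.inl ⟨h, h'⟩
  · exact absurd (h.trans h'.symm) hk

/-- difference of two signs times a number -/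
theorem CNH_two {a b : ℤ} (ha : a = 1 ∨ a = -1) (hb : b = 1 ∨ b = -1) (w : ℝ) :
    -(2 * |w|) ≤ (b : ℝ) * w - (a : ℝ) * w := by
  have h1 := le_abs_self w
  have h2 := neg_abs_le w
  have h3 := abs_nonneg w
  rcases ha with rfl | rfl <;> rcases hb with rfl | rfl <;> push_cast <;> linarith

/-- quantitative comparison of two signed sums -/
theorem CNH_ord {N : ℕ} (w : Fin N → ℝ) (σ σ' : Fin N → ℤ) (k : Fin N) (hσ : Sg σ) (hσ' : Sg σ')
    (h1 : ∀ l, l < k → σ l = σ' l) (h2 : σ k = -1) (h3 : σ' k = 1) :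
    2 * w k - 2 * ∑ l ∈ univ.filter (k < ·), |w l| ≤
      ∑ l, (σ' l : ℝ) * w l - ∑ l, (σ l : ℝ) * w l := by
  have e1 : 2 * w k - 2 * ∑ l ∈ univ.filter (k < ·), |w l| =
      ∑ l, ((if l = k then 2 * w l else 0) - (if k < l then 2 * |w l| else 0)) := by
    rw [Finset.sum_sub_distrib, Finset.sum_ite_eq' univ k, if_pos (Finset.mem_univ k),
      Finset.sum_filter, Finset.mul_sum]
    refine congrArg _ (Finset.sum_congr rfl fun l _ => ?_)
    split_ifs <;> simp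
  rw [e1, ← Finset.sum_sub_distrib]
  refine Finset.sum_le_sum fun l _ => ?_
  rcases lt_trichotomy l k with hl | rfl | hl
  · rw [if_neg hl.ne, if_neg hl.not_gt, h1 l hl]
    simp
  · rw [if_pos rfl, if_neg (lt_irrefl l), h2, h3]
    push_cast
    linarith
  · rw [if_neg hl.ne', if_pos hl]
    have := CNH_two (hσ l) (hσ' l) (w l)
    linarith

theorem CNH_all {N : ℕ} (w : Fin N → ℝ) (σ σ' : Fin N → ℤ) (hσ : Sg σ) (hσ' : Sg σ') :
    -(2 * ∑ l, |w l|) ≤ ∑ l, (σ' l : ℝ) * w l - ∑ l, (σ l : ℝ) * w l := by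
  rw [← Finset.sum_sub_distrib, Finset.mul_sum, ← Finset.sum_neg_distrib]
  exact Finset.sum_le_sum fun l _ => CNH_two (hσ l) (hσ' l) (w l)

theorem p_CNH (hBSH : Stmt_BSH) : Stmt_CNH := by
  intro m n F X ε Θ h
  obtain ⟨hO1, hO2, -⟩ := Pool.LG.p_ORD
  let σ : (Fin m → Bool) → Fin (m + 1) → ℤ := fun b => Fin.cons 1 (fun i => CNH_b (b i))
  have hσ0 : ∀ b, σ b 0 = 1 := fun b => by simp [σ]
  have hσc : ∀ b (i : Fin m), σ b i.succ = CNH_b (b i) := fun b i => by simp [σ]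
  have hσs : ∀ b, Sg (σ b) := fun b k => by
    refine Fin.cases ?_ (fun i => ?_) k
    · exact Or.inl (hσ0 b)
    · rw [hσc]; exact CNH_b_sg _
  have hσn : ∀ b b', b ≠ b' → σ b ≠ σ b' := fun b b' hb he => hb (funext fun i => by
    have := congrFun he i.succ
    rw [hσc, hσc] at this
    exact CNH_b_inj this)
  let τ : (Fin n → Bool) → Fin (n + 1) → ℤ := fun b =>
    Fin.lastCases (-1) (fun i => CNH_b (b i))
  have hτl : ∀ b, τ b (Fin.last n) = -1 := fun b => by simp [τ]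
  have hτc : ∀ b (i : Fin n), τ b i.castSucc = CNH_b (b i) := fun b i => by simp [τ]
  have hτs : ∀ b, Sg (τ b) := fun b k => by
    refine Fin.lastCases ?_ (fun i => ?_) k
    · exact Or.inr (hτl b)
    · rw [hτc]; exact CNH_b_sg _
  have hτn : ∀ b b', b ≠ b' → τ b ≠ τ b' := fun b b' hb he => hb (funext fun i => by
    have := congrFun he i.castSucc
    rw [hτc, hτc] at this
    exact CNH_b_inj this)
  have hB : ∀ b c, ∃ z : Pt m n, IsB Θ z ∧ 2 * ‖xv z‖ = aa F (σ b) (τ c) ∧ X / 2 < ‖xv z‖ ∧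
      ‖xv z‖ ≤ X := fun b c =>
    hBSH m n F X ε Θ h (σ b) (τ c) (hσs b) (hτs c) (hσ0 b) (hτl c)
  have hlt1 : ∀ b b' c c' k, k ≠ 0 → (∀ l, l < k → σ b l = σ b' l) → σ b k = -1 → σ b' k = 1 →
      aa F (σ b) (τ c) < aa F (σ b') (τ c') := by
    intro b b' c c' k h0 h1 h2 h3
    have e1 := CNH_ord (fun l => F.X l 0) (σ b) (σ b') k (hσs b) (hσs b') h1 h2 h3
    have e2 := CNH_all (fun l => F.U l 0) (τ c) (τ c') (hτs c) (hτs c')
    have e3 := h.xo k h0
    unfold aa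
    linarith
  have hlt2 : ∀ b c c' k, (∀ l, k < l → τ c l = τ c' l) → τ c k = -1 → τ c' k = 1 →
      aa F (σ b) (τ c) < aa F (σ b) (τ c') := by
    intro b c c' k h1 h2 h3
    have := hO2 (n + 1) (fun l => F.U l 0) (τ c) (τ c') k (hτs c) (hτs c') (h.fo k) h1 h2 h3
    unfold aa
    exact (add_lt_add_iff_left _).2 this
  have hinj : Function.Injective fun p : (Fin m → Bool) × (Fin n → Bool) =>
      aa F (σ p.1) (τ p.2) / 2 := by
    rintro ⟨b, c⟩ ⟨b', c'⟩ he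
    have he' : aa F (σ b) (τ c) = aa F (σ b') (τ c') := by
      have : aa F (σ b) (τ c) / 2 = aa F (σ b') (τ c') / 2 := he
      linarith
    have hbb : b = b' := by
      by_contra hb
      obtain ⟨-, ⟨k, hk, hkl⟩⟩ := hO1 (m + 1) (σ b) (σ b') (hσn b b' hb)
      have hk0 : k ≠ 0 := by
        rintro rfl
        exact hk ((hσ0 b).trans (hσ0 b').symm)
      rcases CNH_ne _ _ (hσs b) (hσs b') k hk with ⟨h1, h2⟩ | ⟨h1, h2⟩
      · exact absurd he' (hlt1 b b' c c' k hk0 hkl h1 h2).ne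
      · exact absurd he' (hlt1 b' b c' c k hk0 (fun l hl => (hkl l hl).symm) h1 h2).ne'
    subst hbb
    have hcc : c = c' := by
      by_contra hc
      obtain ⟨⟨k, hk, hkl⟩, -⟩ := hO1 (n + 1) (τ c) (τ c') (hτn c c' hc)
      rcases CNH_ne _ _ (hτs c) (hτs c') k hk with ⟨h1, h2⟩ | ⟨h1, h2⟩
      · exact absurd he' (hlt2 b c c' k hkl h1 h2).ne
      · exact absurd he' (hlt2 b c' c k (fun l hl => (hkl l hl).symm) h1 h2).ne'
    rw [hcc]
  refine ⟨univ.image fun p : (Fin m → Bool) × (Fin n → Bool) => aa F (σ p.1) (τ p.2) / 2,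
    ?_, ?_⟩
  · rw [Finset.card_image_of_injective _ hinj]
    simp [pow_add]
  · intro r hr
    obtain ⟨⟨b, c⟩, -, rfl⟩ := Finset.mem_image.1 hr
    obtain ⟨z, hz, h1, h2, h3⟩ := hB b c
    have h4 : ‖xv z‖ = aa F (σ b) (τ c) / 2 := by linarith
    change X / 2 < aa F (σ b) (τ c) / 2 ∧ aa F (σ b) (τ c) / 2 ≤ X ∧ ∃ z, IsB Θ z ∧ ‖xv z‖ = aa F (σ b) (τ c) / 2
    rw [← h4]
    exact ⟨h2, h3, z, hz, rfl⟩

end Pool.LH
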