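import Pool.Agent.Work.MP_7453a1_lh.Interface
import Pool.Agent.Work.MP_7453a1_lg.B_CST

set_option autoImplicit false

/-! Block CSB: numbers. -/

namespace Pool.LH

open Finset Real
open Pool.LG (Pt Mat ev xv Fr Sg Dm pP pQ DD HH th LL TT xt rho ro co Ax Bx Wx Phi At Bt IsB)

theorem CSB_bb (m n j : ℕ) (hj : j ≤ m) : bb j + 3 ≤ DN m n ^ 2 := by
  unfold bb DN
  have h1 : (j + 1) * (j + 2) ≤ (m + n + 1) * (m + n + 2) :=
    Nat.mul_le_mul (by omega) (by omega)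
  have h2 : (j + 1) * (j + 2) / 2 * 2 ≤ (j + 1) * (j + 2) := Nat.div_mul_le_self _ _
  nlinarith

theorem CSB_N3 (m n : ℕ) : DN m n ^ 2 + 3 ≤ DN m n ^ 3 - 1 ∧ 7 ≤ DN m n ^ 3 - 1 ∧ 8 ≤ DN m n ^ 3 ∧
    4 ≤ DN m n ^ 2 ∧ DN m n ^ 2 ≤ DN m n ^ 3 := by
  have hN : 2 ≤ DN m n := by unfold DN; omega
  set N := DN m n
  have h2 : 4 ≤ N ^ 2 := by nlinarith
  have h3 : N ^ 3 = N * N ^ 2 := by ring
  have h4 : 2 * N ^ 2 ≤ N ^ 3 := by rw [h3]; exact Nat.mul_le_mul_right _ hN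
  refine ⟨?_, ?_, ?_, h2, ?_⟩ <;> omega

theorem CSB_L (m n : ℕ) : 10 ^ 6 * DD m n ^ 6 * 3 ^ (m + n + 2) * exp 32 ≤ L1 m n ∧ 1000 ≤ L1 m n ∧
    exp 32 ≤ L1 m n := by
  have hD := Pool.LG.CST_D m n
  obtain ⟨_, _, hP3⟩ := Pool.LG.CST_P m n
  have hH : HH m n = 10 ^ 6 * DD m n ^ 6 * 3 ^ (m + n + 2) := rfl
  have hL : L1 m n = 2 * HH m n * exp 32 := rfl
  have he : (1 : ℝ) ≤ exp 32 := one_le_exp (by norm_num)
  have hD6 : (1 : ℝ) ≤ DD m n ^ 6 := one_le_pow₀ (by linarith)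
  have hH1 : 1000 ≤ HH m n := by
    rw [hH]
    have : (1 : ℝ) ≤ DD m n ^ 6 * 3 ^ (m + n + 2) := by nlinarith
    nlinarith
  refine ⟨?_, ?_, ?_⟩
  · rw [hL, ← hH]
    nlinarith
  · rw [hL]
    nlinarith
  · rw [hL]
    nlinarith

theorem p_CSB : Stmt_CSB := by
  intro m n
  have hD := Pool.LG.CST_D m n
  obtain ⟨hP1, hP2, hP3⟩ := Pool.LG.CST_P m n
  have hT := Pool.LG.CST_T m n
  obtain ⟨hN1, hN2, hN3, hN4, hN5⟩ := CSB_N3 m n
  obtain ⟨hL1, hL2, hL3⟩ := CSB_L m n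
  have hDN : (DN m n : ℝ) = DD m n := by
    unfold DN DD
    push_cast
    ring
  have hT0 : (0 : ℝ) ≤ (TT m n : ℝ) := Nat.cast_nonneg _
  have hH : HH m n = 10 ^ 6 * DD m n ^ 6 * 3 ^ (m + n + 2) := rfl
  have hth : th m n = 1 / (1000 * DD m n * 3 ^ (m + n + 2)) := rfl
  have hbb := CSB_bb m n
  have hL : L1 m n = 2 * HH m n * exp 32 := rfl
  have hHB : HB m n = L1 m n ^ (DN m n ^ 3) := rfl
  have hEB : EB m n = L1 m n ^ (2 * DN m n ^ 3) := rfl
  have hLB : LB m n = L1 m n ^ (10 * DN m n ^ 3) := rfl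
  have hqq : qq m n = (1 / L1 m n) ^ (DN m n ^ 2) := rfl
  have hfB : fB m n = (1 / L1 m n) ^ (DN m n ^ 3 - 1) := rfl
  have hdB : dB m n = DD m n ^ 2 * log (L1 m n) := rfl
  have hxm : xm m n = exp (((m : ℝ) + 2) / 2 * log (L1 m n)) := rfl
  have hm0 : (0 : ℝ) ≤ m := Nat.cast_nonneg m
  have hn0 : (0 : ℝ) ≤ n := Nat.cast_nonneg n
  have hmD : (m : ℝ) + 2 ≤ DD m n := by
    unfold DD
    linarith
  set D := DD m n with hDdef
  set N := DN m n with hNdef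
  set P : ℝ := 3 ^ (m + n + 2) with hPdef
  set T : ℝ := (TT m n : ℝ) with hTdef
  set Λ : ℝ := L1 m n with hΛdef
  have hD0 : 0 < D := by linarith
  have hP0 : 0 < P := by linarith
  have hΛ0 : 0 < Λ := by linarith
  have hΛ1 : 1 ≤ Λ := by linarith
  have hi0 : 0 < 1 / Λ := by positivity
  have hi1 : 1 / Λ ≤ 1 := by
    rw [div_le_one hΛ0]
    exact hΛ1
  have he : (1 : ℝ) ≤ exp 32 := one_le_exp (by norm_num)
  have hD4 : (16 : ℝ) ≤ D ^ 4 := by
    have := pow_le_pow_left₀ (by norm_num : (0 : ℝ) ≤ 2) hD 4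
    linarith
  have hD3 : (8 : ℝ) ≤ D ^ 3 := by
    have := pow_le_pow_left₀ (by norm_num : (0 : ℝ) ≤ 2) hD 3
    linarith
  have hD2 : (4 : ℝ) ≤ D ^ 2 := by
    have := pow_le_pow_left₀ (by norm_num : (0 : ℝ) ≤ 2) hD 2
    linarith
  have hD5 : (32 : ℝ) ≤ D ^ 5 := by
    have := pow_le_pow_left₀ (by norm_num : (0 : ℝ) ≤ 2) hD 5
    linarith
  have hHD : 5000 * D ≤ HH m n := by
    rw [hH]
    have h1 : (1 : ℝ) ≤ D ^ 5 * P := one_le_mul_of_one_le_of_one_le (by linarith only [hD5]) (by linarith only [hP3])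
    have h2 : (10 : ℝ) ^ 6 * D ^ 6 * P = 10 ^ 6 * D * (D ^ 5 * P) := by ring
    rw [h2]
    have h3 : (10 : ℝ) ^ 6 * D * 1 ≤ 10 ^ 6 * D * (D ^ 5 * P) :=
      mul_le_mul_of_nonneg_left h1 (by positivity)
    linarith only [h3, hD]
  have hH0 : 0 < HH m n := by linarith
  have hHL : HH m n ≤ Λ := by
    rw [hL]
    nlinarith only [hH0, he]
  -- the powers of Λ
  have hHBL : Λ ≤ HB m n := by
    rw [hHB]
    exact le_self_pow₀ hΛ1 (by omega)
  have hHB0 : 0 < HB m n := by linarith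
  have hfBH : fB m n * HB m n = Λ := by
    rw [hfB, hHB]
    have h0 : N ^ 3 - 1 + 1 = N ^ 3 := by omega
    have h1 : Λ ^ (N ^ 3) = Λ ^ (N ^ 3 - 1) * Λ := by
      rw [← pow_succ, h0]
    rw [h1, one_div, inv_pow, ← mul_assoc, inv_mul_cancel₀ (by positivity), one_mul]
  have hfB0 : 0 < fB m n := by
    rw [hfB]
    positivity
  have hqq0 : 0 < qq m n := by
    rw [hqq]
    positivity
  have hL6 : 10 ^ 6 * D ^ 6 * P ≤ Λ := by
    rw [← hH]
    exact hHL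
  have hD64 : D ^ 4 ≤ D ^ 6 * P := by
    have : D ^ 6 * P = D ^ 4 * (D ^ 2 * P) := by ring
    rw [this]
    refine le_mul_of_one_le_right (by positivity) ?_
    exact one_le_mul_of_one_le_of_one_le (by linarith) (by linarith)
  have hth1 : 1 / Λ ≤ th m n / 1000 := by
    rw [hth, div_div, one_div_le_one_div hΛ0 (by positivity)]
    have h1 : D ≤ D ^ 6 := le_self_pow₀ (by linarith) (by norm_num)
    nlinarith only [mul_le_mul_of_nonneg_right h1 hP0.le, hL6]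
  have hfq : fB m n ≤ qq m n * (1 / Λ) := by
    rw [hfB, hqq, ← pow_succ]
    exact pow_le_pow_of_le_one hi0.le hi1 (by omega)
  have hqL : qq m n ≤ 1 / Λ := by
    rw [hqq]
    calc (1 / Λ) ^ (N ^ 2) ≤ (1 / Λ) ^ 1 := pow_le_pow_of_le_one hi0.le hi1 (by omega)
      _ = 1 / Λ := pow_one _
  have hlog : 32 ≤ log Λ := by
    rw [le_log_iff_exp_le hΛ0]
    exact hL3
  have hEB1 : 1 ≤ EB m n := by
    rw [hEB]
    exact one_le_pow₀ hΛ1
  have hLBL : Λ ≤ LB m n := by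
    rw [hLB]
    exact le_self_pow₀ hΛ1 (by omega)
  have hlogE : log (EB m n) = 2 * D ^ 3 * log Λ := by
    rw [hEB, log_pow]
    push_cast
    rw [hDN]
  refine ⟨hDN, hD, by linarith, by linarith, ?_, hL1, hlog, ?_, ?_, ?_, ?_, ?_, hfB0, ?_, hqq0, ?_, ?_, ?_,
    ?_, hEB1, by linarith, hLBL, ?_, ?_, ?_, ?_, ?_⟩
  · rw [hL]
    ring
  · rw [hH, hth, div_div, div_le_div_iff₀ (by positivity) (by positivity)]
    have h1 : (10 : ℝ) ^ 6 * D ^ 6 * P = 10 ^ 6 * D ^ 3 * (D ^ 3 * P) := by ring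
    have h2 : 60 * D ^ 2 * (1000 * D * P * 100) = 6 * 10 ^ 6 * (D ^ 3 * P) := by ring
    rw [h1, h2, one_mul]
    apply mul_le_mul_of_nonneg_right _ (by positivity)
    linarith only [hD3]
  · rw [div_le_div_iff₀ hH0 (by norm_num)]
    linarith
  · rw [div_le_iff₀ hHB0, hfBH]
    have h1 : D * T ≤ D ^ 4 / 2 := by
      have := mul_le_mul_of_nonneg_left hT hD0.le
      calc D * T ≤ D * (D ^ 3 / 2) := this
        _ = D ^ 4 / 2 := by ring
    linarith only [h1, hD64, hL6, hD4, hD3]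
  · rw [div_le_iff₀ hHB0, hfBH]
    have h1 : T ≤ D ^ 4 / 4 := by
      have : D ^ 4 = D * D ^ 3 := by ring
      rw [this]
      nlinarith only [hT, hD3, mul_le_mul_of_nonneg_right hD (show (0 : ℝ) ≤ D ^ 3 by positivity)]
    linarith only [h1, hD64, hL6, hD4, hD3]
  · rw [div_mul_eq_mul_div, div_le_iff₀ hHB0, hfBH]
    have h1 : D * T ≤ D ^ 4 / 2 := by
      have := mul_le_mul_of_nonneg_left hT hD0.le
      calc D * T ≤ D * (D ^ 3 / 2) := this
        _ = D ^ 4 / 2 := by ring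
    linarith only [h1, hD64, hL6, hD4, hD3]
  · calc fB m n ≤ qq m n * (1 / Λ) := hfq
      _ ≤ qq m n * (th m n / 1000) := mul_le_mul_of_nonneg_left hth1 hqq0.le
      _ = qq m n * th m n / 1000 := by ring
  · exact hqL.trans hth1
  · exact hqL.trans hi1
  · intro j hj
    rw [hqq]
    exact pow_le_pow_of_le_one hi0.le hi1 (hbb j hj)
  · rw [hHB, hEB, hLB, ← pow_mul]
    have h1 : Λ ^ (N ^ 3) * (2 * Λ ^ (2 * N ^ 3 * 4)) = 2 * Λ ^ (9 * N ^ 3) := by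
      rw [mul_left_comm, ← pow_add]
      congr 2
      ring
    have h2 : Λ ^ (10 * N ^ 3) = Λ ^ (N ^ 3) * Λ ^ (9 * N ^ 3) := by
      rw [← pow_add]
      congr 1
      ring
    rw [h1, h2, ← hHB]
    exact mul_le_mul_of_nonneg_right (by linarith) (by positivity)
  · rw [hlogE, hdB]
    have h1 : 2 * D ^ 3 * log Λ - (1 + D) * (D ^ 2 * log Λ) = (D ^ 2 * (D - 1)) * log Λ := by ring
    have h2 : 4 * 1 ≤ D ^ 2 * (D - 1) := mul_le_mul hD2 (by linarith only [hD]) (by norm_num) (by positivity)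
    nlinarith only [h1, h2, hlog]
  · intro j hj
    have h1 : EB m n ^ 2 / LB m n = (1 / Λ) ^ (6 * N ^ 3) := by
      rw [hEB, hLB, ← pow_mul, one_div, inv_pow, div_eq_mul_inv]
      have : Λ ^ (10 * N ^ 3) = Λ ^ (2 * N ^ 3 * 2) * Λ ^ (6 * N ^ 3) := by
        rw [← pow_add]
        congr 1
        ring
      rw [this, mul_inv, ← mul_assoc, mul_inv_cancel₀ (by positivity), one_mul]
    rw [h1]
    refine pow_le_pow_of_le_one hi0.le hi1 ?_
    have := hbb j hj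
    omega
  · have h1 : EB m n / LB m n = (1 / Λ) ^ (8 * N ^ 3) := by
      rw [hEB, hLB, one_div, inv_pow, div_eq_mul_inv]
      have : Λ ^ (10 * N ^ 3) = Λ ^ (2 * N ^ 3) * Λ ^ (8 * N ^ 3) := by
        rw [← pow_add]
        congr 1
        ring
      rw [this, mul_inv, ← mul_assoc, mul_inv_cancel₀ (by positivity), one_mul]
    rw [h1, hfB, ← pow_mul]
    exact pow_le_pow_of_le_one hi0.le hi1 (by omega)
  · rw [hxm]
    apply one_le_exp
    have : 0 ≤ log Λ := by linarith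
    positivity
  · rw [hxm]
    have h1 : Λ ^ N = exp (D * log Λ) := by
      rw [← hDN, mul_comm, exp_mul, exp_log hΛ0, rpow_natCast]
    rw [h1]
    apply exp_le_exp.mpr
    apply mul_le_mul_of_nonneg_right _ (by linarith)
    linarith

end Pool.LH
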