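import Pool.Agent.Work.MP_7453a1_lh.Interface

set_option autoImplicit false

/-!
# Block DMG (helper18, copy of the block DMS of helper12): domination from the tolerances
-/

namespace Pool.LH

open Finset Real
open Pool.LG (Dm)

theorem DMG_main (N : ℕ) (pt A : Fin N → Fin N → ℝ) (h0 : ∀ j p, 0 ≤ pt j p ∧ pt j p ≤ 7 / 5)
    (h1 : ∀ j, 1 ≤ pt j j) (h2 : ∀ p, ∑ j ∈ univ.erase p, pt j p ≤ 1 / 20) (S tx : Fin N → ℝ)
    (hS : ∀ l, 0 < S l) (hA : ∀ l p, |A l p - S l * pt l p| ≤ tx l * S l) (ht : ∑ l, tx l ≤ 1 / 10) :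
    Dm A S ∧ (∀ p, ∑ l, |A l p| / S l ≤ 33 / 20) ∧ ∀ l p, |A l p| ≤ 3 / 2 * S l := by
  have htx : ∀ l, 0 ≤ tx l := by
    intro l
    have h := (abs_nonneg _).trans (hA l l)
    by_contra hc
    have := mul_neg_of_neg_of_pos (not_le.mp hc) (hS l)
    linarith
  have htl : ∀ l, tx l ≤ 1 / 10 := fun l =>
    (Finset.single_le_sum (fun i _ => htx i) (Finset.mem_univ l)).trans ht
  have hle : ∀ l p, |A l p| ≤ (pt l p + tx l) * S l := by
    intro l p
    have h3 : |A l p| ≤ |A l p - S l * pt l p| + |S l * pt l p| := by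
      have := abs_add_le (A l p - S l * pt l p) (S l * pt l p)
      simpa using this
    have h4 : |S l * pt l p| = S l * pt l p := abs_of_nonneg (mul_nonneg (hS l).le (h0 l p).1)
    have h5 := hA l p
    rw [h4] at h3
    nlinarith
  have hdiv : ∀ l p, |A l p| / S l ≤ pt l p + tx l := fun l p => (div_le_iff₀ (hS l)).mpr (hle l p)
  have hoff : ∀ p, ∑ l ∈ univ.erase p, |A l p| / S l ≤ 3 / 20 := by
    intro p
    calc ∑ l ∈ univ.erase p, |A l p| / S l ≤ ∑ l ∈ univ.erase p, (pt l p + tx l) :=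
          Finset.sum_le_sum fun l _ => hdiv l p
      _ = ∑ l ∈ univ.erase p, pt l p + ∑ l ∈ univ.erase p, tx l := Finset.sum_add_distrib
      _ ≤ 1 / 20 + 1 / 10 := by
          refine add_le_add (h2 p) (le_trans ?_ ht)
          exact Finset.sum_le_sum_of_subset_of_nonneg (Finset.erase_subset _ _) fun i _ _ => htx i
      _ = 3 / 20 := by norm_num
  refine ⟨⟨hS, ?_, ?_⟩, ?_, ?_⟩
  · intro l
    have h3 := (abs_le.mp (hA l l)).1
    have h4 := h1 l
    have h5 := htl l
    have h6 := hS l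
    nlinarith
  · intro p
    exact (hoff p).trans (by norm_num)
  · intro p
    rw [← Finset.add_sum_erase _ _ (Finset.mem_univ p)]
    have h3 := hoff p
    have h4 := hdiv p p
    have h5 := (h0 p p).2
    have h6 := htl p
    linarith
  · intro l p
    refine (hle l p).trans ?_
    have h5 := (h0 l p).2
    have h6 := htl l
    have h7 := hS l
    nlinarith

theorem p_DMG : Stmt_DMG := by
  intro N pt hpt A S tx hS hA ht
  exact DMG_main N pt A (fun j p => ⟨hpt.nn j p, hpt.le j p⟩) hpt.dg hpt.of S tx hS hA ht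

end Pool.LH
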