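import Pool.Agent.Work.MP_7453a1_lh.Interface
import Pool.Agent.Work.MP_7453a1_lg.B_BRG
import Pool.Agent.Work.MP_7453a1_lg.B_LM2
import Pool.Agent.Work.MP_7453a1_le.B_ADM

set_option autoImplicit false

/-! # Block FIH -/

namespace Pool.LH

open Finset Real Filter
open Pool.LG (Pt Mat ev xv Fr Sg Dm pP pQ DD HH th LL TT xt rho ro co Ax Bx Wx Phi At Bt IsB)
open Pool.Agent.Work.MP_7453a1_nt_two (Admissible IsBest Lengths G g len err)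
open Pool.LE (sn)

theorem p_FIH (hCLH : Stmt_CLH) (hCNH : Stmt_CNH) (hNUH : Stmt_NUH) : Stmt_FIH := by
  intro m n
  obtain ⟨F, ε, Θ, h⟩ := hCLH m n
  have key : ∀ s : ℕ, ∃ T : Finset ℝ, 2 ^ (m + n) ≤ T.card ∧ ∀ r ∈ T,
      r ∈ Lengths (sn (m + 1)) (sn (n + 1)) Θ ∧ KB m n ^ (s + 2) / 2 < r ∧
        r ≤ KB m n ^ (s + 2) := by
    intro s
    obtain ⟨T, hT, hr⟩ := hCNH m n (F s) _ _ Θ (h s)
    refine ⟨T, hT, fun r hr' => ?_⟩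
    obtain ⟨h1, h2, z, hz, hzr⟩ := hr r hr'
    exact ⟨hzr ▸ Pool.LG.p_BRG m n Θ z hz, h1, h2⟩
  obtain ⟨hinf, hG⟩ := Pool.LG.p_LM2 (m + 1) (n + 1) (sn (m + 1)) (sn (n + 1)) Θ (m + n)
    (KB m n) (hNUH m n).1 key
  refine ⟨Θ, Pool.LE.p_ADM (m + 1) (n + 1) _ _ Θ hinf, ?_,
    hG.trans (ENNReal.ofReal_le_ofReal (hNUH m n).2)⟩
  exact Set.infinite_of_forall_exists_gt hinf

end Pool.LH
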