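import Pool.Agent.Work.MP_7453a1_lh.Interface
import Pool.Agent.Work.MP_7453a1_lg.B_PAT
import Pool.Agent.Work.MP_7453a1_lg.B_INI

set_option autoImplicit false

namespace Pool.LH

open Finset Real
open Pool.LG (Pt Mat ev xv Fr Sg Dm pP pQ DD HH th LL TT xt rho ro co Ax Bx Wx Phi At Bt IsB)
open Pool.LG (INI_F INI_s INI_mu INI_good INI_spos INI_log INI_mu_le INI_dx)

/-- the tolerances of the errors -/
noncomputable def INH_te (m n : ℕ) : Fin (n + 1) → ℝ :=
  fun k => if k = 0 then 1 / 2 else if k = Fin.last n then 0 else pR n (qq m n) k (Fin.last n)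

theorem p_INH (hP : Stmt_PTG) (hC : Stmt_CSB) : Stmt_INH := by
  intro m n
  obtain ⟨-, -, -, -, -, -, -, -, -, -, -, -, -, -, hq0, -, hq1, -⟩ := hC m n
  obtain ⟨⟨a1, a2, a3, a4, a5, a6, a7, a8⟩, -⟩ := Pool.LG.p_PAT m
  obtain ⟨-, hR, b4, b7, b6, -⟩ := hP m n (qq m n) hq0 hq1
  -- the values of the pattern
  have hs : ∀ i, exp (INI_mu n) * exp (log (INI_s n i) - INI_mu n) = INI_s n i := by
    intro i
    rw [← exp_add]
    have h0 : 0 < INI_s n i := by linarith [(INI_spos n i).1]
    rw [show INI_mu n + (log (INI_s n i) - INI_mu n) = log (INI_s n i) by ring, exp_log h0]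
  have hte0 : ∀ i, 0 ≤ INH_te m n i := by
    intro i
    unfold INH_te
    split_ifs
    · norm_num
    · norm_num
    · exact hR.nn i _
  have hste : ∑ i ∈ univ.erase 0, INH_te m n i ≤ 1 / 20 := by
    refine le_trans ?_ (hR.of (Fin.last n))
    have h1 : ∑ i ∈ univ.erase 0, INH_te m n i ≤
        ∑ i ∈ univ.erase (0 : Fin (n + 1)),
          (if i = Fin.last n then 0 else pR n (qq m n) i (Fin.last n)) := by
      apply Finset.sum_le_sum
      intro i hi
      rw [Finset.mem_erase] at hi
      unfold INH_te
      rw [if_neg hi.1]
    refine h1.trans ?_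
    have h2 : ∑ i ∈ univ.erase (Fin.last n), pR n (qq m n) i (Fin.last n) =
        ∑ i ∈ univ.erase (Fin.last n),
          (if i = Fin.last n then 0 else pR n (qq m n) i (Fin.last n)) := by
      apply Finset.sum_congr rfl
      intro i hi
      rw [Finset.mem_erase] at hi
      rw [if_neg hi.1]
    rw [h2, Finset.sum_erase (s := univ) (a := Fin.last n)
      (f := fun i => if i = Fin.last n then (0 : ℝ) else pR n (qq m n) i (Fin.last n)) (by simp)]
    apply Finset.sum_le_sum_of_subset_of_nonneg (Finset.erase_subset _ _)
    intro i _ _
    split_ifs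
    · exact le_rfl
    · exact hR.nn i _
  have hstx : ∑ j, (if j = 0 then (0 : ℝ) else pP m j 0) ≤ 1 / 20 := by
    refine le_trans (le_of_eq ?_) (a3 0)
    rw [← Finset.sum_erase (s := univ) (a := (0 : Fin (m + 1)))
      (f := fun j => if j = 0 then (0 : ℝ) else pP m j 0) (by simp)]
    apply Finset.sum_congr rfl
    intro j hj
    rw [Finset.mem_erase] at hj
    rw [if_neg hj.1]
  have hev : ∀ (w : Pt m n) p, ev (0 : Mat m n) w p = - (w.2 p : ℝ) := by
    intro w p
    simp [ev]
  refine ⟨INI_F m n, 0, exp (INI_mu n), fun j => if j = 0 then 5 / 7 else 1,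
    fun j => if j = 0 then 2 / 5 else 0, fun j => if j = 0 then 0 else pP m j 0,
    fun i => log (INI_s n i) - INI_mu n, INH_te m n, fun k => if k = 0 then 1 else 0, ?_⟩
  refine
    { sta := ?_
      Xp := one_pos
      ep := exp_pos _
      eta0 := ?_
      eta := ?_
      dS := ?_
      dxp := ?_
      txp := ?_
      stx := hstx
      tep := hte0
      tez := ?_
      ste := hste
      W0 := ?_
      Zle := ?_ }
  · refine
      { good := INI_good m n
        cen := ?_
        Sp := ?_
        sp := ?_
        hx := ?_
        he := ?_
        hw := ?_ }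
    · intro j p
      rw [hev]
      simp [INI_F]
    · intro j
      split_ifs <;> norm_num
    · intro i
      exact mul_pos (exp_pos _) (exp_pos _)
    · intro j p
      have hX : (INI_F m n).X j p = if p = j then 1 else 0 := by
        simp [Fr.X, INI_F, Pi.single_apply]
      rw [hX]
      by_cases hj : j = 0
      · subst hj
        by_cases hp : p = 0
        · subst hp
          rw [a7]
          norm_num
        · rw [a4 0 p hp hp]
          simp [hp]
      · by_cases hp : p = j
        · subst hp
          rw [a6 p hj]
          simp [hj, (a1 p 0).1]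
        · by_cases hp0 : p = 0
          · subst hp0
            simp [hj, hp, abs_of_nonneg (a1 j 0).1]
          · rw [a4 j p hp0 hp]
            simp [hj, hp, (a1 j 0).1]
    · intro i p
      rw [hs i, hev]
      by_cases hi : i = 0
      · subst hi
        have hf : (((INI_F m n).f 0).2 p : ℝ) = if p = 0 then -2 else -1 := by
          simp only [INI_F, if_true]
          split_ifs <;> norm_num
        rw [hf]
        have e1 : INI_s n 0 = 2 := by simp [INI_s]
        have e2 : INH_te m n 0 = 1 / 2 := by simp [INH_te]
        rw [e1, e2]
        have c1 := hR.nn 0 p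
        have c2 := hR.le 0 p
        by_cases hp : p = 0
        · subst hp
          have c3 := hR.dg 0
          rw [if_pos rfl, abs_le]
          constructor <;> linarith
        · rw [if_neg hp]
          have c4 : pR n (qq m n) 0 p ≤ 1 / 20 := by
            refine le_trans ?_ (hR.of p)
            exact Finset.single_le_sum (f := fun j => pR n (qq m n) j p) (fun j _ => hR.nn j p)
              (Finset.mem_erase.2 ⟨fun h => hp h.symm, Finset.mem_univ _⟩)
          rw [abs_le]
          constructor <;> linarith
      · have hf : (((INI_F m n).f i).2 p : ℝ) = if p = i then -1 else 0 := by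
          simp only [INI_F, if_neg hi, Pi.single_apply]
          split_ifs <;> norm_num
        rw [hf]
        by_cases hl : i = Fin.last n
        · have e1 : INI_s n i = 5 / 7 := by
            unfold INI_s
            rw [if_neg hi, if_pos hl]
          have e2 : INH_te m n i = 0 := by
            unfold INH_te
            rw [if_neg hi, if_pos hl]
          rw [e1, e2]
          by_cases hp : p = i
          · rw [if_pos hp, hp, hl, b7]
            norm_num
          · have : pR n (qq m n) i p = 0 := b4 i p (fun h => hp (h.trans hl.symm)) hp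
            rw [if_neg hp, this]
            norm_num
        · have e1 : INI_s n i = 1 := by simp [INI_s, hi, hl]
          have e2 : INH_te m n i = pR n (qq m n) i (Fin.last n) := by simp [INH_te, hi, hl]
          rw [e1, e2]
          by_cases hp : p = i
          · rw [if_pos hp, hp, (b6 i hl).1]
            have := hR.nn i (Fin.last n)
            norm_num
            exact this
          · by_cases hpl : p = Fin.last n
            · subst hpl
              rw [if_neg hp]
              simp [abs_of_nonneg (hR.nn i (Fin.last n))]
            · rw [if_neg hp, b4 i p hpl hp]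
              have := hR.nn i (Fin.last n)
              norm_num
              exact this
    · intro k p
      by_cases hk : k = 0
      · simp [Fr.U, INI_F, hk]
      · simp [Fr.U, INI_F, hk]
  · have hn : ((n : ℝ) + 1) ≠ 0 := by positivity
    rw [Finset.sum_sub_distrib, Finset.sum_const, Finset.card_univ, Fintype.card_fin, nsmul_eq_mul]
    unfold INI_mu
    push_cast
    field_simp
    ring
  · intro i
    refine (abs_sub _ _).trans ?_
    linarith [INI_log n i, INI_mu_le n]
  · intro j
    by_cases hj : j = 0
    · rw [if_pos hj, if_pos hj, div_one]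
      exact INI_dx
    · rw [if_neg hj, if_neg hj]
      simp
  · intro j
    split_ifs <;> norm_num
  · intro j
    split_ifs
    · exact le_rfl
    · exact (a1 j 0).1
  · simp [INH_te]
  · intro k
    split_ifs
    · norm_num
    · norm_num
  · have h1 : ∑ j : Fin (m + 1), (if j = 0 then (2 / 5 : ℝ) else 0) = 2 / 5 := by simp
    have h2 : ∑ i, INH_te m n i ≤ 1 / 2 + 1 / 20 := by
      rw [← Finset.add_sum_erase univ (INH_te m n) (Finset.mem_univ 0)]
      have : INH_te m n 0 = 1 / 2 := by simp [INH_te]
      rw [this]
      linarith
    rw [h1]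
    linarith

end Pool.LH
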