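import Pool.Agent.Work.MP_7453a1_lh.Interface
import Pool.Agent.Work.MP_7453a1_lg.B_KTO

set_option autoImplicit false

/-! # Block KTG (helper88) -/

namespace Pool.LH

open Finset Real
open Pool.LG (Pt Mat ev xv Fr Sg Dm pP pQ DD HH th LL TT xt rho ro co Ax Bx Wx Phi At Bt IsB
  KTO_sum KTO_shift KTO_per KTO_TT KTO_ro KTO_co KTO_LL_pos)

/-- every pair (row, column) occurs `m + 1` times -/
theorem KTG_sum (m n : ℕ) (G : Fin (n + 1) → Fin (m + 1) → ℝ) :
    ∑ t ∈ range (TT m n), (if xt m n t then G (ro n t) (co m n t) else 0) =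
      ((m : ℝ) + 1) * ∑ i, ∑ j, G i j := by
  rw [KTO_TT, KTO_sum m n (fun t => G (ro n t) (co m n t)), Finset.sum_comm]
  have hL := KTO_LL_pos m n
  set G' : ℕ → ℕ → ℝ := fun v c =>
    G ⟨v % (n + 1), Nat.mod_lt _ n.succ_pos⟩ ⟨c % (m + 1), Nat.mod_lt _ m.succ_pos⟩ with hG'
  have h1 : ∀ u ∈ range (LL m n), ∑ b ∈ range (m + 1),
      G (ro n (2 * LL m n * b + u)) (co m n (2 * LL m n * b + u)) =
      (fun v => ∑ c ∈ range (m + 1), G' v c) (u % (n + 1)) := by
    intro u hu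
    have hu' : u < 2 * LL m n := by have := mem_range.1 hu; omega
    have h2 : ∀ b ∈ range (m + 1),
        G (ro n (2 * LL m n * b + u)) (co m n (2 * LL m n * b + u)) =
        (fun c => G' (u % (n + 1)) c) ((u + b) % (m + 1)) := by
      intro b _
      have h3 : ro n (2 * LL m n * b + u) =
          ⟨u % (n + 1) % (n + 1), Nat.mod_lt _ n.succ_pos⟩ :=
        Fin.ext (by rw [KTO_ro m n b u]; exact (Nat.mod_mod _ _).symm)
      have h4 : co m n (2 * LL m n * b + u) =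
          ⟨(u + b) % (m + 1) % (m + 1), Nat.mod_lt _ m.succ_pos⟩ :=
        Fin.ext (by rw [KTO_co hu']; exact (Nat.mod_mod _ _).symm)
      rw [h3, h4]
    rw [Finset.sum_congr rfl h2]
    exact KTO_shift (m + 1) (fun c => G' (u % (n + 1)) c) u
  rw [Finset.sum_congr rfl h1]
  show ∑ u ∈ range ((m + 1) * (n + 1)), _ = _
  refine (KTO_per (n + 1) (fun v => ∑ c ∈ range (m + 1), G' v c) (m + 1)).trans ?_
  push_cast
  congr 1
  rw [Finset.sum_range]
  refine Finset.sum_congr rfl fun i _ => ?_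
  rw [Finset.sum_range]
  refine Finset.sum_congr rfl fun j _ => ?_
  have h5 : (⟨(i : ℕ) % (n + 1), Nat.mod_lt _ n.succ_pos⟩ : Fin (n + 1)) = i :=
    Fin.ext (Nat.mod_eq_of_lt i.2)
  have h6 : (⟨(j : ℕ) % (m + 1), Nat.mod_lt _ m.succ_pos⟩ : Fin (m + 1)) = j :=
    Fin.ext (Nat.mod_eq_of_lt j.2)
  show G ⟨(i : ℕ) % (n + 1), Nat.mod_lt _ n.succ_pos⟩
    ⟨(j : ℕ) % (m + 1), Nat.mod_lt _ m.succ_pos⟩ = G i j
  rw [h5, h6]

theorem KTG_Kx (m n : ℕ) (δ : Fin (m + 1) → ℝ) (η : Fin (n + 1) → ℝ) : ∀ τ j, Kx m n δ η τ j =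
    ∑ t ∈ range τ, (if xt m n t then
      (if co m n t = j then kap m n δ η (ro n t) (co m n t) else 0) else 0) := by
  intro τ
  induction τ with
  | zero => intro j; simp [Kx]
  | succ τ ih =>
    intro j
    rw [Finset.sum_range_succ, ← ih]
    show (if xt m n τ then Function.update (Kx m n δ η τ) (co m n τ)
      (Kx m n δ η τ (co m n τ) + kap m n δ η (ro n τ) (co m n τ)) else Kx m n δ η τ) j = _
    split_ifs with h1 h2
    · subst h2; rw [Function.update_self]
    · rw [Function.update_of_ne (Ne.symm h2), add_zero]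
    · rw [add_zero]

theorem KTG_Ke (m n : ℕ) (δ : Fin (m + 1) → ℝ) (η : Fin (n + 1) → ℝ) : ∀ τ i, Ke m n δ η τ i =
    ∑ t ∈ range τ, (if xt m n t then
      (if ro n t = i then kap m n δ η (ro n t) (co m n t) else 0) else 0) := by
  intro τ
  induction τ with
  | zero => intro j; simp [Ke]
  | succ τ ih =>
    intro j
    rw [Finset.sum_range_succ, ← ih]
    show (if xt m n τ then Function.update (Ke m n δ η τ) (ro n τ)
      (Ke m n δ η τ (ro n τ) + kap m n δ η (ro n τ) (co m n τ)) else Ke m n δ η τ) j = _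
    split_ifs with h1 h2
    · subst h2; rw [Function.update_self]
    · rw [Function.update_of_ne (Ne.symm h2), add_zero]
    · rw [add_zero]

theorem KTG_kap (m n : ℕ) (δ : Fin (m + 1) → ℝ) (η : Fin (n + 1) → ℝ) (Δ : ℝ)
    (hδ : ∀ j, |δ j| ≤ Δ) (hη : ∀ i, |η i| ≤ Δ) (i : Fin (n + 1)) (j : Fin (m + 1)) :
    |kap m n δ η i j| ≤ (Δ / ((m : ℝ) + 1) + Δ / ((n : ℝ) + 1)) / ((m : ℝ) + 1) := by
  have hm : (0 : ℝ) < (m : ℝ) + 1 := by positivity
  have hn : (0 : ℝ) < (n : ℝ) + 1 := by positivity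
  unfold kap
  rw [abs_div, abs_of_pos hm]
  refine div_le_div_of_nonneg_right ?_ hm.le
  refine (abs_sub _ _).trans (add_le_add ?_ ?_)
  · rw [abs_div, abs_of_pos hm]
    exact div_le_div_of_nonneg_right (hη i) hm.le
  · rw [abs_div, abs_of_pos hn]
    exact div_le_div_of_nonneg_right (hδ j) hn.le

theorem KTG_bound (m n : ℕ) (Δ : ℝ) (hΔ : 0 ≤ Δ) (g : ℕ → ℝ)
    (hg : ∀ t, |g t| ≤ (Δ / ((m : ℝ) + 1) + Δ / ((n : ℝ) + 1)) / ((m : ℝ) + 1))
    (τ : ℕ) (hτ : τ ≤ TT m n) : |∑ t ∈ range τ, (if xt m n t then g t else 0)| ≤ DD m n * Δ := by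
  have hm : (0 : ℝ) < (m : ℝ) + 1 := by positivity
  have hn : (0 : ℝ) < (n : ℝ) + 1 := by positivity
  have hc : 0 ≤ (Δ / ((m : ℝ) + 1) + Δ / ((n : ℝ) + 1)) / ((m : ℝ) + 1) := by positivity
  calc |∑ t ∈ range τ, (if xt m n t then g t else 0)|
      ≤ ∑ t ∈ range τ, |if xt m n t then g t else 0| := Finset.abs_sum_le_sum_abs _ _
    _ ≤ ∑ t ∈ range τ, (if xt m n t then
          (Δ / ((m : ℝ) + 1) + Δ / ((n : ℝ) + 1)) / ((m : ℝ) + 1) else 0) := by
        refine Finset.sum_le_sum fun t _ => ?_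
        split_ifs
        · exact hg t
        · rw [abs_zero]
    _ ≤ ∑ t ∈ range (TT m n), (if xt m n t then
          (Δ / ((m : ℝ) + 1) + Δ / ((n : ℝ) + 1)) / ((m : ℝ) + 1) else 0) := by
        refine Finset.sum_le_sum_of_subset_of_nonneg (Finset.range_mono hτ) fun t _ _ => ?_
        split_ifs
        · exact hc
        · exact le_rfl
    _ = DD m n * Δ := by
        rw [KTG_sum m n (fun _ _ => (Δ / ((m : ℝ) + 1) + Δ / ((n : ℝ) + 1)) / ((m : ℝ) + 1))]
        rw [Finset.sum_const, Finset.sum_const, card_univ, card_univ, Fintype.card_fin,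
          Fintype.card_fin, nsmul_eq_mul, nsmul_eq_mul]
        unfold Pool.LG.DD
        push_cast
        field_simp
        ring

theorem p_KTG : Stmt_KTG := by
  intro m n δ η Δ hδ hη
  have hΔ : 0 ≤ Δ := (abs_nonneg _).trans (hη 0)
  have hm : (0 : ℝ) < (m : ℝ) + 1 := by positivity
  have hn : (0 : ℝ) < (n : ℝ) + 1 := by positivity
  have hc : 0 ≤ (Δ / ((m : ℝ) + 1) + Δ / ((n : ℝ) + 1)) / ((m : ℝ) + 1) := by positivity
  refine ⟨fun τ hτ j => ?_, fun τ hτ i => ?_, fun hs1 hs2 => ⟨fun j => ?_, fun i => ?_⟩⟩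
  · rw [KTG_Kx]
    refine KTG_bound m n Δ hΔ _ (fun t => ?_) τ hτ
    split_ifs
    · exact KTG_kap m n δ η Δ hδ hη _ _
    · rw [abs_zero]; exact hc
  · rw [KTG_Ke]
    refine KTG_bound m n Δ hΔ _ (fun t => ?_) τ hτ
    split_ifs
    · exact KTG_kap m n δ η Δ hδ hη _ _
    · rw [abs_zero]; exact hc
  · rw [KTG_Kx, KTG_sum m n (fun i' j' => if j' = j then kap m n δ η i' j' else 0)]
    have h1 : ∀ i', ∑ j', (if j' = j then kap m n δ η i' j' else 0) = kap m n δ η i' j := by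
      intro i'
      rw [Finset.sum_ite_eq', if_pos (mem_univ _)]
    rw [Finset.sum_congr rfl fun i' _ => h1 i']
    unfold kap
    rw [← Finset.sum_div, Finset.sum_sub_distrib, ← Finset.sum_div, hs2, Finset.sum_const,
      card_univ, Fintype.card_fin, nsmul_eq_mul]
    push_cast
    field_simp
    ring
  · rw [KTG_Ke, KTG_sum m n (fun i' j' => if i' = i then kap m n δ η i' j' else 0)]
    have h1 : ∀ i', ∑ j', (if i' = i then kap m n δ η i' j' else 0)
        = if i' = i then ∑ j', kap m n δ η i' j' else 0 := by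
      intro i'
      split_ifs
      · rfl
      · exact Finset.sum_const_zero
    rw [Finset.sum_congr rfl fun i' _ => h1 i', Finset.sum_ite_eq', if_pos (mem_univ _)]
    unfold kap
    rw [← Finset.sum_div, Finset.sum_sub_distrib, ← Finset.sum_div (f := δ), hs1,
      Finset.sum_const, card_univ, Fintype.card_fin, nsmul_eq_mul]
    push_cast
    field_simp
    ring

end Pool.LH
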