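import Pool.Agent.Work.MP_7453a1_lh.Interface
import Pool.Agent.Work.MP_7453a1_lg.B_CST
import Pool.Agent.Work.MP_7453a1_lg.B_PAT

set_option autoImplicit false

/-!
# Block MPC: the state after a step of the main part
-/

namespace Pool.LH

open Finset Real
open Pool.LG (Pt Mat ev xv Fr Sg Dm pP pQ DD HH th LL TT xt rho ro co Ax Bx Wx Phi At Bt IsB)

/-! ### The recursions -/

theorem MPC_Axn (m n τ : ℕ) (l : Fin (m + 1)) (h : l ≠ co m n τ) :
    Ax m n (τ + 1) l = Ax m n τ l :=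
  Function.update_of_ne h _ _

theorem MPC_Axi (m n τ : ℕ) :
    Ax m n (τ + 1) (co m n τ) = Ax m n τ (co m n τ) + rho m n τ :=
  Function.update_self _ _ _

theorem MPC_Bxn (m n τ : ℕ) (k : Fin (n + 1)) (h : k ≠ ro n τ) :
    Bx m n (τ + 1) k = Bx m n τ k :=
  Function.update_of_ne h _ _

theorem MPC_Bxi (m n τ : ℕ) :
    Bx m n (τ + 1) (ro n τ) = Bx m n τ (ro n τ) + rho m n τ :=
  Function.update_self _ _ _

theorem MPC_Wxn (m n τ : ℕ) (k : Fin (n + 1)) (h : k ≠ ro n τ) :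
    Wx m n (τ + 1) k = Wx m n τ k :=
  Function.update_of_ne h _ _

theorem MPC_Wxi (m n τ : ℕ) : Wx m n (τ + 1) (ro n τ) = Ax m n τ (co m n τ) :=
  Function.update_self _ _ _

theorem MPC_Kxn (m n τ : ℕ) (δ : Fin (m + 1) → ℝ) (η : Fin (n + 1) → ℝ) (l : Fin (m + 1))
    (h : l ≠ co m n τ) : Kx m n δ η (τ + 1) l = Kx m n δ η τ l := by
  show (if xt m n τ then
      Function.update (Kx m n δ η τ) (co m n τ)
        (Kx m n δ η τ (co m n τ) + kap m n δ η (ro n τ) (co m n τ))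
      else Kx m n δ η τ) l = _
  by_cases hx : xt m n τ
  · rw [if_pos hx, Function.update_of_ne h]
  · rw [if_neg hx]

theorem MPC_Ken (m n τ : ℕ) (δ : Fin (m + 1) → ℝ) (η : Fin (n + 1) → ℝ) (k : Fin (n + 1))
    (h : k ≠ ro n τ) : Ke m n δ η (τ + 1) k = Ke m n δ η τ k := by
  show (if xt m n τ then
      Function.update (Ke m n δ η τ) (ro n τ)
        (Ke m n δ η τ (ro n τ) + kap m n δ η (ro n τ) (co m n τ))
      else Ke m n δ η τ) k = _
  by_cases hx : xt m n τ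
  · rw [if_pos hx, Function.update_of_ne h]
  · rw [if_neg hx]

theorem MPC_KK (m n τ : ℕ) (δ : Fin (m + 1) → ℝ) (η : Fin (n + 1) → ℝ) :
    Ke m n δ η (τ + 1) (ro n τ) - Ke m n δ η τ (ro n τ) =
      Kx m n δ η (τ + 1) (co m n τ) - Kx m n δ η τ (co m n τ) := by
  show (if xt m n τ then
      Function.update (Ke m n δ η τ) (ro n τ)
        (Ke m n δ η τ (ro n τ) + kap m n δ η (ro n τ) (co m n τ))
      else Ke m n δ η τ) (ro n τ) - Ke m n δ η τ (ro n τ) =
    (if xt m n τ then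
      Function.update (Kx m n δ η τ) (co m n τ)
        (Kx m n δ η τ (co m n τ) + kap m n δ η (ro n τ) (co m n τ))
      else Kx m n δ η τ) (co m n τ) - Kx m n δ η τ (co m n τ)
  by_cases hx : xt m n τ
  · rw [if_pos hx, if_pos hx, Function.update_self, Function.update_self]
    ring
  · rw [if_neg hx, if_neg hx]
    ring

theorem MPC_LL (m n : ℕ) : m + 1 ≤ LL m n := by
  unfold LL
  exact Nat.le_mul_of_pos_right _ (Nat.succ_pos n)

theorem MPC_ro (m n : ℕ) (k : Fin (n + 1)) (τ : ℕ) (h : LL m n + (k : ℕ) = τ) : k = ro n τ := by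
  apply Fin.ext
  show (k : ℕ) = τ % (n + 1)
  rw [← h]
  unfold LL
  rw [Nat.mul_add_mod', Nat.mod_eq_of_lt k.2]

/-! ### Numbers -/

theorem MPC_small (m n : ℕ) (h2 : Stmt_CSB) :
    fB m n ≤ 1 / (20 * 3 ^ m) ∧ fB m n ≤ 1 / 100 ∧ 0 < fB m n ∧ 0 < DD m n ∧ 0 < HB m n ∧
      0 < LB m n ∧ 0 < EB m n := by
  obtain ⟨c1, c2, c3, c4, c5, c6, c7, c8, c9, c10, c11, c12, c13, c14, c15, c16, c17, c18, c19,
    c20, c21, c22, c23, c24, c25, c26, c27⟩ := h2 m n
  obtain ⟨d1, d2, d3, d4, d5, d6, d7, d8, d9, d10, d11, d12, d13, d14, d15, d16, d17⟩ :=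
    Pool.LG.p_CST m n
  have hm : (1 : ℝ) ≤ 3 ^ m := one_le_pow₀ (by norm_num)
  have e2 : (1 : ℝ) / (18000 * 3 ^ m) ≤ 1 / (20 * 3 ^ m) :=
    one_div_le_one_div_of_le (by positivity) (by linarith)
  have e4 : (1 : ℝ) / (18000 * 3 ^ m) ≤ 1 / 100 :=
    one_div_le_one_div_of_le (by positivity) (by linarith)
  have e5 : qq m n * th m n ≤ 1 * th m n := mul_le_mul_of_nonneg_right c17 d7.le
  have e6 : fB m n ≤ th m n := by linarith
  exact ⟨by linarith, by linarith, c13, by linarith, by linarith, by linarith, by linarith⟩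

theorem MPC_z3 (m n : ℕ) (h2 : Stmt_CSB) (z Z : ℝ) (τ : ℕ) (hτ : τ ≤ TT m n)
    (tx : Fin (m + 1) → ℝ) (te : Fin (n + 1) → ℝ) (g2 : ∀ j, 0 ≤ tx j)
    (g3 : ∀ i, 0 ≤ te i) (hZ : Z ≤ 29 / 10)
    (h : z + 4 * ∑ j, tx j + 4 * ∑ i, te i ≤ Z + 60 * DD m n / HB m n * τ) :
    z ≤ 3 := by
  obtain ⟨f1, f3, f4, hD, hH, hΛ, hE⟩ := MPC_small m n h2
  obtain ⟨c1, c2, c3, c4, c5, c6, c7, c8, c9, c10, c11, c12, c13, c14, c15, c16, c17, c18, c19,
    c20, c21, c22, c23, c24, c25, c26, c27⟩ := h2 m n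
  have s2 : 0 ≤ ∑ j, tx j := Finset.sum_nonneg fun j _ => g2 j
  have s3 : 0 ≤ ∑ i, te i := Finset.sum_nonneg fun i _ => g3 i
  have s4 : 60 * DD m n / HB m n * (τ : ℝ) ≤ 60 * DD m n / HB m n * (TT m n : ℝ) :=
    mul_le_mul_of_nonneg_left (by exact_mod_cast hτ) (by positivity)
  linarith

theorem p_MPC (h1 : Stmt_PTG) (h2 : Stmt_CSB) (h3 : Stmt_BNG) : Stmt_MPC := by
  intro m n Θ₀ X ε δ tx0 η te0 Z τ F Θ S tx s W te z hP hτ hPh F' Θ' S1 a ν tx' te'
    hS1e hsta hfi hfk hvl hmv hν hpot htx' hte'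
  obtain ⟨f1, f3, f4, hD, hH, hΛ, hE⟩ := MPC_small m n h2
  obtain ⟨c1, c2, c3, c4, c5, c6, c7, c8, c9, c10, c11, c12, c13, c14, c15, c16, c17, c18, c19,
    c20, c21, c22, c23, c24, c25, c26, c27⟩ := h2 m n
  have hX := hP.Xp
  have hε := hP.ep
  have hS1 : 0 < S1 := by
    have := hsta.Sp (co m n τ)
    rwa [Function.update_self] at this
  have ha : 0 < a := by
    have := hsta.sp (ro n τ)
    rwa [Function.update_self] at this
  have hSj : 0 < S (co m n τ) := hPh.sta.Sp _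
  have hsi : 0 < s (ro n τ) := hPh.sta.sp _
  have hν0 : 0 ≤ ν := (abs_nonneg _).trans hν
  have hpot' : (z + ν) + 4 * ∑ j, tx' j + 4 * ∑ i, te' i ≤
      Z + 60 * DD m n / HB m n * ((τ + 1 : ℕ) : ℝ) := by
    rw [Nat.cast_add, Nat.cast_one]
    exact hpot
  have hz : z ≤ 3 := MPC_z3 m n h2 z Z τ hτ.le tx te
    (fun j => (hPh.btx j).1) (fun i => (hPh.bte i).1) hP.Zle hPh.pot
  have hz' : z + ν ≤ 3 := MPC_z3 m n h2 (z + ν) Z (τ + 1) hτ tx' te'
    (fun j => (htx' j).1) (fun i => (hte' i).1) hP.Zle hpot'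
  obtain ⟨b1, b2⟩ := h3 m n δ η τ hP.del hP.eta hτ.le
  obtain ⟨b3, b4⟩ := h3 m n δ η (τ + 1) hP.del hP.eta hτ
  have hbS : X * (1 / EB m n) * LB m n ^ Ax m n τ (co m n τ) ≤ S (co m n τ) ∧
      S (co m n τ) ≤ X * EB m n * LB m n ^ Ax m n τ (co m n τ) := by
    rw [hPh.sS]
    obtain ⟨t1, t2⟩ := b1 (co m n τ)
    have t3 : 0 ≤ X * LB m n ^ Ax m n τ (co m n τ) := by positivity
    have t4 := mul_le_mul_of_nonneg_left t1 t3
    have t5 := mul_le_mul_of_nonneg_left t2 t3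
    constructor <;> nlinarith [t4, t5]
  obtain ⟨bS1, bS2⟩ := hbS
  obtain ⟨bs1, bs2⟩ := b2 ε (s (ro n τ)) z (ro n τ) hε hsi hz (hPh.ss _)
  have bT1 : X * (1 / EB m n) * LB m n ^ Ax m n (τ + 1) (co m n τ) ≤ S1 := by
    rw [hS1e]
    have t3 : 0 ≤ X * LB m n ^ Ax m n (τ + 1) (co m n τ) := by positivity
    have t4 := mul_le_mul_of_nonneg_left (b3 (co m n τ)).1 t3
    nlinarith [t4]
  -- the logarithm of the quotient of the sizes
  have hlog : log (S1 / S (co m n τ)) = rho m n τ * log (LB m n) +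
      (Kx m n δ η (τ + 1) (co m n τ) - Kx m n δ η τ (co m n τ)) := by
    rw [Real.log_div hS1.ne' hSj.ne', hS1e, hPh.sS (co m n τ),
      Real.log_mul (mul_pos hX (pow_pos hΛ _)).ne' (Real.exp_ne_zero _),
      Real.log_mul (mul_pos hX (pow_pos hΛ _)).ne' (Real.exp_ne_zero _),
      Real.log_mul hX.ne' (pow_pos hΛ _).ne', Real.log_mul hX.ne' (pow_pos hΛ _).ne',
      Real.log_pow, Real.log_pow, Real.log_exp, Real.log_exp, MPC_Axi]
    push_cast
    ring
  -- the new error size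
  have hssi : |log (a / ε) + (Bx m n (τ + 1) (ro n τ) : ℝ) * log (LB m n) -
      (η (ro n τ) - Ke m n δ η (τ + 1) (ro n τ))| ≤ z + ν := by
    have e1 : log (a / ε) + (Bx m n (τ + 1) (ro n τ) : ℝ) * log (LB m n) -
        (η (ro n τ) - Ke m n δ η (τ + 1) (ro n τ)) =
      (log (s (ro n τ) / ε) + (Bx m n τ (ro n τ) : ℝ) * log (LB m n) -
        (η (ro n τ) - Ke m n δ η τ (ro n τ))) +
      log (a * S1 / (s (ro n τ) * S (co m n τ))) -
      (log (S1 / S (co m n τ)) - rho m n τ * log (LB m n) -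
        (Kx m n δ η (τ + 1) (co m n τ) - Kx m n δ η τ (co m n τ))) := by
      rw [MPC_Bxi, ← MPC_KK, Real.log_div ha.ne' hε.ne', Real.log_div hsi.ne' hε.ne',
        Real.log_div (mul_pos ha hS1).ne' (mul_pos hsi hSj).ne', Real.log_div hS1.ne' hSj.ne',
        Real.log_mul ha.ne' hS1.ne', Real.log_mul hsi.ne' hSj.ne']
      push_cast
      ring
    rw [e1, hlog]
    have t1 := abs_le.1 (hPh.ss (ro n τ))
    have t2 := abs_le.1 hν
    rw [abs_le]
    constructor <;> linarith [t1.1, t1.2, t2.1, t2.2]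
  obtain ⟨bA1, bA2⟩ := b4 ε a (z + ν) (ro n τ) hε ha hz' hssi
  -- the movement
  have hmu : 5 * s (ro n τ) / S1 ≤
      5 * EB m n ^ 2 * (ε / X) * (1 / LB m n) ^ Phi m n τ := by
    have e2 : EB m n ^ 2 * (1 / EB m n) = EB m n := by
      field_simp
    have e3 : (1 / LB m n) ^ Phi m n τ * LB m n ^ Ax m n (τ + 1) (co m n τ) =
        (1 / LB m n) ^ Bx m n τ (ro n τ) := by
      unfold Phi
      rw [pow_add, mul_right_comm, ← mul_pow, one_div_mul_cancel hΛ.ne', one_pow, one_mul]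
    have e4 : ε / X * X = ε := div_mul_cancel₀ _ hX.ne'
    rw [div_le_iff₀ hS1]
    calc 5 * s (ro n τ) ≤ 5 * (ε * EB m n * (1 / LB m n) ^ Bx m n τ (ro n τ)) := by
          linarith
      _ = 5 * (ε / X * X) * (EB m n ^ 2 * (1 / EB m n)) *
          ((1 / LB m n) ^ Phi m n τ * LB m n ^ Ax m n (τ + 1) (co m n τ)) := by
          rw [e2, e3, e4]
          ring
      _ = 5 * EB m n ^ 2 * (ε / X) * (1 / LB m n) ^ Phi m n τ *
          (X * (1 / EB m n) * LB m n ^ Ax m n (τ + 1) (co m n τ)) := by ring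
      _ ≤ _ := mul_le_mul_of_nonneg_left bT1 (by positivity)
  obtain ⟨⟨pa1, pa2, pa3, pa4, pa5, pa6, pa7, pa8⟩, -⟩ := Pool.LG.p_PAT m
  refine ⟨hsta, ?_, ?_, ?_, hpot', ?_, ?_, ?_, ?_⟩
  · -- sS
    intro l
    by_cases hl : l = co m n τ
    · rw [hl, Function.update_self]
      exact hS1e
    · rw [Function.update_of_ne hl, MPC_Axn m n τ l hl, MPC_Kxn m n τ δ η l hl]
      exact hPh.sS l
  · -- ss
    intro k
    by_cases hk : k = ro n τ
    · rw [hk, Function.update_self]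
      exact hssi
    · rw [Function.update_of_ne hk, MPC_Bxn m n τ k hk, MPC_Ken m n τ δ η k hk]
      exact (hPh.ss k).trans (by linarith)
  · -- sW
    intro k
    by_cases hk : k = ro n τ
    · rw [hk, Function.update_self, MPC_Wxi]
      linarith
    · rw [Function.update_of_ne hk, MPC_Wxn m n τ k hk]
      exact hPh.sW k
  · -- btx
    intro l
    refine ⟨(htx' l).1, ?_⟩
    rw [Nat.cast_add, Nat.cast_one]
    exact (htx' l).2
  · -- bte
    intro i
    refine ⟨(hte' i).1, ?_⟩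
    rw [Nat.cast_add, Nat.cast_one]
    exact (hte' i).2
  · -- vis
    intro k hk
    by_cases hki : k = ro n τ
    · have hLm := MPC_LL m n
      have hco := (co m n τ).2
      have e1 : F'.U k 0 = F.X (co m n τ) 0 := by
        rw [hki]
        show (((F'.f (ro n τ)).1 0 : ℤ) : ℝ) = (((F.v (co m n τ)).1 0 : ℤ) : ℝ)
        rw [hfi]
      have e2 := (abs_le.1 (hPh.sta.hx (co m n τ) 0)).1
      have e3 := pa5 (co m n τ)
      have e4 := (hPh.btx (co m n τ)).2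
      rw [if_neg (by omega)] at e4
      have e5 : (2 + 2 * DD m n * (τ : ℝ)) / HB m n ≤ (2 + 2 * DD m n * TT m n) / HB m n := by
        apply div_le_div_of_nonneg_right _ hH.le
        have h5 : (τ : ℝ) ≤ (TT m n : ℝ) := by exact_mod_cast hτ.le
        have h6 := mul_le_mul_of_nonneg_left h5 hD.le
        linarith
      have e6 : tx (co m n τ) ≤ 1 / (20 * 3 ^ m) := by linarith
      have h3m : (0 : ℝ) < 3 ^ m := by positivity
      have e7 : (1 : ℝ) / (10 * 3 ^ m) = 2 * (1 / (20 * 3 ^ m)) := by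
        field_simp
        norm_num
      rw [e7] at e3
      have e8 := mul_le_mul_of_nonneg_left e3 hSj.le
      have e9 := mul_le_mul_of_nonneg_right e6 hSj.le
      have e10 : 1 / (20 * 3 ^ m) * S (co m n τ) ≤ F.X (co m n τ) 0 := by linarith
      rw [e1, hki, MPC_Wxi]
      exact (mul_le_mul_of_nonneg_left bS1 (by positivity)).trans e10
    · have hne : LL m n + (k : ℕ) ≠ τ := fun h => hki (MPC_ro m n k τ h)
      have e1 : F'.U k 0 = F.U k 0 := by
        show (((F'.f k).1 0 : ℤ) : ℝ) = (((F.f k).1 0 : ℤ) : ℝ)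
        rw [hfk k hki]
      rw [e1, MPC_Wxn m n τ k hki]
      exact hPh.vis k (by omega)
  · -- mov
    intro w R hw p
    have hR : 0 ≤ R := (abs_nonneg _).trans (hw 0)
    have g1 := hmv w R hw p
    have g2 := hPh.mov w R hw p
    have g3 := mul_le_mul_of_nonneg_right hmu hR
    have g4 := abs_sub_le (ev Θ' w p) (ev Θ w p) (ev Θ₀ w p)
    rw [Finset.sum_range_succ, mul_add]
    linarith

end Pool.LH
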