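import Pool.Agent.Work.MP_7453a1_lh.Interface

set_option autoImplicit false

/-!
# Block MPT: the steps of the main part of a stage
-/

namespace Pool.LH

open Finset Real
open Pool.LG (Pt Mat ev xv Fr Sg Dm pP pQ DD HH th LL TT xt rho ro co Ax Bx Wx Phi At Bt IsB)

theorem MPT_zero (m n : ℕ) (hH : 0 < HB m n) (F₀ : Fr m n) (Θ₀ : Mat m n) (X ε : ℝ)
    (δ tx0 : Fin (m + 1) → ℝ) (η te0 W : Fin (n + 1) → ℝ) (Z : ℝ) (h : MPar m n X ε δ tx0 η te0 Z)
    (hs : Sta m n (pP m) (pR n (qq m n)) F₀ Θ₀ (fun j => X * exp (δ j)) tx0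
      (fun i => ε * exp (η i)) W te0)
    (hW : ∀ k, W k ≤ 3 / 2 * (X * EB m n)) (hZ : 4 * ∑ j, tx0 j + 4 * ∑ i, te0 i ≤ Z) :
    Mp m n Θ₀ X ε δ tx0 η te0 Z 0 F₀ Θ₀ (fun j => X * exp (δ j)) tx0
      (fun i => ε * exp (η i)) W te0 0 where
  sta := hs
  sS := by
    intro j
    simp [Ax, Kx]
  ss := by
    intro i
    have h1 : log (ε * exp (η i) / ε) = η i := by
      rw [mul_div_right_comm, div_self h.ep.ne', one_mul, Real.log_exp]
    simp only [Bx, Ke, h1]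
    simp
  sW := by
    intro k
    have h1 := hW k
    simpa [Wx] using h1
  pot := by
    simp only [Nat.cast_zero, mul_zero, add_zero, zero_add]
    exact hZ
  btx := by
    intro j
    refine ⟨h.txp j, ?_⟩
    rw [if_pos (Nat.zero_le _)]
    have : 0 ≤ (2 + 2 * DD m n * ((0 : ℕ) : ℝ)) / HB m n := by
      apply div_nonneg _ hH.le
      simp
    linarith
  bte := by
    intro i
    refine ⟨h.tep i, ?_⟩
    rw [if_pos (Nat.zero_le _)]
    have : 0 ≤ (10 + 5 * ((0 : ℕ) : ℝ)) / HB m n := by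
      apply div_nonneg _ hH.le
      simp
    linarith
  vis := fun k hk => absurd hk (Nat.not_lt_zero _)
  mov := by
    intro w R _ p
    simp

theorem p_MPT (hCSB : Stmt_CSB) (hMPX : Stmt_MPX) (hMPE : Stmt_MPE) : Stmt_MPT := by
  intro m n F₀ Θ₀ X ε δ tx0 η te0 W Z hpar hs hW hZ
  have hH : 0 < HB m n := by
    obtain ⟨_, h1, _, h2, _⟩ := hCSB m n
    linarith
  have key : ∀ τ : ℕ, τ ≤ TT m n → ∃ (F : Fr m n) (Θ : Mat m n) (S tx : Fin (m + 1) → ℝ)
      (s W' te : Fin (n + 1) → ℝ) (z : ℝ), Mp m n Θ₀ X ε δ tx0 η te0 Z τ F Θ S tx s W' te z := by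
    intro τ
    induction τ with
    | zero =>
      intro _
      exact ⟨F₀, Θ₀, _, tx0, _, W, te0, 0,
        MPT_zero m n hH F₀ Θ₀ X ε δ tx0 η te0 W Z hpar hs hW hZ⟩
    | succ τ ih =>
      intro hτ
      obtain ⟨F, Θ, S, tx, s, W', te, z, hMp⟩ := ih (by omega)
      by_cases hx : xt m n τ
      · exact hMPX m n Θ₀ X ε δ tx0 η te0 Z τ F Θ S tx s W' te z hpar (by omega) hx hMp
      · exact hMPE m n Θ₀ X ε δ tx0 η te0 Z τ F Θ S tx s W' te z hpar (by omega) hx hMp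
  exact key (TT m n) le_rfl

end Pool.LH
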