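import Pool.Agent.Work.MP_7453a1_lh.Interface
import Pool.Agent.Work.MP_7453a1_lg.All

set_option autoImplicit false

namespace Pool.LH

open Finset Real
open Pool.LG (Pt Mat ev xv Fr Sg Dm pP pQ DD HH th LL TT xt rho ro co Ax Bx Wx Phi At Bt IsB
  PHX_pow PHX_col PHX_row)

/-- one power of `Λ` beats `H` and the deviations -/
theorem MPX_a {H e l X c : ℝ} (hH : 0 < H) (he : 1 ≤ e) (hl : 1 ≤ l) (hL : H * (2 * e ^ 4) ≤ l) (hX : 0 < X)
    (hc : c ≤ 3 / 2) {w A : ℕ} (h : w < A) : H * (c * (X * e * l ^ w)) ≤ X * (1 / e) * l ^ A := by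
  have h1 := PHX_pow hl h
  have hw : 0 < l ^ w := by positivity
  have he0 : 0 < e := by linarith
  have h2 : X * (1 / e) * (H * (2 * e ^ 4) * l ^ w) ≤ X * (1 / e) * l ^ A :=
    mul_le_mul_of_nonneg_left ((mul_le_mul_of_nonneg_right hL hw.le).trans h1) (by positivity)
  refine le_trans ?_ h2
  have e1 : X * (1 / e) * (H * (2 * e ^ 4) * l ^ w) = (2 * H * X * l ^ w) * e ^ 3 := by
    field_simp
  rw [e1]
  have e2 : e ≤ e ^ 3 := le_self_pow₀ he (by norm_num)
  have h3 : H * (c * (X * e * l ^ w)) = c * (H * X * l ^ w) * e := by ring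
  rw [h3]
  have h4 : c * (H * X * l ^ w) ≤ 2 * H * X * l ^ w := by
    have : 0 < H * X * l ^ w := by positivity
    nlinarith
  calc c * (H * X * l ^ w) * e ≤ 2 * H * X * l ^ w * e := mul_le_mul_of_nonneg_right h4 he0.le
    _ ≤ 2 * H * X * l ^ w * e ^ 3 := mul_le_mul_of_nonneg_left e2 (by positivity)

theorem MPX_b {H e l X ε : ℝ} (hH : 0 < H) (he : 1 ≤ e) (hl : 1 ≤ l) (hL : H * (2 * e ^ 4) ≤ l) (hX : 0 < X)
    (hε : 0 < ε) {w b b' A : ℕ} (h : w + b' < A + b) :
    H * (3 / 2 * (X * e * l ^ w) * (ε * e * (1 / l) ^ b)) ≤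
      X * (1 / e) * l ^ A * (ε * (1 / e) * (1 / l) ^ b') := by
  have h1 := PHX_pow hl h
  have he0 : 0 < e := by linarith
  have hl0 : 0 < l := by linarith
  have hp : 0 < l ^ (w + b') := by positivity
  have h2 : 3 / 2 * H * e ^ 4 * l ^ (w + b') ≤ l ^ (A + b) := by
    refine le_trans ?_ h1
    have h3 : H * (2 * e ^ 4) * l ^ (w + b') ≤ l * l ^ (w + b') := mul_le_mul_of_nonneg_right hL hp.le
    have : 0 < H * e ^ 4 * l ^ (w + b') := by positivity
    nlinarith
  have e1 : H * (3 / 2 * (X * e * l ^ w) * (ε * e * (1 / l) ^ b)) =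
      (X * ε / (e ^ 2 * l ^ b * l ^ b')) * (3 / 2 * H * e ^ 4 * l ^ (w + b')) := by
    rw [one_div, inv_pow, pow_add]
    field_simp
  have e2 : X * (1 / e) * l ^ A * (ε * (1 / e) * (1 / l) ^ b') =
      (X * ε / (e ^ 2 * l ^ b * l ^ b')) * l ^ (A + b) := by
    rw [one_div, one_div, inv_pow, pow_add]
    field_simp
  rw [e1, e2]
  exact mul_le_mul_of_nonneg_left h2 (by positivity)

theorem p_MPX (hPTG : Stmt_PTG) (hCSB : Stmt_CSB) (hSXG : Stmt_SXG) (hBNG : Stmt_BNG) (hMPC : Stmt_MPC) :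
    Stmt_MPX := by
  intro m n Θ₀ X ε δ tx0 η te0 Z τ F Θ S tx s W te z hP hτ hx hF
  obtain ⟨c1, c2, c3, c4, c5, c6, c7, c8, c9, c10, c11, c12, c13, c14, c15, c16, c17, c18, c19, c20, c21,
    c22, -⟩ := hCSB m n
  obtain ⟨s1, s2, s3, s4, -⟩ := Pool.LG.q_SCH m n
  obtain ⟨p1, p2, -⟩ := hPTG m n (qq m n) c15 c17
  set D := DD m n with hD
  set H := HB m n with hH
  set E := EB m n with hE
  set l := LB m n with hl
  set i := ro n τ with hi
  set j := co m n τ with hj
  have hH0 : 0 < H := by linarith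
  have hl1 : 1 ≤ l := by linarith
  have hl0 : 0 < l := by linarith
  have hE0 : 0 < E := by linarith
  have hτ' : (τ : ℝ) ≤ TT m n := by exact_mod_cast hτ.le
  have hτ0 : (0 : ℝ) ≤ τ := Nat.cast_nonneg τ
  have hD0 : 0 < D := by linarith
  have hth0 : 0 < th m n := by
    unfold th
    rw [← hD]
    positivity
  have hth : D * th m n ≤ 1 / 1000 := by
    have h3 : (1 : ℝ) ≤ 3 ^ (m + n + 2) := one_le_pow₀ (by norm_num)
    unfold th
    rw [← hD, mul_one_div, div_le_div_iff₀ (by positivity) (by norm_num)]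
    nlinarith
  have hft : D * fB m n ≤ 1 / 1000 := by
    have h1 : qq m n * th m n ≤ th m n := mul_le_of_le_one_left hth0.le c17
    have h2 : fB m n ≤ th m n := by linarith
    have h3 : D * fB m n ≤ D * th m n := mul_le_mul_of_nonneg_left h2 hD0.le
    linarith
  have hft1 : fB m n ≤ 1 / 1000 := by nlinarith
  have ha1 : (2 + 2 * D * τ) / H ≤ fB m n := by
    refine le_trans ?_ c10
    apply div_le_div_of_nonneg_right _ hH0.le
    nlinarith
  have ha2 : (10 + 5 * (τ : ℝ)) / H ≤ fB m n := by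
    refine le_trans ?_ c11
    apply div_le_div_of_nonneg_right _ hH0.le
    linarith
  have ha3 : 60 * D / H * τ ≤ fB m n := by
    refine le_trans ?_ c12
    apply mul_le_mul_of_nonneg_left hτ' (by positivity)
  -- sums
  have hm1 : ((m : ℝ) + 1) ≤ D := by
    rw [hD, DD]
    have : (0 : ℝ) ≤ n := Nat.cast_nonneg n
    linarith
  have htx : ∀ k, tx k ≤ tx0 k + fB m n := by
    intro k
    refine (hF.btx k).2.trans ?_
    have := hP.txp k
    split_ifs <;> linarith
  have hstx : ∑ k, tx k ≤ 9 / 100 := by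
    have h1 : ∑ k, tx k ≤ ∑ k : Fin (m + 1), (tx0 k + fB m n) := Finset.sum_le_sum fun k _ => htx k
    rw [Finset.sum_add_distrib, Finset.sum_const, Finset.card_univ, Fintype.card_fin, nsmul_eq_mul] at h1
    push_cast at h1
    have h2 : ((m : ℝ) + 1) * fB m n ≤ D * fB m n := mul_le_mul_of_nonneg_right hm1 c13.le
    have := hP.stx
    linarith
  have hte0 : ∀ k, te0 k ≤ 51 / 100 := by
    intro k
    by_cases hk : k = 0
    · rw [hk]
      exact hP.tez
    · have h1 : te0 k ≤ ∑ i ∈ univ.erase 0, te0 i :=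
        Finset.single_le_sum (f := te0) (fun i _ => hP.tep i) (Finset.mem_erase.2 ⟨hk, Finset.mem_univ k⟩)
      have := hP.ste
      linarith
  have hte : te i ≤ 13 / 25 := by
    refine (hF.bte i).2.trans ?_
    have h1 := hte0 i
    split_ifs <;> linarith
  -- nonnegative sums
  have n2 : 0 ≤ ∑ k, tx k := Finset.sum_nonneg fun k _ => (hF.btx k).1
  have n3 : 0 ≤ ∑ k, te k := Finset.sum_nonneg fun k _ => (hF.bte k).1
  have hpot := hF.pot
  rw [← hD, ← hH] at hpot
  have hZ := hP.Zle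
  have hz : z ≤ 3 := by linarith
  -- new size
  set A := Ax m n (τ + 1) j with hA
  set K := Kx m n δ η (τ + 1) j with hK
  have hXp := hP.Xp
  have hεp := hP.ep
  obtain ⟨S', hS'⟩ : ∃ S' : ℝ, S' = X * l ^ A * exp (δ j + K) := ⟨_, rfl⟩
  have hS'p : 0 < S' := by
    rw [hS']
    positivity
  obtain ⟨b1, -⟩ := hBNG m n δ η (τ + 1) hP.del hP.eta hτ
  have hSlow : X * (1 / E) * l ^ A ≤ S' := by
    have h1 := (b1 j).1
    rw [← hE, ← hK] at h1
    have h2 : X * l ^ A * (1 / E) ≤ X * l ^ A * exp (δ j + K) :=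
      mul_le_mul_of_nonneg_left h1 (by positivity)
    rw [hS']
    linarith
  obtain ⟨b2, b3⟩ := hBNG m n δ η τ hP.del hP.eta hτ.le
  have hSup : ∀ k, S k ≤ X * E * l ^ Ax m n τ k := by
    intro k
    have h1 := (b2 k).2
    rw [← hE] at h1
    have h2 : X * l ^ Ax m n τ k * exp (δ k + Kx m n δ η τ k) ≤ X * l ^ Ax m n τ k * E :=
      mul_le_mul_of_nonneg_left h1 (by positivity)
    rw [hF.sS k, ← hl]
    linarith
  have hsb : ∀ k, ε * (1 / E) * (1 / l) ^ Bx m n τ k ≤ s k ∧ s k ≤ ε * E * (1 / l) ^ Bx m n τ k :=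
    fun k => b3 ε (s k) z k hεp (hF.sta.sp k) hz (hF.ss k)
  have hW0 : ∀ k, 0 ≤ W k := fun k => (abs_nonneg _).trans (hF.sta.hw k 0)
  have hX1 : ∀ k, H * S k ≤ S' := by
    intro k
    refine le_trans ?_ hSlow
    refine le_trans (mul_le_mul_of_nonneg_left (hSup k) hH0.le) ?_
    have := MPX_a (c := 1) hH0 c20 hl1 c19 hXp (by norm_num) (s1 τ k hx)
    rwa [one_mul] at this
  have hX2 : ∀ k, k ≠ i → H * (W k * s i) ≤ S' * s k := by
    intro k _
    have h3 := s3 τ k
    unfold Phi at h3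
    have h4 := MPX_b hH0 c20 hl1 c19 hXp hεp h3
    refine le_trans ?_ (le_trans h4 ?_)
    · apply mul_le_mul_of_nonneg_left _ hH0.le
      exact mul_le_mul (hF.sW k) (hsb i).2 (hF.sta.sp i).le (by positivity)
    · exact mul_le_mul hSlow (hsb k).1 (by positivity) hS'p.le
  have hX3 : H * W i ≤ S' := by
    refine le_trans ?_ hSlow
    refine le_trans (mul_le_mul_of_nonneg_left (hF.sW i) hH0.le) ?_
    exact MPX_a hH0 c20 hl1 c19 hXp le_rfl (s4 τ)
  obtain ⟨F', Θ', a, t1, t2, t3, t4, t5, t6⟩ :=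
    hSXG m n (pP m) (pR n (qq m n)) p1 p2 H c4 F Θ S tx s W te hF.sta hstx i j S' hte hX1 hX2 hX3
  refine ⟨F', Θ', Function.update S j S', Function.update tx j (2 / H),
    Function.update s i a, Function.update W i (3 / 2 * S j), fun k => if k = i then te i else te k + 5 / H,
    z + (4 * tx j + 12 / H), ?_⟩
  refine hMPC m n Θ₀ X ε δ tx0 η te0 Z τ F Θ S tx s W te z hP hτ hF F' Θ' S' a (4 * tx j + 12 / H)
    (Function.update tx j (2 / H)) (fun k => if k = i then te i else te k + 5 / H)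
    hS' t1 t2 t3 t4 t6 t5 ?_ ?_ ?_
  · have e2 : ∑ k, Function.update tx j (2 / H) k = ∑ k, tx k - tx j + 2 / H := by
      rw [Finset.sum_update_of_mem (Finset.mem_univ j), Finset.sdiff_singleton_eq_erase]
      have := Finset.add_sum_erase Finset.univ tx (Finset.mem_univ j)
      linarith
    have e3 : ∑ k, (if k = i then te i else te k + 5 / H) ≤ ∑ k, te k + ((n : ℝ) + 1) * (5 / H) := by
      have h1 : ∑ k, (if k = i then te i else te k + 5 / H) ≤ ∑ k : Fin (n + 1), (te k + 5 / H) := by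
        apply Finset.sum_le_sum
        intro k _
        have : 0 < 5 / H := by positivity
        split_ifs with hk
        · rw [hk]
          linarith
        · exact le_rfl
      refine h1.trans (le_of_eq ?_)
      rw [Finset.sum_add_distrib, Finset.sum_const, Finset.card_univ, Fintype.card_fin, nsmul_eq_mul]
      push_cast
      ring
    rw [← hD, ← hH, e2]
    have hn : (0 : ℝ) ≤ n := Nat.cast_nonneg n
    have hm : (0 : ℝ) ≤ m := Nat.cast_nonneg m
    have hfin : 12 / H + 4 * (2 / H) + 4 * (((n : ℝ) + 1) * (5 / H)) ≤ 60 * D / H := by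
      rw [hD, DD]
      have : 12 / H + 4 * (2 / H) + 4 * (((n : ℝ) + 1) * (5 / H)) = (20 + 20 * ((n : ℝ) + 1)) / H := by ring
      rw [this]
      apply div_le_div_of_nonneg_right _ hH0.le
      linarith
    have : 60 * D / H * ((τ : ℝ) + 1) = 60 * D / H * τ + 60 * D / H := by ring
    rw [this]
    linarith
  · intro k
    rw [← hD, ← hH]
    by_cases hk : k = j
    · rw [hk, Function.update_self]
      refine ⟨by positivity, ?_⟩
      have h1 : 2 / H ≤ (2 + 2 * D * ((τ : ℝ) + 1)) / H := by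
        apply div_le_div_of_nonneg_right _ hH0.le
        have : 0 ≤ 2 * D * ((τ : ℝ) + 1) := by positivity
        linarith
      have h2 := hP.txp j
      split_ifs <;> linarith
    · rw [Function.update_of_ne hk]
      refine ⟨(hF.btx k).1, ?_⟩
      have h1 := (hF.btx k).2
      rw [← hD, ← hH] at h1
      have h2 : (2 + 2 * D * (τ : ℝ)) / H ≤ (2 + 2 * D * ((τ : ℝ) + 1)) / H := by
        apply div_le_div_of_nonneg_right _ hH0.le
        nlinarith
      by_cases h3 : τ + 1 ≤ (k : ℕ)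
      · rw [if_pos h3]
        rw [if_pos (by omega)] at h1
        linarith
      · rw [if_neg h3]
        have h4 : ¬ τ ≤ (k : ℕ) := by
          intro h5
          exact hk (PHX_col (by omega))
        rw [if_neg h4] at h1
        linarith
  · intro k
    rw [← hH]
    have h1 := hF.bte k
    rw [← hH] at h1
    have h5 : 0 < 5 / H := by positivity
    have h2 : (if k = i then te i else te k + 5 / H) ≤ te k + 5 / H := by
      split_ifs with hk
      · rw [hk]
        linarith
      · exact le_rfl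
    have h3 : 0 ≤ (if k = i then te i else te k + 5 / H) := by
      split_ifs with hk
      · exact (hF.bte i).1
      · linarith [h1.1]
    refine ⟨h3, h2.trans ?_⟩
    have e1 : (10 + 5 * ((τ : ℝ) + 1)) / H = (10 + 5 * (τ : ℝ)) / H + 5 / H := by ring
    rw [e1]
    have h6 := PHX_row hx k
    by_cases h7 : τ + 1 ≤ LL m n + (k : ℕ)
    · rw [if_pos h7]
      rw [if_pos (by omega)] at h1
      linarith [h1.2]
    · rw [if_neg h7]
      rw [if_neg (by omega)] at h1
      linarith [h1.2]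

end Pool.LH
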