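import Pool.Agent.Work.MP_7453a1_lh.Interface
import Pool.Agent.Work.MP_7453a1_lg.B_SCH
import Pool.Agent.Work.MP_7453a1_lg.B_LNK
import Pool.Agent.Work.MP_7453a1_lg.B_UMO

set_option autoImplicit false

/-! # Block MST: the main part of a stage (helper33, after B_STG of helper4) -/

namespace Pool.LH

open Finset Real
open Pool.LG (Pt Mat ev xv Fr Sg Dm pP pQ DD HH th LL TT xt rho ro co Ax Bx Wx Phi At Bt IsB)

theorem MST_geom {x : ℝ} (hx0 : 0 ≤ x) (hx : x ≤ 1 / 2) (N : ℕ) :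
    ∑ t ∈ range N, x ^ t ≤ 2 - 2 * (1 / 2 : ℝ) ^ N := by
  induction N with
  | zero => simp
  | succ N ih =>
    rw [sum_range_succ]
    have h1 : x ^ N ≤ (1 / 2 : ℝ) ^ N := pow_le_pow_left₀ hx0 hx N
    have h2 : (1 / 2 : ℝ) ^ (N + 1) = (1 / 2 : ℝ) ^ N * (1 / 2) := pow_succ _ _
    rw [h2]
    linarith

/-- sums over a strictly increasing sequence of exponents -/
theorem MST_sum {x : ℝ} (hx0 : 0 < x) (hx : x ≤ 1 / 2) (P : ℕ → ℕ) (hP : ∀ t, P t < P (t + 1))
    (N : ℕ) : ∑ t ∈ range N, x ^ P t ≤ 2 * x ^ P 0 := by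
  have h1 : ∀ t, P 0 + t ≤ P t := by
    intro t
    induction t with
    | zero => exact le_rfl
    | succ t ih =>
      have := hP t
      omega
  have h2 : ∑ t ∈ range N, x ^ P t ≤ ∑ t ∈ range N, x ^ P 0 * x ^ t := by
    refine sum_le_sum fun t _ => ?_
    rw [← pow_add]
    exact pow_le_pow_of_le_one hx0.le (by linarith) (h1 t)
  refine h2.trans ?_
  rw [← mul_sum]
  have h3 := MST_geom hx0.le hx N
  have h4 : (0 : ℝ) < (1 / 2 : ℝ) ^ N := by positivity
  have h5 : 0 < x ^ P 0 := by positivity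
  nlinarith

theorem MST_T (m n : ℕ) : m < TT m n ∧ ∀ k : ℕ, k ≤ n → LL m n + k < TT m n := by
  have h1 : TT m n = 2 * (m + 1) * ((m + 1) * (n + 1)) := rfl
  have h2 : LL m n = (m + 1) * (n + 1) := rfl
  have h3 : (m + 1) * (n + 1) ≤ (m + 1) * ((m + 1) * (n + 1)) := Nat.le_mul_of_pos_left _ m.succ_pos
  have h4 : n + 1 ≤ (m + 1) * (n + 1) := Nat.le_mul_of_pos_left _ m.succ_pos
  have h5 : m + 1 ≤ (m + 1) * (n + 1) := Nat.le_mul_of_pos_right _ n.succ_pos
  have h6 : TT m n = 2 * ((m + 1) * ((m + 1) * (n + 1))) := by rw [h1]; ring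
  refine ⟨by omega, fun k hk => ?_⟩
  omega

theorem MST_th (m n : ℕ) : 0 < th m n ∧ th m n ≤ 1 := by
  have h1 : (0 : ℝ) ≤ (m : ℝ) := Nat.cast_nonneg m
  have h2 : (0 : ℝ) ≤ (n : ℝ) := Nat.cast_nonneg n
  have h3 : (2 : ℝ) ≤ DD m n := by unfold DD; linarith
  have h4 : (1 : ℝ) ≤ 3 ^ (m + n + 2) := one_le_pow₀ (by norm_num)
  have h5 : (1 : ℝ) ≤ 1000 * DD m n * 3 ^ (m + n + 2) := by nlinarith
  unfold th
  refine ⟨by positivity, ?_⟩
  rw [div_le_one (by positivity)]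
  exact h5

theorem p_MST (hCSB : Stmt_CSB) (hKTG : Stmt_KTG) (hMPT : Stmt_MPT) : Stmt_MST := by
  intro m n F₀ Θ₀ X ε δ tx0 η te0 W Z hpar hδ hη hsta hW hZ0
  obtain ⟨-, hD2, -, -, -, -, -, -, -, hc1, hc2, hc3, hfB, hfBq, hq0, -, hq1, -, -, hE1, hL, -, -, -, -, -, -⟩ :=
    hCSB m n
  obtain ⟨-, -, -, -, hPhi, hPhi0, -, hAT, hBT, -, -, -, -⟩ :=
    Pool.LG.p_SCH Pool.LG.p_UMO (Pool.LG.p_LNK Pool.LG.p_UMO) m n
  obtain ⟨-, -, hK⟩ := hKTG m n δ η (dB m n) hpar.del hpar.eta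
  obtain ⟨hKx, hKe⟩ := hK hδ hη
  obtain ⟨F, Θ, S', tx', s', W', te', z, P⟩ :=
    hMPT m n F₀ Θ₀ X ε δ tx0 η te0 W Z hpar hsta hW hZ0
  obtain ⟨hTm, hTL⟩ := MST_T m n
  obtain ⟨hth0, hth1⟩ := MST_th m n
  have hX := hpar.Xp
  have hε := hpar.ep
  set Λ := LB m n with hΛ
  have hΛ0 : 0 < Λ := by linarith
  set x : ℝ := 1 / Λ with hx
  have hx0 : 0 < x := by positivity
  have hx1 : x ≤ 1 / 1000 := by
    rw [hx]
    exact one_div_le_one_div_of_le (by norm_num) hL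
  have hfB1 : fB m n ≤ 1 / 1000 := by
    have h1 : qq m n * th m n ≤ 1 := mul_le_one₀ hq1 hth0.le hth1
    linarith
  have htx : ∀ j, 0 ≤ tx' j ∧ tx' j ≤ fB m n := by
    intro j
    have h1 := P.btx j
    rw [if_neg (by have := j.2; omega), zero_add] at h1
    exact ⟨h1.1, h1.2.trans hc1⟩
  have hte : ∀ i, 0 ≤ te' i ∧ te' i ≤ fB m n := by
    intro i
    have h1 := P.bte i
    rw [if_neg (by have := hTL i (Nat.lt_succ_iff.1 i.2); omega), zero_add] at h1
    exact ⟨h1.1, h1.2.trans hc2⟩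
  have hz : z ≤ Z + fB m n := by
    have h1 := P.pot
    have h3 : 0 ≤ ∑ j, tx' j := sum_nonneg fun j _ => (htx j).1
    have h4 : 0 ≤ ∑ i, te' i := sum_nonneg fun i _ => (hte i).1
    linarith
  have hS : ∀ j, S' j = X * Λ ^ At m n := by
    intro j
    have h1 := P.sS j
    rw [hAT j, hKx j, add_neg_cancel, exp_zero, mul_one] at h1
    exact h1
  set σ : Fin (n + 1) → ℝ := fun i => log (s' i / ε) + Bt m n * log Λ with hσ
  have hσz : ∀ i, |σ i| ≤ z := by
    intro i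
    have h1 := P.ss i
    rw [hBT i, hKe i, sub_self, sub_zero] at h1
    exact h1
  have hz0 : 0 ≤ z := (abs_nonneg _).trans (hσz 0)
  set μ : ℝ := (∑ i, σ i) / ((n : ℝ) + 1) with hμ
  have hn0 : (0 : ℝ) < (n : ℝ) + 1 := by positivity
  have hμz : |μ| ≤ z := by
    rw [hμ, abs_div, abs_of_pos hn0, div_le_iff₀ hn0]
    refine (abs_sum_le_sum_abs _ _).trans ?_
    refine (sum_le_sum fun i _ => hσz i).trans ?_
    rw [sum_const, card_univ, Fintype.card_fin, nsmul_eq_mul]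
    push_cast
    linarith
  set ε' : ℝ := ε * exp (μ - Bt m n * log Λ) with hε'
  have hε'0 : 0 < ε' := by positivity
  set η' : Fin (n + 1) → ℝ := fun i => σ i - μ with hη'
  have hs' : ∀ i, s' i = ε' * exp (η' i) := by
    intro i
    have h1 : 0 < s' i / ε := div_pos (P.sta.sp i) hε
    have h2 : s' i / ε = exp (σ i - Bt m n * log Λ) := by
      rw [hσ]
      simp only
      rw [add_sub_cancel_right, exp_log h1]
    have h3 : s' i = ε * exp (σ i - Bt m n * log Λ) := by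
      rw [← h2]
      field_simp
    rw [h3, hε', mul_assoc, ← exp_add, hη']
    congr 2
    ring
  have hη2 : ∀ i, |η' i| ≤ 2 * (Z + fB m n) := by
    intro i
    have h1 : |η' i| ≤ |σ i| + |μ| := abs_sub _ _
    have h2 := hσz i
    linarith
  refine ⟨F, Θ, ε', η', W', ?_, hε'0, ?_, hη2, ?_, P.sW, ?_, ?_⟩
  · refine ⟨P.sta.good, P.sta.cen, fun _ => by positivity, fun i => by positivity, ?_, ?_,
        P.sta.hw⟩
    · intro j p
      have h1 := P.sta.hx j p
      rw [hS j] at h1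
      refine h1.trans ?_
      have := (htx j).2
      gcongr
    · intro i p
      have h1 := P.sta.he i p
      rw [hs' i] at h1
      refine h1.trans ?_
      have := (hte i).2
      gcongr
  · rw [hη', sum_sub_distrib, sum_const, card_univ, Fintype.card_fin, nsmul_eq_mul, hμ]
    push_cast
    field_simp
    ring
  · have h1 : exp (μ - Bt m n * log Λ) = exp μ * x ^ Bt m n := by
      rw [exp_sub, hx, one_div, inv_pow, ← exp_log (pow_pos hΛ0 (Bt m n)), log_pow, div_eq_mul_inv]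
    have h2 : exp μ ≤ exp 3 := by
      apply exp_le_exp.2
      have := le_of_abs_le hμz
      have := hpar.Zle
      linarith
    calc ε' = ε * (exp μ * x ^ Bt m n) := by rw [hε', h1]
      _ ≤ ε * (exp 3 * x ^ Bt m n) := by gcongr
      _ = ε * exp 3 * x ^ Bt m n := by ring
  · intro k
    exact P.vis k (hTL k (Nat.lt_succ_iff.1 k.2))
  · intro w R hR p
    have hR0 : 0 ≤ R := (abs_nonneg _).trans (hR 0)
    refine (P.mov w R hR p).trans ?_
    have h1 : ∑ t ∈ range (TT m n), x ^ Phi m n t ≤ 2 * x := by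
      refine (MST_sum hx0 (by linarith) (Phi m n) hPhi (TT m n)).trans ?_
      have : x ^ Phi m n 0 ≤ x ^ 1 := pow_le_pow_of_le_one hx0.le (by linarith) hPhi0
      rw [pow_one] at this
      linarith
    have hE0 : 0 < EB m n := by linarith
    calc 5 * EB m n ^ 2 * (ε / X) * R * ∑ t ∈ range (TT m n), x ^ Phi m n t
        ≤ 5 * EB m n ^ 2 * (ε / X) * R * (2 * x) := by gcongr
      _ = 10 * EB m n ^ 2 * (ε / X) * R / Λ := by
          rw [hx]
          ring

end Pool.LH
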