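import Pool.Agent.Work.MP_7453a1_lh.Interface

set_option autoImplicit false

/-! # Block NUH: the numerical bound (MP_7453a1, sup norms, all `m, n`) -/

namespace Pool.LH

open Finset Real
open Pool.LG (Pt Mat ev xv Fr Sg Dm pP pQ DD HH th LL TT xt rho ro co Ax Bx Wx Phi At Bt IsB)

theorem NUH_e15 : (2 * 10 ^ 6 : ℝ) ≤ exp 15 := by
  have h1 : (2.7 : ℝ) ≤ exp 1 := by
    have := Real.exp_one_gt_d9
    linarith
  have h2 : exp 15 = exp 1 ^ 15 := by
    rw [← Real.exp_nat_mul]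
    norm_num
  rw [h2]
  calc (2 * 10 ^ 6 : ℝ) ≤ 2.7 ^ 15 := by norm_num
    _ ≤ exp 1 ^ 15 := pow_le_pow_left₀ (by norm_num) h1 15

theorem NUH_e54 : (3 : ℝ) ≤ exp (5 / 4) := by
  have h1 : (2.7 : ℝ) ≤ exp 1 := by
    have := Real.exp_one_gt_d9
    linarith
  have h2 : (5 / 4 : ℝ) ≤ exp (1 / 4) := by
    have := Real.add_one_le_exp (1 / 4 : ℝ)
    linarith
  have h3 : exp (5 / 4 : ℝ) = exp 1 * exp (1 / 4) := by
    rw [← Real.exp_add]
    norm_num
  rw [h3]
  calc (3 : ℝ) ≤ 2.7 * (5 / 4) := by norm_num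
    _ ≤ exp 1 * exp (1 / 4) := by
      apply mul_le_mul h1 h2 (by norm_num) (Real.exp_pos 1).le

/-- `D ≤ exp (D - 1)` gives `log Λ₁ ≤ 28 D` -/
theorem NUH_lam (m n : ℕ) (hD : 2 ≤ DD m n) : L1 m n ≤ exp (28 * DD m n) := by
  have hD0 : 0 ≤ DD m n := by linarith
  have h1 : DD m n ^ 6 ≤ exp (6 * (DD m n - 1)) := by
    have h2 : DD m n ≤ exp (DD m n - 1) := by
      have := Real.add_one_le_exp (DD m n - 1)
      linarith
    calc DD m n ^ 6 ≤ exp (DD m n - 1) ^ 6 := pow_le_pow_left₀ hD0 h2 6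
      _ = exp (6 * (DD m n - 1)) := by
        rw [← Real.exp_nat_mul]
        norm_num
  have h2 : (3 : ℝ) ^ (m + n + 2) ≤ exp (5 / 4 * DD m n) := by
    calc (3 : ℝ) ^ (m + n + 2) ≤ exp (5 / 4) ^ (m + n + 2) :=
          pow_le_pow_left₀ (by norm_num) NUH_e54 _
      _ = exp (5 / 4 * DD m n) := by
        rw [← Real.exp_nat_mul]
        congr 1
        unfold DD
        push_cast
        ring
  unfold L1 HH
  calc 2 * (10 ^ 6 * DD m n ^ 6 * 3 ^ (m + n + 2)) * exp 32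
      = (2 * 10 ^ 6) * DD m n ^ 6 * 3 ^ (m + n + 2) * exp 32 := by ring
    _ ≤ exp 15 * exp (6 * (DD m n - 1)) * exp (5 / 4 * DD m n) * exp 32 := by
        have := NUH_e15
        gcongr
    _ = exp (41 + 29 / 4 * DD m n) := by
        rw [← Real.exp_add, ← Real.exp_add, ← Real.exp_add]
        congr 1
        ring
    _ ≤ exp (28 * DD m n) := by
        apply Real.exp_le_exp.2
        linarith

theorem NUH_At (m n : ℕ) (hD : 2 ≤ DD m n) : ((At m n : ℕ) : ℝ) ≤ 3 / 16 * DD m n ^ 4 := by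
  have hL : ((LL m n : ℕ) : ℝ) ≤ DD m n ^ 2 / 4 := by
    unfold LL DD
    push_cast
    nlinarith [sq_nonneg ((m : ℝ) - n)]
  have hL0 : (0 : ℝ) ≤ ((LL m n : ℕ) : ℝ) := Nat.cast_nonneg _
  have hD2 : 4 ≤ DD m n ^ 2 := by nlinarith
  unfold At
  push_cast
  calc ((LL m n : ℕ) : ℝ) * (2 * ((LL m n : ℕ) : ℝ) + 1)
      ≤ (DD m n ^ 2 / 4) * (2 * (DD m n ^ 2 / 4) + 1) := by
        apply mul_le_mul hL (by linarith) (by linarith) (by positivity)
    _ ≤ (DD m n ^ 2 / 4) * (3 * (DD m n ^ 2 / 4)) := by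
        apply mul_le_mul_of_nonneg_left (by linarith) (by positivity)
    _ = 3 / 16 * DD m n ^ 4 := by ring

theorem p_NUH (hCSB : Stmt_CSB) : Stmt_NUH := by
  intro m n
  obtain ⟨cD, cD2, -, -, -, -, cl, -, -, -, -, -, -, -, -, -, -, -, -, -, cLB, cLL, -, -, -,
    cx1, -⟩ := hCSB m n
  have hAt1 : 1 ≤ At m n := by
    unfold At LL
    have h1 : 0 < (m + 1) * (n + 1) := by positivity
    exact Nat.mul_pos h1 (by omega)
  have hLB0 : 0 < LB m n := by linarith
  have hKE2 : 2 ≤ KB m n := by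
    unfold KB
    have h1 : LB m n ≤ LB m n ^ At m n := by
      calc LB m n = LB m n ^ 1 := (pow_one _).symm
        _ ≤ LB m n ^ At m n := pow_le_pow_right₀ (by linarith) hAt1
    calc (2 : ℝ) ≤ 1 * 1000 := by norm_num
      _ ≤ xm m n * LB m n ^ At m n := by
        apply mul_le_mul cx1 (by linarith) (by norm_num) (by linarith)
  refine ⟨hKE2, ?_⟩
  set D : ℝ := DD m n with hDdef
  have hL1p : 0 < L1 m n := by
    by_contra hc
    push Not at hc
    rcases hc.lt_or_eq with hc | hc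
    · have h1 : 0 < L1 m n := by
        unfold L1 HH
        have : 0 < DD m n := by
          rw [← hDdef]
          linarith
        positivity
      linarith
    · rw [hc, Real.log_zero] at cl
      linarith
  have hlog : log (L1 m n) ≤ 28 * D := by
    have := Real.log_le_log hL1p (NUH_lam m n cD2)
    rwa [Real.log_exp] at this
  have hxm : xm m n ≤ exp (28 * D ^ 2) := by
    unfold xm
    apply Real.exp_le_exp.2
    have h1 : ((m : ℝ) + 2) / 2 ≤ D := by
      rw [hDdef]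
      unfold DD
      have h2 : (0 : ℝ) ≤ m := Nat.cast_nonneg m
      have h3 : (0 : ℝ) ≤ n := Nat.cast_nonneg n
      linarith
    have h2 : (0 : ℝ) ≤ ((m : ℝ) + 2) / 2 := by positivity
    calc ((m : ℝ) + 2) / 2 * log (L1 m n) ≤ D * (28 * D) :=
          mul_le_mul h1 hlog (by linarith) (by linarith)
      _ = 28 * D ^ 2 := by ring
  have hLBe : LB m n ≤ exp (280 * D ^ 4) := by
    unfold LB
    calc L1 m n ^ (10 * DN m n ^ 3) ≤ exp (28 * D) ^ (10 * DN m n ^ 3) :=
          pow_le_pow_left₀ hL1p.le (NUH_lam m n cD2) _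
      _ = exp (280 * D ^ 4) := by
        rw [← Real.exp_nat_mul]
        congr 1
        push_cast
        rw [cD]
        ring
  have hKE : KB m n ≤ exp (55 * D ^ 8) := by
    unfold KB
    calc xm m n * LB m n ^ At m n ≤ exp (28 * D ^ 2) * exp (280 * D ^ 4) ^ At m n := by
          apply mul_le_mul hxm (pow_le_pow_left₀ hLB0.le hLBe _) (by positivity)
            (Real.exp_pos _).le
      _ = exp (28 * D ^ 2 + ((At m n : ℕ) : ℝ) * (280 * D ^ 4)) := by
          rw [← Real.exp_nat_mul, ← Real.exp_add]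
      _ ≤ exp (55 * D ^ 8) := by
        apply Real.exp_le_exp.2
        have h1 : ((At m n : ℕ) : ℝ) ≤ 3 / 16 * D ^ 4 := NUH_At m n cD2
        have h2 : ((At m n : ℕ) : ℝ) * (280 * D ^ 4) ≤ (3 / 16 * D ^ 4) * (280 * D ^ 4) :=
          mul_le_mul_of_nonneg_right h1 (by positivity)
        have h3 : 64 * D ^ 2 ≤ D ^ 8 := by
          have h4 : (2 : ℝ) ^ 6 ≤ D ^ 6 := pow_le_pow_left₀ (by norm_num) cD2 6
          calc 64 * D ^ 2 = (2 : ℝ) ^ 6 * D ^ 2 := by norm_num
            _ ≤ D ^ 6 * D ^ 2 := mul_le_mul_of_nonneg_right h4 (by positivity)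
            _ = D ^ 8 := by ring
        have h5 : (3 / 16 * D ^ 4) * (280 * D ^ 4) = 105 / 2 * D ^ 8 := by ring
        rw [h5] at h2
        have h6 : 0 ≤ D ^ 8 := by positivity
        linarith
  have hp : (0 : ℝ) ≤ 1 / (2 : ℝ) ^ (m + n) := by positivity
  calc KB m n ^ (1 / (2 : ℝ) ^ (m + n)) ≤ exp (55 * D ^ 8) ^ (1 / (2 : ℝ) ^ (m + n)) :=
        Real.rpow_le_rpow (by linarith) hKE hp
    _ = exp (55 * D ^ 8 * (1 / (2 : ℝ) ^ (m + n))) := (Real.exp_mul _ _).symm
    _ = exp (220 * D ^ 8 / 2 ^ (m + n + 2)) := by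
        congr 1
        rw [pow_add]
        field_simp
        ring
    _ ≤ exp (250 * ((m : ℝ) + n + 2) ^ 8 / 2 ^ (m + n + 2)) := by
        apply Real.exp_le_exp.2
        have h1 : (m : ℝ) + n + 2 = D := by
          rw [hDdef]
          rfl
        rw [h1]
        gcongr
        norm_num

end Pool.LH
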