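import Pool.Agent.Work.MP_7453a1_lh.Interface

set_option autoImplicit false

/-!
# Block PRS: a step of the prelude
-/

namespace Pool.LH

open Finset Real
open Pool.LG (Pt Mat ev xv Fr Sg Dm pP pQ DD HH th LL TT xt rho ro co Ax Bx Wx Phi At Bt IsB)

theorem PRS_bb (τ : ℕ) : bb τ = τ * (τ + 1) / 2 + (τ + 1) := by
  have h : (τ + 1) * (τ + 2) = τ * (τ + 1) + (τ + 1) * 2 := by ring
  rw [bb, h, Nat.add_mul_div_right _ _ (by norm_num)]

theorem PRS_exp {L : ℝ} (hL : 0 < L) (T : ℕ) : exp (-((T : ℝ) * log L)) = (1 / L) ^ T := by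
  rw [one_div, inv_pow, exp_neg, ← Real.log_pow, exp_log (pow_pos hL _)]

/-- the bounds of `s` from those of its logarithm -/
theorem PRS_log {L ε s z e : ℝ} {T : ℕ} (hL : 0 < L) (hε : 0 < ε) (hs : 0 < s) (hz : z ≤ 3)
    (he : |e| ≤ 6) (h : |log (s / ε) + (T : ℝ) * log L - e| ≤ z) :
    ε * (exp (-9) * (1 / L) ^ T) ≤ s ∧ s ≤ ε * (exp 9 * (1 / L) ^ T) := by
  obtain ⟨h1, h2⟩ := abs_le.1 h
  obtain ⟨h3, h4⟩ := abs_le.1 he
  have hq : 0 < s / ε := div_pos hs hε
  have h5 : s / ε = exp (log (s / ε)) := (exp_log hq).symm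
  constructor
  · have h6 : exp (-9) * (1 / L) ^ T ≤ s / ε := by
      rw [h5, ← PRS_exp hL, ← exp_add]
      exact exp_le_exp.2 (by linarith)
    have h7 := mul_le_mul_of_nonneg_left h6 hε.le
    have h8 : ε * (s / ε) = s := by field_simp
    linarith
  · have h6 : s / ε ≤ exp 9 * (1 / L) ^ T := by
      rw [h5, ← PRS_exp hL, ← exp_add]
      exact exp_le_exp.2 (by linarith)
    have h7 := mul_le_mul_of_nonneg_left h6 hε.le
    have h8 : ε * (s / ε) = s := by field_simp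
    linarith

theorem PRS_half : exp (1 / 2 : ℝ) ≤ 2 := by
  have h1 : exp (1 / 2 : ℝ) * exp (1 / 2) = exp 1 := by rw [← exp_add]; norm_num
  have h2 := Real.exp_one_lt_d9
  have h3 := exp_pos (1 / 2 : ℝ)
  nlinarith

theorem p_PRS (hPTG : Stmt_PTG) (hCSB : Stmt_CSB) (hSXG : Stmt_SXG) : Stmt_PRS := by
  intro m n G Θ₀ X ε S0 dx0 tx0 η te0 W0 Z τ F Θ S tx s W te z hst hZ hτ hP
  obtain ⟨hDN, hD2, hHH, -, hL1, -, hlog, h60, h5, -, -, -, -, -, hq0, -, hq1, -⟩ := hCSB m n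
  obtain ⟨hPx, hPe, -, hpel, -, -⟩ := hPTG m n (qq m n) hq0 hq1
  have hm0 : (0 : ℝ) ≤ m := Nat.cast_nonneg m
  have hn0 : (0 : ℝ) ≤ n := Nat.cast_nonneg n
  have hDe : DD m n = m + n + 2 := rfl
  set D : ℝ := DD m n with hD
  set H : ℝ := HH m n with hH
  set Λ : ℝ := L1 m n with hΛ
  have hH0 : 0 < H := by linarith
  have hH2 : 2000 ≤ H := by linarith
  have hinvH0 : 0 < 1 / H := one_div_pos.2 hH0
  have he32 : (1 : ℝ) ≤ exp 32 := Real.one_le_exp (by norm_num)
  have hΛe : Λ = 2 * (H * exp 32) := by rw [← hL1]; ring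
  have hΛ0 : 0 < Λ := by rw [hΛe]; positivity
  have hHe : H * 1 ≤ H * exp 32 := mul_le_mul_of_nonneg_left he32 hH0.le
  have hΛH : 2 * H ≤ Λ := by rw [hΛe]; linarith
  have hΛ1 : 1 ≤ Λ := by linarith
  have hth : th m n ≤ 1 := by
    have h1 : (1 : ℝ) ≤ 1000 * DD m n * 3 ^ (m + n + 2) := by
      have h2 : (1 : ℝ) ≤ 3 ^ (m + n + 2) := one_le_pow₀ (by norm_num)
      nlinarith
    rw [th]
    exact (div_le_one (by linarith)).2 h1
  have h60' : 60 * D ^ 2 / H ≤ 1 / 100 := by linarith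
  have h5' : 5 * (D * (1 / H)) ≤ 1 / 1000 := by
    have h : 5 * D / H = 5 * (D * (1 / H)) := by ring
    rw [← h]; exact h5
  have hτD : (τ : ℝ) + 1 ≤ D := by
    have h1 : (τ : ℝ) ≤ m := Nat.cast_le.2 hτ
    rw [hDe]; linarith
  have hX := hst.Xp
  have hε := hst.ep
  have hsta := hP.sta
  have hSp := hsta.Sp
  have hsp := hsta.sp
  set j : Fin (m + 1) := ⟨τ, by omega⟩ with hj
  have hjv : (j : ℕ) = τ := rfl
  set i : Fin (n + 1) := Fin.last n with hi
  obtain ⟨hSj, htxj, hvj⟩ := hP.todo j (le_of_eq hjv.symm)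
  have hdx0 : ∀ l, 0 ≤ dx0 l := fun l => (hst.dxp l).1
  have htx0 : ∀ l, 0 ≤ tx l := by
    intro l
    have h := le_trans (abs_nonneg _) (hsta.hx l l)
    exact nonneg_of_mul_nonneg_left h (hSp l)
  have hte0 : ∀ k, 0 ≤ te k := fun k => (hP.tek k).1
  -- `z ≤ 3`
  have hfil0 : 0 ≤ ∑ l ∈ univ.filter (fun l : Fin (m + 1) => τ ≤ (l : ℕ)), dx0 l :=
    Finset.sum_nonneg fun l _ => hdx0 l
  have hstx0 : 0 ≤ ∑ l, tx l := Finset.sum_nonneg fun l _ => htx0 l
  have hste0 : 0 ≤ ∑ k, te k := Finset.sum_nonneg fun k _ => hte0 k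
  have hbud : 60 * D / H * ((τ : ℝ) + 1) ≤ 1 / 100 := by
    have h1 : 60 * D / H * ((τ : ℝ) + 1) ≤ 60 * D / H * D :=
      mul_le_mul_of_nonneg_left hτD (div_nonneg (by linarith) hH0.le)
    have h2 : 60 * D / H * D = 60 * D ^ 2 / H := by ring
    linarith
  have h60H : 0 ≤ 60 * D / H := div_nonneg (by linarith) hH0.le
  have hz3 : z ≤ 3 := by
    have h1 := hP.pot
    have h2 : 60 * D / H * (τ : ℝ) ≤ 60 * D / H * ((τ : ℝ) + 1) :=
      mul_le_mul_of_nonneg_left (by linarith) h60H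
    linarith
  -- the error of the last `f`
  have hη6 : ∀ k, |η k| ≤ 6 := hst.eta
  obtain ⟨-, hsup⟩ := PRS_log hΛ0 hε (hsp i) hz3 (hη6 i) hP.las
  have hpow1 : ∀ t : ℕ, (1 / Λ) ^ t ≤ 1 := fun t =>
    pow_le_one₀ (one_div_pos.2 hΛ0).le ((div_le_one hΛ0).2 hΛ1)
  have he9 := exp_pos (9 : ℝ)
  have hsup1 : s i ≤ ε * exp 9 := by
    refine le_trans hsup ?_
    have h1 : exp 9 * (1 / Λ) ^ (τ * (τ + 1) / 2) ≤ exp 9 * 1 :=
      mul_le_mul_of_nonneg_left (hpow1 _) he9.le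
    exact mul_le_mul_of_nonneg_left (by linarith) hε.le
  -- the sizes at the beginning
  have hS0 : ∀ l, 0 < S0 l := hst.sta.Sp
  have hS0u : ∀ l, S0 l ≤ 2 * X := by
    intro l
    have h1 := (abs_le.1 (hst.dS l)).2
    have h2 := (hst.dxp l).2
    have h3 : S0 l / X ≤ exp (1 / 2) := by
      rw [← exp_log (div_pos (hS0 l) hX)]
      exact exp_le_exp.2 (by linarith)
    rw [div_le_iff₀ hX] at h3
    have h4 := mul_le_mul_of_nonneg_right PRS_half hX.le
    linarith
  set S' : ℝ := X * Λ ^ (τ + 1) with hS'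
  have hΛp : 1 ≤ Λ ^ τ := one_le_pow₀ hΛ1
  have hS'e : S' = X * Λ ^ τ * Λ := by rw [hS']; ring
  have hS'0 : 0 < S' := by rw [hS']; positivity
  have hXΛ : X * Λ ≤ S' := by
    rw [hS'e]
    have h1 : X * 1 ≤ X * Λ ^ τ := mul_le_mul_of_nonneg_left hΛp hX.le
    have h2 := mul_le_mul_of_nonneg_right h1 hΛ0.le
    linarith
  have hXe : X * Λ = 2 * (H * X * exp 32) := by rw [hΛe]; ring
  have he32b : (10 : ℝ) ≤ exp 32 := by
    have h1 := Real.add_one_le_exp (32 : ℝ)
    linarith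
  have hHX : 0 < H * X := mul_pos hH0 hX
  have hHX10 : H * X * 10 ≤ H * X * exp 32 := mul_le_mul_of_nonneg_left he32b hHX.le
  -- the conditions of SXG
  have hc1 : ∑ l, tx l ≤ 9 / 100 := by
    have h1 : ∀ l ∈ (univ : Finset (Fin (m + 1))), tx l ≤ tx0 l + 2 / H := by
      intro l _
      by_cases hl : (l : ℕ) < τ
      · have h2 := (hP.done l hl).2.2
        have h3 := hst.txp l
        linarith
      · have h2 := (hP.todo l (not_lt.1 hl)).2.1
        rw [h2]
        have h3 : 0 < 2 / H := by positivity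
        linarith
    have h4 := Finset.sum_le_sum h1
    rw [Finset.sum_add_distrib, Finset.sum_const, Finset.card_univ, Fintype.card_fin, nsmul_eq_mul] at h4
    have h5a : ((m + 1 : ℕ) : ℝ) * (2 / H) ≤ 2 * (D * (1 / H)) := by
      have h6 : ((m + 1 : ℕ) : ℝ) ≤ D := by rw [hDe]; push_cast; linarith
      have h7 := mul_le_mul_of_nonneg_right h6 hinvH0.le
      have h8 : ((m + 1 : ℕ) : ℝ) * (2 / H) = 2 * (((m + 1 : ℕ) : ℝ) * (1 / H)) := by ring
      rw [h8]; linarith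
    have h9 := hst.stx
    linarith
  have hte0l : te0 i ≤ 1 / 2 := by
    by_cases h0 : i = 0
    · rw [h0]; exact hst.tez
    · have h1 : te0 i ≤ ∑ k ∈ univ.erase 0, te0 k :=
        Finset.single_le_sum (f := te0) (fun k _ => hst.tep k) (Finset.mem_erase.2 ⟨h0, mem_univ i⟩)
      have h2 := hst.ste
      linarith
  have hτH : 5 * (τ : ℝ) / H ≤ 1 / 1000 := by
    have h1 : 5 * (τ : ℝ) / H = 5 * ((τ : ℝ) * (1 / H)) := by ring
    have h2 := mul_le_mul_of_nonneg_right (by linarith : (τ : ℝ) ≤ D) hinvH0.le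
    rw [h1]; linarith
  have hc2 : te i ≤ 13 / 25 := by
    have h1 := (hP.tek i).2
    linarith
  have hc3 : ∀ l, H * S l ≤ S' := by
    intro l
    by_cases hl : (l : ℕ) < τ
    · rw [(hP.done l hl).1]
      have h1 : Λ ^ ((l : ℕ) + 1) ≤ Λ ^ τ := pow_le_pow_right₀ hΛ1 hl
      have h2 : H ≤ Λ := by linarith
      have h3 : X * Λ ^ ((l : ℕ) + 1) ≤ X * Λ ^ τ := mul_le_mul_of_nonneg_left h1 hX.le
      rw [hS'e, mul_comm H]
      exact mul_le_mul h3 h2 hH0.le (by positivity)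
    · rw [(hP.todo l (not_lt.1 hl)).1]
      have h1 := mul_le_mul_of_nonneg_left (hS0u l) hH0.le
      linarith
  have hc4 : ∀ k, k ≠ i → H * (W k * s i) ≤ S' * s k := by
    intro k hk
    have h1 : W k * s i ≤ 3 * X * (ε * exp 9) :=
      mul_le_mul (hP.sW k) hsup1 (hsp i).le (by positivity)
    have h2 := mul_le_mul_of_nonneg_left h1 hH0.le
    have h3 : ε * exp (-6) ≤ s k := by
      rw [hP.row k hk]
      exact mul_le_mul_of_nonneg_left (exp_le_exp.2 (abs_le.1 (hη6 k)).1) hε.le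
    have h4 : X * Λ * (ε * exp (-6)) ≤ S' * s k :=
      mul_le_mul hXΛ h3 (by positivity) hS'0.le
    have h5b : X * Λ * (ε * exp (-6)) = 2 * (H * X * ε) * exp 26 := by
      have h6 : exp (32 : ℝ) * exp (-6) = exp 26 := by rw [← exp_add]; norm_num
      rw [hXe, ← h6]; ring
    have h7 : exp (26 : ℝ) = exp 9 * exp 17 := by rw [← exp_add]; norm_num
    have h8 : (2 : ℝ) ≤ exp 17 := by
      have h1 := Real.add_one_le_exp (17 : ℝ)
      linarith
    have h9 : exp 9 * 2 ≤ exp 9 * exp 17 := mul_le_mul_of_nonneg_left h8 he9.le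
    have h10 : 0 < H * X * ε := by positivity
    have h11 : 2 * (H * X * ε) * (exp 9 * 2) ≤ 2 * (H * X * ε) * exp 26 := by
      rw [h7]
      exact mul_le_mul_of_nonneg_left h9 (by positivity)
    have h12 : H * (3 * X * (ε * exp 9)) ≤ 2 * (H * X * ε) * (exp 9 * 2) := by
      have h13 : 0 < H * X * ε * exp 9 := by positivity
      nlinarith
    linarith
  have hc5 : H * W i ≤ S' := by
    have h1 := mul_le_mul_of_nonneg_left (hP.sW i) hH0.le
    have h2 : H * (3 * X) = 3 * (H * X) := by ring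
    linarith
  obtain ⟨F', Θ', a, hsta', hf, hfk, hvl, hla, hmv⟩ :=
    hSXG m n (pP m) (pR n (qq m n)) hPx hPe H hHH F Θ S tx s W te hsta hc1 i j S' hc2 hc3 hc4 hc5
  -- abbreviations
  set z' : ℝ := z + 4 * tx j + 12 / H + dx0 j with hz'
  set S2 := Function.update S j S' with hS2
  set tx2 := Function.update tx j (2 / H) with htx2
  set s2 := Function.update s i a with hs2
  set W2 := Function.update W i (3 / 2 * S j) with hW2
  set te2 : Fin (n + 1) → ℝ := fun k => if k = i then te i else te k + 5 / H with hte2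
  have ha0 : 0 < a := by
    have h := hsta'.sp i
    rwa [hs2, Function.update_self] at h
  have hs2i : s2 i = a := by rw [hs2, Function.update_self]
  have hne : ∀ l : Fin (m + 1), (l : ℕ) ≠ τ → l ≠ j := fun l hl h => hl (by rw [h])
  have h5H : 0 < 5 / H := by positivity
  -- potential
  have hpot' : z' + ∑ l ∈ univ.filter (fun l : Fin (m + 1) => τ + 1 ≤ (l : ℕ)), dx0 l + 4 * ∑ l, tx2 l +
      4 * ∑ k, te2 k ≤ Z + 60 * D / H * ((τ : ℝ) + 1) := by
    have h1 : ∑ l ∈ univ.filter (fun l : Fin (m + 1) => τ ≤ (l : ℕ)), dx0 l =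
        dx0 j + ∑ l ∈ univ.filter (fun l : Fin (m + 1) => τ + 1 ≤ (l : ℕ)), dx0 l := by
      have h2 : univ.filter (fun l : Fin (m + 1) => τ ≤ (l : ℕ)) =
          insert j (univ.filter (fun l : Fin (m + 1) => τ + 1 ≤ (l : ℕ))) := by
        ext l
        simp only [Finset.mem_filter, Finset.mem_univ, true_and, Finset.mem_insert, Fin.ext_iff, hjv]
        omega
      rw [h2, Finset.sum_insert]
      simp [hjv]
    have h3 : ∑ l, tx2 l = ∑ l, tx l - tx j + 2 / H := by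
      have h4 : ∑ l, tx2 l = ∑ l ∈ univ.erase j, tx2 l + tx2 j := (Finset.sum_erase_add _ _ (mem_univ j)).symm
      have h5c : ∑ l, tx l = ∑ l ∈ univ.erase j, tx l + tx j := (Finset.sum_erase_add _ _ (mem_univ j)).symm
      have h6 : ∑ l ∈ univ.erase j, tx2 l = ∑ l ∈ univ.erase j, tx l :=
        Finset.sum_congr rfl fun l hl => by
          rw [htx2, Function.update_of_ne (Finset.ne_of_mem_erase hl)]
      have h7 : tx2 j = 2 / H := by rw [htx2, Function.update_self]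
      rw [h4, h5c, h6, h7]; ring
    have h8 : ∑ k, te2 k ≤ ∑ k, te k + (n : ℝ) * (5 / H) := by
      have h9 : ∀ k, te2 k = te k + 5 / H - (if k = i then 5 / H else 0) := by
        intro k
        simp only [hte2]
        by_cases hk : k = i
        · rw [if_pos hk, if_pos hk, hk]; ring
        · rw [if_neg hk, if_neg hk]; ring
      rw [Finset.sum_congr rfl fun k _ => h9 k, Finset.sum_sub_distrib, Finset.sum_add_distrib,
        Finset.sum_const, Finset.card_univ, Fintype.card_fin, nsmul_eq_mul]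
      simp only [Finset.sum_ite_eq', Finset.mem_univ, if_true]
      push_cast
      linarith
    have h10 := hP.pot
    rw [h1] at h10
    have h11 : 60 * D / H * ((τ : ℝ) + 1) = 60 * D / H * (τ : ℝ) + 60 * (D * (1 / H)) := by ring
    have h12 : (n : ℝ) * (1 / H) + 1 / H ≤ D * (1 / H) := by
      rw [← add_one_mul]
      exact mul_le_mul_of_nonneg_right (by rw [hDe]; linarith) hinvH0.le
    have h13 : (n : ℝ) * (5 / H) = 5 * ((n : ℝ) * (1 / H)) := by ring
    have h14 : 12 / H = 12 * (1 / H) := by ring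
    have h15 : 2 / H = 2 * (1 / H) := by ring
    have h16 : 0 ≤ (n : ℝ) * (1 / H) := by positivity
    rw [h11, h3, hz', h14, h15]
    rw [h13] at h8
    linarith
  have hz3' : z' ≤ 3 := by
    have h1 : 0 ≤ ∑ l ∈ univ.filter (fun l : Fin (m + 1) => τ + 1 ≤ (l : ℕ)), dx0 l :=
      Finset.sum_nonneg fun l _ => hdx0 l
    have h2 : 0 ≤ ∑ l, tx2 l := by
      refine Finset.sum_nonneg fun l _ => ?_
      by_cases hl : l = j
      · rw [hl, htx2, Function.update_self]; positivity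
      · rw [htx2, Function.update_of_ne hl]; exact htx0 l
    have h3 : 0 ≤ ∑ k, te2 k := by
      refine Finset.sum_nonneg fun k _ => ?_
      simp only [hte2]
      split_ifs
      · exact hte0 i
      · have := hte0 k
        linarith
    linarith
  -- the new `las`
  have hlas' : |log (a / ε) + ((bb τ : ℕ) : ℝ) * log Λ - η i| ≤ z' := by
    have h1 := hP.las
    have h2 : log (a / ε) = log (s i / ε) + log (a * S' / (s i * S j)) - log (S' / S j) := by
      rw [Real.log_div ha0.ne' hε.ne', Real.log_div (hsp i).ne' hε.ne',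
        Real.log_div (mul_pos ha0 hS'0).ne' (mul_pos (hsp i) (hSp j)).ne', Real.log_mul ha0.ne' hS'0.ne',
        Real.log_mul (hsp i).ne' (hSp j).ne', Real.log_div hS'0.ne' (hSp j).ne']
      ring
    have h3 : log (S' / S j) = ((τ : ℝ) + 1) * log Λ - log (S0 j / X) := by
      rw [Real.log_div hS'0.ne' (hSp j).ne', hS', Real.log_mul hX.ne' (pow_pos hΛ0 _).ne', Real.log_pow,
        Real.log_div (hS0 j).ne' hX.ne', hSj]
      push_cast
      ring
    have h4 : ((bb τ : ℕ) : ℝ) = ((τ * (τ + 1) / 2 : ℕ) : ℝ) + ((τ : ℝ) + 1) := by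
      rw [PRS_bb]; push_cast; ring
    have h6 := hst.dS j
    have h7 := hla
    rw [h2, h3, h4]
    have h8 : log (s i / ε) + log (a * S' / (s i * S j)) - (((τ : ℝ) + 1) * log Λ - log (S0 j / X)) +
        (((τ * (τ + 1) / 2 : ℕ) : ℝ) + ((τ : ℝ) + 1)) * log Λ - η i =
        (log (s i / ε) + ((τ * (τ + 1) / 2 : ℕ) : ℝ) * log Λ - η i) + log (a * S' / (s i * S j)) +
        log (S0 j / X) := by ring
    rw [h8]
    have h9 := abs_add_le (log (s i / ε) + ((τ * (τ + 1) / 2 : ℕ) : ℝ) * log Λ - η i)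
      (log (a * S' / (s i * S j)))
    have h10 := abs_add_le ((log (s i / ε) + ((τ * (τ + 1) / 2 : ℕ) : ℝ) * log Λ - η i) +
      log (a * S' / (s i * S j))) (log (S0 j / X))
    rw [hz']
    linarith
  obtain ⟨halo, haup⟩ := PRS_log hΛ0 hε ha0 hz3' (hη6 i) hlas'
  -- the movement
  have hmv5 : 5 * s i / S' ≤ 5 * exp 9 * (ε / X) * (1 / Λ) ^ bb τ := by
    rw [div_le_iff₀ hS'0]
    have h1 : 5 * exp 9 * (ε / X) * (1 / Λ) ^ bb τ * S' = 5 * (ε * (exp 9 * (1 / Λ) ^ (τ * (τ + 1) / 2))) := by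
      have h2 : (1 / Λ) ^ (τ + 1) * Λ ^ (τ + 1) = 1 := by
        rw [← mul_pow, one_div, inv_mul_cancel₀ hΛ0.ne', one_pow]
      rw [PRS_bb, pow_add, hS']
      calc 5 * exp 9 * (ε / X) * ((1 / Λ) ^ (τ * (τ + 1) / 2) * (1 / Λ) ^ (τ + 1)) * (X * Λ ^ (τ + 1)) =
          5 * (exp 9 * (1 / Λ) ^ (τ * (τ + 1) / 2)) * ((ε / X) * X) * ((1 / Λ) ^ (τ + 1) * Λ ^ (τ + 1)) := by
            ring
        _ = 5 * (ε * (exp 9 * (1 / Λ) ^ (τ * (τ + 1) / 2))) := by
            rw [h2, div_mul_cancel₀ _ hX.ne']; ring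
    rw [h1]
    linarith
  have hmvG : ∀ (w : Pt m n) (R : ℝ), (∀ l, |(w.1 l : ℝ)| ≤ R) → ∀ p,
      |ev Θ' w p - ev Θ w p| ≤ 5 * exp 9 * (ε / X) * (1 / Λ) ^ bb τ * R := by
    intro w R hw p
    have hR0 : 0 ≤ R := le_trans (abs_nonneg _) (hw 0)
    exact le_trans (hmv w R hw p) (mul_le_mul_of_nonneg_right hmv5 hR0)
  have hGX : ∀ l p, |((G.v l).1 p : ℝ)| ≤ 3 * X := by
    intro l p
    have h1 := hst.sta.hx l p
    have h2 : tx0 l ≤ 1 / 20 := le_trans
      (Finset.single_le_sum (f := tx0) (fun k _ => hst.txp k) (mem_univ l)) hst.stx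
    have h3 := hPx.nn l p
    have h4 := hPx.le l p
    have h6 := hS0 l
    have h7 : |S0 l * pP m l p| ≤ S0 l * (7 / 5) := by
      rw [abs_of_nonneg (mul_nonneg h6.le h3)]
      exact mul_le_mul_of_nonneg_left h4 h6.le
    have h8 : tx0 l * S0 l ≤ 1 / 20 * S0 l := mul_le_mul_of_nonneg_right h2 h6.le
    have h9 : |G.X l p| ≤ |G.X l p - S0 l * pP m l p| + |S0 l * pP m l p| := by
      have h10 := abs_add_le (G.X l p - S0 l * pP m l p) (S0 l * pP m l p)
      rwa [sub_add_cancel] at h10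
    have h11 := hS0u l
    change |G.X l p| ≤ 3 * X
    linarith
  have hmvv : ∀ l p, |ev Θ' (G.v l) p - ev Θ (G.v l) p| ≤ ε * (15 * exp 9 * (1 / Λ) ^ bb τ) := by
    intro l p
    refine le_trans (hmvG (G.v l) (3 * X) (hGX l) p) (le_of_eq ?_)
    field_simp
    ring
  have hvτ : F'.f i = G.v j := by rw [hf, hvj]
  have hbpos : 0 < (1 / Λ) ^ bb τ := pow_pos (one_div_pos.2 hΛ0) _
  have hs2e : ∀ p, |ev Θ' (G.v j) p - a * pR n (qq m n) i p| ≤ 13 / 25 * a := by
    intro p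
    have h1 := hsta'.he i p
    rw [hvτ] at h1
    have hte2i : te2 i = te i := by simp [hte2]
    rw [hs2i, hte2i] at h1
    exact le_trans h1 (mul_le_mul_of_nonneg_right hc2 ha0.le)
  refine ⟨F', Θ', S2, tx2, s2, W2, te2, z', ⟨hsta', ?_, ?_, ?_, ?_, ?_, ?_, ?_, ?_, ?_, ?_⟩⟩
  · -- done
    intro l hl
    by_cases h : (l : ℕ) = τ
    · have hlj : l = j := Fin.ext h
      rw [hlj, hS2, htx2, Function.update_self, Function.update_self]
      exact ⟨rfl, by positivity, le_rfl⟩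
    · rw [hS2, htx2, Function.update_of_ne (hne l h), Function.update_of_ne (hne l h)]
      exact hP.done l (by omega)
  · -- todo
    intro l hl
    have h : (l : ℕ) ≠ τ := by omega
    rw [hS2, htx2, Function.update_of_ne (hne l h), Function.update_of_ne (hne l h), hvl l (hne l h)]
    exact hP.todo l (by omega)
  · -- row
    intro k hk
    rw [hs2, Function.update_of_ne hk]
    exact hP.row k hk
  · -- las
    have h1 : ((τ + 1) * (τ + 1 + 1) / 2 : ℕ) = bb τ := rfl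
    rw [h1]
    change |log (s2 i / ε) + ((bb τ : ℕ) : ℝ) * log Λ - η i| ≤ z'
    rw [hs2i]
    exact hlas'
  · -- tek
    intro k
    have h1 := hP.tek k
    have h2 : 5 * (((τ + 1 : ℕ) : ℝ)) / H = 5 * (τ : ℝ) / H + 5 / H := by push_cast; ring
    rw [h2]
    simp only [hte2]
    by_cases hk : k = i
    · rw [if_pos hk, hk]
      rw [hk] at h1
      exact ⟨h1.1, by linarith [h1.2]⟩
    · rw [if_neg hk]
      exact ⟨by linarith [h1.1], by linarith [h1.2]⟩
  · -- sW
    intro k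
    by_cases hk : k = i
    · rw [hk, hW2, Function.update_self, hSj]
      have := hS0u j
      linarith
    · rw [hW2, Function.update_of_ne hk]
      exact hP.sW k
  · -- pot
    have h1 : (((τ + 1 : ℕ)) : ℝ) = (τ : ℝ) + 1 := by push_cast; ring
    rw [h1]
    exact hpot'
  · -- mov
    intro w R hw p
    have h1 := hmvG w R hw p
    have h2 := hP.mov w R hw p
    have h3 : ev Θ' w p - ev Θ₀ w p = (ev Θ' w p - ev Θ w p) + (ev Θ w p - ev Θ₀ w p) := by ring
    rw [h3, Finset.sum_range_succ]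
    refine le_trans (abs_add_le _ _) ?_
    have h4 : 5 * exp 9 * (ε / X) * R * (∑ t ∈ range τ, (1 / Λ) ^ bb t + (1 / Λ) ^ bb τ) =
        5 * exp 9 * (ε / X) * (1 / Λ) ^ bb τ * R + 5 * exp 9 * (ε / X) * R * ∑ t ∈ range τ, (1 / Λ) ^ bb t := by
      ring
    rw [h4]
    exact add_le_add h1 h2
  · -- mob
    intro l hl p
    by_cases h : (l : ℕ) = τ
    · have hlj : l = j := Fin.ext h
      rw [hlj, hjv, Finset.Ico_self, Finset.sum_empty, mul_zero, add_zero]
      have h1 := hs2e p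
      have h2 := hPe.nn i p
      have h3 := hPe.le i p
      have h4 : |a * pR n (qq m n) i p| ≤ a * (7 / 5) := by
        rw [abs_of_nonneg (mul_nonneg ha0.le h2)]
        exact mul_le_mul_of_nonneg_left h3 ha0.le
      have h6 := abs_add_le (ev Θ' (G.v j) p - a * pR n (qq m n) i p) (a * pR n (qq m n) i p)
      rw [sub_add_cancel] at h6
      have h7 : ε * (2 * exp 9 * (1 / Λ) ^ bb τ) = 2 * (ε * (exp 9 * (1 / Λ) ^ bb τ)) := by ring
      rw [h7]
      linarith
    · have hlt : (l : ℕ) < τ := by omega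
      have h1 := hP.mob l hlt p
      have h2 := hmvv l p
      have h3 := abs_add_le (ev Θ' (G.v l) p - ev Θ (G.v l) p) (ev Θ (G.v l) p)
      rw [sub_add_cancel] at h3
      rw [Finset.sum_Ico_succ_top (by omega : (l : ℕ) + 1 ≤ τ)]
      have h4 : ε * (2 * exp 9 * (1 / Λ) ^ bb (l : ℕ) +
          15 * exp 9 * (∑ t ∈ Ico ((l : ℕ) + 1) τ, (1 / Λ) ^ bb t + (1 / Λ) ^ bb τ)) =
          ε * (15 * exp 9 * (1 / Λ) ^ bb τ) + ε * (2 * exp 9 * (1 / Λ) ^ bb (l : ℕ) +
          15 * exp 9 * ∑ t ∈ Ico ((l : ℕ) + 1) τ, (1 / Λ) ^ bb t) := by ring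
      rw [h4]
      linarith
  · -- mol
    intro l hl
    by_cases h : (l : ℕ) = τ
    · have hlj : l = j := Fin.ext h
      rw [hlj, hjv, Finset.Ico_self, Finset.sum_empty, mul_zero, sub_zero]
      have h1 := (abs_le.1 (hs2e i)).1
      rw [hpel] at h1
      have h2 : ε * (exp (-10) * (1 / Λ) ^ bb τ) ≤ 22 / 25 * a := by
        have h3 : exp (-10 : ℝ) = exp (-1) * exp (-9) := by rw [← exp_add]; norm_num
        have h4 : exp (-1 : ℝ) ≤ 22 / 25 := by
          rw [exp_neg, inv_le_comm₀ (exp_pos 1) (by norm_num)]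
          have h6 := Real.add_one_le_exp (1 : ℝ)
          norm_num at h6 ⊢
          linarith
        have h7 : ε * (exp (-10) * (1 / Λ) ^ bb τ) = exp (-1) * (ε * (exp (-9) * (1 / Λ) ^ bb τ)) := by
          rw [h3]; ring
        rw [h7]
        exact mul_le_mul h4 halo (by positivity) (by norm_num)
      linarith
    · have hlt : (l : ℕ) < τ := by omega
      have h1 := hP.mol l hlt
      have h2 := (abs_le.1 (hmvv l i)).1
      rw [Finset.sum_Ico_succ_top (by omega : (l : ℕ) + 1 ≤ τ)]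
      have h4 : ε * (exp (-10) * (1 / Λ) ^ bb (l : ℕ) -
          15 * exp 9 * (∑ t ∈ Ico ((l : ℕ) + 1) τ, (1 / Λ) ^ bb t + (1 / Λ) ^ bb τ)) =
          ε * (exp (-10) * (1 / Λ) ^ bb (l : ℕ) -
          15 * exp 9 * ∑ t ∈ Ico ((l : ℕ) + 1) τ, (1 / Λ) ^ bb t) - ε * (15 * exp 9 * (1 / Λ) ^ bb τ) := by ring
      rw [h4]
      linarith

end Pool.LH
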