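import Pool.Agent.Work.MP_7453a1_lh.Interface

set_option autoImplicit false

/-!
# Block PRT: the steps of the prelude
-/

namespace Pool.LH

open Finset Real
open Pool.LG (Pt Mat ev xv Fr Sg Dm pP pQ DD HH th LL TT xt rho ro co Ax Bx Wx Phi At Bt IsB)

theorem PRT_zero (m n : ℕ) (G : Fr m n) (Θ₀ : Mat m n) (X ε : ℝ) (S0 dx0 tx0 : Fin (m + 1) → ℝ)
    (η te0 W0 : Fin (n + 1) → ℝ) (h : Start m n G Θ₀ X ε S0 dx0 tx0 η te0 W0) :
    Pr m n G Θ₀ X ε S0 dx0 tx0 η te0 (∑ j, dx0 j + 4 * ∑ j, tx0 j + 4 * ∑ i, te0 i) 0 G Θ₀ S0 tx0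
      (fun i => ε * exp (η i)) W0 te0 0 where
  sta := h.sta
  done := fun j hj => absurd hj (Nat.not_lt_zero _)
  todo := fun j _ => ⟨rfl, rfl, rfl⟩
  row := fun k _ => rfl
  las := by
    have h1 : log (ε * exp (η (Fin.last n)) / ε) = η (Fin.last n) := by
      rw [mul_div_right_comm, div_self h.ep.ne', one_mul, Real.log_exp]
    rw [h1]
    simp
  tek := by
    intro k
    refine ⟨h.tep k, ?_⟩
    simp
  sW := h.W0
  pot := by simp
  mov := by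
    intro w R _ p
    simp
  mob := fun j hj => absurd hj (Nat.not_lt_zero _)
  mol := fun j hj => absurd hj (Nat.not_lt_zero _)

theorem p_PRT (hPRS : Stmt_PRS) : Stmt_PRT := by
  intro m n G Θ₀ X ε S0 dx0 tx0 η te0 W0 h
  have key : ∀ τ : ℕ, τ ≤ m + 1 → ∃ (F : Fr m n) (Θ : Mat m n) (S tx : Fin (m + 1) → ℝ)
      (s W te : Fin (n + 1) → ℝ) (z : ℝ),
      Pr m n G Θ₀ X ε S0 dx0 tx0 η te0 (∑ j, dx0 j + 4 * ∑ j, tx0 j + 4 * ∑ i, te0 i) τ
        F Θ S tx s W te z := by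
    intro τ
    induction τ with
    | zero =>
      intro _
      exact ⟨G, Θ₀, S0, tx0, _, W0, te0, 0, PRT_zero m n G Θ₀ X ε S0 dx0 tx0 η te0 W0 h⟩
    | succ τ ih =>
      intro hτ
      obtain ⟨F, Θ, S, tx, s, W, te, z, hPr⟩ := ih (by omega)
      exact hPRS m n G Θ₀ X ε S0 dx0 tx0 η te0 W0 _ τ F Θ S tx s W te z h h.Zle (by omega) hPr
  exact key (m + 1) le_rfl

end Pool.LH
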