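import Pool.Agent.Work.MP_7453a1_lh.Interface
import Pool.Agent.Work.MP_7453a1_lg.B_PAT

set_option autoImplicit false

/-! # Block PTG: the patterns (helper84) -/

namespace Pool.LH

open Finset Real
open Pool.LG (Pt Mat ev xv Fr Sg Dm pP pQ DD HH th LL TT xt rho ro co Ax Bx Wx Phi At Bt IsB)

theorem p_PTG : Stmt_PTG := by
  intro m n q hq hq1
  obtain ⟨⟨a1, a2, a3, -, -, -, -, -⟩, -⟩ := Pool.LG.p_PAT m
  obtain ⟨-, ⟨b1, b2, b3, b4, b5, b6, b7, b8⟩⟩ := Pool.LG.p_PAT n
  have hle : ∀ k p, pR n q k p ≤ pQ n k p := by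
    intro k p
    unfold pR
    split_ifs
    · have := (b1 k p).1
      nlinarith
    · exact le_rfl
  have hlast : ∀ k, k ≠ Fin.last n → pR n q k (Fin.last n) = q * pQ n k (Fin.last n) := by
    intro k hk
    unfold pR
    rw [if_pos ⟨rfl, hk⟩]
  have hsum : ∑ k ∈ univ.erase (Fin.last n), pR n q k (Fin.last n) =
      q * ∑ k ∈ univ.erase (Fin.last n), pQ n k (Fin.last n) := by
    rw [Finset.mul_sum]
    refine Finset.sum_congr rfl fun k hk => ?_
    exact hlast k (Finset.ne_of_mem_erase hk)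
  have hs := b3 (Fin.last n)
  refine ⟨⟨fun k p => (a1 k p).1, fun k p => (a1 k p).2, a2, a3⟩, ⟨?_, ?_, ?_, ?_⟩, ?_, ?_, ?_, ?_⟩
  · intro k p
    unfold pR
    split_ifs
    · exact mul_nonneg hq.le (b1 k p).1
    · exact (b1 k p).1
  · intro k p
    exact (hle k p).trans (b1 k p).2
  · intro k
    unfold pR
    rw [if_neg (fun h => h.2 h.1)]
    exact b2 k
  · intro p
    exact (Finset.sum_le_sum fun k _ => hle k p).trans (b3 p)
  · intro k p hp hpk
    unfold pR
    rw [if_neg (fun h => hp h.1)]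
    exact b4 k p hp hpk
  · unfold pR
    rw [if_neg (fun h => h.2 rfl)]
    exact b7
  · intro k hk
    refine ⟨?_, ?_, ?_, ?_⟩
    · unfold pR
      rw [if_neg (fun h => hk h.1)]
      exact b6 k hk
    · rw [hlast k hk]
      have h := mul_le_mul_of_nonneg_left (b5 k) hq.le
      refine le_trans (le_of_eq ?_) h
      ring
    · rw [hlast k hk]
      have h1 : pQ n k (Fin.last n) ≤ ∑ k ∈ univ.erase (Fin.last n), pQ n k (Fin.last n) :=
        Finset.single_le_sum (f := fun k => pQ n k (Fin.last n)) (fun l _ => (b1 l _).1)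
          (Finset.mem_erase.2 ⟨hk, Finset.mem_univ _⟩)
      have h2 := mul_le_mul_of_nonneg_left (h1.trans hs) hq.le
      linarith
    · have h1 : ∑ l ∈ univ.filter (· < k), pR n q l (Fin.last n) =
          q * ∑ l ∈ univ.filter (· < k), pQ n l (Fin.last n) := by
        rw [Finset.mul_sum]
        refine Finset.sum_congr rfl fun l hl => ?_
        rw [Finset.mem_filter] at hl
        exact hlast l (fun h => absurd (Fin.le_last k) (not_le.2 (h ▸ hl.2)))
      rw [h1, hlast k hk]
      have h2 := mul_le_mul_of_nonneg_left (b8 k hk) hq.le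
      linarith
  · rw [hsum]
    have h2 := mul_le_mul_of_nonneg_left hs hq.le
    linarith

end Pool.LH
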