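import Pool.Agent.Work.MP_7453a1_lh.Interface
import Pool.Agent.Work.MP_7453a1_lg.All

set_option autoImplicit false

/-!
# Block SEG: a step of the second kind (general patterns)
-/

namespace Pool.LH

open Finset Real
open Pool.LG (Pt Mat ev xv Fr Sg Dm pP pQ DD HH th LL TT xt rho ro co Ax Bx Wx Phi At Bt IsB)

theorem SEG_hold {ι : Type} [Fintype ι] (ξ g : ι → ℝ) (A B : ℝ) (hB : 0 ≤ B) (hξ : ∑ l, |ξ l| ≤ A)
    (hg : ∀ l, |g l| ≤ B) : |∑ l, ξ l * g l| ≤ A * B := by
  calc |∑ l, ξ l * g l| ≤ ∑ l, |ξ l * g l| := Finset.abs_sum_le_sum_abs _ _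
    _ ≤ ∑ l, |ξ l| * B := Finset.sum_le_sum fun l _ => by
        rw [abs_mul]; exact mul_le_mul_of_nonneg_left (hg l) (abs_nonneg _)
    _ = (∑ l, |ξ l|) * B := by rw [Finset.sum_mul]
    _ ≤ A * B := mul_le_mul_of_nonneg_right hξ hB

theorem SEG_X {m n : ℕ} (F : Fr m n) (i : Fin (n + 1)) (j : Fin (m + 1)) (c : Fin (n + 1) → ℤ)
    (d : Fin (m + 1) → ℤ) (p : Fin (m + 1)) :
    Fr.X (F.nxt i j c d) j p =
      ∑ l, 2 * (d l : ℝ) * F.X l p - ∑ k, 2 * (c k : ℝ) * F.U k p - F.U i p := by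
  have h : ((F.nxt i j c d).v j).1 p =
      ∑ l, 2 * d l * (F.v l).1 p - ∑ k, 2 * c k * (F.f k).1 p - (F.f i).1 p := by
    simp [Fr.nxt, Prod.fst_sum, Finset.sum_apply]
  unfold Fr.X Fr.U
  rw [h]
  push_cast
  rfl

theorem SEG_X' {m n : ℕ} (F : Fr m n) (i : Fin (n + 1)) (j : Fin (m + 1)) (c : Fin (n + 1) → ℤ)
    (d : Fin (m + 1) → ℤ) {l : Fin (m + 1)} (hl : l ≠ j) : (F.nxt i j c d).v l = F.v l := by
  simp [Fr.nxt, Function.update_of_ne hl]

theorem SEG_f' {m n : ℕ} (F : Fr m n) (i : Fin (n + 1)) (j : Fin (m + 1)) (c : Fin (n + 1) → ℤ)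
    (d : Fin (m + 1) → ℤ) {k : Fin (n + 1)} (hk : k ≠ i) : (F.nxt i j c d).f k = F.f k := by
  simp [Fr.nxt, Function.update_of_ne hk]

theorem SEG_f {m n : ℕ} (F : Fr m n) (i : Fin (n + 1)) (j : Fin (m + 1)) (c : Fin (n + 1) → ℤ)
    (d : Fin (m + 1) → ℤ) : (F.nxt i j c d).f i = F.v j := by
  simp [Fr.nxt]

theorem p_SEG (hDMG : Stmt_DMG) : Stmt_SEG := by
  have hGOD := Pool.LG.p_GOD
  have hDUA := Pool.LG.p_DUA
  have hLGI := Pool.LG.p_LGI
  have hSTP := Pool.LG.q_STP
  intro m n px pe hpx hpe H hH F Θ S tx s W te hsta htx i j R hte htes hHR hs hWs hWi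
  have hm0 : (0 : ℝ) ≤ m := Nat.cast_nonneg m
  have hn0 : (0 : ℝ) ≤ n := Nat.cast_nonneg n
  have hDe : DD m n = m + n + 2 := rfl
  have hD : (2 : ℝ) ≤ DD m n := by rw [hDe]; linarith
  have hH2 : (2000 : ℝ) ≤ H := by linarith
  have hH0 : (0 : ℝ) < H := by linarith
  have hR0 : 0 < R := by linarith
  have hSp := hsta.Sp
  have hsp := hsta.sp
  have hSj := hSp j
  have hsi := hsp i
  set S' : ℝ := R * S j with hS'
  have hS'0 : 0 < S' := mul_pos hR0 hSj
  have hinvH : 1 / H ≤ 1 / 2000 := one_div_le_one_div_of_le (by norm_num) hH2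
  have hinvH0 : 0 < 1 / H := one_div_pos.2 hH0
  have hDH : DD m n * (1 / H) ≤ 1 / 1000 := by
    rw [mul_one_div, div_le_div_iff₀ hH0 (by norm_num)]; linarith
  have hnH : ((n : ℝ) + 1) * (1 / H) ≤ 1 / 1000 := by
    refine le_trans (mul_le_mul_of_nonneg_right ?_ hinvH0.le) hDH
    rw [hDe]; linarith
  have htx0 : ∀ l, 0 ≤ tx l := by
    intro l
    have h := le_trans (abs_nonneg _) (hsta.hx l l)
    exact nonneg_of_mul_nonneg_left h (hSp l)
  have hte0 : ∀ k, 0 ≤ te k := by
    intro k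
    have h := le_trans (abs_nonneg _) (hsta.he k k)
    exact nonneg_of_mul_nonneg_left h (hsp k)
  have hW0 : ∀ k, 0 ≤ W k := fun k => le_trans (abs_nonneg _) (hsta.hw k 0)
  have hQ : ∀ k p, 0 ≤ pe k p ∧ pe k p ≤ 7 / 5 := fun k p => ⟨hpe.nn k p, hpe.le k p⟩
  -- the old frame
  obtain ⟨-, -, h32⟩ := hDMG (m + 1) px hpx F.X S tx hSp hsta.hx (by linarith)
  -- the rows of the errors
  set B : Fin (n + 1) → Fin (n + 1) → ℝ := fun k p => if k = i then pe i p else ev Θ (F.f k) p with hB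
  set σ : Fin (n + 1) → ℝ := fun k => if k = i then 1 else s k with hσ
  set τ : Fin (n + 1) → ℝ := fun k => if k = i then 0 else te k with hτ
  have hBi : ∀ p, B i p = pe i p := fun p => by simp [hB]
  have hBk : ∀ k, k ≠ i → ∀ p, B k p = ev Θ (F.f k) p := fun k hk p => by simp [hB, hk]
  have hσi : σ i = 1 := by simp [hσ]
  have hσk : ∀ k, k ≠ i → σ k = s k := fun k hk => by simp [hσ, hk]
  have hσp : ∀ k, 0 < σ k := by
    intro k
    by_cases hk : k = i
    · rw [hk, hσi]; norm_num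
    · rw [hσk k hk]; exact hsp k
  obtain ⟨hDmB, hcolB, -⟩ := hDMG (n + 1) pe hpe B σ τ hσp (by
    intro k p
    by_cases hk : k = i
    · subst hk
      rw [hBi, hσi]; simp [hτ]
    · rw [hBk k hk, hσk k hk]
      simp only [hτ, if_neg hk]
      exact hsta.he k p) (by
    have h1 : ∑ k, τ k = ∑ k ∈ univ.erase i, τ k + τ i := (Finset.sum_erase_add _ _ (mem_univ i)).symm
    have h2 : ∑ k ∈ univ.erase i, τ k = ∑ k ∈ univ.erase i, te k :=
      Finset.sum_congr rfl fun k hk => by simp [hτ, Finset.ne_of_mem_erase hk]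
    have h3 : τ i = 0 := by simp [hτ]
    rw [h1, h2, h3, add_zero]; exact htes)
  obtain ⟨Z, hZ1, hZ2, hZ3⟩ := hDUA (n + 1) B σ hDmB
  -- the error of `f i`
  set e : Fin (n + 1) → ℝ := fun p => ev Θ (F.f i) p with he
  have hδ : ∀ p, |e p - s i * pe i p| ≤ te i * s i := fun p => hsta.he i p
  set g : Fin (n + 1) → ℝ := fun k => ∑ q, Z k q * e q with hg
  have hge : ∀ p, ∑ k, g k * B k p = e p := by
    intro p
    have h1 : ∀ l, g l * B l p = ∑ q, B l p * Z l q * e q := by
      intro l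
      simp only [hg]
      rw [Finset.sum_mul]
      exact Finset.sum_congr rfl fun q _ => by ring
    rw [Finset.sum_congr rfl fun l _ => h1 l, Finset.sum_comm]
    have h2 : ∀ q, ∑ l, B l p * Z l q * e q = (if p = q then 1 else 0) * e q := by
      intro q
      rw [← Finset.sum_mul, hZ3]
    rw [Finset.sum_congr rfl fun q _ => h2 q]
    simp
  have hgk : ∀ k, |g k - s i * (if i = k then 1 else 0)| ≤ 25 / (16 * σ k) * (te i * s i) := by
    intro k
    have h1 : g k = s i * (if i = k then 1 else 0) + ∑ q, Z k q * (e q - s i * pe i q) := by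
      have h2 := hZ1 k i
      rw [← h2, Finset.mul_sum, ← Finset.sum_add_distrib]
      refine Finset.sum_congr rfl fun q _ => ?_
      rw [hBi]; ring
    rw [h1, add_sub_cancel_left]
    exact SEG_hold _ _ _ _ (mul_nonneg (hte0 i) hsi.le) (hZ2 k) hδ
  -- `lam = g i`
  set u : ℝ := g i / s i - 1 with hu
  have hgi : g i = s i * (1 + u) := by rw [hu]; field_simp; ring
  have hub : |u| ≤ 25 / 16 * te i := by
    have h1 := hgk i
    rw [if_pos rfl, mul_one, hσi] at h1
    have h2 : u = (g i - s i) / s i := by rw [hu]; field_simp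
    rw [h2, abs_div, abs_of_pos hsi, div_le_iff₀ hsi]
    have h3 : 25 / (16 * (1 : ℝ)) * (te i * s i) = 25 / 16 * te i * s i := by ring
    rw [h3] at h1; exact h1
  have hu13 : |u| ≤ 13 / 16 := by linarith
  have hu17 : |u| ≤ 17 / 20 := by linarith
  have hu3 : 3 / 16 ≤ 1 + u := by have := (abs_le.1 hu13).1; linarith
  have hu1 : 0 < 1 + u := by linarith
  have hu29 : 1 + u ≤ 29 / 16 := by have := (abs_le.1 hu13).2; linarith
  have hgi0 : 0 < g i := by rw [hgi]; exact mul_pos hsi hu1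
  -- the coefficients `c`
  set c : Fin (n + 1) → ℤ := fun k => if k = i then 0 else round (-g k / 2) with hc
  have hci : c i = 0 := by simp [hc]
  set θ : Fin (n + 1) → ℝ := fun k => if k = i then 0 else 2 * (c k : ℝ) + g k with hθ
  have hθi : θ i = 0 := by simp [hθ]
  have hθk : ∀ k, k ≠ i → 2 * (c k : ℝ) = θ k - g k := fun k hk => by simp [hθ, hk]
  have hθ1 : ∀ k, |θ k| ≤ 1 := by
    intro k
    by_cases hk : k = i
    · rw [hk, hθi]; simp
    · have h1 := abs_sub_round (-g k / 2)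
      have h2 : θ k = -2 * (-g k / 2 - (round (-g k / 2) : ℝ)) := by
        simp only [hθ, hc, if_neg hk]; ring
      rw [h2, abs_mul]
      have : |(-2 : ℝ)| = 2 := by norm_num
      rw [this]; linarith
  have hck : ∀ k, k ≠ i → |2 * (c k : ℝ)| ≤ s i / s k := by
    intro k hk
    have hsk := hsp k
    rw [hθk k hk]
    refine le_trans (abs_sub _ _) ?_
    have h1 := hgk k
    rw [if_neg (Ne.symm hk), mul_zero, sub_zero, hσk k hk] at h1
    have h2 : 25 / (16 * s k) * (te i * s i) = 25 / 16 * te i * (s i / s k) := by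
      field_simp
    rw [h2] at h1
    have h3 : 0 < s i / s k := div_pos hsi hsk
    have h4 : H ≤ s i / s k := by rw [le_div_iff₀ hsk]; exact hs k hk
    have h5 : 25 / 16 * te i * (s i / s k) ≤ 13 / 16 * (s i / s k) :=
      mul_le_mul_of_nonneg_right (by linarith) h3.le
    have h6 := hθ1 k
    linarith
  -- the coefficient `r`
  set r : ℤ := round (R / 2) with hr
  set θr : ℝ := 2 * (r : ℝ) - R with hθr
  have hθr1 : |θr| ≤ 1 := by
    have h1 := abs_sub_round (R / 2)
    have h2 : θr = -2 * (R / 2 - (round (R / 2) : ℝ)) := by simp only [hθr, hr]; ring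
    rw [h2, abs_mul]
    have : |(-2 : ℝ)| = 2 := by norm_num
    rw [this]; linarith
  have h2r : 2 * (r : ℝ) = R + θr := by rw [hθr]; ring
  have h2r0 : 0 < 2 * (r : ℝ) := by
    rw [h2r]; have := (abs_le.1 hθr1).1; linarith
  set d : Fin (m + 1) → ℤ := fun l => if l = j then r else 0 with hd
  have hdj : d j = r := by simp [hd]
  set F' := F.nxt i j c d with hF'
  -- `G = x(g)`
  set G : Fin (m + 1) → ℝ := fun p => F.U i p + ∑ k, 2 * (c k : ℝ) * F.U k p with hG
  have hGb : ∀ p, |G p| ≤ ((n : ℝ) + 1) * (S' / H) := by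
    intro p
    have h1 : G p = ∑ k, (if k = i then F.U i p else 2 * (c k : ℝ) * F.U k p) := by
      have h2 : ∀ k, (if k = i then F.U i p else 2 * (c k : ℝ) * F.U k p) =
          (if k = i then F.U i p else 0) + 2 * (c k : ℝ) * F.U k p := by
        intro k
        by_cases hk : k = i
        · subst hk; simp [hci]
        · simp [hk]
      rw [Finset.sum_congr rfl fun k _ => h2 k, Finset.sum_add_distrib]
      simp [hG]
    rw [h1]
    refine le_trans (Finset.abs_sum_le_sum_abs _ _) ?_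
    have h3 : ∀ k ∈ (univ : Finset (Fin (n + 1))),
        |if k = i then F.U i p else 2 * (c k : ℝ) * F.U k p| ≤ S' / H := by
      intro k _
      by_cases hk : k = i
      · rw [if_pos hk]
        refine le_trans (hsta.hw i p) ?_
        rw [le_div_iff₀ hH0, mul_comm]; exact hWi
      · rw [if_neg hk, abs_mul]
        have h4 : |2 * (c k : ℝ)| * |F.U k p| ≤ s i / s k * W k :=
          mul_le_mul (hck k hk) (hsta.hw k p) (abs_nonneg _) (div_pos hsi (hsp k)).le
        refine le_trans h4 ?_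
        rw [div_mul_eq_mul_div, div_le_div_iff₀ (hsp k) hH0]
        have := hWs k hk
        linarith
    refine le_trans (Finset.sum_le_card_nsmul _ _ _ h3) ?_
    rw [Finset.card_univ, Fintype.card_fin, nsmul_eq_mul]
    push_cast
    exact le_rfl
  have hXj : ∀ p, F'.X j p = 2 * (r : ℝ) * F.X j p - G p := by
    intro p
    rw [hF', SEG_X]
    have h1 : ∑ l, 2 * (d l : ℝ) * F.X l p = 2 * (r : ℝ) * F.X j p := by
      rw [Finset.sum_eq_single j]
      · rw [hdj]
      · intro l _ hl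
        simp [hd, hl]
      · intro h; exact absurd (mem_univ j) h
    rw [h1]
    simp only [hG]; ring
  -- the new sizes and tolerances
  set S1 := Function.update S j S' with hS1
  set tx1 := Function.update tx j (tx j + 2 * DD m n / H) with htx1
  have hS1j : S1 j = S' := by simp [hS1]
  have hS1l : ∀ l, l ≠ j → S1 l = S l := fun l hl => by simp [hS1, Function.update_of_ne hl]
  have htx1j : tx1 j = tx j + 2 * DD m n / H := by simp [htx1]
  have htx1l : ∀ l, l ≠ j → tx1 l = tx l := fun l hl => by simp [htx1, Function.update_of_ne hl]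
  have hS1p : ∀ l, 0 < S1 l := by
    intro l
    by_cases hl : l = j
    · rw [hl, hS1j]; exact hS'0
    · rw [hS1l l hl]; exact hSp l
  have hx1 : ∀ l p, |F'.X l p - S1 l * px l p| ≤ tx1 l * S1 l := by
    intro l p
    by_cases hl : l = j
    · rw [hl, hS1j, htx1j, hXj, h2r]
      have h1 : (R + θr) * F.X j p - G p - S' * px j p =
          R * (F.X j p - S j * px j p) + θr * F.X j p - G p := by rw [hS']; ring
      rw [h1]
      have h2 : |R * (F.X j p - S j * px j p)| ≤ tx j * S' := by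
        rw [abs_mul, abs_of_pos hR0]
        calc R * |F.X j p - S j * px j p| ≤ R * (tx j * S j) :=
              mul_le_mul_of_nonneg_left (hsta.hx j p) hR0.le
          _ = tx j * S' := by rw [hS']; ring
      have h3 : |θr * F.X j p| ≤ 3 / 2 * (S' * (1 / H)) := by
        rw [abs_mul]
        have h4 : |θr| * |F.X j p| ≤ 1 * (3 / 2 * S j) :=
          mul_le_mul hθr1 (h32 j p) (abs_nonneg _) (by norm_num)
        have h5 : S j ≤ S' * (1 / H) := by
          rw [mul_one_div, le_div_iff₀ hH0, hS', mul_comm]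
          exact mul_le_mul_of_nonneg_right hHR hSj.le
        linarith
      have h6 := hGb p
      have h7 : ((n : ℝ) + 1) * (S' / H) = ((n : ℝ) + 1) * (S' * (1 / H)) := by ring
      rw [h7] at h6
      have h8 : (tx j + 2 * DD m n / H) * S' = tx j * S' + 2 * DD m n * (S' * (1 / H)) := by ring
      rw [h8]
      have h9 : |R * (F.X j p - S j * px j p) + θr * F.X j p - G p| ≤
          |R * (F.X j p - S j * px j p)| + |θr * F.X j p| + |G p| :=
        le_trans (abs_sub _ _) (add_le_add (abs_add_le _ _) le_rfl)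
      have h10 : 0 < S' * (1 / H) := mul_pos hS'0 hinvH0
      have h11 : ((n : ℝ) + 1 + 3 / 2) * (S' * (1 / H)) ≤ 2 * DD m n * (S' * (1 / H)) :=
        mul_le_mul_of_nonneg_right (by rw [hDe]; linarith) h10.le
      linarith
    · rw [hS1l l hl, htx1l l hl]
      have : F'.X l p = F.X l p := by unfold Fr.X; rw [hF', SEG_X' F i j _ d hl]
      rw [this]; exact hsta.hx l p
  have htx1s : ∑ l, tx1 l ≤ 1 / 10 := by
    have h1 : ∑ l, tx1 l = ∑ l ∈ univ.erase j, tx1 l + tx1 j := (Finset.sum_erase_add _ _ (mem_univ j)).symm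
    have h2 : ∑ l, tx l = ∑ l ∈ univ.erase j, tx l + tx j := (Finset.sum_erase_add _ _ (mem_univ j)).symm
    have h3 : ∑ l ∈ univ.erase j, tx1 l = ∑ l ∈ univ.erase j, tx l :=
      Finset.sum_congr rfl fun l hl => htx1l l (Finset.ne_of_mem_erase hl)
    have h4 : 2 * DD m n / H = 2 * (DD m n * (1 / H)) := by ring
    rw [h1, h3, htx1j, h4]
    linarith
  obtain ⟨hDm1, -, -⟩ := hDMG (m + 1) px hpx F'.X S1 tx1 hS1p hx1 htx1s
  obtain ⟨Θ', ξ, hcen, hξ, hev, hq⟩ := hSTP m n F Θ hsta.cen i j c d S1 hDm1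
  rw [hS1j] at hξ
  rw [hdj] at hq
  -- the vector `E`
  set E : Fin (n + 1) → ℝ := fun p => ev Θ (F.f i) p + ∑ k, 2 * (c k : ℝ) * ev Θ (F.f k) p with hE
  have hEe : ∀ p, E p = g i * pe i p + ∑ k, θ k * B k p := by
    intro p
    have h1 := hge p
    have h2 : ∀ k, 2 * (c k : ℝ) * ev Θ (F.f k) p =
        θ k * B k p - g k * B k p + (if k = i then g i * pe i p else 0) := by
      intro k
      by_cases hk : k = i
      · subst hk
        rw [hci, hθi, hBi, if_pos rfl]; push_cast; ring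
      · rw [hθk k hk, hBk k hk, if_neg hk]; ring
    change ev Θ (F.f i) p + ∑ k, 2 * (c k : ℝ) * ev Θ (F.f k) p = _
    rw [Finset.sum_congr rfl fun k _ => h2 k, Finset.sum_add_distrib, Finset.sum_sub_distrib, h1]
    simp only [Finset.sum_ite_eq', Finset.mem_univ, if_true, he]
    ring
  have hθB : ∀ p, |∑ k, θ k * B k p| ≤ 33 / 20 * (s i * (1 / H)) := by
    intro p
    have h1 : |∑ k, θ k * B k p| ≤ ∑ k, s i / H * (|B k p| / σ k) := by
      refine le_trans (Finset.abs_sum_le_sum_abs _ _) (Finset.sum_le_sum fun k _ => ?_)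
      by_cases hk : k = i
      · rw [hk, hθi, zero_mul, abs_zero]
        have := hσp i
        positivity
      · rw [abs_mul, hσk k hk]
        have hsk := hsp k
        have h2 : s k ≤ s i / H := by rw [le_div_iff₀ hH0]; linarith [hs k hk]
        have h3 : |θ k| * |B k p| ≤ 1 * |B k p| := mul_le_mul_of_nonneg_right (hθ1 k) (abs_nonneg _)
        have h4 : |B k p| = s k * (|B k p| / s k) := by field_simp
        calc |θ k| * |B k p| ≤ |B k p| := by linarith
          _ = s k * (|B k p| / s k) := h4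
          _ ≤ s i / H * (|B k p| / s k) :=
            mul_le_mul_of_nonneg_right h2 (div_nonneg (abs_nonneg _) hsk.le)
    rw [← Finset.mul_sum] at h1
    have h5 : s i / H * ∑ k, |B k p| / σ k ≤ s i / H * (33 / 20) :=
      mul_le_mul_of_nonneg_left (hcolB p) (div_nonneg hsi.le hH0.le)
    have h6 : 33 / 20 * (s i * (1 / H)) = s i / H * (33 / 20) := by ring
    rw [h6]; linarith
  have hEb : ∀ p, |E p| ≤ 13 / 5 * s i := by
    intro p
    rw [hEe]
    refine le_trans (abs_add_le _ _) ?_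
    have h1 := hθB p
    have h2 := hQ i p
    have h3 : |g i * pe i p| ≤ 203 / 80 * s i := by
      rw [abs_mul, abs_of_pos hgi0, abs_of_nonneg h2.1]
      have h4 : g i ≤ 29 / 16 * s i := by rw [hgi]; nlinarith
      calc g i * pe i p ≤ 29 / 16 * s i * (7 / 5) :=
            mul_le_mul h4 h2.2 h2.1 (by positivity)
        _ = 203 / 80 * s i := by ring
    have h5 : s i * (1 / H) ≤ s i * (1 / 2000) := mul_le_mul_of_nonneg_left hinvH hsi.le
    linarith
  have hmv : ∀ (w : Fin (m + 1) → ℝ) (Rw : ℝ), 0 ≤ Rw → (∀ l, |w l| ≤ Rw) → ∀ p,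
      |E p * ∑ l, ξ l * w l| ≤ 5 * (s i * Rw / S') := by
    intro w Rw hRw hw p
    have h1 := SEG_hold ξ w _ Rw hRw hξ hw
    rw [abs_mul]
    have h2 : |E p| * |∑ l, ξ l * w l| ≤ (13 / 5 * s i) * (25 / (16 * S') * Rw) :=
      mul_le_mul (hEb p) h1 (abs_nonneg _) (by positivity)
    have h3 : (13 / 5 * s i) * (25 / (16 * S') * Rw) = 65 / 16 * (s i * Rw / S') := by
      field_simp
      ring
    rw [h3] at h2
    have h4 : 0 ≤ s i * Rw / S' := by positivity
    linarith
  -- y
  set y : ℝ := ∑ l, ξ l * G l with hy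
  have hyb : |y| ≤ 25 / 16 * (((n : ℝ) + 1) * (1 / H)) := by
    have h1 := SEG_hold ξ G _ (((n : ℝ) + 1) * (S' / H)) (by positivity) hξ hGb
    have h2 : 25 / (16 * S') * (((n : ℝ) + 1) * (S' / H)) = 25 / 16 * (((n : ℝ) + 1) * (1 / H)) := by
      field_simp
    rw [h2] at h1; exact h1
  have hy17 : |y| ≤ 17 / 20 := by linarith
  have hy1 : 0 < 1 + y := by have := (abs_le.1 hy17).1; linarith
  -- q
  set q : ℝ := ∑ l, ξ l * F.X j l with hqd
  have hq' : 2 * (r : ℝ) * q = 1 + y := hq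
  have hqe : q = (1 + y) / (2 * (r : ℝ)) := by
    rw [eq_div_iff h2r0.ne', mul_comm]; exact hq'
  have hq0 : 0 < q := by rw [hqe]; positivity
  set v : ℝ := θr / R with hv
  have hvb : |v| ≤ 1 / H := by
    rw [hv, abs_div, abs_of_pos hR0, div_le_div_iff₀ hR0 hH0]
    have : |θr| * H ≤ 1 * H := mul_le_mul_of_nonneg_right hθr1 hH0.le
    linarith
  have hv17 : |v| ≤ 17 / 20 := by linarith
  have hv1 : 0 < 1 + v := by have := (abs_le.1 hv17).1; linarith
  have h2rv : 2 * (r : ℝ) = R * (1 + v) := by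
    rw [h2r, hv]; field_simp
  have ha0 : 0 < q * g i := mul_pos hq0 hgi0
  have hEq : ∀ p, |E p * q - q * g i * pe i p| ≤ 10 / H * (q * g i) := by
    intro p
    have h1 : E p * q - q * g i * pe i p = q * ∑ k, θ k * B k p := by
      rw [hEe]; ring
    rw [h1, abs_mul, abs_of_pos hq0]
    have h2 := mul_le_mul_of_nonneg_left (hθB p) hq0.le
    have h3 : 10 / H * (q * g i) = q * (10 * (g i * (1 / H))) := by ring
    rw [h3]
    refine le_trans h2 (mul_le_mul_of_nonneg_left ?_ hq0.le)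
    have h4 : 3 / 16 * s i ≤ g i := by rw [hgi]; nlinarith
    have h5 : 3 / 16 * s i * (1 / H) ≤ g i * (1 / H) := mul_le_mul_of_nonneg_right h4 hinvH0.le
    have h6 : 0 < s i * (1 / H) := mul_pos hsi hinvH0
    linarith
  refine ⟨F', Θ', q * g i, ⟨?_, ?_, ?_, ?_, ?_, ?_, ?_⟩, SEG_f F i j _ d, fun k hk => SEG_f' F i j _ d hk,
    fun l hl => SEG_X' F i j _ d hl, ?_, ?_⟩
  · exact hGOD m n F i j c d hci hsta.good
  · exact hcen
  · exact hS1p
  · intro k
    by_cases hk : k = i
    · rw [hk, Function.update_self]; exact ha0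
    · rw [Function.update_of_ne hk]; exact hsp k
  · exact hx1
  · intro k p
    by_cases hk : k = i
    · subst hk
      rw [Function.update_self, if_pos rfl, hF', SEG_f, hev, hsta.cen j p, zero_add]
      exact hEq p
    · rw [Function.update_of_ne hk, if_neg hk, hF', SEG_f' F i j _ d hk, hev]
      have h1 := hmv (fun l => F.U k l) (W k) (hW0 k) (fun l => hsta.hw k l) p
      have h2 : 5 * (s i * W k / S') ≤ 5 / H * s k := by
        have h3 : s i * W k / S' ≤ s k / H := by
          rw [div_le_div_iff₀ hS'0 hH0]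
          have := hWs k hk
          linarith
        have h5 : 5 / H * s k = 5 * (s k / H) := by ring
        rw [h5]; linarith
      have h6 : |ev Θ (F.f k) p - s k * pe k p| ≤ te k * s k := hsta.he k p
      have h7 : ev Θ (F.f k) p + E p * ∑ l, ξ l * ((F.f k).1 l : ℝ) - s k * pe k p =
          (ev Θ (F.f k) p - s k * pe k p) + E p * ∑ l, ξ l * F.U k l := by
        unfold Fr.U; ring
      change |ev Θ (F.f k) p + E p * ∑ l, ξ l * ((F.f k).1 l : ℝ) - s k * pe k p| ≤ _
      rw [h7]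
      refine le_trans (abs_add_le _ _) ?_
      have h8 : (te k + 5 / H) * s k = te k * s k + 5 / H * s k := by ring
      rw [h8]
      exact add_le_add h6 (le_trans h1 h2)
  · intro k p
    by_cases hk : k = i
    · subst hk
      rw [Function.update_self]
      have h1 : F'.U k p = F.X j p := by unfold Fr.U Fr.X; rw [hF', SEG_f]
      rw [h1]; exact h32 j p
    · rw [Function.update_of_ne hk]
      have h1 : F'.U k p = F.U k p := by unfold Fr.U; rw [hF', SEG_f' F i j _ d hk]
      rw [h1]; exact hsta.hw k p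
  · have h1 : q * g i * (R * S j) / (s i * S j) = (1 + u) * (1 + y) / (1 + v) := by
      rw [hqe, hgi, h2rv]; field_simp
    rw [h1, Real.log_div (mul_pos hu1 hy1).ne' hv1.ne', Real.log_mul hu1.ne' hy1.ne']
    refine le_trans (abs_sub _ _) ?_
    have h2 := hLGI y hy17
    have h3 := hLGI u hu17
    have h4 := hLGI v hv17
    have h5 := abs_add_le (log (1 + u)) (log (1 + y))
    have h6 : 10 * DD m n / H = 10 * (DD m n * (1 / H)) := by ring
    rw [h6]
    have h7 : ((n : ℝ) + 1) * (1 / H) + 1 / H ≤ DD m n * (1 / H) := by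
      rw [← add_one_mul]
      exact mul_le_mul_of_nonneg_right (by rw [hDe]; linarith) hinvH0.le
    have h8 := hte0 i
    have h9 : 0 ≤ ((n : ℝ) + 1) * (1 / H) := by positivity
    linarith
  · intro w Rw hw p
    have hRw : 0 ≤ Rw := le_trans (abs_nonneg _) (hw 0)
    have h1 := hmv (fun l => (w.1 l : ℝ)) Rw hRw hw p
    rw [hev]
    have h2 : ev Θ w p + (ev Θ (F.f i) p + ∑ k, 2 * (c k : ℝ) * ev Θ (F.f k) p) *
        ∑ l, ξ l * (w.1 l : ℝ) - ev Θ w p = E p * ∑ l, ξ l * (w.1 l : ℝ) := by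
      simp only [hE]; ring
    rw [h2]
    refine le_trans h1 (le_of_eq ?_)
    ring

end Pool.LH
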