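import Pool.Agent.Work.MP_7453a1_lh.Interface

set_option autoImplicit false

/-! # Block SQH: the sequence of the stages (helper86) -/

namespace Pool.LH

open Finset Real
open Pool.LG (Pt Mat ev xv Fr Sg Dm pP pQ DD HH th LL TT xt rho ro co Ax Bx Wx Phi At Bt IsB)

/-- the data at the beginning of a stage -/
abbrev SQH_T (m n : ℕ) : Type :=
  Fr m n × Mat m n × ℝ × (Fin (n + 1) → ℝ) × (Fin (n + 1) → ℝ)

/-- they are the beginning of stage `s` -/
def SQH_P (m n s : ℕ) (t : SQH_T m n) : Prop :=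
  Start m n t.1 t.2.1 (KB m n ^ (s + 1)) t.2.2.1 (fun _ => KB m n ^ (s + 1)) (fun _ => 0)
    (fun _ => fB m n) t.2.2.2.1 (fun _ => fB m n) t.2.2.2.2

/-- the relation between two consecutive stages -/
def SQH_R (m n s : ℕ) (t t' : SQH_T m n) : Prop :=
  (∀ i, |t'.2.2.2.1 i| ≤ th m n / 5) ∧
    Nx m n t.1 t.2.1 (KB m n ^ (s + 1)) t.2.2.1 t'.1 t'.2.1 t'.2.2.1

theorem SQH_exists {T : Type} {P : ℕ → T → Prop} {R : ℕ → T → T → Prop} (h0 : ∃ t, P 0 t)
    (hs : ∀ s t, P s t → ∃ t', P (s + 1) t' ∧ R s t t') :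
    ∃ u : ℕ → T, ∀ s, P s (u s) ∧ R s (u s) (u (s + 1)) := by
  classical
  obtain ⟨t0, ht0⟩ := h0
  let u : ∀ s : ℕ, {t : T // P s t} := fun s =>
    Nat.rec (motive := fun s => {t : T // P s t}) ⟨t0, ht0⟩
      (fun s t => ⟨(hs s t.1 t.2).choose, (hs s t.1 t.2).choose_spec.1⟩) s
  exact ⟨fun s => (u s).1, fun s => ⟨(u s).2, (hs s (u s).1 (u s).2).choose_spec.2⟩⟩

/-- the sum of the tolerances -/
theorem SQH_num {D f t q h : ℝ} (hD : 2 ≤ D) (ht : t = 1 / (1000 * D * 3 ^ (2 : ℕ)) ∨ (0 < t ∧ D * t ≤ 1 / 1000))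
    (hf : 0 < f) (hfq : f ≤ q * t / 1000) (hq : 0 < q) (hqt : q ≤ t / 1000) (hh : h ≤ t / 100) :
    2 * (4 * (D * f) + h + f) ≤ t / 5 := by
  have htt : 0 < t ∧ D * t ≤ 1 / 1000 := by
    rcases ht with ht | ht
    · have h9 : (0 : ℝ) < D := by linarith
      refine ⟨by rw [ht]; positivity, ?_⟩
      rw [ht]
      have : D * (1 / (1000 * D * 3 ^ (2 : ℕ))) = 1 / 9000 := by
        field_simp
        norm_num
      rw [this]
      norm_num
    · exact ht
  obtain ⟨ht0, hDt⟩ := htt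
  have h1 : q * t ≤ t / 1000 * t := mul_le_mul_of_nonneg_right hqt ht0.le
  have h2 : f ≤ t * t / 1000000 := by nlinarith
  have h3 : D * f ≤ D * (t * t / 1000000) := mul_le_mul_of_nonneg_left h2 (by linarith)
  have h4 : D * (t * t / 1000000) = D * t * t / 1000000 := by ring
  have h5 : D * t * t ≤ 1 / 1000 * t := mul_le_mul_of_nonneg_right hDt ht0.le
  have h6 : D * f ≤ t / 1000 := by
    rw [h4] at h3
    nlinarith
  have h7 : 2 * f ≤ D * f := mul_le_mul_of_nonneg_right hD hf.le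
  nlinarith

theorem SQH_th (m n : ℕ) : 0 < th m n ∧ DD m n * th m n ≤ 1 / 1000 := by
  have hD : 0 < DD m n := by
    unfold DD
    positivity
  have h3 : (1 : ℝ) ≤ 3 ^ (m + n + 2) := one_le_pow₀ (by norm_num)
  refine ⟨by unfold th; positivity, ?_⟩
  unfold th
  rw [mul_one_div, div_le_div_iff₀ (by positivity) (by norm_num)]
  nlinarith [mul_le_mul_of_nonneg_left h3 hD.le]

theorem p_SQH (hCSB : Stmt_CSB) (hSTH : Stmt_STH) (hINH : Stmt_INH) : Stmt_SQH := by
  intro m n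
  obtain ⟨-, hD, -, -, -, -, -, hH, -, -, -, -, hf0, hfq, hq0, hqt, -⟩ := hCSB m n
  have hth := SQH_th m n
  have key : ∃ u : ℕ → SQH_T m n, ∀ s, SQH_P m n s (u s) ∧ SQH_R m n s (u s) (u (s + 1)) := by
    apply SQH_exists
    · obtain ⟨F, Θ, ε, S, dx, tx, η, te, W, h⟩ := hINH m n
      obtain ⟨F', Θ', ε', η', W', h', -⟩ := hSTH m n F Θ 1 ε S dx tx η te W h
      refine ⟨(F', Θ', ε', η', W'), ?_⟩
      rw [one_mul] at h'
      unfold SQH_P
      rw [zero_add, pow_one]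
      exact h'
    · intro s t ht
      obtain ⟨F', Θ', ε', η', W', h', hη, hN⟩ := hSTH m n t.1 t.2.1 (KB m n ^ (s + 1)) t.2.2.1
        (fun _ => KB m n ^ (s + 1)) (fun _ => 0) (fun _ => fB m n) t.2.2.2.1 (fun _ => fB m n)
        t.2.2.2.2 ht
      refine ⟨(F', Θ', ε', η', W'), ?_, ?_, hN⟩
      · unfold SQH_P
        rw [← pow_succ] at h'
        exact h'
      · intro i
        refine (hη i).trans ?_
        rw [Finset.sum_const, Finset.sum_const, Finset.sum_const, Finset.card_univ, Finset.card_univ,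
          Fintype.card_fin, Fintype.card_fin]
        simp only [nsmul_eq_mul]
        have h1 : ((m + 1 : ℕ) : ℝ) + ((n + 1 : ℕ) : ℝ) = DD m n := by
          unfold DD
          push_cast
          ring
        have h3 : (((m + 1 : ℕ) : ℝ) + ((n + 1 : ℕ) : ℝ)) * fB m n = DD m n * fB m n := by rw [h1]
        have h4 := SQH_num hD (Or.inr hth) hf0 hfq hq0 hqt hH
        refine le_trans (le_of_eq ?_) h4
        rw [← h3]
        ring
  obtain ⟨u, hu⟩ := key
  exact ⟨fun s => (u s).1, fun s => (u s).2.1, fun s => (u s).2.2.1, fun s => (u s).2.2.2.1,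
    fun s => (u s).2.2.2.2, fun s => ⟨(hu s).1, (hu s).2.1, (hu s).2.2⟩⟩

end Pool.LH
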