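import Pool.Agent.Work.MP_7453a1_lh.Interface
import Pool.Agent.Work.MP_7453a1_lg.B_CST
import Pool.Agent.Work.MP_7453a1_lg.B_PAT
import Pool.Agent.Work.MP_7453a1_lg.B_UMO
import Pool.Agent.Work.MP_7453a1_lg.B_LNK
import Pool.Agent.Work.MP_7453a1_lg.B_SCH

set_option autoImplicit false

/-! # Block STH: a stage (prelude and main part) -/

namespace Pool.LH

open Finset Real
open Pool.LG (Pt Mat ev xv Fr Sg Dm pP pQ DD HH th LL TT xt rho ro co Ax Bx Wx Phi At Bt IsB)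

theorem STH_geom {x : ℝ} (hx0 : 0 ≤ x) (hx : x ≤ 1 / 2) (N : ℕ) :
    ∑ t ∈ range N, x ^ t ≤ 2 - 2 * (1 / 2 : ℝ) ^ N := by
  induction N with
  | zero => simp
  | succ N ih =>
    rw [sum_range_succ]
    have h1 : x ^ N ≤ (1 / 2 : ℝ) ^ N := pow_le_pow_left₀ hx0 hx N
    have h2 : (1 / 2 : ℝ) ^ (N + 1) = (1 / 2 : ℝ) ^ N * (1 / 2) := pow_succ _ _
    rw [h2]
    linarith

/-- sums over a strictly increasing sequence of exponents -/
theorem STH_sum {x : ℝ} (hx0 : 0 < x) (hx : x ≤ 1 / 2) (P : ℕ → ℕ) (hP : ∀ t, P t < P (t + 1))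
    (a b : ℕ) : ∑ t ∈ Ico a b, x ^ P t ≤ 2 * x ^ P a := by
  rw [sum_Ico_eq_sum_range]
  have h1 : ∀ t, P a + t ≤ P (a + t) := by
    intro t
    induction t with
    | zero => exact le_rfl
    | succ t ih =>
      have := hP (a + t)
      have e : a + (t + 1) = a + t + 1 := by ring
      rw [e]
      omega
  have h2 : ∑ t ∈ range (b - a), x ^ P (a + t) ≤ ∑ t ∈ range (b - a), x ^ P a * x ^ t := by
    refine sum_le_sum fun t _ => ?_
    rw [← pow_add]
    exact pow_le_pow_of_le_one hx0.le (by linarith) (h1 t)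
  refine h2.trans ?_
  rw [← mul_sum]
  have h3 := STH_geom hx0.le hx (b - a)
  have h4 : (0 : ℝ) < (1 / 2 : ℝ) ^ (b - a) := by positivity
  have h5 : 0 < x ^ P a := by positivity
  nlinarith

theorem STH_bb (t : ℕ) : bb (t + 1) = bb t + (t + 2) := by
  unfold bb
  have h : (t + 1 + 1) * (t + 1 + 2) = (t + 1) * (t + 2) + (t + 2) * 2 := by ring
  rw [h, Nat.add_mul_div_right _ _ (by norm_num)]

theorem STH_bb_le (m : ℕ) : (bb m : ℝ) ≤ ((m : ℝ) + 1) * ((m : ℝ) + 2) / 2 := by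
  unfold bb
  refine Nat.cast_div_le.trans ?_
  push_cast
  exact le_refl _

theorem STH_half : exp (1 / 2 : ℝ) ≤ 2 := by
  have h9 : exp (1 / 2 : ℝ) * exp (1 / 2 : ℝ) = exp 1 := by
    rw [← exp_add]
    norm_num
  have h10 := Real.exp_one_lt_d9
  nlinarith [exp_pos (1 / 2 : ℝ)]

theorem STH_mean {N : ℕ} (l : Fin (N + 1) → ℝ) (a b : ℝ) (h : ∀ i, a ≤ l i ∧ l i ≤ b) :
    a ≤ (∑ i, l i) / ((N : ℝ) + 1) ∧ (∑ i, l i) / ((N : ℝ) + 1) ≤ b := by
  have hN : (0 : ℝ) < (N : ℝ) + 1 := by positivity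
  constructor
  · rw [le_div_iff₀ hN]
    have h1 : ∑ _i : Fin (N + 1), a ≤ ∑ i, l i := sum_le_sum fun i _ => (h i).1
    rw [sum_const, card_univ, Fintype.card_fin, nsmul_eq_mul] at h1
    push_cast at h1
    linarith
  · rw [div_le_iff₀ hN]
    have h1 : ∑ i, l i ≤ ∑ _i : Fin (N + 1), b := sum_le_sum fun i _ => (h i).2
    rw [sum_const, card_univ, Fintype.card_fin, nsmul_eq_mul] at h1
    push_cast at h1
    linarith

theorem STH_sumδ (m : ℕ) : ∑ j : Fin (m + 1), (((j : ℕ) : ℝ) + 1 - ((m : ℝ) + 2) / 2) = 0 := by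
  have h : ∀ N : ℕ, ∑ j ∈ range N, ((j : ℝ) + 1) = (N : ℝ) * ((N : ℝ) + 1) / 2 := by
    intro N
    induction N with
    | zero => simp
    | succ N ih =>
      rw [sum_range_succ, ih]
      push_cast
      ring
  rw [Fin.sum_univ_eq_sum_range (fun j : ℕ => ((j : ℝ) + 1 - ((m : ℝ) + 2) / 2)) (m + 1),
    sum_sub_distrib, h, sum_const, card_range, nsmul_eq_mul]
  push_cast
  ring

theorem p_STH (_hPTG : Stmt_PTG) (hCSB : Stmt_CSB) (hPRT : Stmt_PRT) (hMST : Stmt_MST) :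
    Stmt_STH := by
  intro m n G Θ₀ X ε S dx tx η te W h
  obtain ⟨c1, c2, c3, c4, c5, c6, c7, c8, c9, c10, c11, c12, c13, c14, c15, c16, c17, c18, c19,
    c20, c21, c22, c23, c24, c25, c26, c27⟩ := hCSB m n
  obtain ⟨d1, d2, d3, d4, d5, d6, d7, d8, d9, d10, d11, d12, d13, d14, d15, d16, d17⟩ :=
    Pool.LG.p_CST m n
  obtain ⟨-, -, -, -, -, -, -, -, -, hWT, -, -, -⟩ :=
    Pool.LG.p_SCH Pool.LG.p_UMO (Pool.LG.p_LNK Pool.LG.p_UMO) m n
  obtain ⟨F1, Θ1, S1, tx1, s1, W1, te1, z1, P⟩ := hPRT m n G Θ₀ X ε S dx tx η te W h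
  have hX := h.Xp
  have hε := h.ep
  obtain ⟨ℓ, hℓ⟩ : ∃ ℓ, ℓ = log (L1 m n) := ⟨_, rfl⟩
  rw [← hℓ] at c7
  have hm0 : (0 : ℝ) ≤ m := Nat.cast_nonneg m
  have hn0 : (0 : ℝ) ≤ n := Nat.cast_nonneg n
  have hD : DD m n = (m : ℝ) + n + 2 := rfl
  have hD0 : 0 < DD m n := by linarith
  have hHH : 0 < HH m n := by linarith
  -- `L1`
  have h36 : (1 : ℝ) ≤ DD m n ^ 6 * 3 ^ (m + n + 2) := by
    have a1 : (1 : ℝ) ≤ DD m n ^ 6 := one_le_pow₀ (by linarith)
    have a2 : (1 : ℝ) ≤ 3 ^ (m + n + 2) := one_le_pow₀ (by norm_num)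
    exact one_le_mul_of_one_le_of_one_le a1 a2
  have hL1e : 10 ^ 6 * exp 32 ≤ L1 m n := by
    have a1 : 0 < exp (32 : ℝ) := exp_pos _
    have a2 : 10 ^ 6 * exp 32 * 1 ≤ 10 ^ 6 * exp 32 * (DD m n ^ 6 * 3 ^ (m + n + 2)) :=
      mul_le_mul_of_nonneg_left h36 (by positivity)
    have a3 : 10 ^ 6 * exp 32 * (DD m n ^ 6 * 3 ^ (m + n + 2)) =
        10 ^ 6 * DD m n ^ 6 * 3 ^ (m + n + 2) * exp 32 := by ring
    linarith
  have he32 : (1 : ℝ) ≤ exp 32 := Real.one_le_exp (by norm_num)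
  have hL1 : (10 : ℝ) ^ 6 ≤ L1 m n := by
    have a1 := mul_le_mul_of_nonneg_left he32 (by norm_num : (0 : ℝ) ≤ 10 ^ 6)
    rw [mul_one] at a1
    exact a1.trans hL1e
  have hL10 : 0 < L1 m n := by linarith
  obtain ⟨y, hy⟩ : ∃ y, y = 1 / L1 m n := ⟨_, rfl⟩
  have hy0 : 0 < y := by rw [hy]; positivity
  have hy1 : y ≤ 1 / 10 ^ 6 := by
    rw [hy]
    exact one_div_le_one_div_of_le (by norm_num) hL1
  have hye : exp 32 * y ≤ 1 / 10 ^ 6 := by
    rw [hy, mul_one_div, div_le_iff₀ hL10]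
    linarith
  -- the sum of the powers
  have hsum : ∀ a b : ℕ, ∑ t ∈ Ico a b, y ^ bb t ≤ 2 * y ^ bb a :=
    STH_sum hy0 (by linarith) bb (fun t => by rw [STH_bb]; omega)
  -- `th`, `fB`
  have hth1 : th m n ≤ 1 / 18000 := by
    refine d12.trans ?_
    apply one_div_le_one_div_of_le (by norm_num)
    have : (1 : ℝ) ≤ 3 ^ n := one_le_pow₀ (by norm_num)
    linarith
  have hfth : fB m n ≤ th m n / 1000 := by
    have e5 : qq m n * th m n ≤ 1 * th m n := mul_le_mul_of_nonneg_right c17 d7.le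
    linarith
  have hDth : DD m n * th m n ≤ 1 / 1000 := by
    rw [d10]
    apply one_div_le_one_div_of_le (by norm_num)
    have : (1 : ℝ) ≤ 3 ^ (m + n + 2) := one_le_pow₀ (by norm_num)
    linarith
  have hDf : DD m n * fB m n ≤ 1 / 1000000 := by
    have := mul_le_mul_of_nonneg_left hfth hD0.le
    linarith
  have hm1 : ((m : ℝ) + 1) ≤ DD m n := by linarith
  have hn1 : ((n : ℝ) + 1) ≤ DD m n := by linarith
  have hmf : ((m : ℝ) + 1) * fB m n ≤ 1 / 1000000 :=
    (mul_le_mul_of_nonneg_right hm1 c13.le).trans hDf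
  have hnf : ((n : ℝ) + 1) * fB m n ≤ 1 / 1000000 :=
    (mul_le_mul_of_nonneg_right hn1 c13.le).trans hDf
  have hDH : 5 * (m + 1 : ℝ) / HH m n ≤ 5 * DD m n / HH m n := by gcongr
  -- the potential
  obtain ⟨Z0, hZ0⟩ : ∃ Z0, Z0 = ∑ j, dx j + 4 * ∑ j, tx j + 4 * ∑ i, te i := ⟨_, rfl⟩
  have hpot := P.pot
  rw [← hZ0] at hpot
  have hfe : (univ.filter (fun j : Fin (m + 1) => m + 1 ≤ (j : ℕ))) = ∅ := by
    apply filter_eq_empty_iff.2
    intro j _
    have := j.2
    omega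
  rw [hfe, sum_empty, add_zero] at hpot
  push_cast at hpot
  have hZ28 : Z0 ≤ 28 / 10 := by rw [hZ0]; exact h.Zle
  have hdone : ∀ j, S1 j = X * L1 m n ^ ((j : ℕ) + 1) ∧ 0 ≤ tx1 j ∧ tx1 j ≤ 2 / HH m n :=
    fun j => P.done j j.2
  have htek : ∀ k, 0 ≤ te1 k ∧ te1 k ≤ te k + 5 * ((m : ℝ) + 1) / HH m n := by
    intro k
    have := P.tek k
    push_cast at this
    exact this
  have hs1 : 0 ≤ ∑ j, tx1 j := sum_nonneg fun j _ => (hdone j).2.1
  have hs2 : 0 ≤ ∑ i, te1 i := sum_nonneg fun i _ => (htek i).1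
  obtain ⟨Zm, hZm⟩ : ∃ Zm, Zm = Z0 + 60 * DD m n / HH m n * ((m : ℝ) + 1) := ⟨_, rfl⟩
  have h60 : 60 * DD m n / HH m n * ((m : ℝ) + 1) ≤ 60 * DD m n ^ 2 / HH m n := by
    have e1 : 60 * DD m n ^ 2 / HH m n = 60 * DD m n / HH m n * DD m n := by ring
    rw [e1]
    exact mul_le_mul_of_nonneg_left hm1 (by positivity)
  have hZm29 : Zm ≤ 29 / 10 := by rw [hZm]; linarith
  have hz13 : z1 ≤ 29 / 10 := by rw [hZm] at hZm29; linarith
  have hz10 : 0 ≤ z1 := (abs_nonneg _).trans P.las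
  -- the errors
  obtain ⟨l, hl⟩ : ∃ l : Fin (n + 1) → ℝ, ∀ i, l i = log (s1 i / ε) := ⟨_, fun _ => rfl⟩
  have hbbm : (bb m : ℝ) ≤ DD m n ^ 2 / 2 := by
    refine (STH_bb_le m).trans ?_
    have a1 : ((m : ℝ) + 1) * ((m : ℝ) + 2) ≤ DD m n * DD m n :=
      mul_le_mul hm1 (by linarith) (by linarith) hD0.le
    rw [pow_two]
    linarith
  have hbb0 : (0 : ℝ) ≤ (bb m : ℝ) * ℓ := by positivity
  have hlb : ∀ i, -((bb m : ℝ) * ℓ + 9) ≤ l i ∧ l i ≤ 9 := by
    intro i
    by_cases hi : i = Fin.last n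
    · have h1 := P.las
      rw [← hi, ← hℓ] at h1
      have h2 : (((m + 1) * (m + 1 + 1) / 2 : ℕ) : ℝ) = (bb m : ℝ) := rfl
      rw [h2, ← hl] at h1
      have h3 := abs_le.1 h1
      have h4 := abs_le.1 (h.eta i)
      constructor <;> linarith [h3.1, h3.2, h4.1, h4.2]
    · rw [hl, P.row i hi, mul_div_cancel_left₀ _ hε.ne', log_exp]
      have h4 := abs_le.1 (h.eta i)
      constructor <;> linarith [h4.1, h4.2]
  obtain ⟨μ, hμ⟩ : ∃ μ, μ = (∑ i, l i) / ((n : ℝ) + 1) := ⟨_, rfl⟩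
  have hμb := STH_mean l _ _ hlb
  rw [← hμ] at hμb
  obtain ⟨εt, hεt⟩ : ∃ εt, εt = ε * exp μ := ⟨_, rfl⟩
  have hεt0 : 0 < εt := by rw [hεt]; positivity
  have hεt9 : εt ≤ ε * exp 9 := by
    rw [hεt]
    exact mul_le_mul_of_nonneg_left (exp_le_exp.2 hμb.2) hε.le
  obtain ⟨ηt, hηt⟩ : ∃ ηt : Fin (n + 1) → ℝ, ∀ i, ηt i = l i - μ := ⟨_, fun _ => rfl⟩
  have hs1e : ∀ i, s1 i = εt * exp (ηt i) := by
    intro i
    have h1 : 0 < s1 i / ε := div_pos (P.sta.sp i) hε
    rw [hεt, hηt, mul_assoc, ← exp_add, add_sub_cancel, hl, exp_log h1]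
    field_simp
  have hηt0 : ∑ i, ηt i = 0 := by
    rw [sum_congr rfl fun i _ => hηt i, sum_sub_distrib, sum_const, card_univ, Fintype.card_fin,
      nsmul_eq_mul, hμ]
    push_cast
    field_simp
    ring
  have hdB : dB m n = DD m n ^ 2 * ℓ := by rw [hℓ]; rfl
  have hD4 : 4 ≤ DD m n ^ 2 := by
    have a1 := mul_le_mul c2 c2 (by norm_num) hD0.le
    rw [pow_two]
    linarith
  have hηtb : ∀ i, |ηt i| ≤ dB m n := by
    intro i
    rw [hηt, hdB, abs_le]
    have h1 := hlb i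
    have h2 : (bb m : ℝ) * ℓ ≤ DD m n ^ 2 / 2 * ℓ :=
      mul_le_mul_of_nonneg_right hbbm (by linarith)
    have h3 : 4 * 32 ≤ DD m n ^ 2 * ℓ := mul_le_mul hD4 c7 (by norm_num) (by positivity)
    constructor <;> linarith [h1.1, h1.2, hμb.1, hμb.2]
  -- the sizes
  obtain ⟨Xt, hXt⟩ : ∃ Xt, Xt = X * xm m n := ⟨_, rfl⟩
  have hxm0 : 0 < xm m n := by linarith
  have hXt0 : 0 < Xt := by rw [hXt]; positivity
  have hXXt : X ≤ Xt := by
    rw [hXt]
    exact le_mul_of_one_le_right hX.le c26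
  obtain ⟨δ, hδ⟩ : ∃ δ : Fin (m + 1) → ℝ,
      ∀ j, δ j = (((j : ℕ) : ℝ) + 1 - ((m : ℝ) + 2) / 2) * ℓ := ⟨_, fun _ => rfl⟩
  have hδ0 : ∑ j, δ j = 0 := by
    rw [sum_congr rfl fun j _ => hδ j, ← sum_mul, STH_sumδ, zero_mul]
  have hδb : ∀ j, |δ j| ≤ dB m n := by
    intro j
    rw [hδ, hdB, abs_mul, abs_of_nonneg (by linarith : (0 : ℝ) ≤ ℓ)]
    refine mul_le_mul_of_nonneg_right ?_ (by linarith)
    have h1 : ((j : ℕ) : ℝ) ≤ m := by
      have := j.2
      exact_mod_cast Nat.lt_succ_iff.1 this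
    have h2 : (0 : ℝ) ≤ ((j : ℕ) : ℝ) := Nat.cast_nonneg _
    have h3 : DD m n ≤ DD m n ^ 2 := le_self_pow₀ (by linarith) (by norm_num)
    rw [abs_le]
    constructor <;> linarith
  have hS1e : ∀ j, S1 j = Xt * exp (δ j) := by
    intro j
    rw [(hdone j).1, hXt, mul_assoc]
    congr 1
    have h1 : L1 m n ^ ((j : ℕ) + 1) = exp ((((j : ℕ) : ℝ) + 1) * ℓ) := by
      rw [hℓ, ← Nat.cast_succ, Real.exp_nat_mul, exp_log hL10]
    rw [h1, xm, ← exp_add, hδ, ← hℓ]
    congr 1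
    ring
  have hEB4 : 4 ≤ EB m n := by
    have h1 : 3 ≤ log (EB m n) := by
      have : 0 ≤ (1 + DD m n) * dB m n := by
        rw [hdB]
        positivity
      linarith
    have h2 : exp 3 ≤ EB m n := by
      rw [← exp_log (by linarith : 0 < EB m n)]
      exact exp_le_exp.2 h1
    have h3 := Real.add_one_le_exp (3 : ℝ)
    linarith
  have hEB0 : 0 < EB m n := by linarith
  have hLB0 : 0 < LB m n := by linarith
  -- parameters of the main part
  have hMP : MPar m n Xt εt δ tx1 ηt te1 Zm := by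
    refine ⟨hXt0, hεt0, hδb, hηtb, fun j => (hdone j).2.1, ?_, fun i => (htek i).1, ?_, ?_,
      hZm29⟩
    · have h1 : ∑ j, tx1 j ≤ ∑ _j : Fin (m + 1), 2 / HH m n :=
        sum_le_sum fun j _ => (hdone j).2.2
      rw [sum_const, card_univ, Fintype.card_fin, nsmul_eq_mul] at h1
      push_cast at h1
      have h2 : ((m : ℝ) + 1) * (2 / HH m n) ≤ 5 * DD m n / HH m n := by
        rw [mul_div_assoc', div_le_div_iff_of_pos_right hHH]
        linarith
      linarith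
    · have h1 := (htek 0).2
      have h2 := h.tez
      linarith
    · have h1 : ∑ i ∈ univ.erase 0, te1 i ≤ ∑ i ∈ univ.erase 0, (te i + 5 * DD m n / HH m n) :=
        sum_le_sum fun i _ => ((htek i).2.trans (by linarith))
      rw [sum_add_distrib, sum_const, card_erase_of_mem (mem_univ _), card_univ,
        Fintype.card_fin, nsmul_eq_mul, Nat.add_sub_cancel] at h1
      have h2 : (n : ℝ) * (5 * DD m n / HH m n) ≤ 60 * DD m n ^ 2 / HH m n := by
        rw [mul_div_assoc', div_le_div_iff_of_pos_right hHH]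
        have h5 : (n : ℝ) * (5 * DD m n) ≤ DD m n * (5 * DD m n) :=
          mul_le_mul_of_nonneg_right (by linarith) (by linarith)
        have h6 : DD m n ^ 2 = DD m n * DD m n := pow_two _
        rw [h6]
        have h7 : 0 ≤ DD m n * DD m n := mul_self_nonneg _
        linarith
      have h3 := h.ste
      linarith
  have hSta1 : Sta m n (pP m) (pR n (qq m n)) F1 Θ1 (fun j => Xt * exp (δ j)) tx1
      (fun i => εt * exp (ηt i)) W1 te1 := by
    have h1 : S1 = fun j => Xt * exp (δ j) := funext hS1e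
    have h2 : s1 = fun i => εt * exp (ηt i) := funext hs1e
    rw [← h1, ← h2]
    exact P.sta
  have hW1 : ∀ k, W1 k ≤ 3 / 2 * (Xt * EB m n) := by
    intro k
    refine (P.sW k).trans ?_
    have h1 : X * 4 ≤ Xt * EB m n := mul_le_mul hXXt hEB4 (by norm_num) hXt0.le
    linarith
  obtain ⟨F, Θ, ε', η', W', hSta, hε'0, hη'0, hη'b, hε'le, hW', hflo, hmov⟩ :=
    hMST m n F1 Θ1 Xt εt δ tx1 ηt te1 W1 Zm hMP hδ0 hηt0 hSta1 hW1 (by rw [hZm]; linarith)
  have hXK : X * KB m n = Xt * LB m n ^ At m n := by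
    rw [hXt, KB, mul_assoc]
  have hKB0 : 0 < KB m n := by rw [KB]; positivity
  have hEL : EB m n ≤ LB m n := by
    have h1 : fB m n ^ 2 ≤ 1 := by
      have : fB m n ≤ 1 := by linarith
      exact pow_le_one₀ c13.le this
    have h2 := c25.trans h1
    rwa [div_le_one hLB0] at h2
  -- the movement in the main part
  have hEL2 : ∀ j, j ≤ m → 10 * EB m n ^ 2 * (εt / Xt) / LB m n ≤
      10 * exp 9 * (ε / X) * y ^ (bb j + 6) := by
    intro j hj
    have h1 := c24 j hj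
    rw [← hy] at h1
    have h2 : εt / Xt ≤ exp 9 * (ε / X) := by
      rw [mul_div_assoc', div_le_div_iff₀ hXt0 hX]
      have h3 : εt * X ≤ ε * exp 9 * Xt := mul_le_mul hεt9 hXXt hX.le (by positivity)
      linarith
    have h4 : 10 * EB m n ^ 2 * (εt / Xt) / LB m n = 10 * (εt / Xt) * (EB m n ^ 2 / LB m n) := by
      ring
    rw [h4]
    have h5 : 10 * (εt / Xt) * (EB m n ^ 2 / LB m n) ≤
        10 * (exp 9 * (ε / X)) * y ^ (bb j + 6) := by
      refine mul_le_mul (by linarith) h1 (by positivity) (by positivity)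
    calc _ ≤ _ := h5
      _ = _ := by ring
  have hGX : ∀ (j : Fin (m + 1)) p, |((G.v j).1 p : ℝ)| ≤ 3 * X := by
    intro j p
    have h1 := h.sta.hx j p
    obtain ⟨⟨pa1, -⟩, -⟩ := Pool.LG.p_PAT m
    have h2 := pa1 j p
    have hSp := h.sta.Sp j
    have h3 : tx j ≤ 1 / 20 := (single_le_sum (fun l _ => h.txp l) (mem_univ j)).trans h.stx
    have h4 : S j ≤ 2 * X := by
      have h5 := (abs_le.1 (h.dS j)).2
      have h6 := (h.dxp j).2
      have h7 : S j / X ≤ exp (1 / 2) := by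
        rw [← exp_log (div_pos hSp hX)]
        exact exp_le_exp.2 (by linarith)
      rw [div_le_iff₀ hX] at h7
      exact h7.trans (mul_le_mul_of_nonneg_right STH_half hX.le)
    have h5 := abs_le.1 h1
    change |G.X j p| ≤ 3 * X
    have h6 : tx j * S j ≤ 1 / 20 * S j := mul_le_mul_of_nonneg_right h3 hSp.le
    have h7 : S j * pP m j p ≤ S j * (7 / 5) := mul_le_mul_of_nonneg_left h2.2 hSp.le
    have h8 : 0 ≤ S j * pP m j p := mul_nonneg hSp.le h2.1
    rw [abs_le]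
    constructor <;> linarith [h5.1, h5.2]
  have hmv2 : ∀ (j : Fin (m + 1)) p, |ev Θ (G.v j) p - ev Θ1 (G.v j) p| ≤
      30 * exp 9 * ε * y ^ (bb j + 6) := by
    intro j p
    refine (hmov (G.v j) (3 * X) (fun q => hGX j q) p).trans ?_
    have h1 := hEL2 j (Nat.lt_succ_iff.1 j.2)
    have h2 := mul_le_mul_of_nonneg_right h1 (by positivity : (0 : ℝ) ≤ 3 * X)
    have h3 : 10 * EB m n ^ 2 * (εt / Xt) / LB m n * (3 * X) =
        10 * EB m n ^ 2 * (εt / Xt) * (3 * X) / LB m n := by ring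
    have h4 : 10 * exp 9 * (ε / X) * y ^ (bb j + 6) * (3 * X) =
        30 * exp 9 * ε * y ^ (bb j + 6) := by
      field_simp
      ring
    linarith
  have hsumj : ∀ j : Fin (m + 1), ∑ t ∈ Ico ((j : ℕ) + 1) (m + 1), y ^ bb t ≤
      2 * y ^ 2 * y ^ bb j := by
    intro j
    refine (hsum _ _).trans ?_
    rw [STH_bb, mul_assoc, ← pow_add]
    have h2 : y ^ (bb (j : ℕ) + ((j : ℕ) + 2)) ≤ y ^ (2 + bb (j : ℕ)) :=
      pow_le_pow_of_le_one hy0.le (by linarith) (by omega)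
    linarith
  have hy2 : y ^ 2 ≤ y / 10 ^ 6 := by
    rw [pow_two]
    have := mul_le_mul_of_nonneg_left hy1 hy0.le
    linarith
  have hy6 : y ^ 6 ≤ y ^ 2 := pow_le_pow_of_le_one hy0.le (by linarith) (by norm_num)
  refine ⟨F, Θ, ε', η', W', ?_, ?_, ?_⟩
  · refine ⟨?_, by positivity, hε'0, hη'0, ?_, ?_, ?_, fun _ => c13.le, ?_, fun _ => c13.le, ?_,
      ?_, ?_, ?_⟩
    · rw [hXK]
      exact hSta
    · intro i
      have := hη'b i
      linarith
    · intro j
      rw [div_self (by positivity), log_one, abs_zero]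
    · intro j
      constructor <;> norm_num
    · rw [sum_const, card_univ, Fintype.card_fin, nsmul_eq_mul]
      push_cast
      linarith
    · linarith
    · rw [sum_const, card_erase_of_mem (mem_univ _), card_univ, Fintype.card_fin, nsmul_eq_mul,
        Nat.add_sub_cancel]
      have : (n : ℝ) * fB m n ≤ ((n : ℝ) + 1) * fB m n :=
        mul_le_mul_of_nonneg_right (by linarith) c13.le
      linarith
    · intro k
      refine (hW' k).trans ?_
      rw [hXK]
      have h1 : LB m n ^ (Wx m n (TT m n) k + 1) ≤ LB m n ^ At m n :=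
        pow_le_pow_right₀ (by linarith) (hWT k)
      have h2 : Xt * EB m n * LB m n ^ Wx m n (TT m n) k ≤ Xt * LB m n ^ At m n := by
        calc Xt * EB m n * LB m n ^ Wx m n (TT m n) k
            ≤ Xt * LB m n * LB m n ^ Wx m n (TT m n) k := by gcongr
          _ = Xt * LB m n ^ (Wx m n (TT m n) k + 1) := by rw [pow_succ]; ring
          _ ≤ _ := by gcongr
      have h3 : 0 < Xt * LB m n ^ At m n := by positivity
      linarith
    · rw [sum_const_zero, sum_const, sum_const, card_univ, card_univ, Fintype.card_fin,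
        Fintype.card_fin, nsmul_eq_mul, nsmul_eq_mul]
      push_cast
      linarith
  · intro i
    have h1 := hη'b i
    rw [← hZ0]
    rw [hZm] at h1
    linarith
  · refine ⟨?_, ?_, ?_, ?_, ?_, ?_⟩
    · refine hε'le.trans ?_
      have h1 : exp (12 : ℝ) = exp 9 * exp 3 := by
        rw [← exp_add]
        norm_num
      rw [h1]
      have h2 : 0 ≤ exp (3 : ℝ) * (1 / LB m n) ^ Bt m n := by positivity
      have h3 := mul_le_mul_of_nonneg_right hεt9 h2
      calc εt * exp 3 * (1 / LB m n) ^ Bt m n = εt * (exp 3 * (1 / LB m n) ^ Bt m n) := by ring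
        _ ≤ _ := h3
        _ = _ := by ring
    · intro w R hR p
      have hR0 : 0 ≤ R := (abs_nonneg _).trans (hR 0)
      have h1 := P.mov w R hR p
      have h2 := hmov w R hR p
      rw [← hy] at h1
      have h3 : ∑ t ∈ range (m + 1), y ^ bb t ≤ 2 * y := by
        rw [← Nat.Ico_zero_eq_range]
        refine (hsum 0 _).trans ?_
        have h4 : bb 0 = 1 := rfl
        rw [h4, pow_one]
      have h4 : 5 * exp 9 * (ε / X) * R * ∑ t ∈ range (m + 1), y ^ bb t ≤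
          5 * exp 9 * (ε / X) * R * (2 * y) :=
        mul_le_mul_of_nonneg_left h3 (by positivity)
      have h5 := mul_le_mul_of_nonneg_right (hEL2 0 (Nat.zero_le _)) hR0
      have h6 : 10 * EB m n ^ 2 * (εt / Xt) / LB m n * R =
          10 * EB m n ^ 2 * (εt / Xt) * R / LB m n := by ring
      have h7 : y ^ (bb 0 + 6) ≤ y / 10 := by
        have h8 : y ^ (bb 0 + 6) ≤ y ^ 2 := pow_le_pow_of_le_one hy0.le (by linarith) (by omega)
        linarith
      have h8 : 10 * exp 9 * (ε / X) * y ^ (bb 0 + 6) * R ≤ 10 * exp 9 * (ε / X) * (y / 10) * R := by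
        gcongr
      have h9 := abs_sub_le (ev Θ w p) (ev Θ1 w p) (ev Θ₀ w p)
      have h10 : 12 * exp 9 * (ε / X) * R / L1 m n = 12 * exp 9 * (ε / X) * R * y := by
        rw [hy]
        ring
      rw [h10]
      have h11 : 0 ≤ exp 9 * (ε / X) * R * y := by positivity
      linarith
    · intro j p
      have h1 := P.mob j j.2 p
      have h2 := hmv2 j p
      rw [← hy] at h1 ⊢
      have h3 := hsumj j
      have h4 : |ev Θ (G.v j) p| ≤ |ev Θ (G.v j) p - ev Θ1 (G.v j) p| + |ev Θ1 (G.v j) p| := by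
        have := abs_add_le (ev Θ (G.v j) p - ev Θ1 (G.v j) p) (ev Θ1 (G.v j) p)
        rwa [sub_add_cancel] at this
      have hq : 0 < exp 9 * ε * y ^ bb (j : ℕ) := by positivity
      have h5 : ε * (2 * exp 9 * y ^ bb (j : ℕ) + 15 * exp 9 *
          ∑ t ∈ Ico ((j : ℕ) + 1) (m + 1), y ^ bb t) ≤
          ε * (2 * exp 9 * y ^ bb (j : ℕ) + 15 * exp 9 * (2 * y ^ 2 * y ^ bb (j : ℕ))) := by
        gcongr
      have h6 : ε * (2 * exp 9 * y ^ bb (j : ℕ) + 15 * exp 9 * (2 * y ^ 2 * y ^ bb (j : ℕ))) =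
          (exp 9 * ε * y ^ bb (j : ℕ)) * (2 + 30 * y ^ 2) := by ring
      have h7 : 30 * exp 9 * ε * y ^ (bb (j : ℕ) + 6) =
          (exp 9 * ε * y ^ bb (j : ℕ)) * (30 * y ^ 6) := by
        rw [pow_add]
        ring
      have h8 : (exp 9 * ε * y ^ bb (j : ℕ)) * (2 + 30 * y ^ 2 + 30 * y ^ 6) ≤
          (exp 9 * ε * y ^ bb (j : ℕ)) * 3 :=
        mul_le_mul_of_nonneg_left (by linarith) hq.le
      have h9 : 3 * exp 9 * ε * y ^ bb (j : ℕ) = (exp 9 * ε * y ^ bb (j : ℕ)) * 3 := by ring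
      rw [h9]
      linarith
    · intro j
      have h1 := P.mol j j.2
      have h2 := (abs_le.1 (hmv2 j (Fin.last n))).1
      rw [← hy] at h1 ⊢
      have h3 := hsumj j
      have hq : 0 < ε * y ^ bb (j : ℕ) := by positivity
      have h5 : ε * (exp (-10) * y ^ bb (j : ℕ) - 15 * exp 9 * (2 * y ^ 2 * y ^ bb (j : ℕ))) ≤
          ε * (exp (-10) * y ^ bb (j : ℕ) - 15 * exp 9 *
          ∑ t ∈ Ico ((j : ℕ) + 1) (m + 1), y ^ bb t) := by
        gcongr
      have h6 : ε * (exp (-10) * y ^ bb (j : ℕ) - 15 * exp 9 * (2 * y ^ 2 * y ^ bb (j : ℕ))) =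
          (ε * y ^ bb (j : ℕ)) * (exp (-10) - 30 * exp 9 * y ^ 2) := by ring
      have h7 : 30 * exp 9 * ε * y ^ (bb (j : ℕ) + 6) =
          (ε * y ^ bb (j : ℕ)) * (30 * exp 9 * y ^ 6) := by
        rw [pow_add]
        ring
      -- `60 e^9 y^2 ≤ e^(-11)`
      have h8 : 60 * exp 9 * y ^ 2 ≤ exp (-11) := by
        have e1 : exp (32 : ℝ) = exp 9 * exp 23 := by
          rw [← exp_add]
          norm_num
        have e2 : exp (-11 : ℝ) * exp 11 = 1 := by
          rw [← exp_add]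
          norm_num
        have e3 : exp (11 : ℝ) ≤ exp 23 := exp_le_exp.2 (by norm_num)
        have e4 : (0 : ℝ) < exp (-11) := exp_pos _
        have e5 : (0 : ℝ) < exp 9 := exp_pos _
        have e6 : (0 : ℝ) < exp 11 := exp_pos _
        rw [e1] at hye
        have e7 : exp 9 * exp 11 * y ≤ exp 9 * exp 23 * y := by gcongr
        have e8 : exp 9 * exp 11 * y ≤ 1 := by linarith
        have e9 : 60 * exp 9 * y ^ 2 = exp (-11) * ((exp 9 * exp 11 * y) * (60 * y)) := by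
          calc 60 * exp 9 * y ^ 2 = (exp (-11) * exp 11) * (60 * exp 9 * y ^ 2) := by
                rw [e2, one_mul]
            _ = _ := by ring
        rw [e9]
        have e10 : (exp 9 * exp 11 * y) * (60 * y) ≤ 1 * 1 := by
          apply mul_le_mul e8 (by linarith) (by positivity) (by norm_num)
        calc exp (-11) * ((exp 9 * exp 11 * y) * (60 * y)) ≤ exp (-11) * (1 * 1) := by gcongr
          _ = exp (-11) := by ring
      have h9 : 2 * exp (-11 : ℝ) ≤ exp (-10) := by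
        have e1 : exp (-10 : ℝ) = exp 1 * exp (-11) := by
          rw [← exp_add]
          norm_num
        have e2 := Real.add_one_le_exp (1 : ℝ)
        have e3 : (2 : ℝ) ≤ exp 1 := by linarith
        rw [e1]
        exact mul_le_mul_of_nonneg_right e3 (exp_pos _).le
      have h10 : 30 * exp 9 * y ^ 6 ≤ 30 * exp 9 * y ^ 2 := by gcongr
      have h11 : (ε * y ^ bb (j : ℕ)) * exp (-11) ≤
          (ε * y ^ bb (j : ℕ)) * (exp (-10) - 30 * exp 9 * y ^ 2 - 30 * exp 9 * y ^ 6) :=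
        mul_le_mul_of_nonneg_left (by linarith) hq.le
      have h12 : exp (-11) * ε * y ^ bb (j : ℕ) = (ε * y ^ bb (j : ℕ)) * exp (-11) := by ring
      rw [h12]
      linarith
    · intro k
      have := hflo k
      rw [hXt] at this
      exact this
    · intro k p
      have h1 := (hSta.hw k p).trans (hW' k)
      rw [hXt] at h1
      exact h1

end Pool.LH
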