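import Pool.Agent.Work.MP_7453a1_lh.Interface
import Pool.Agent.Work.MP_7453a1_lg.B_GOD
import Pool.Agent.Work.MP_7453a1_lg.B_DUA
import Pool.Agent.Work.MP_7453a1_lg.B_LGI
import Pool.Agent.Work.MP_7453a1_lg.B_STP

set_option autoImplicit false

/-!
# Block SXG: a step of the first kind (general patterns)
-/

namespace Pool.LH

open Finset Real
open Pool.LG (Pt Mat ev xv Fr Sg Dm pP pQ DD HH th LL TT xt rho ro co Ax Bx Wx Phi At Bt IsB)

theorem SXG_hold {ι : Type} [Fintype ι] (ξ g : ι → ℝ) (A B : ℝ) (hB : 0 ≤ B) (hξ : ∑ l, |ξ l| ≤ A)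
    (hg : ∀ l, |g l| ≤ B) : |∑ l, ξ l * g l| ≤ A * B := by
  calc |∑ l, ξ l * g l| ≤ ∑ l, |ξ l * g l| := Finset.abs_sum_le_sum_abs _ _
    _ ≤ ∑ l, |ξ l| * B := Finset.sum_le_sum fun l _ => by
        rw [abs_mul]; exact mul_le_mul_of_nonneg_left (hg l) (abs_nonneg _)
    _ = (∑ l, |ξ l|) * B := by rw [Finset.sum_mul]
    _ ≤ A * B := mul_le_mul_of_nonneg_right hξ hB

theorem SXG_X {m n : ℕ} (F : Fr m n) (i : Fin (n + 1)) (j : Fin (m + 1)) (d : Fin (m + 1) → ℤ) (p : Fin (m + 1)) :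
    Fr.X (F.nxt i j (fun _ => 0) d) j p = ∑ l, 2 * (d l : ℝ) * F.X l p - F.U i p := by
  have h : ((F.nxt i j (fun _ => 0) d).v j).1 p = ∑ l, 2 * d l * (F.v l).1 p - (F.f i).1 p := by
    simp [Fr.nxt, Prod.fst_sum, Finset.sum_apply]
  unfold Fr.X Fr.U
  rw [h]
  push_cast
  rfl

theorem SXG_X' {m n : ℕ} (F : Fr m n) (i : Fin (n + 1)) (j : Fin (m + 1)) (c : Fin (n + 1) → ℤ)
    (d : Fin (m + 1) → ℤ) {l : Fin (m + 1)} (hl : l ≠ j) : (F.nxt i j c d).v l = F.v l := by
  simp [Fr.nxt, Function.update_of_ne hl]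

theorem SXG_f' {m n : ℕ} (F : Fr m n) (i : Fin (n + 1)) (j : Fin (m + 1)) (c : Fin (n + 1) → ℤ)
    (d : Fin (m + 1) → ℤ) {k : Fin (n + 1)} (hk : k ≠ i) : (F.nxt i j c d).f k = F.f k := by
  simp [Fr.nxt, Function.update_of_ne hk]

theorem SXG_f {m n : ℕ} (F : Fr m n) (i : Fin (n + 1)) (j : Fin (m + 1)) (c : Fin (n + 1) → ℤ)
    (d : Fin (m + 1) → ℤ) : (F.nxt i j c d).f i = F.v j := by
  simp [Fr.nxt]

theorem p_SXG (hDMG : Stmt_DMG) : Stmt_SXG := by
  intro m n px pe hpx hpe H hH F Θ S tx s W te hsta htx i j S' hte hS hWs hWi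
  have hGOD := Pool.LG.p_GOD
  have hDUA := Pool.LG.p_DUA
  have hLGI := Pool.LG.p_LGI
  have hSTP : Pool.LG.Stmt_STP := Pool.LG.p_STP Pool.LG.p_DUA
  have hD : (2 : ℝ) ≤ DD m n := by
    unfold DD
    have h1 : (0 : ℝ) ≤ m := Nat.cast_nonneg m
    have h2 : (0 : ℝ) ≤ n := Nat.cast_nonneg n
    linarith
  have hH2 : (2000 : ℝ) ≤ H := by linarith
  have hH0 : (0 : ℝ) < H := by linarith
  have hSp := hsta.Sp
  have hsp := hsta.sp
  have hSj := hSp j
  have hsi := hsp i
  have hS'0 : 0 < S' := lt_of_lt_of_le (mul_pos hH0 (hSp j)) (hS j)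
  have hinvH : 1 / H ≤ 1 / 2000 := one_div_le_one_div_of_le (by norm_num) hH2
  have hinvH0 : 0 < 1 / H := one_div_pos.2 hH0
  -- the tolerances are nonnegative
  have htx0 : ∀ l, 0 ≤ tx l := by
    intro l
    have h := le_trans (abs_nonneg _) (hsta.hx l l)
    exact nonneg_of_mul_nonneg_left h (hSp l)
  have htxj : tx j ≤ 9 / 100 := le_trans (Finset.single_le_sum (fun l _ => htx0 l) (mem_univ j)) htx
  have hW0 : ∀ k, 0 ≤ W k := fun k => le_trans (abs_nonneg _) (hsta.hw k 0)
  -- the old frame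
  obtain ⟨hDm, hcol, h32⟩ := hDMG (m + 1) px hpx F.X S tx hSp hsta.hx (by linarith)
  obtain ⟨Z, hZ1, hZ2, hZ3⟩ := hDUA (m + 1) F.X S hDm
  set T : Fin (m + 1) → ℝ := fun p => S' * px j p + F.U i p with hT
  set γ : Fin (m + 1) → ℝ := fun l => ∑ q, Z l q * T q with hγ
  have hγT : ∀ p, ∑ l, γ l * F.X l p = T p := by
    intro p
    have h1 : ∀ l, γ l * F.X l p = ∑ q, F.X l p * Z l q * T q := by
      intro l
      simp only [hγ]
      rw [Finset.sum_mul]
      exact Finset.sum_congr rfl fun q _ => by ring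
    rw [Finset.sum_congr rfl fun l _ => h1 l, Finset.sum_comm]
    have h2 : ∀ q, ∑ l, F.X l p * Z l q * T q = (if p = q then 1 else 0) * T q := by
      intro q
      rw [← Finset.sum_mul, hZ3]
    rw [Finset.sum_congr rfl fun q _ => h2 q]
    simp
  set d : Fin (m + 1) → ℤ := fun l => round (γ l / 2) with hd
  set θ : Fin (m + 1) → ℝ := fun l => 2 * (d l : ℝ) - γ l with hθ
  have hθ1 : ∀ l, |θ l| ≤ 1 := by
    intro l
    have h1 := abs_sub_round (γ l / 2)
    have h2 : θ l = -2 * (γ l / 2 - (round (γ l / 2) : ℝ)) := by simp only [hθ, hd]; ring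
    rw [h2, abs_mul]
    have : |(-2 : ℝ)| = 2 := by norm_num
    rw [this]; linarith
  set F' := F.nxt i j (fun _ => 0) d with hF'
  have hXj : ∀ p, F'.X j p = S' * px j p + ∑ l, θ l * F.X l p := by
    intro p
    rw [hF', SXG_X]
    have h1 : ∑ l, 2 * (d l : ℝ) * F.X l p = ∑ l, γ l * F.X l p + ∑ l, θ l * F.X l p := by
      rw [← Finset.sum_add_distrib]
      exact Finset.sum_congr rfl fun l _ => by simp only [hθ]; ring
    rw [h1, hγT]
    simp only [hT]; ring
  have hθX : ∀ p, |∑ l, θ l * F.X l p| ≤ 2 / H * S' := by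
    intro p
    have h1 : |∑ l, θ l * F.X l p| ≤ ∑ l, S' / H * (|F.X l p| / S l) := by
      refine le_trans (Finset.abs_sum_le_sum_abs _ _) (Finset.sum_le_sum fun l _ => ?_)
      rw [abs_mul]
      have h2 : S l ≤ S' / H := by rw [le_div_iff₀ hH0]; linarith [hS l]
      have h3 : |θ l| * |F.X l p| ≤ 1 * |F.X l p| := mul_le_mul_of_nonneg_right (hθ1 l) (abs_nonneg _)
      have h4 : |F.X l p| = S l * (|F.X l p| / S l) := by field_simp [(hSp l).ne']
      calc |θ l| * |F.X l p| ≤ |F.X l p| := by linarith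
        _ = S l * (|F.X l p| / S l) := h4
        _ ≤ S' / H * (|F.X l p| / S l) :=
          mul_le_mul_of_nonneg_right h2 (div_nonneg (abs_nonneg _) (hSp l).le)
    rw [← Finset.mul_sum] at h1
    have h5 : S' / H * ∑ l, |F.X l p| / S l ≤ S' / H * (33 / 20) :=
      mul_le_mul_of_nonneg_left (hcol p) (div_nonneg hS'0.le hH0.le)
    have h6 : 2 / H * S' = S' / H * 2 := by ring
    have h7 : 0 ≤ S' / H := div_nonneg hS'0.le hH0.le
    rw [h6]; nlinarith
  -- the new sizes and tolerances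
  set S1 := Function.update S j S' with hS1
  set tx1 := Function.update tx j (2 / H) with htx1
  have hS1j : S1 j = S' := by simp [hS1]
  have hS1l : ∀ l, l ≠ j → S1 l = S l := fun l hl => by simp [hS1, Function.update_of_ne hl]
  have htx1j : tx1 j = 2 / H := by simp [htx1]
  have htx1l : ∀ l, l ≠ j → tx1 l = tx l := fun l hl => by simp [htx1, Function.update_of_ne hl]
  have hS1p : ∀ l, 0 < S1 l := by
    intro l
    by_cases hl : l = j
    · rw [hl, hS1j]; exact hS'0
    · rw [hS1l l hl]; exact hSp l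
  have hx1 : ∀ l p, |F'.X l p - S1 l * px l p| ≤ tx1 l * S1 l := by
    intro l p
    by_cases hl : l = j
    · rw [hl, hS1j, htx1j, hXj]
      have : S' * px j p + ∑ l, θ l * F.X l p - S' * px j p = ∑ l, θ l * F.X l p := by ring
      rw [this]; exact hθX p
    · rw [hS1l l hl, htx1l l hl]
      have : F'.X l p = F.X l p := by unfold Fr.X; rw [hF', SXG_X' F i j _ d hl]
      rw [this]; exact hsta.hx l p
  have htx1s : ∑ l, tx1 l ≤ 1 / 10 := by
    have h1 : ∑ l, tx1 l = ∑ l ∈ univ.erase j, tx1 l + tx1 j := (Finset.sum_erase_add _ _ (mem_univ j)).symm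
    have h2 : ∑ l, tx l = ∑ l ∈ univ.erase j, tx l + tx j := (Finset.sum_erase_add _ _ (mem_univ j)).symm
    have h3 : ∑ l ∈ univ.erase j, tx1 l = ∑ l ∈ univ.erase j, tx l :=
      Finset.sum_congr rfl fun l hl => htx1l l (Finset.ne_of_mem_erase hl)
    have h4 : 2 / H = 2 * (1 / H) := by ring
    rw [h1, h3, htx1j, h4]
    linarith [htx0 j]
  obtain ⟨hDm1, -, -⟩ := hDMG (m + 1) px hpx F'.X S1 tx1 hS1p hx1 htx1s
  obtain ⟨Θ', ξ, hcen, hξ, hev, hq⟩ := hSTP m n F Θ hsta.cen i j (fun _ => 0) d S1 hDm1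
  rw [hS1j] at hξ
  simp only [Int.cast_zero, mul_zero, zero_mul, Finset.sum_const_zero, add_zero] at hev hq
  -- the error of f i
  set E : Fin (n + 1) → ℝ := fun p => ev Θ (F.f i) p with hE
  have hEb : ∀ p, |E p| ≤ 48 / 25 * s i := by
    intro p
    have h1 := hsta.he i p
    have h2 : 0 ≤ pe i p ∧ pe i p ≤ 7 / 5 := ⟨hpe.nn i p, hpe.le i p⟩
    have h3 : |E p| ≤ |E p - s i * pe i p| + |s i * pe i p| := by
      have := abs_add_le (E p - s i * pe i p) (s i * pe i p)
      rwa [sub_add_cancel] at this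
    have h4 : |s i * pe i p| ≤ 7 / 5 * s i := by
      rw [abs_mul, abs_of_pos hsi, abs_of_nonneg h2.1]
      nlinarith [h2.2]
    have h5 : te i * s i ≤ 13 / 25 * s i := mul_le_mul_of_nonneg_right hte hsi.le
    have h6 : |E p - s i * pe i p| ≤ te i * s i := h1
    linarith
  have hmv : ∀ (g : Fin (m + 1) → ℝ) (R : ℝ), 0 ≤ R → (∀ l, |g l| ≤ R) → ∀ p,
      |E p * ∑ l, ξ l * g l| ≤ 3 * (s i * R / S') := by
    intro g R hR hg p
    have h1 := SXG_hold ξ g _ R hR hξ hg
    rw [abs_mul]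
    have h2 : |E p| * |∑ l, ξ l * g l| ≤ (48 / 25 * s i) * (25 / (16 * S') * R) :=
      mul_le_mul (hEb p) h1 (abs_nonneg _) (by positivity)
    have h3 : (48 / 25 * s i) * (25 / (16 * S') * R) = 3 * (s i * R / S') := by
      field_simp
      ring
    rw [h3] at h2; exact h2
  -- y
  set y : ℝ := ∑ l, ξ l * F.U i l with hy
  have hyb : |y| ≤ 25 / 16 * (1 / H) := by
    have h1 := SXG_hold ξ (fun l => F.U i l) _ (W i) (hW0 i) hξ (fun l => hsta.hw i l)
    have h2 : 25 / (16 * S') * W i ≤ 25 / 16 * (1 / H) := by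
      have h3 : W i ≤ S' / H := by rw [le_div_iff₀ hH0]; linarith
      calc 25 / (16 * S') * W i ≤ 25 / (16 * S') * (S' / H) := mul_le_mul_of_nonneg_left h3 (by positivity)
        _ = 25 / 16 * (1 / H) := by field_simp
    exact le_trans h1 h2
  -- u
  set u : ℝ := 2 * (d j : ℝ) * S j / S' - 1 with hu
  have hub : |u| ≤ 25 / 16 * tx j + 25 / 16 * (1 / H) + 1 / H := by
    have h1 : γ j = S' / S j + ∑ q, Z j q * (F.U i q - S' / S j * (F.X j q - S j * px j q)) := by
      have h2 : ∀ q, Z j q * T q = S' / S j * (Z j q * F.X j q) +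
          Z j q * (F.U i q - S' / S j * (F.X j q - S j * px j q)) := by
        intro q
        simp only [hT]
        field_simp
        ring
      have h3 := hZ1 j j
      rw [if_pos rfl] at h3
      change ∑ q, Z j q * T q = _
      rw [Finset.sum_congr rfl fun q _ => h2 q, Finset.sum_add_distrib, ← Finset.mul_sum, h3, mul_one]
    have h4 : |∑ q, Z j q * (F.U i q - S' / S j * (F.X j q - S j * px j q))| ≤
        25 / (16 * S j) * (W i + S' * tx j) := by
      refine SXG_hold _ _ _ _ (by have := hW0 i; have := htx0 j; positivity) (hZ2 j) fun q => ?_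
      refine le_trans (abs_sub _ _) ?_
      have h5 := hsta.hw i q
      have h6 : |S' / S j * (F.X j q - S j * px j q)| ≤ S' * tx j := by
        rw [abs_mul, abs_of_pos (div_pos hS'0 hSj)]
        calc S' / S j * |F.X j q - S j * px j q| ≤ S' / S j * (tx j * S j) :=
              mul_le_mul_of_nonneg_left (hsta.hx j q) (div_pos hS'0 hSj).le
          _ = S' * tx j := by field_simp
      linarith
    have h7 : u = (∑ q, Z j q * (F.U i q - S' / S j * (F.X j q - S j * px j q))) * (S j / S') +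
        θ j * (S j / S') := by
      have h8 : 2 * (d j : ℝ) = γ j + θ j := by simp only [hθ]; ring
      rw [hu, h8, h1]
      field_simp
      ring
    have hr0 : 0 < S j / S' := div_pos hSj hS'0
    have hr1 : S j / S' ≤ 1 / H := by
      rw [div_le_div_iff₀ hS'0 hH0]; linarith [hS j]
    have h9 : W i / S' ≤ 1 / H := by
      rw [div_le_div_iff₀ hS'0 hH0]; linarith
    rw [h7]
    refine le_trans (abs_add_le _ _) ?_
    rw [abs_mul, abs_mul, abs_of_pos hr0]
    have h10 : |∑ q, Z j q * (F.U i q - S' / S j * (F.X j q - S j * px j q))| * (S j / S') ≤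
        25 / (16 * S j) * (W i + S' * tx j) * (S j / S') := mul_le_mul_of_nonneg_right h4 hr0.le
    have h11 : 25 / (16 * S j) * (W i + S' * tx j) * (S j / S') = 25 / 16 * (W i / S') + 25 / 16 * tx j := by
      field_simp
    have h12 : |θ j| * (S j / S') ≤ 1 * (1 / H) := mul_le_mul (hθ1 j) hr1 hr0.le (by norm_num)
    rw [h11] at h10
    linarith
  have hu17 : |u| ≤ 17 / 20 := by linarith
  have hy17 : |y| ≤ 17 / 20 := by linarith
  have hu1 : 0 < 1 + u := by have := (abs_le.1 hu17).1; linarith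
  have hy1 : 0 < 1 + y := by have := (abs_le.1 hy17).1; linarith
  have hdj : 2 * (d j : ℝ) = (1 + u) * (S' / S j) := by rw [hu]; field_simp; ring
  have hdj0 : 0 < 2 * (d j : ℝ) := by rw [hdj]; positivity
  set q : ℝ := ∑ l, ξ l * F.X j l with hqd
  have hqe : q = (1 + y) / (2 * (d j : ℝ)) := by
    rw [eq_div_iff hdj0.ne', mul_comm]; exact hq
  have hq0 : 0 < q := by rw [hqe]; positivity
  have hlog : q * S' / S j = (1 + y) / (1 + u) := by
    rw [hqe, hdj]; field_simp
  refine ⟨F', Θ', q * s i, ⟨?_, ?_, ?_, ?_, ?_, ?_, ?_⟩, SXG_f F i j _ d, fun k hk => SXG_f' F i j _ d hk,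
    fun l hl => SXG_X' F i j _ d hl, ?_, ?_⟩
  · exact hGOD m n F i j (fun _ => 0) d rfl hsta.good
  · exact hcen
  · exact hS1p
  · intro k
    by_cases hk : k = i
    · rw [hk, Function.update_self]; exact mul_pos hq0 hsi
    · rw [Function.update_of_ne hk]; exact hsp k
  · exact hx1
  · intro k p
    by_cases hk : k = i
    · subst hk
      rw [Function.update_self, if_pos rfl, hF', SXG_f, hev, hsta.cen j p, zero_add]
      change |E p * q - q * s k * pe k p| ≤ te k * (q * s k)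
      have h1 : E p * q - q * s k * pe k p = q * (E p - s k * pe k p) := by ring
      rw [h1, abs_mul, abs_of_pos hq0]
      have h2 := mul_le_mul_of_nonneg_left (hsta.he k p) hq0.le
      linarith
    · rw [Function.update_of_ne hk, if_neg hk, hF', SXG_f' F i j _ d hk, hev]
      have h1 := hmv (fun l => F.U k l) (W k) (hW0 k) (fun l => hsta.hw k l) p
      have h2 : 3 * (s i * W k / S') ≤ 5 / H * s k := by
        have h3 : s i * W k / S' ≤ s k / H := by
          rw [div_le_div_iff₀ hS'0 hH0]; linarith [hWs k hk]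
        have h4 : 0 ≤ s k / H := div_nonneg (hsp k).le hH0.le
        have h5 : 5 / H * s k = 5 * (s k / H) := by ring
        rw [h5]; linarith
      have h6 : |ev Θ (F.f k) p - s k * pe k p| ≤ te k * s k := hsta.he k p
      have h7 : ev Θ (F.f k) p + E p * ∑ l, ξ l * ((F.f k).1 l : ℝ) - s k * pe k p =
          (ev Θ (F.f k) p - s k * pe k p) + E p * ∑ l, ξ l * F.U k l := by
        unfold Fr.U; ring
      change |ev Θ (F.f k) p + E p * ∑ l, ξ l * ((F.f k).1 l : ℝ) - s k * pe k p| ≤ _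
      rw [h7]
      refine le_trans (abs_add_le _ _) ?_
      rw [add_mul]
      linarith
  · intro k p
    by_cases hk : k = i
    · subst hk
      rw [Function.update_self]
      have h1 : F'.U k p = F.X j p := by unfold Fr.U Fr.X; rw [hF', SXG_f]
      rw [h1]; exact h32 j p
    · rw [Function.update_of_ne hk]
      have h1 : F'.U k p = F.U k p := by unfold Fr.U; rw [hF', SXG_f' F i j _ d hk]
      rw [h1]; exact hsta.hw k p
  · have h1 : q * s i * S' / (s i * S j) = (1 + y) / (1 + u) := by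
      rw [← hlog]; field_simp
    rw [h1, Real.log_div hy1.ne' hu1.ne']
    refine le_trans (abs_sub _ _) ?_
    have h2 := hLGI y hy17
    have h3 := hLGI u hu17
    have h4 : 12 / H = 12 * (1 / H) := by ring
    rw [h4]
    have h5 := htx0 j
    linarith
  · intro w R hw p
    have hR : 0 ≤ R := le_trans (abs_nonneg _) (hw 0)
    have h1 := hmv (fun l => (w.1 l : ℝ)) R hR hw p
    rw [hev]
    have h2 : ev Θ w p + ev Θ (F.f i) p * ∑ l, ξ l * (w.1 l : ℝ) - ev Θ w p = E p * ∑ l, ξ l * (w.1 l : ℝ) := by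
      simp only [hE]; ring
    rw [h2]
    refine le_trans h1 ?_
    have h3 : 0 ≤ s i * R / S' := by positivity
    have h4 : 5 * s i / S' * R = 5 * (s i * R / S') := by ring
    rw [h4]; linarith

end Pool.LH
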