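import Pool.Agent.Work.MP_7453a1_lh.HandIn2
import Pool.Agent.Work.MP_7453a1_lh.B_PTG
import Pool.Agent.Work.MP_7453a1_lh.B_CSB
import Pool.Agent.Work.MP_7453a1_lh.B_DMG
import Pool.Agent.Work.MP_7453a1_lh.B_KTG
import Pool.Agent.Work.MP_7453a1_lh.B_SXG
import Pool.Agent.Work.MP_7453a1_lh.B_SEG
import Pool.Agent.Work.MP_7453a1_lh.B_BNG
import Pool.Agent.Work.MP_7453a1_lh.B_MPC
import Pool.Agent.Work.MP_7453a1_lh.B_MPX
import Pool.Agent.Work.MP_7453a1_lh.B_MPE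
import Pool.Agent.Work.MP_7453a1_lh.B_MPT
import Pool.Agent.Work.MP_7453a1_lh.B_MST
import Pool.Agent.Work.MP_7453a1_lh.B_PRS
import Pool.Agent.Work.MP_7453a1_lh.B_PRT
import Pool.Agent.Work.MP_7453a1_lh.B_STH
import Pool.Agent.Work.MP_7453a1_lh.B_INH
import Pool.Agent.Work.MP_7453a1_lh.B_SQH
import Pool.Agent.Work.MP_7453a1_lh.B_CLH
import Pool.Agent.Work.MP_7453a1_lh.B_CEH
import Pool.Agent.Work.MP_7453a1_lh.B_CLD
import Pool.Agent.Work.MP_7453a1_lh.B_NMH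
import Pool.Agent.Work.MP_7453a1_lh.B_BSH
import Pool.Agent.Work.MP_7453a1_lh.B_CNH
import Pool.Agent.Work.MP_7453a1_lh.B_NUH
import Pool.Agent.Work.MP_7453a1_lh.B_FIH

set_option autoImplicit false

/-! # The improved upper bound for all `m, n`: composition of the blocks -/

namespace Pool.LH

theorem q_SXG : Stmt_SXG := p_SXG p_DMG
theorem q_SEG : Stmt_SEG := p_SEG p_DMG
theorem q_BNG : Stmt_BNG := p_BNG p_CSB p_KTG
theorem q_MPC : Stmt_MPC := p_MPC p_PTG p_CSB q_BNG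
theorem q_MPX : Stmt_MPX := p_MPX p_PTG p_CSB q_SXG q_BNG q_MPC
theorem q_MPE : Stmt_MPE := p_MPE p_PTG p_CSB q_SEG q_BNG q_MPC
theorem q_MPT : Stmt_MPT := p_MPT p_CSB q_MPX q_MPE
theorem q_MST : Stmt_MST := p_MST p_CSB p_KTG q_MPT
theorem q_PRS : Stmt_PRS := p_PRS p_PTG p_CSB q_SXG
theorem q_PRT : Stmt_PRT := p_PRT q_PRS
theorem q_STH : Stmt_STH := p_STH p_PTG p_CSB q_PRT q_MST
theorem q_INH : Stmt_INH := p_INH p_PTG p_CSB
theorem q_SQH : Stmt_SQH := p_SQH p_CSB q_STH q_INH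
theorem q_CLH : Stmt_CLH := p_CLH p_PTG p_CSB q_SQH
theorem q_CEH : Stmt_CEH := p_CEH p_PTG p_CSB
theorem q_CLD : Stmt_CLD := p_CLD p_PTG p_CSB
theorem q_NMH : Stmt_NMH := p_NMH q_CLD
theorem q_BSH : Stmt_BSH := p_BSH q_CLD q_CEH q_NMH
theorem q_CNH : Stmt_CNH := p_CNH q_BSH
theorem q_NUH : Stmt_NUH := p_NUH p_CSB
theorem q_FIH : Stmt_FIH := p_FIH q_CLH q_CNH q_NUH

end Pool.LH
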