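import Pool.Agent.Work.MP_7453a1_lh.Interface
import Pool.Agent.Work.MP_7453a1_lg.B_CST
import Pool.Agent.Work.MP_7453a1_lg.B_UMO
import Pool.Agent.Work.MP_7453a1_lg.B_LNK
import Pool.Agent.Work.MP_7453a1_lg.B_SCH

set_option autoImplicit false

/-! Block MPE: a step of the second kind (typed by helper68, after B_PHE). -/

namespace Pool.LH

open Finset Real
open Pool.LG (Pt Mat ev xv Fr Sg Dm pP pQ DD HH th LL TT xt rho ro co Ax Bx Wx Phi At Bt IsB)

/-- the sum of the tolerances of the other rows -/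
theorem MPE_sum {n : ℕ} (i : Fin (n + 1)) (g t : Fin (n + 1) → ℝ) (hg : ∀ k, 0 ≤ g k)
    (hgt : ∀ k, g k ≤ t k) (h0 : i ≠ 0 → g 0 = 0) :
    ∑ k ∈ univ.erase i, g k ≤ ∑ k ∈ univ.erase 0, t k := by
  by_cases hi : i = 0
  · subst hi
    exact Finset.sum_le_sum fun k _ => hgt k
  · have h1 : ∑ k ∈ univ.erase i, g k ≤ ∑ k, g k :=
      Finset.sum_le_sum_of_subset_of_nonneg (Finset.erase_subset _ _) fun k _ _ => hg k
    have h2 : ∑ k, g k = g 0 + ∑ k ∈ univ.erase 0, g k :=
      (Finset.add_sum_erase _ _ (Finset.mem_univ (0 : Fin (n + 1)))).symm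
    have h3 : ∑ k ∈ univ.erase (0 : Fin (n + 1)), g k ≤ ∑ k ∈ univ.erase 0, t k :=
      Finset.sum_le_sum fun k _ => hgt k
    rw [h2, h0 hi] at h1
    linarith

theorem MPE_mod {n L τ : ℕ} (hL : (n + 1) ∣ L) (k : Fin (n + 1)) (h : τ = L + k) :
    ro n τ = k := by
  apply Fin.ext
  show τ % (n + 1) = k
  obtain ⟨c, rfl⟩ := hL
  rw [h, Nat.mul_add_mod, Nat.mod_eq_of_lt k.2]

theorem p_MPE (hPTG : Stmt_PTG) (hCSB : Stmt_CSB) (hSEG : Stmt_SEG) (hBNG : Stmt_BNG)
    (hMPC : Stmt_MPC) : Stmt_MPE := by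
  intro m n Θ₀ X ε δ tx0 η te0 Z τ F Θ S tx s W te z hPar hτ hnx hPh
  obtain ⟨-, hD2, -, hDH, -, -, -, -, -, hft1, hft2, hft3, hft, hftq, hqq0, hqqth, hqq1, -, hLam, hE1,
    hL1000, -, -, -, -, -, -⟩ := hCSB m n
  obtain ⟨-, -, -, -, -, -, hth, -, -, hft5, -⟩ := Pool.LG.p_CST m n
  obtain ⟨-, hsch2, hsch3, hsch4, -, -, hsch7, -⟩ := Pool.LG.p_SCH Pool.LG.p_UMO
    (Pool.LG.p_LNK Pool.LG.p_UMO) m n
  obtain ⟨hpP, hpR, -⟩ := hPTG m n (qq m n) hqq0 hqq1
  have hHpos : 0 < HB m n := by linarith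
  have hLpos : 0 < LB m n := by linarith
  have hτT : τ ≤ TT m n := hτ.le
  -- `m < L ≤ τ`
  have hLτ : LL m n ≤ τ := by
    unfold xt at hnx
    exact (not_lt.1 hnx).trans (Nat.mod_le _ _)
  have hmL : m < LL m n := by
    unfold LL
    calc m < m + 1 := Nat.lt_succ_self m
      _ = (m + 1) * 1 := (mul_one _).symm
      _ ≤ (m + 1) * (n + 1) := Nat.mul_le_mul_left _ (Nat.succ_le_succ (Nat.zero_le n))
  have hlt : ∀ l : Fin (m + 1), (l : ℕ) < τ := fun l => by
    have := l.2
    omega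
  have hdvd : (n + 1) ∣ LL m n := ⟨m + 1, by unfold LL; ring⟩
  have hτR : (τ : ℝ) ≤ (TT m n : ℝ) := by exact_mod_cast hτT
  have hτ0 : (0 : ℝ) ≤ (τ : ℝ) := Nat.cast_nonneg _
  have hfth : fB m n ≤ th m n := by
    have h1 : qq m n * th m n ≤ 1 * th m n := mul_le_mul_of_nonneg_right hqq1 hth.le
    have h2 : qq m n * th m n / 1000 ≤ th m n := by linarith
    linarith
  have hDft : DD m n * fB m n ≤ 1 / 1000 := by
    have h1 : DD m n * th m n ≤ 1 / 1000 := by
      rw [hft5]
      apply one_div_le_one_div_of_le (by norm_num)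
      have : (1 : ℝ) ≤ 3 ^ (m + n + 2) := one_le_pow₀ (by norm_num)
      linarith
    have h3 : DD m n * fB m n ≤ DD m n * th m n := mul_le_mul_of_nonneg_left hfth (by linarith)
    linarith
  have hft' : fB m n ≤ 1 / 1000 := by nlinarith
  have htx0 : ∀ l, 0 ≤ tx l := fun l => (hPh.btx l).1
  have htx1 : ∀ l, tx l ≤ (2 + 2 * DD m n * τ) / HB m n := fun l => by
    have h1 := (hPh.btx l).2
    rw [if_neg (by have := hlt l; omega), zero_add] at h1
    exact h1
  have htx2 : ∀ l, tx l ≤ fB m n := fun l => by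
    refine (htx1 l).trans (le_trans ?_ hft1)
    apply div_le_div_of_nonneg_right _ hHpos.le
    nlinarith
  have hte0 : ∀ k, 0 ≤ te k := fun k => (hPh.bte k).1
  have hτft : (10 + 5 * (τ : ℝ)) / HB m n ≤ fB m n := by
    refine le_trans ?_ hft2
    apply div_le_div_of_nonneg_right _ hHpos.le
    linarith
  have hte1 : ∀ k, te k ≤ (if τ ≤ LL m n + (k : ℕ) then te0 k else 0) + fB m n := fun k => by
    have h1 := (hPh.bte k).2
    linarith
  have hcard : (∑ _l : Fin (m + 1), fB m n) ≤ DD m n * fB m n := by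
    rw [Finset.sum_const, Finset.card_univ, Fintype.card_fin, nsmul_eq_mul]
    apply mul_le_mul_of_nonneg_right _ hft.le
    unfold DD
    push_cast
    linarith [Nat.cast_nonneg (α := ℝ) n]
  have hsumtx : ∑ l, tx l ≤ 9 / 100 := by
    have h1 : ∑ l, tx l ≤ ∑ _l : Fin (m + 1), fB m n := Finset.sum_le_sum fun l _ => htx2 l
    linarith
  have hte0half : ∀ k, te0 k ≤ 51 / 100 := by
    intro k
    by_cases hk : k = 0
    · rw [hk]; exact hPar.tez
    · have h1 : te0 k ≤ ∑ k ∈ univ.erase 0, te0 k :=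
        Finset.single_le_sum (f := te0) (fun l _ => hPar.tep l)
          (Finset.mem_erase.2 ⟨hk, Finset.mem_univ k⟩)
      linarith [hPar.ste]
  have hifle : ∀ k : Fin (n + 1), (if τ ≤ LL m n + (k : ℕ) then te0 k else 0) ≤ te0 k := by
    intro k
    split_ifs
    · exact le_rfl
    · exact hPar.tep k
  have hif0 : ∀ k : Fin (n + 1), 0 ≤ (if τ ≤ LL m n + (k : ℕ) then te0 k else 0) := by
    intro k
    split_ifs
    · exact hPar.tep k
    · exact le_rfl
  set i : Fin (n + 1) := ro n τ with hi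
  set j : Fin (m + 1) := co m n τ with hj
  have htei : te i ≤ 13 / 25 := by
    have h1 := hte1 i
    have h2 := hifle i
    have h3 := hte0half i
    linarith
  have hsumte : ∑ k ∈ univ.erase i, te k ≤ 1 / 10 := by
    have h1 : ∑ k ∈ univ.erase i, te k ≤
        ∑ k ∈ univ.erase i, ((if τ ≤ LL m n + (k : ℕ) then te0 k else 0) + fB m n) :=
      Finset.sum_le_sum fun k _ => hte1 k
    rw [Finset.sum_add_distrib, Finset.sum_const, Finset.card_erase_of_mem (Finset.mem_univ i),
      Finset.card_univ, Fintype.card_fin, nsmul_eq_mul] at h1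
    have h2 := MPE_sum i (fun k => if τ ≤ LL m n + (k : ℕ) then te0 k else 0) te0 hif0 hifle
      (fun hne => by
        have h3 : ¬ τ ≤ LL m n + ((0 : Fin (n + 1)) : ℕ) := by
          intro h4
          have h5 : τ = LL m n + ((0 : Fin (n + 1)) : ℕ) := by
            simp only [Fin.val_zero, add_zero] at h4 ⊢
            omega
          exact hne (MPE_mod hdvd 0 h5)
        exact if_neg h3)
    have h3 : ((n + 1 - 1 : ℕ) : ℝ) * fB m n ≤ DD m n * fB m n := by
      apply mul_le_mul_of_nonneg_right _ hft.le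
      rw [Nat.add_sub_cancel]
      unfold DD
      linarith [Nat.cast_nonneg (α := ℝ) m]
    have h4 := hPar.ste
    have h5 : ∑ k ∈ univ.erase i, (fun k : Fin (n + 1) => if τ ≤ LL m n + (k : ℕ) then te0 k else 0) k =
      ∑ k ∈ univ.erase i, (if τ ≤ LL m n + (k : ℕ) then te0 k else 0) := rfl
    rw [h5] at h2
    linarith
  -- the size of `z`
  have hsumtx0 : 0 ≤ ∑ l, tx l := Finset.sum_nonneg fun l _ => htx0 l
  have hsumte0 : 0 ≤ ∑ k, te k := Finset.sum_nonneg fun k _ => hte0 k
  have hz3 : z ≤ 3 := by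
    have h1 := hPh.pot
    have h2 : 60 * DD m n / HB m n * τ ≤ 60 * DD m n / HB m n * TT m n := by
      apply mul_le_mul_of_nonneg_left hτR
      have : 0 < DD m n := by linarith
      positivity
    have h3 := hPar.Zle
    linarith
  -- bounds for the sizes
  obtain ⟨hB1, hB2⟩ := hBNG m n δ η τ hPar.del hPar.eta hτT
  have hXp := hPar.Xp
  have hεp := hPar.ep
  have hSp := hPh.sta.Sp
  have hsp := hPh.sta.sp
  have hSj : X * (1 / EB m n) * LB m n ^ Ax m n τ j ≤ S j := by
    rw [hPh.sS j]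
    have h1 := (hB1 j).1
    have h2 : 0 ≤ X * LB m n ^ Ax m n τ j := by positivity
    calc X * (1 / EB m n) * LB m n ^ Ax m n τ j = X * LB m n ^ Ax m n τ j * (1 / EB m n) := by ring
      _ ≤ _ := mul_le_mul_of_nonneg_left h1 h2
  have hslo : ∀ k, ε * (1 / EB m n) * (1 / LB m n) ^ Bx m n τ k ≤ s k := fun k =>
    (hB2 ε (s k) z k hεp (hsp k) hz3 (hPh.ss k)).1
  have hsup : ∀ k, s k ≤ ε * EB m n * (1 / LB m n) ^ Bx m n τ k := fun k =>
    (hB2 ε (s k) z k hεp (hsp k) hz3 (hPh.ss k)).2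
  have hWup := hPh.sW
  set E := EB m n with hEdef
  set Λ := LB m n with hΛ
  set H := HB m n with hHdef
  have hEpos : 0 < E := by linarith
  set e := 1 / E with hedef
  have hepos : 0 < e := by positivity
  have hΛ1 : 1 ≤ Λ := by linarith
  -- `R`
  set R : ℝ := Λ ^ rho m n τ with hR
  have hRΛ : Λ ≤ R := by
    have h1 : Λ ^ 1 ≤ Λ ^ rho m n τ := pow_le_pow_right₀ hΛ1 (hsch7 τ)
    rwa [pow_one] at h1
  have hexp1 : (1 : ℝ) ≤ E ^ 4 := one_le_pow₀ hE1
  have hHΛ : H ≤ Λ := by
    refine le_trans ?_ hLam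
    nlinarith
  have hHR : H ≤ R := hHΛ.trans hRΛ
  have hRpos : 0 < R := lt_of_lt_of_le hLpos hRΛ
  have hAx : Ax m n (τ + 1) j = Ax m n τ j + rho m n τ := by
    show Function.update (Ax m n τ) (co m n τ) (Ax m n τ (co m n τ) + rho m n τ) j = _
    rw [← hj, Function.update_self]
  have hRS : X * e * Λ ^ Ax m n (τ + 1) j ≤ R * S j := by
    rw [hAx, pow_add]
    calc X * e * (Λ ^ Ax m n τ j * Λ ^ rho m n τ)
        = R * (X * e * Λ ^ Ax m n τ j) := by rw [hR]; ring
      _ ≤ R * S j := mul_le_mul_of_nonneg_left hSj hRpos.le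
  have hRSpos : 0 < R * S j := mul_pos hRpos (hSp j)
  -- powers of `E`
  have he4 : E ^ 4 = E * E * E * E := by ring
  have heneg : e * E = 1 := one_div_mul_cancel hEpos.ne'
  have hE2 : E * E ≤ E ^ 4 := by
    rw [he4]
    nlinarith [mul_le_mul hE1 hE1 zero_le_one (by linarith : (0 : ℝ) ≤ E), mul_pos hEpos hEpos]
  have hH2 : H * (E * E) ≤ Λ := by
    refine le_trans ?_ hLam
    have := mul_le_mul_of_nonneg_left hE2 hHpos.le
    have h2 : 0 ≤ H * E ^ 4 := by positivity
    nlinarith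
  have hH4 : H * (3 / 2 * E ^ 4) ≤ Λ := by
    refine le_trans ?_ hLam
    have h2 : 0 ≤ H * E ^ 4 := by positivity
    nlinarith
  have hH22 : H * (3 / 2 * (E * E)) ≤ Λ := by
    refine le_trans ?_ hH4
    apply mul_le_mul_of_nonneg_left _ hHpos.le
    linarith
  -- the conditions of SEG
  have hc1 : ∀ k, k ≠ i → H * s k ≤ s i := by
    intro k hk
    have hB := hsch2 τ k hnx hk
    have h1 : (1 / Λ) ^ Bx m n τ k ≤ (1 / Λ) ^ (Bx m n τ i + 1) :=
      pow_le_pow_of_le_one (by positivity) (by rw [div_le_one hLpos]; exact hΛ1) hB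
    have hq : 0 < (1 / Λ) ^ Bx m n τ i := by positivity
    calc H * s k ≤ H * (ε * E * (1 / Λ) ^ (Bx m n τ i + 1)) := by
          apply mul_le_mul_of_nonneg_left _ hHpos.le
          exact (hsup k).trans (mul_le_mul_of_nonneg_left h1 (by positivity))
      _ = (ε * e * (1 / Λ) ^ Bx m n τ i) * ((H * (E * E)) * (1 / Λ)) := by
          rw [pow_succ]
          have : E = e * (E * E) := by
            rw [← mul_assoc, heneg, one_mul]
          calc H * (ε * E * ((1 / Λ) ^ Bx m n τ i * (1 / Λ)))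
              = H * (ε * (e * (E * E)) * ((1 / Λ) ^ Bx m n τ i * (1 / Λ))) := by
                rw [← this]
            _ = _ := by ring
      _ ≤ (ε * e * (1 / Λ) ^ Bx m n τ i) * 1 := by
          apply mul_le_mul_of_nonneg_left _ (by positivity)
          rw [mul_one_div, div_le_one hLpos]
          exact hH2
      _ ≤ s i := by rw [mul_one]; exact hslo i
  have hc3 : H * W i ≤ R * S j := by
    have hW := hsch4 τ
    rw [← hi, ← hj] at hW
    refine le_trans ?_ hRS
    have h1 : Λ ^ (Wx m n τ i + 1) ≤ Λ ^ Ax m n (τ + 1) j := pow_le_pow_right₀ hΛ1 hW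
    calc H * W i ≤ H * (3 / 2 * (X * E * Λ ^ Wx m n τ i)) :=
          mul_le_mul_of_nonneg_left (hWup i) hHpos.le
      _ = (X * e * Λ ^ Wx m n τ i) * (H * (3 / 2 * (E * E))) := by
          have : E = e * (E * E) := by
            rw [← mul_assoc, heneg, one_mul]
          calc H * (3 / 2 * (X * E * Λ ^ Wx m n τ i))
              = H * (3 / 2 * (X * (e * (E * E)) * Λ ^ Wx m n τ i)) := by
                rw [← this]
            _ = _ := by ring
      _ ≤ (X * e * Λ ^ Wx m n τ i) * Λ :=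
          mul_le_mul_of_nonneg_left hH22 (by positivity)
      _ = X * e * Λ ^ (Wx m n τ i + 1) := by rw [pow_succ]; ring
      _ ≤ _ := mul_le_mul_of_nonneg_left h1 (by positivity)
  have hc2 : ∀ k, k ≠ i → H * (W k * s i) ≤ R * S j * s k := by
    intro k _
    have hP := hsch3 τ k
    have hPhi : Phi m n τ = Ax m n (τ + 1) j + Bx m n τ i := rfl
    rw [hPhi] at hP
    have h1 : Λ ^ (Wx m n τ k + Bx m n τ k + 1) ≤ Λ ^ (Ax m n (τ + 1) j + Bx m n τ i) :=
      pow_le_pow_right₀ hΛ1 hP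
    have hBk : 0 < Λ ^ Bx m n τ k := by positivity
    have hBi : 0 < Λ ^ Bx m n τ i := by positivity
    have hinvk : (1 / Λ) ^ Bx m n τ k * Λ ^ Bx m n τ k = 1 := by
      rw [← mul_pow, one_div_mul_cancel hLpos.ne', one_pow]
    have hinvi : (1 / Λ) ^ Bx m n τ i * Λ ^ Bx m n τ i = 1 := by
      rw [← mul_pow, one_div_mul_cancel hLpos.ne', one_pow]
    set pk := (1 / Λ) ^ Bx m n τ k with hpk
    set pi' := (1 / Λ) ^ Bx m n τ i with hpi
    have hpk0 : 0 < pk := by positivity
    have hpi0 : 0 < pi' := by positivity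
    have h2 : H * (3 / 2 * E ^ 4) * Λ ^ Wx m n τ k * pi' ≤ Λ ^ Ax m n (τ + 1) j * pk := by
      have h3 : Λ * Λ ^ Wx m n τ k * Λ ^ Bx m n τ k ≤ Λ ^ Ax m n (τ + 1) j * Λ ^ Bx m n τ i := by
        calc Λ * Λ ^ Wx m n τ k * Λ ^ Bx m n τ k = Λ ^ (Wx m n τ k + Bx m n τ k + 1) := by
              rw [pow_succ, pow_add]; ring
          _ ≤ _ := h1
          _ = _ := by rw [pow_add]
      have h4 : Λ * Λ ^ Wx m n τ k * pi' ≤ Λ ^ Ax m n (τ + 1) j * pk := by
        calc Λ * Λ ^ Wx m n τ k * pi'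
            = (Λ * Λ ^ Wx m n τ k * Λ ^ Bx m n τ k) * (pk * pi') := by
              have : pk * Λ ^ Bx m n τ k = 1 := hinvk
              calc Λ * Λ ^ Wx m n τ k * pi' = Λ * Λ ^ Wx m n τ k * pi' * 1 := by ring
                _ = Λ * Λ ^ Wx m n τ k * pi' * (pk * Λ ^ Bx m n τ k) := by rw [this]
                _ = _ := by ring
          _ ≤ (Λ ^ Ax m n (τ + 1) j * Λ ^ Bx m n τ i) * (pk * pi') :=
              mul_le_mul_of_nonneg_right h3 (by positivity)
          _ = Λ ^ Ax m n (τ + 1) j * pk := by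
              have : pi' * Λ ^ Bx m n τ i = 1 := hinvi
              calc Λ ^ Ax m n (τ + 1) j * Λ ^ Bx m n τ i * (pk * pi')
                  = Λ ^ Ax m n (τ + 1) j * pk * (pi' * Λ ^ Bx m n τ i) := by ring
                _ = _ := by rw [this, mul_one]
      refine le_trans ?_ h4
      apply mul_le_mul_of_nonneg_right _ hpi0.le
      exact mul_le_mul_of_nonneg_right hH4 (by positivity)
    have hWk0 : (0 : ℝ) ≤ 3 / 2 * (X * E * Λ ^ Wx m n τ k) := by positivity
    calc H * (W k * s i) ≤ H * ((3 / 2 * (X * E * Λ ^ Wx m n τ k)) * (ε * E * pi')) := by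
          apply mul_le_mul_of_nonneg_left _ hHpos.le
          exact mul_le_mul (hWup k) (hsup i) (hsp i).le hWk0
      _ = (X * e * ε * e) * (H * (3 / 2 * E ^ 4) * Λ ^ Wx m n τ k * pi') := by
          have h5 : E * E = e * e * E ^ 4 := by
            rw [he4]
            calc E * E = (e * E) * (e * E) * (E * E) := by
                  rw [heneg]; ring
              _ = _ := by ring
          calc H * ((3 / 2 * (X * E * Λ ^ Wx m n τ k)) * (ε * E * pi'))
              = H * (3 / 2) * X * Λ ^ Wx m n τ k * ε * pi' * (E * E) := by ring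
            _ = H * (3 / 2) * X * Λ ^ Wx m n τ k * ε * pi' *
                (e * e * E ^ 4) := by rw [h5]
            _ = _ := by ring
      _ ≤ (X * e * ε * e) * (Λ ^ Ax m n (τ + 1) j * pk) :=
          mul_le_mul_of_nonneg_left h2 (by positivity)
      _ = (X * e * Λ ^ Ax m n (τ + 1) j) * (ε * e * pk) := by ring
      _ ≤ R * S j * s k := mul_le_mul hRS (hslo k) (by positivity) hRSpos.le
  -- the step
  obtain ⟨F', Θ', a, hSta, hf1, hf2, hv, hlog, hmov⟩ := hSEG m n (pP m) (pR n (qq m n)) hpP hpR H hDH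
    F Θ S tx s W te hPh.sta hsumtx i j R htei hsumte hHR hc1 hc2 hc3
  refine ⟨F', Θ', Function.update S j (R * S j), Function.update tx j (tx j + 2 * DD m n / H),
    Function.update s i a, Function.update W i (3 / 2 * S j),
    (fun k => if k = i then 10 / H else te k + 5 / H), z + (4 * te i + 10 * DD m n / H), ?_⟩
  have hKx : Kx m n δ η (τ + 1) = Kx m n δ η τ := by
    show (if xt m n τ then _ else Kx m n δ η τ) = _
    rw [if_neg hnx]
  refine hMPC m n Θ₀ X ε δ tx0 η te0 Z τ F Θ S tx s W te z hPar hτ hPh F' Θ' (R * S j) a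
    (4 * te i + 10 * DD m n / H) (Function.update tx j (tx j + 2 * DD m n / H))
    (fun k => if k = i then 10 / H else te k + 5 / H) ?_ hSta hf1 hf2 hv ?_ hlog ?_ ?_ ?_
  · rw [← hj, hKx, hAx, pow_add, hPh.sS j, hR]
    ring
  · intro w Rw hw p
    exact hmov w Rw hw p
  · -- the potential
    have h1 : ∑ l, Function.update tx j (tx j + 2 * DD m n / H) l = ∑ l, tx l + 2 * DD m n / H := by
      rw [← Finset.add_sum_erase _ _ (Finset.mem_univ j), Function.update_self,
        ← Finset.add_sum_erase univ tx (Finset.mem_univ j)]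
      have h2 : ∑ l ∈ univ.erase j, Function.update tx j (tx j + 2 * DD m n / H) l =
          ∑ l ∈ univ.erase j, tx l :=
        Finset.sum_congr rfl fun l hl => Function.update_of_ne (Finset.ne_of_mem_erase hl) _ _
      rw [h2]
      ring
    have h3 : ∑ k, (fun k => if k = i then 10 / H else te k + 5 / H) k =
        10 / H + (∑ k, te k - te i) + n * (5 / H) := by
      rw [← Finset.add_sum_erase univ _ (Finset.mem_univ i)]
      have h4 : ∑ k ∈ univ.erase i, (fun k => if k = i then 10 / H else te k + 5 / H) k =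
          ∑ k ∈ univ.erase i, (te k + 5 / H) :=
        Finset.sum_congr rfl fun k hk => by
          show (if k = i then 10 / H else te k + 5 / H) = _
          rw [if_neg (Finset.ne_of_mem_erase hk)]
      have h5 : (if i = i then 10 / H else te i + 5 / H) = 10 / H := if_pos rfl
      rw [h4, h5, Finset.sum_add_distrib, Finset.sum_const,
        Finset.card_erase_of_mem (Finset.mem_univ i), Finset.card_univ, Fintype.card_fin,
        nsmul_eq_mul, Nat.add_sub_cancel, ← Finset.add_sum_erase univ te (Finset.mem_univ i)]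
      ring
    rw [h1, h3]
    have h6 := hPh.pot
    have h7 : (18 * DD m n + 20 * n + 40) / H ≤ 60 * DD m n / H := by
      apply div_le_div_of_nonneg_right _ hHpos.le
      unfold DD
      have := Nat.cast_nonneg (α := ℝ) n
      have := Nat.cast_nonneg (α := ℝ) m
      linarith
    have h8 : (18 * DD m n + 20 * n + 40) / H = 10 * DD m n / H + 4 * (2 * DD m n / H) +
        4 * (n * (5 / H)) + 4 * (10 / H) := by
      field_simp
      ring
    have h9 : 60 * DD m n / H * ((τ : ℝ) + 1) = 60 * DD m n / H * τ + 60 * DD m n / H := by ring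
    rw [h9]
    linarith
  · intro l
    have hl := hlt l
    rw [if_neg (by omega), zero_add]
    have h1 : (2 + 2 * DD m n * ((τ : ℝ) + 1)) / H = (2 + 2 * DD m n * τ) / H + 2 * DD m n / H := by
      ring
    have h2 : 0 ≤ 2 * DD m n / H := by positivity
    rw [h1]
    by_cases hlj : l = j
    · rw [hlj, Function.update_self]
      exact ⟨add_nonneg (htx0 _) h2, by linarith [htx1 j]⟩
    · rw [Function.update_of_ne hlj]
      exact ⟨htx0 l, by linarith [htx1 l]⟩
  · intro k
    have hif1 : 0 ≤ (if τ + 1 ≤ LL m n + (k : ℕ) then te0 k else 0) := by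
      split_ifs
      · exact hPar.tep k
      · exact le_rfl
    have h5H : 0 < 5 / H := by positivity
    have h10H : 0 < 10 / H := by positivity
    have h1 : (10 + 5 * ((τ : ℝ) + 1)) / H = 10 / H + 5 / H * τ + 5 / H := by ring
    have h2 : (10 + 5 * (τ : ℝ)) / H = 10 / H + 5 / H * τ := by ring
    have h3 : 0 ≤ 5 / H * (τ : ℝ) := by positivity
    show 0 ≤ (if k = i then 10 / H else te k + 5 / H) ∧
      (if k = i then 10 / H else te k + 5 / H) ≤ _
    by_cases hk : k = i
    · rw [if_pos hk]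
      refine ⟨h10H.le, ?_⟩
      rw [h1]
      linarith
    · rw [if_neg hk]
      refine ⟨by linarith [hte0 k], ?_⟩
      have h4 := (hPh.bte k).2
      have h5 : (if τ ≤ LL m n + (k : ℕ) then te0 k else 0) ≤
          (if τ + 1 ≤ LL m n + (k : ℕ) then te0 k else 0) := by
        by_cases h6 : τ + 1 ≤ LL m n + (k : ℕ)
        · rw [if_pos h6, if_pos (by omega)]
        · have h7 : ¬ τ ≤ LL m n + (k : ℕ) := by
            intro h8
            exact hk (MPE_mod hdvd k (by omega)).symm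
          rw [if_neg h7, if_neg h6]
      rw [h1]
      rw [h2] at h4
      linarith

end Pool.LH
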