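import Pool.Agent.Work.MP_7453a1_lh.Interface
import Pool.Agent.Work.MP_7453a1_lg.B_ORD

set_option autoImplicit false

/-! # Block NMH -/

namespace Pool.LH

open Finset Real
open Pool.LG (Pt Mat ev xv Fr Sg Dm pP pQ DD HH th LL TT xt rho ro co Ax Bx Wx Phi At Bt IsB)

theorem NMH_term {a b : ℤ} {w : ℝ} (ha : a = 1 ∨ a = -1) (hb : b = 1 ∨ b = -1) :
    -(2 * |w|) ≤ ((b : ℝ) - a) * w := by
  have h1 := neg_abs_le w
  have h2 := le_abs_self w
  have h3 := abs_nonneg w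
  rcases ha with rfl | rfl <;> rcases hb with rfl | rfl <;> push_cast <;> linarith

theorem NMH_diff {N : ℕ} (w : Fin N → ℝ) (σ σ' : Fin N → ℤ) :
    ∑ l, (σ' l : ℝ) * w l - ∑ l, (σ l : ℝ) * w l = ∑ l, ((σ' l : ℝ) - σ l) * w l := by
  rw [← Finset.sum_sub_distrib]
  exact Finset.sum_congr rfl fun l _ => by ring

theorem NMH_bd {N : ℕ} (s : Finset (Fin N)) (w : Fin N → ℝ) {σ σ' : Fin N → ℤ} (hσ : Sg σ) (hσ' : Sg σ') :
    -(2 * ∑ l ∈ s, |w l|) ≤ ∑ l ∈ s, ((σ' l : ℝ) - σ l) * w l := by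
  rw [Finset.mul_sum, ← Finset.sum_neg_distrib]
  exact Finset.sum_le_sum fun l _ => NMH_term (hσ l) (hσ' l)

theorem NMH_A {N : ℕ} (s : Finset (Fin N)) (w : Fin N → ℝ) (σ σ' : Fin N → ℤ) (k : Fin N)
    (hσ : Sg σ) (hσ' : Sg σ') (hks : k ∉ s) (heq : ∀ l, l ≠ k → l ∉ s → σ l = σ' l) (h1 : σ k = -1)
    (h2 : σ' k = 1) :
    2 * w k - 2 * ∑ l ∈ s, |w l| ≤ ∑ l, (σ' l : ℝ) * w l - ∑ l, (σ l : ℝ) * w l := by
  classical
  have h4 : ∑ l, ((σ' l : ℝ) - σ l) * w l = 2 * w k + ∑ l ∈ s, ((σ' l : ℝ) - σ l) * w l := by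
    rw [← Finset.sum_erase_add _ _ (Finset.mem_univ k)]
    have h5 : ∑ l ∈ univ.erase k, ((σ' l : ℝ) - σ l) * w l = ∑ l ∈ s, ((σ' l : ℝ) - σ l) * w l := by
      symm
      apply Finset.sum_subset
      · intro l hl
        exact Finset.mem_erase.mpr ⟨fun h => hks (h ▸ hl), Finset.mem_univ l⟩
      · intro l hl hl'
        rw [heq l (Finset.mem_erase.mp hl).1 hl']
        ring
    rw [h5, h1, h2]
    push_cast
    ring
  rw [NMH_diff, h4]
  have h6 := NMH_bd s w hσ hσ'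
  linarith

theorem NMH_B {N : ℕ} (s : Finset (Fin N)) (w : Fin N → ℝ) (σ σ' : Fin N → ℤ)
    (hσ : Sg σ) (hσ' : Sg σ') (heq : ∀ l, l ∉ s → σ l = σ' l) :
    -(2 * ∑ l ∈ s, |w l|) ≤ ∑ l, (σ' l : ℝ) * w l - ∑ l, (σ l : ℝ) * w l := by
  have h5 : ∑ l, ((σ' l : ℝ) - σ l) * w l = ∑ l ∈ s, ((σ' l : ℝ) - σ l) * w l := by
    symm
    apply Finset.sum_subset (Finset.subset_univ s)
    intro l _ hl'
    rw [heq l hl']
    ring
  rw [NMH_diff, h5]
  exact NMH_bd s w hσ hσ'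

theorem NMH_neg {N : ℕ} {σ : Fin N → ℤ} (h : Sg σ) : Sg (fun l => -σ l) := by
  intro l
  rcases h l with h1 | h1
  · right
    show -σ l = -1
    rw [h1]
  · left
    show -σ l = 1
    rw [h1]
    rfl

theorem NMH_negsum {N : ℕ} (w : Fin N → ℝ) (σ : Fin N → ℤ) :
    ∑ l, (((fun l => -σ l) l : ℤ) : ℝ) * w l = -∑ l, (σ l : ℝ) * w l := by
  rw [← Finset.sum_neg_distrib]
  refine Finset.sum_congr rfl fun l _ => ?_
  push_cast
  ring

theorem p_NMH (hCLD : Stmt_CLD) : Stmt_NMH := by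
  intro m n F X ε Θ hC σ σ' τ τ' hσ hσ' hτ hτ' hσ0 hσ'0 hτl haa hee
  have hORD := Pool.LG.p_ORD
  have hneg : ee Θ F σ τ < 0 := (hCLD m n F X ε Θ hC σ τ hσ hτ).2.2.2.2.2.2.1 hτl
  have e1 : ee Θ F σ τ = ∑ l, (σ l : ℝ) * ev Θ (F.v l) (Fin.last n) +
      ∑ l, (τ l : ℝ) * ev Θ (F.f l) (Fin.last n) := rfl
  have e2 : ee Θ F σ' τ' = ∑ l, (σ' l : ℝ) * ev Θ (F.v l) (Fin.last n) +
      ∑ l, (τ' l : ℝ) * ev Θ (F.f l) (Fin.last n) := rfl
  have a1 : aa F σ τ = ∑ l, (σ l : ℝ) * F.X l 0 + ∑ l, (τ l : ℝ) * F.U l 0 := rfl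
  have a2 : aa F σ' τ' = ∑ l, (σ' l : ℝ) * F.X l 0 + ∑ l, (τ' l : ℝ) * F.U l 0 := rfl
  have hlast : τ' (Fin.last n) = -1 := by
    rcases hτ' (Fin.last n) with h | h
    · exfalso
      have hpos : 0 < ee Θ F σ' τ' := (hCLD m n F X ε Θ hC σ' τ' hσ' hτ').2.2.2.2.2.2.2.1 h
      rw [abs_of_pos hpos, abs_of_neg hneg] at hee
      have h1 := NMH_A (univ.filter ((0 : Fin (m + 1)) < ·)) (fun l => ev Θ (F.v l) (Fin.last n))
        (fun l => -σ l) σ' 0 (NMH_neg hσ) hσ' (by simp)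
        (fun l hl hl' => absurd (Finset.mem_filter.2 ⟨Finset.mem_univ l, Fin.pos_of_ne_zero hl⟩) hl')
        (by simp only [hσ0]) hσ'0
      have h2 := NMH_B (univ.erase (Fin.last n)) (fun l => ev Θ (F.f l) (Fin.last n))
        (fun l => -τ l) τ' (NMH_neg hτ) hτ'
        (fun l hl => by
          have h3 : l = Fin.last n := by
            by_contra hne
            exact hl (Finset.mem_erase.2 ⟨hne, Finset.mem_univ l⟩)
          subst h3
          simp only [hτl, h]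
          norm_num)
      rw [NMH_negsum] at h1 h2
      have h3 := hC.vo 0
      rw [e1, e2] at hee
      linarith
    · exact h
  have hneg' : ee Θ F σ' τ' < 0 := (hCLD m n F X ε Θ hC σ' τ' hσ' hτ').2.2.2.2.2.2.1 hlast
  rw [abs_of_neg hneg, abs_of_neg hneg'] at hee
  have hσeq : σ' = σ := by
    by_contra hne
    obtain ⟨-, ⟨k, hk, hkl⟩⟩ := hORD.1 (m + 1) σ σ' (fun h => hne h.symm)
    have hk0 : k ≠ 0 := by
      intro h
      rw [h, hσ0, hσ'0] at hk
      exact hk rfl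
    rcases hσ k with h1 | h1
    · have h2 : σ' k = -1 := by
        rcases hσ' k with h | h
        · exact absurd (h1.trans h.symm) hk
        · exact h
      have h3 := NMH_A (univ.filter (k < ·)) (fun l => ev Θ (F.v l) (Fin.last n))
        σ' σ k hσ' hσ (by simp)
        (fun l hl hl' => by
          rcases lt_or_gt_of_ne hl with h | h
          · exact (hkl l h).symm
          · exact absurd (Finset.mem_filter.2 ⟨Finset.mem_univ l, h⟩) hl') h2 h1
      have h4 := NMH_B (univ.erase (Fin.last n)) (fun l => ev Θ (F.f l) (Fin.last n))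
        τ' τ hτ' hτ
        (fun l hl => by
          have h3 : l = Fin.last n := by
            by_contra hne
            exact hl (Finset.mem_erase.2 ⟨hne, Finset.mem_univ l⟩)
          subst h3
          rw [hτl, hlast])
      have h5 := hC.vo k
      rw [e1, e2] at hee
      linarith
    · have h2 : σ' k = 1 := by
        rcases hσ' k with h | h
        · exact h
        · exact absurd (h1.trans h.symm) hk
      have h3 := NMH_A (univ.filter (k < ·)) (fun l => F.X l 0)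
        σ σ' k hσ hσ' (by simp)
        (fun l hl hl' => by
          rcases lt_or_gt_of_ne hl with h | h
          · exact hkl l h
          · exact absurd (Finset.mem_filter.2 ⟨Finset.mem_univ l, h⟩) hl') h1 h2
      have h4 := NMH_B univ (fun l => F.U l 0) τ τ' hτ hτ' (fun l hl => absurd (Finset.mem_univ l) hl)
      have h5 := hC.xo k hk0
      rw [a1, a2] at haa
      linarith
  refine ⟨hσeq, ?_⟩
  subst hσeq
  by_contra hne
  obtain ⟨⟨k, hk, hkl⟩, -⟩ := hORD.1 (n + 1) τ τ' (fun h => hne h.symm)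
  have hkn : k ≠ Fin.last n := by
    intro h
    rw [h, hτl, hlast] at hk
    exact hk rfl
  rcases hτ k with h1 | h1
  · have h2 : τ' k = -1 := by
      rcases hτ' k with h | h
      · exact absurd (h1.trans h.symm) hk
      · exact h
    have h4 := hORD.2.1 (n + 1) (fun l => ev Θ (F.f l) (Fin.last n)) τ' τ k hτ' hτ
      (hC.eo k hkn) (fun l hl => (hkl l hl).symm) h2 h1
    rw [e1, e2] at hee
    linarith
  · have h2 : τ' k = 1 := by
      rcases hτ' k with h | h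
      · exact h
      · exact absurd (h1.trans h.symm) hk
    have h4 := hORD.2.1 (n + 1) (fun l => F.U l 0) τ τ' k hτ hτ' (hC.fo k) hkl h1 h2
    rw [a1, a2] at haa
    linarith

end Pool.LH
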