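import Pool.Agent.Work.MP_7453a1_lg.Interface

set_option autoImplicit false

/-!
# Sup norms, all `m, n`: `2 ^ (m + n)` best approximations in a stage (helper85)

The construction of `MP_7453a1_lg` with two changes.  (1) Every stage begins with a prelude of `m + 1` steps on the last
row with small factors `Λ₁ ^ (j + 1)`; it makes the last coordinates of the errors of the `v j` decrease slowly
(`Λ₁ ^ (- (j + 1) (j + 2) / 2)`).  (2) In the rest of the stage the factors are powers of `Λ₂ = Λ₁ ^ (10 D ^ 3)`, and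
the special entries of the pattern of the errors are multiplied by `q = Λ₁ ^ (- D ^ 2)`, so that they are smaller than the
errors of the `v j`.  Then all sign combinations are best approximations.
-/

namespace Pool.LH

open Finset Real
open Pool.LG (Pt Mat ev xv Fr Sg Dm pP pQ DD HH th LL TT xt rho ro co Ax Bx Wx Phi At Bt IsB)

/-! ## Patterns and constants -/

/-- properties of the patterns -/
structure Pat {N : ℕ} (π' : Fin N → Fin N → ℝ) : Prop where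
  nn : ∀ k p, 0 ≤ π' k p
  le : ∀ k p, π' k p ≤ 7 / 5
  dg : ∀ k, 1 ≤ π' k k
  of : ∀ p, ∑ k ∈ univ.erase p, π' k p ≤ 1 / 20

/-- the pattern of the errors: `pQ n` with the special entries multiplied by `q` -/
noncomputable def pR (n : ℕ) (q : ℝ) (k p : Fin (n + 1)) : ℝ :=
  if p = Fin.last n ∧ k ≠ Fin.last n then q * pQ n k p else pQ n k p

/-- `D = m + n + 2` -/
def DN (m n : ℕ) : ℕ := m + n + 2

/-- `Λ₁ = 2 H exp 32` -/
noncomputable def L1 (m n : ℕ) : ℝ := 2 * HH m n * exp 32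

/-- `H₂ = Λ₁ ^ (D ^ 3)` -/
noncomputable def HB (m n : ℕ) : ℝ := L1 m n ^ (DN m n ^ 3)

/-- `exp C₂ = Λ₁ ^ (2 D ^ 3)` -/
noncomputable def EB (m n : ℕ) : ℝ := L1 m n ^ (2 * DN m n ^ 3)

/-- `Λ₂ = Λ₁ ^ (10 D ^ 3)` -/
noncomputable def LB (m n : ℕ) : ℝ := L1 m n ^ (10 * DN m n ^ 3)

/-- the bound `D ^ 2 log Λ₁` for the logarithmic deviations after the prelude -/
noncomputable def dB (m n : ℕ) : ℝ := DD m n ^ 2 * log (L1 m n)

/-- the factor of the special entries of the pattern of the errors -/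
noncomputable def qq (m n : ℕ) : ℝ := (1 / L1 m n) ^ (DN m n ^ 2)

/-- the tolerance at the end of a stage -/
noncomputable def fB (m n : ℕ) : ℝ := (1 / L1 m n) ^ (DN m n ^ 3 - 1)

/-- `(j + 1) (j + 2) / 2`: the exponent of the error of `v j` -/
def bb (j : ℕ) : ℕ := (j + 1) * (j + 2) / 2

/-- the factor between the sizes before and after the prelude -/
noncomputable def xm (m n : ℕ) : ℝ := exp (((m : ℝ) + 2) / 2 * log (L1 m n))

/-- the growth of the sizes in one stage -/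
noncomputable def KB (m n : ℕ) : ℝ := xm m n * LB m n ^ At m n

/-! ## The corrections -/

/-- the correction of a step of the first kind with row `i` and column `j` -/
noncomputable def kap (m n : ℕ) (δ : Fin (m + 1) → ℝ) (η : Fin (n + 1) → ℝ) (i : Fin (n + 1)) (j : Fin (m + 1)) : ℝ :=
  (η i / ((m : ℝ) + 1) - δ j / ((n : ℝ) + 1)) / ((m : ℝ) + 1)

/-- the logarithmic corrections of the sizes of `x(v l)` before step `τ` -/
noncomputable def Kx (m n : ℕ) (δ : Fin (m + 1) → ℝ) (η : Fin (n + 1) → ℝ) : ℕ → Fin (m + 1) → ℝ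
  | 0 => fun _ => 0
  | τ + 1 => if xt m n τ then
      Function.update (Kx m n δ η τ) (co m n τ) (Kx m n δ η τ (co m n τ) + kap m n δ η (ro n τ) (co m n τ))
      else Kx m n δ η τ

/-- the logarithmic corrections of the errors of the `f k` before step `τ` -/
noncomputable def Ke (m n : ℕ) (δ : Fin (m + 1) → ℝ) (η : Fin (n + 1) → ℝ) : ℕ → Fin (n + 1) → ℝ
  | 0 => fun _ => 0
  | τ + 1 => if xt m n τ then
      Function.update (Ke m n δ η τ) (ro n τ) (Ke m n δ η τ (ro n τ) + kap m n δ η (ro n τ) (co m n τ))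
      else Ke m n δ η τ

/-! ## States -/

/-- A good frame with centre `Θ`; `x(v j)` is `S j` times the pattern `px j` up to the relative error `tx j`, the error of
`f i` is `s i` times the pattern `pe i` up to the relative error `te i`, the coordinates of `x(f k)` are at most `W k`. -/
structure Sta (m n : ℕ) (px : Fin (m + 1) → Fin (m + 1) → ℝ) (pe : Fin (n + 1) → Fin (n + 1) → ℝ) (F : Fr m n)
    (Θ : Mat m n) (S tx : Fin (m + 1) → ℝ) (s W te : Fin (n + 1) → ℝ) : Prop where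
  good : F.Good
  cen : ∀ j p, ev Θ (F.v j) p = 0
  Sp : ∀ j, 0 < S j
  sp : ∀ i, 0 < s i
  hx : ∀ j p, |F.X j p - S j * px j p| ≤ tx j * S j
  he : ∀ i p, |ev Θ (F.f i) p - s i * pe i p| ≤ te i * s i
  hw : ∀ k p, |F.U k p| ≤ W k

/-- The state at the beginning of a stage. -/
structure Start (m n : ℕ) (G : Fr m n) (Θ₀ : Mat m n) (X ε : ℝ) (S dx tx : Fin (m + 1) → ℝ)
    (η te W : Fin (n + 1) → ℝ) : Prop where
  sta : Sta m n (pP m) (pR n (qq m n)) G Θ₀ S tx (fun i => ε * exp (η i)) W te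
  Xp : 0 < X
  ep : 0 < ε
  eta0 : ∑ i, η i = 0
  eta : ∀ i, |η i| ≤ 6
  dS : ∀ j, |log (S j / X)| ≤ dx j
  dxp : ∀ j, 0 ≤ dx j ∧ dx j ≤ 1 / 2
  txp : ∀ j, 0 ≤ tx j
  stx : ∑ j, tx j ≤ 1 / 20
  tep : ∀ i, 0 ≤ te i
  tez : te 0 ≤ 1 / 2
  ste : ∑ i ∈ univ.erase 0, te i ≤ 1 / 20
  W0 : ∀ k, W k ≤ 3 * X
  Zle : ∑ j, dx j + 4 * ∑ j, tx j + 4 * ∑ i, te i ≤ 28 / 10

/-- The state after `τ ≤ m + 1` steps of the prelude (row `last`, columns `0, 1, .., τ - 1`). -/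
structure Pr (m n : ℕ) (G : Fr m n) (Θ₀ : Mat m n) (X ε : ℝ) (S0 dx0 tx0 : Fin (m + 1) → ℝ)
    (η te0 : Fin (n + 1) → ℝ) (Z : ℝ) (τ : ℕ) (F : Fr m n) (Θ : Mat m n) (S tx : Fin (m + 1) → ℝ)
    (s W te : Fin (n + 1) → ℝ) (z : ℝ) : Prop where
  sta : Sta m n (pP m) (pR n (qq m n)) F Θ S tx s W te
  done : ∀ j : Fin (m + 1), (j : ℕ) < τ → S j = X * L1 m n ^ ((j : ℕ) + 1) ∧ 0 ≤ tx j ∧ tx j ≤ 2 / HH m n
  todo : ∀ j : Fin (m + 1), τ ≤ (j : ℕ) → S j = S0 j ∧ tx j = tx0 j ∧ F.v j = G.v j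
  row : ∀ k, k ≠ Fin.last n → s k = ε * exp (η k)
  las : |log (s (Fin.last n) / ε) + ((τ * (τ + 1) / 2 : ℕ) : ℝ) * log (L1 m n) - η (Fin.last n)| ≤ z
  tek : ∀ k, 0 ≤ te k ∧ te k ≤ te0 k + 5 * τ / HH m n
  sW : ∀ k, W k ≤ 3 * X
  pot : z + ∑ j ∈ univ.filter (fun j : Fin (m + 1) => τ ≤ (j : ℕ)), dx0 j + 4 * ∑ j, tx j + 4 * ∑ i, te i ≤
    Z + 60 * DD m n / HH m n * τ
  mov : ∀ (w : Pt m n) (R : ℝ), (∀ l, |(w.1 l : ℝ)| ≤ R) → ∀ p, |ev Θ w p - ev Θ₀ w p| ≤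
    5 * exp 9 * (ε / X) * R * ∑ t ∈ range τ, (1 / L1 m n) ^ bb t
  mob : ∀ j : Fin (m + 1), (j : ℕ) < τ → ∀ p, |ev Θ (G.v j) p| ≤
    ε * (2 * exp 9 * (1 / L1 m n) ^ bb j + 15 * exp 9 * ∑ t ∈ Ico ((j : ℕ) + 1) τ, (1 / L1 m n) ^ bb t)
  mol : ∀ j : Fin (m + 1), (j : ℕ) < τ →
    ε * (exp (-10) * (1 / L1 m n) ^ bb j - 15 * exp 9 * ∑ t ∈ Ico ((j : ℕ) + 1) τ, (1 / L1 m n) ^ bb t) ≤
      ev Θ (G.v j) (Fin.last n)

/-- parameters of the main part of a stage -/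
structure MPar (m n : ℕ) (X ε : ℝ) (δ tx0 : Fin (m + 1) → ℝ) (η te0 : Fin (n + 1) → ℝ) (Z : ℝ) : Prop where
  Xp : 0 < X
  ep : 0 < ε
  del : ∀ j, |δ j| ≤ dB m n
  eta : ∀ i, |η i| ≤ dB m n
  txp : ∀ j, 0 ≤ tx0 j
  stx : ∑ j, tx0 j ≤ 1 / 20
  tep : ∀ i, 0 ≤ te0 i
  tez : te0 0 ≤ 51 / 100
  ste : ∑ i ∈ univ.erase 0, te0 i ≤ 3 / 50
  Zle : Z ≤ 29 / 10

/-- The state after `τ` steps of the main part of a stage. -/
structure Mp (m n : ℕ) (Θ₀ : Mat m n) (X ε : ℝ) (δ tx0 : Fin (m + 1) → ℝ) (η te0 : Fin (n + 1) → ℝ)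
    (Z : ℝ) (τ : ℕ) (F : Fr m n) (Θ : Mat m n) (S tx : Fin (m + 1) → ℝ) (s W te : Fin (n + 1) → ℝ)
    (z : ℝ) : Prop where
  sta : Sta m n (pP m) (pR n (qq m n)) F Θ S tx s W te
  sS : ∀ j, S j = X * LB m n ^ Ax m n τ j * exp (δ j + Kx m n δ η τ j)
  ss : ∀ i, |log (s i / ε) + Bx m n τ i * log (LB m n) - (η i - Ke m n δ η τ i)| ≤ z
  sW : ∀ k, W k ≤ 3 / 2 * (X * EB m n * LB m n ^ Wx m n τ k)
  pot : z + 4 * ∑ j, tx j + 4 * ∑ i, te i ≤ Z + 60 * DD m n / HB m n * τ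
  btx : ∀ j, 0 ≤ tx j ∧ tx j ≤ (if τ ≤ (j : ℕ) then tx0 j else 0) + (2 + 2 * DD m n * τ) / HB m n
  bte : ∀ i, 0 ≤ te i ∧ te i ≤ (if τ ≤ LL m n + (i : ℕ) then te0 i else 0) + (10 + 5 * τ) / HB m n
  vis : ∀ k : Fin (n + 1), LL m n + (k : ℕ) < τ →
    1 / (20 * 3 ^ m) * (X * (1 / EB m n) * LB m n ^ Wx m n τ k) ≤ F.U k 0
  mov : ∀ (w : Pt m n) (R : ℝ), (∀ l, |(w.1 l : ℝ)| ≤ R) → ∀ p, |ev Θ w p - ev Θ₀ w p| ≤
    5 * EB m n ^ 2 * (ε / X) * R * ∑ t ∈ range τ, (1 / LB m n) ^ Phi m n t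

/-- What the stage from `G, Θ₀, X, ε` to `F, Θ, X KB, ε'` provides. -/
structure Nx (m n : ℕ) (G : Fr m n) (Θ₀ : Mat m n) (X ε : ℝ) (F : Fr m n) (Θ : Mat m n) (ε' : ℝ) : Prop where
  eps : ε' ≤ ε * exp 12 * (1 / LB m n) ^ Bt m n
  mov : ∀ (w : Pt m n) (R : ℝ), (∀ l, |(w.1 l : ℝ)| ≤ R) → ∀ p, |ev Θ w p - ev Θ₀ w p| ≤
    12 * exp 9 * (ε / X) * R / L1 m n
  mob : ∀ j p, |ev Θ (G.v j) p| ≤ 3 * exp 9 * ε * (1 / L1 m n) ^ bb j
  mol : ∀ j : Fin (m + 1), exp (-11) * ε * (1 / L1 m n) ^ bb j ≤ ev Θ (G.v j) (Fin.last n)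
  flo : ∀ k, 1 / (20 * 3 ^ m) * (X * xm m n * (1 / EB m n) * LB m n ^ Wx m n (TT m n) k) ≤ F.U k 0
  fup : ∀ k p, |F.U k p| ≤ 3 / 2 * (X * xm m n * EB m n * LB m n ^ Wx m n (TT m n) k)

/-- A frame whose `2 ^ (m + n)` points `(∑ ± v j + ∑ ± f k) / 2` (`v 0` with `+`, the last `f` with `-`) are best
approximations of `Θ`. -/
structure Clu (m n : ℕ) (F : Fr m n) (X ε : ℝ) (Θ : Mat m n) : Prop where
  good : F.Good
  Xp : 0 < X
  ep : 0 < ε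
  hx : ∀ j p, |F.X j p - X * pP m j p| ≤ th m n * X
  hf : ∀ k p, |F.U k p| ≤ th m n * X
  he : ∀ i p, |ev Θ (F.f i) p - ε * pR n (qq m n) i p| ≤ th m n * ε
  hv : ∀ j p, |ev Θ (F.v j) p| ≤ th m n * ε
  xo : ∀ j, j ≠ 0 → ∑ l ∈ univ.filter (j < ·), |F.X l 0| + ∑ k, |F.U k 0| < F.X j 0
  fo : ∀ k, ∑ l ∈ univ.filter (· < k), |F.U l 0| < F.U k 0
  vo : ∀ j, ∑ l ∈ univ.filter (j < ·), |ev Θ (F.v l) (Fin.last n)| +
    ∑ k ∈ univ.erase (Fin.last n), |ev Θ (F.f k) (Fin.last n)| < ev Θ (F.v j) (Fin.last n)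
  eo : ∀ k, k ≠ Fin.last n →
    ∑ l ∈ univ.filter (· < k), |ev Θ (F.f l) (Fin.last n)| < ev Θ (F.f k) (Fin.last n)

end Pool.LH
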