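import Pool.Agent.Work.MP_7453a1_lh.Interface
import Pool.Agent.Work.MP_7453a1_lg.HandIn

set_option autoImplicit false

/-! # The theorem for all `m, n` from block FIH -/

namespace Pool.LH

open Filter
open Pool.LE (sn)
open Pool.Agent.Work.MP_7453a1_nt_norm (IsNorm)
open Pool.Agent.Work.MP_7453a1_nt_two (Admissible Lengths G g)

theorem upper (hFIH : Stmt_FIH) (m n : ℕ) (hm : 1 ≤ m) (hn : 1 ≤ n) :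
    ∃ Θ : Matrix (Fin n) (Fin m) ℝ, Admissible Θ ∧ (Lengths (sn m) (sn n) Θ).Infinite ∧
      G (sn m) (sn n) Θ ≤ ENNReal.ofReal (Real.exp (250 * ((m : ℝ) + n) ^ 8 / 2 ^ (m + n))) := by
  obtain ⟨m, rfl⟩ : ∃ k, m = k + 1 := ⟨m - 1, by omega⟩
  obtain ⟨n, rfl⟩ : ∃ k, n = k + 1 := ⟨n - 1, by omega⟩
  obtain ⟨Θ, h1, h2, h3⟩ := hFIH m n
  refine ⟨Θ, h1, h2, ?_⟩
  have e1 : (m + 1) + (n + 1) = m + n + 2 := by omega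
  have e2 : (((m + 1 : ℕ) : ℝ) + ((n + 1 : ℕ) : ℝ)) = (m : ℝ) + n + 2 := by
    push_cast
    ring
  rw [e1, e2]
  exact h3

/-- the final statement: bounds for all norms, and for the sup norms -/
theorem joint5 (hFIH : Stmt_FIH) (m n : ℕ) (hm : 1 ≤ m) (hn : 1 ≤ n) :
    (∀ (Nm : Seminorm ℝ (Fin m → ℝ)) (Nn : Seminorm ℝ (Fin n → ℝ)), IsNorm Nm → IsNorm Nn →
      (∀ Θ : Matrix (Fin n) (Fin m) ℝ, (Lengths Nm Nn Θ).Infinite →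
        ENNReal.ofReal ((2 : ℝ) ^ (1 / ((2 : ℝ) ^ (m + n - 1) * 3 ^ m))) ≤ G Nm Nn Θ ∧
        ENNReal.ofReal ((2 : ℝ) ^ (1 / (8 * (m : ℝ) ^ 2 * (2 ^ (m + n - 1) * 3 ^ n)))) ≤ G Nm Nn Θ) ∧
      (m = 1 ∨ n = 1 →
        (∀ Θ : Matrix (Fin n) (Fin m) ℝ, Admissible Θ → (Lengths Nm Nn Θ).Infinite) ∧
        ENNReal.ofReal ((2 : ℝ) ^ (1 / (24 * (max m n : ℝ) ^ 2 * 2 ^ (max m n)))) ≤ g Nm Nn) ∧
      (m = 1 → ENNReal.ofReal ((3 : ℝ) ^ (1 / (2 : ℝ) ^ (n + 1))) ≤ g Nm Nn)) ∧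
    (∀ (Nm : Seminorm ℝ (Fin m → ℝ)) (Nn : Seminorm ℝ (Fin n → ℝ)), (∀ x, Nm x = ‖x‖) → (∀ x, Nn x = ‖x‖) →
      IsNorm Nm ∧ IsNorm Nn ∧
      (∀ Θ : Matrix (Fin n) (Fin m) ℝ, (Lengths Nm Nn Θ).Infinite →
        ENNReal.ofReal ((2 : ℝ) ^ (1 / (2 : ℝ) ^ (2 * m + n - 1))) ≤ G Nm Nn Θ) ∧
      g Nm Nn ≤ ENNReal.ofReal (Real.exp (250 * ((m : ℝ) + n) ^ 8 / 2 ^ (m + n))) ∧
      (∃ Θ : Matrix (Fin n) (Fin m) ℝ, Admissible Θ ∧ (Lengths Nm Nn Θ).Infinite ∧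
        G Nm Nn Θ ≤ ENNReal.ofReal (Real.exp (250 * ((m : ℝ) + n) ^ 8 / 2 ^ (m + n)))) ∧
      (m = 1 ∨ n = 1 →
        g Nm Nn ≤ ENNReal.ofReal (Real.exp (50 * (max m n : ℝ) ^ 3 / 2 ^ (max m n))) ∧
        ∃ Θ : Matrix (Fin n) (Fin m) ℝ, Admissible Θ ∧
          G Nm Nn Θ ≤ ENNReal.ofReal (Real.exp (50 * (max m n : ℝ) ^ 3 / 2 ^ (max m n))))) := by
  obtain ⟨hA, hB⟩ := Pool.LE.main m n hm hn
  refine ⟨hA, fun Nm Nn hNm hNn => ?_⟩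
  obtain ⟨h1, h2, h3, h4⟩ := hB Nm Nn hNm hNn
  have hE : Nm = sn m := by
    ext x
    rw [hNm x]
    rfl
  have hE' : Nn = sn n := by
    ext x
    rw [hNn x]
    rfl
  subst hE hE'
  obtain ⟨Θ, u1, u2, u3⟩ := upper hFIH m n hm hn
  exact ⟨h1, h2, h3, (iInf₂_le Θ u1).trans u3, ⟨Θ, u1, u2, u3⟩, h4⟩

end Pool.LH
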