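import Pool.Agent.Work.MP_7453a1_lh.Defs

set_option autoImplicit false

/-!
# Sup norms, all `m, n`: `g ≤ exp (250 d ^ 8 / 2 ^ d)`, `d = m + n` (helper85)

THEOREM.  For all `m, n ≥ 1`, `d = m + n`, there is a real `n × m` matrix `Θ` with (∗), with infinitely many best
approximation lengths for the sup norms and `G(Θ) ≤ exp (250 d ^ 8 / 2 ^ d)`.  (Here `m + 1`, `n + 1` instead of `m`, `n`.)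

The file of block `X` is `Pool/Agent/Work/MP_7453a1_lh/B_X.lean`: `import` this file, `namespace Pool.LH`,
`theorem p_X (hA : Stmt_A) (hB : Stmt_B) .. : Stmt_X` with exactly the blocks of the column `uses` as hypotheses
in that order; auxiliary lemmas have the prefix `X_`.  The blocks of `MP_7453a1_lg` are PROVED and may be used freely:
`import Pool.Agent.Work.MP_7453a1_lg.All`, then `Pool.LG.p_GOD, p_DUA, p_PAT, p_LGI, p_CST, q_STP, p_UMO, q_LNK, q_SCH, p_ORD,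
p_LMT, p_BRG, p_LM2` (statements in `MP_7453a1_lg/Interface.lean`); they are not hypotheses.  Most blocks are adaptations of
blocks of `MP_7453a1_lg`: copy the file `B_Y.lean` named in the docstring and change it.

Words: `M = m + 1`, `K = n + 1`, `D = m + n + 2`, `H = HH`, `Λ₁ = L1 = 2 H e ^ 32`, `H₂ = HB = Λ₁ ^ (D ^ 3)`, `E = EB = Λ₁ ^ (2 D ^ 3)`,
`Λ₂ = LB = Λ₁ ^ (10 D ^ 3)`, `q = qq = Λ₁ ^ (-D ^ 2)`, `fB = Λ₁ ^ (1 - D ^ 3)`; so `2 H₂ E ^ 4 ≤ Λ₂`.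
-/

namespace Pool.LH

open Finset Real
open Pool.LG (Pt Mat ev xv Fr Sg Dm pP pQ DD HH th LL TT xt rho ro co Ax Bx Wx Phi At Bt IsB)

/-! ## 1. Patterns, constants, steps -/

/-- **PTG** (120 lines), uses nothing (`Pool.LG.p_PAT`). -/
def Stmt_PTG : Prop :=
  ∀ (m n : ℕ) (q : ℝ), 0 < q → q ≤ 1 → Pat (pP m) ∧ Pat (pR n q) ∧
    (∀ k p, p ≠ Fin.last n → p ≠ k → pR n q k p = 0) ∧ pR n q (Fin.last n) (Fin.last n) = 7 / 5 ∧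
    (∀ k, k ≠ Fin.last n → pR n q k k = 1 ∧ q / (10 * 3 ^ n) ≤ pR n q k (Fin.last n) ∧
      pR n q k (Fin.last n) ≤ q / 20 ∧
      ∑ l ∈ univ.filter (· < k), pR n q l (Fin.last n) ≤ pR n q k (Fin.last n) / 2) ∧
    ∑ k ∈ univ.erase (Fin.last n), pR n q k (Fin.last n) ≤ q / 20

/-- **CSB** (250 lines), uses nothing (`Pool.LG.p_CST`).  Numbers.  `Λ₁ ≥ 2 · 10 ^ 6 D ^ 6 3 ^ D e ^ 32`, `T ≤ D ^ 3 / 2`, so `10 + 5 T`, `2 + 2 D T`,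
`60 D T ≤ Λ₁`.  `D ^ 3 - 1 ≥ D ^ 2 + 3`; `bb j ≤ D (D - 1) / 2` for `j ≤ m`, so `bb j + 3 ≤ D ^ 2`.
`(1 + D) D ^ 2 ℓ + 3 ≤ 2 D ^ 3 ℓ`, `ℓ = log Λ₁ ≥ 32`.  `E ^ 2 / Λ₂ = Λ₁ ^ (-6 D ^ 3)`, `6 D ^ 3 ≥ bb j + 6`. -/
def Stmt_CSB : Prop :=
  ∀ m n : ℕ,
    (DN m n : ℝ) = DD m n ∧ 2 ≤ DD m n ∧ 1000 * DD m n ≤ HH m n ∧ 1000 * DD m n ≤ HB m n ∧
    HH m n * (2 * exp 32) = L1 m n ∧ 10 ^ 6 * DD m n ^ 6 * 3 ^ (m + n + 2) * exp 32 ≤ L1 m n ∧ 32 ≤ log (L1 m n) ∧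
    60 * DD m n ^ 2 / HH m n ≤ th m n / 100 ∧ 5 * DD m n / HH m n ≤ 1 / 1000 ∧
    (2 + 2 * DD m n * TT m n) / HB m n ≤ fB m n ∧ (10 + 5 * (TT m n : ℝ)) / HB m n ≤ fB m n ∧
    60 * DD m n / HB m n * TT m n ≤ fB m n ∧
    0 < fB m n ∧ fB m n ≤ qq m n * th m n / 1000 ∧ 0 < qq m n ∧ qq m n ≤ th m n / 1000 ∧ qq m n ≤ 1 ∧
    (∀ j, j ≤ m → qq m n ≤ (1 / L1 m n) ^ (bb j + 3)) ∧
    HB m n * (2 * EB m n ^ 4) ≤ LB m n ∧ 1 ≤ EB m n ∧ 1000 ≤ LB m n ∧ L1 m n ≤ LB m n ∧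
    (1 + DD m n) * dB m n + 3 ≤ log (EB m n) ∧
    (∀ j, j ≤ m → EB m n ^ 2 / LB m n ≤ (1 / L1 m n) ^ (bb j + 6)) ∧ EB m n / LB m n ≤ fB m n ^ 2 ∧
    1 ≤ xm m n ∧ xm m n ≤ L1 m n ^ DN m n

/-- **DMG** (60 lines), uses nothing.  Copy of `B_DMS.lean`. -/
def Stmt_DMG : Prop :=
  ∀ (N : ℕ) (π' : Fin N → Fin N → ℝ), Pat π' →
    ∀ (A : Fin N → Fin N → ℝ) (S tx : Fin N → ℝ), (∀ l, 0 < S l) →
      (∀ l p, |A l p - S l * π' l p| ≤ tx l * S l) → ∑ l, tx l ≤ 1 / 10 →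
    Dm A S ∧ (∀ p, ∑ l, |A l p| / S l ≤ 33 / 20) ∧ ∀ l p, |A l p| ≤ 3 / 2 * S l

/-- **SXG** (250 lines), uses DMG.  Copy of `B_STX.lean` (general patterns; the pattern facts used there are those of `Pat`). -/
def Stmt_SXG : Prop :=
  ∀ (m n : ℕ) (px : Fin (m + 1) → Fin (m + 1) → ℝ) (pe : Fin (n + 1) → Fin (n + 1) → ℝ), Pat px → Pat pe →
    ∀ (H : ℝ), 1000 * DD m n ≤ H → ∀ (F : Fr m n) (Θ : Mat m n) (S tx : Fin (m + 1) → ℝ)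
    (s W te : Fin (n + 1) → ℝ), Sta m n px pe F Θ S tx s W te → ∑ l, tx l ≤ 9 / 100 →
    ∀ (i : Fin (n + 1)) (j : Fin (m + 1)) (S' : ℝ), te i ≤ 13 / 25 → (∀ l, H * S l ≤ S') →
      (∀ k, k ≠ i → H * (W k * s i) ≤ S' * s k) → H * W i ≤ S' →
    ∃ (F' : Fr m n) (Θ' : Mat m n) (a : ℝ),
      Sta m n px pe F' Θ' (Function.update S j S') (Function.update tx j (2 / H)) (Function.update s i a)
        (Function.update W i (3 / 2 * S j)) (fun k => if k = i then te i else te k + 5 / H) ∧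
      F'.f i = F.v j ∧ (∀ k, k ≠ i → F'.f k = F.f k) ∧ (∀ l, l ≠ j → F'.v l = F.v l) ∧
      |log (a * S' / (s i * S j))| ≤ 4 * tx j + 12 / H ∧
      ∀ (w : Pt m n) (R : ℝ), (∀ l, |(w.1 l : ℝ)| ≤ R) → ∀ p, |ev Θ' w p - ev Θ w p| ≤ 5 * s i / S' * R

/-- **SEG** (300 lines), uses DMG.  Copy of `B_STE.lean` (general patterns). -/
def Stmt_SEG : Prop :=
  ∀ (m n : ℕ) (px : Fin (m + 1) → Fin (m + 1) → ℝ) (pe : Fin (n + 1) → Fin (n + 1) → ℝ), Pat px → Pat pe →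
    ∀ (H : ℝ), 1000 * DD m n ≤ H → ∀ (F : Fr m n) (Θ : Mat m n) (S tx : Fin (m + 1) → ℝ)
    (s W te : Fin (n + 1) → ℝ), Sta m n px pe F Θ S tx s W te → ∑ l, tx l ≤ 9 / 100 →
    ∀ (i : Fin (n + 1)) (j : Fin (m + 1)) (R : ℝ), te i ≤ 13 / 25 → ∑ k ∈ univ.erase i, te k ≤ 1 / 10 → H ≤ R →
      (∀ k, k ≠ i → H * s k ≤ s i) → (∀ k, k ≠ i → H * (W k * s i) ≤ R * S j * s k) → H * W i ≤ R * S j →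
    ∃ (F' : Fr m n) (Θ' : Mat m n) (a : ℝ),
      Sta m n px pe F' Θ' (Function.update S j (R * S j)) (Function.update tx j (tx j + 2 * DD m n / H))
        (Function.update s i a) (Function.update W i (3 / 2 * S j))
        (fun k => if k = i then 10 / H else te k + 5 / H) ∧
      F'.f i = F.v j ∧ (∀ k, k ≠ i → F'.f k = F.f k) ∧ (∀ l, l ≠ j → F'.v l = F.v l) ∧
      |log (a * (R * S j) / (s i * S j))| ≤ 4 * te i + 10 * DD m n / H ∧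
      ∀ (w : Pt m n) (Rw : ℝ), (∀ l, |(w.1 l : ℝ)| ≤ Rw) → ∀ p,
        |ev Θ' w p - ev Θ w p| ≤ 5 * s i / (R * S j) * Rw

/-- **KTG** (200 lines), uses nothing.  As `B_KTO.lean`.  `|kap i j| ≤ (Δ / M + Δ / K) / M`, `M L` steps of the first kind: the sums are at most
`L (1 / M + 1 / K) Δ = D Δ`.  At the end every pair (row, column) has occurred `M` times in steps of the first kind (for fixed `u < L`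
with `u % K = i` exactly one round `b ≤ m` gives the column `j`, and there are `M` such `u`): `Kx T j = M ∑_i kap i j = - δ j` and
`Ke T i = M ∑_j kap i j = η i`. -/
def Stmt_KTG : Prop :=
  ∀ (m n : ℕ) (δ : Fin (m + 1) → ℝ) (η : Fin (n + 1) → ℝ) (Δ : ℝ), (∀ j, |δ j| ≤ Δ) → (∀ i, |η i| ≤ Δ) →
    (∀ τ, τ ≤ TT m n → ∀ j, |Kx m n δ η τ j| ≤ DD m n * Δ) ∧
    (∀ τ, τ ≤ TT m n → ∀ i, |Ke m n δ η τ i| ≤ DD m n * Δ) ∧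
    (∑ j, δ j = 0 → ∑ i, η i = 0 → (∀ j, Kx m n δ η (TT m n) j = - δ j) ∧ ∀ i, Ke m n δ η (TT m n) i = η i)

/-- **BNG** (80 lines), uses CSB KTG.  As `B_BNS.lean`: `|δ + Kx| ≤ (1 + D) dB ≤ log E`, `|η - Ke| + 3 ≤ (1 + D) dB + 3 ≤ log E`. -/
def Stmt_BNG : Prop :=
  ∀ (m n : ℕ) (δ : Fin (m + 1) → ℝ) (η : Fin (n + 1) → ℝ) (τ : ℕ), (∀ j, |δ j| ≤ dB m n) →
    (∀ i, |η i| ≤ dB m n) → τ ≤ TT m n →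
    (∀ j, 1 / EB m n ≤ exp (δ j + Kx m n δ η τ j) ∧ exp (δ j + Kx m n δ η τ j) ≤ EB m n) ∧
    (∀ (ε s z : ℝ) (i : Fin (n + 1)), 0 < ε → 0 < s → z ≤ 3 →
      |log (s / ε) + Bx m n τ i * log (LB m n) - (η i - Ke m n δ η τ i)| ≤ z →
      ε * (1 / EB m n) * (1 / LB m n) ^ Bx m n τ i ≤ s ∧ s ≤ ε * EB m n * (1 / LB m n) ^ Bx m n τ i)

/-! ## 2. The main part of a stage -/

/-- **MPC** (250 lines), uses PTG CSB BNG.  As `B_PHC.lean` (without `dx`, `keep`, `mob`, `mol`).  `ss` for `i = ro n τ`: the new value is the old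
one plus `log (a S1 / (s_i S_j))`, as `log (S1 / S_j) = rho log Λ₂ + Kx' - Kx` exactly and `Ke' - Ke = Kx' - Kx`.  `vis` for `i` (`τ ≥ L + i`):
`U' i 0 = X j 0 ≥ S_j (P_j0 - tx_j) ≥ S_j / (20 3 ^ m)`, `tx_j ≤ (2 + 2 D τ) / H₂ ≤ fB`.  `mov`: `5 s_i / S1 ≤
5 E ^ 2 (ε / X) (1 / Λ₂) ^ Phi τ`. -/
def Stmt_MPC : Prop :=
  ∀ (m n : ℕ) (Θ₀ : Mat m n) (X ε : ℝ) (δ tx0 : Fin (m + 1) → ℝ) (η te0 : Fin (n + 1) → ℝ) (Z : ℝ)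
    (τ : ℕ) (F : Fr m n) (Θ : Mat m n) (S tx : Fin (m + 1) → ℝ) (s W te : Fin (n + 1) → ℝ) (z : ℝ),
    MPar m n X ε δ tx0 η te0 Z → τ < TT m n → Mp m n Θ₀ X ε δ tx0 η te0 Z τ F Θ S tx s W te z →
    ∀ (F' : Fr m n) (Θ' : Mat m n) (S1 a ν : ℝ) (tx' : Fin (m + 1) → ℝ) (te' : Fin (n + 1) → ℝ),
      S1 = X * LB m n ^ Ax m n (τ + 1) (co m n τ) * exp (δ (co m n τ) + Kx m n δ η (τ + 1) (co m n τ)) →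
      Sta m n (pP m) (pR n (qq m n)) F' Θ' (Function.update S (co m n τ) S1) tx' (Function.update s (ro n τ) a)
        (Function.update W (ro n τ) (3 / 2 * S (co m n τ))) te' →
      F'.f (ro n τ) = F.v (co m n τ) → (∀ k, k ≠ ro n τ → F'.f k = F.f k) →
      (∀ l, l ≠ co m n τ → F'.v l = F.v l) →
      (∀ (w : Pt m n) (R : ℝ), (∀ l, |(w.1 l : ℝ)| ≤ R) → ∀ p,
        |ev Θ' w p - ev Θ w p| ≤ 5 * s (ro n τ) / S1 * R) →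
      |log (a * S1 / (s (ro n τ) * S (co m n τ)))| ≤ ν →
      (z + ν) + 4 * ∑ j, tx' j + 4 * ∑ i, te' i ≤ Z + 60 * DD m n / HB m n * (τ + 1) →
      (∀ j, 0 ≤ tx' j ∧ tx' j ≤ (if τ + 1 ≤ (j : ℕ) then tx0 j else 0) +
        (2 + 2 * DD m n * (τ + 1)) / HB m n) →
      (∀ i, 0 ≤ te' i ∧ te' i ≤ (if τ + 1 ≤ LL m n + (i : ℕ) then te0 i else 0) +
        (10 + 5 * ((τ : ℝ) + 1)) / HB m n) →
      Mp m n Θ₀ X ε δ tx0 η te0 Z (τ + 1) F' Θ' (Function.update S (co m n τ) S1) tx'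
        (Function.update s (ro n τ) a) (Function.update W (ro n τ) (3 / 2 * S (co m n τ))) te' (z + ν)

/-- **MPX** (250 lines), uses PTG CSB SXG BNG MPC.  As `B_PHX.lean` with `H = HB`, `Λ₂`, `S' = X Λ₂ ^ Ax (τ+1) j exp (δ j + Kx (τ+1) j)`,
`H₂ · 3/2 · E ^ 4 ≤ Λ₂`.  `te_i ≤ 51/100 + fB ≤ 13/25`, `∑ tx ≤ 1/20 + D fB ≤ 9/100`.  Potential: `4 tx_j + 12/H - 4 tx_j + 8/H + 20 n/H
≤ 60 D/H`. -/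
def Stmt_MPX : Prop :=
  ∀ (m n : ℕ) (Θ₀ : Mat m n) (X ε : ℝ) (δ tx0 : Fin (m + 1) → ℝ) (η te0 : Fin (n + 1) → ℝ) (Z : ℝ)
    (τ : ℕ) (F : Fr m n) (Θ : Mat m n) (S tx : Fin (m + 1) → ℝ) (s W te : Fin (n + 1) → ℝ) (z : ℝ),
    MPar m n X ε δ tx0 η te0 Z → τ < TT m n → xt m n τ → Mp m n Θ₀ X ε δ tx0 η te0 Z τ F Θ S tx s W te z →
    ∃ (F' : Fr m n) (Θ' : Mat m n) (S' tx' : Fin (m + 1) → ℝ) (s' W' te' : Fin (n + 1) → ℝ) (z' : ℝ),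
      Mp m n Θ₀ X ε δ tx0 η te0 Z (τ + 1) F' Θ' S' tx' s' W' te' z'

/-- **MPE** (250 lines), uses PTG CSB SEG BNG MPC.  As `B_PHE.lean` with `R = Λ₂ ^ rho τ`; `S1 = R S_j` is the required value as `Kx` does
not change and `Ax (τ+1) j = Ax τ j + rho τ`.  `∑_{k ≠ i} te_k ≤ 3/50 + D fB ≤ 1/10`. -/
def Stmt_MPE : Prop :=
  ∀ (m n : ℕ) (Θ₀ : Mat m n) (X ε : ℝ) (δ tx0 : Fin (m + 1) → ℝ) (η te0 : Fin (n + 1) → ℝ) (Z : ℝ)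
    (τ : ℕ) (F : Fr m n) (Θ : Mat m n) (S tx : Fin (m + 1) → ℝ) (s W te : Fin (n + 1) → ℝ) (z : ℝ),
    MPar m n X ε δ tx0 η te0 Z → τ < TT m n → ¬ xt m n τ → Mp m n Θ₀ X ε δ tx0 η te0 Z τ F Θ S tx s W te z →
    ∃ (F' : Fr m n) (Θ' : Mat m n) (S' tx' : Fin (m + 1) → ℝ) (s' W' te' : Fin (n + 1) → ℝ) (z' : ℝ),
      Mp m n Θ₀ X ε δ tx0 η te0 Z (τ + 1) F' Θ' S' tx' s' W' te' z'

/-- **MPT** (100 lines), uses CSB MPX MPE.  As `B_PHT.lean`: the state `0` and `T` steps. -/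
def Stmt_MPT : Prop :=
  ∀ (m n : ℕ) (F₀ : Fr m n) (Θ₀ : Mat m n) (X ε : ℝ) (δ tx0 : Fin (m + 1) → ℝ) (η te0 W : Fin (n + 1) → ℝ)
    (Z : ℝ), MPar m n X ε δ tx0 η te0 Z →
    Sta m n (pP m) (pR n (qq m n)) F₀ Θ₀ (fun j => X * exp (δ j)) tx0 (fun i => ε * exp (η i)) W te0 →
    (∀ k, W k ≤ 3 / 2 * (X * EB m n)) → 4 * ∑ j, tx0 j + 4 * ∑ i, te0 i ≤ Z →
    ∃ (F : Fr m n) (Θ : Mat m n) (S tx : Fin (m + 1) → ℝ) (s W' te : Fin (n + 1) → ℝ) (z : ℝ),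
      Mp m n Θ₀ X ε δ tx0 η te0 Z (TT m n) F Θ S tx s W' te z

/-- **MST** (250 lines), uses CSB KTG MPT.  As the corresponding part of `B_STG.lean`.  At `T`: `δ j + Kx T j = 0`, so `S_j = X Λ₂ ^ At`;
`tx, te ≤ fB`; `σ_i = log (s_i / ε) + Bt log Λ₂`, `|σ_i| ≤ z ≤ Z + fB`, `ε' = ε exp (mean - Bt log Λ₂)`, `η'_i = σ_i - mean`;
`∑_{t < T} (1/Λ₂) ^ Phi t ≤ 2/Λ₂`. -/
def Stmt_MST : Prop :=
  ∀ (m n : ℕ) (F₀ : Fr m n) (Θ₀ : Mat m n) (X ε : ℝ) (δ tx0 : Fin (m + 1) → ℝ) (η te0 W : Fin (n + 1) → ℝ)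
    (Z : ℝ), MPar m n X ε δ tx0 η te0 Z → ∑ j, δ j = 0 → ∑ i, η i = 0 →
    Sta m n (pP m) (pR n (qq m n)) F₀ Θ₀ (fun j => X * exp (δ j)) tx0 (fun i => ε * exp (η i)) W te0 →
    (∀ k, W k ≤ 3 / 2 * (X * EB m n)) → 4 * ∑ j, tx0 j + 4 * ∑ i, te0 i ≤ Z →
    ∃ (F : Fr m n) (Θ : Mat m n) (ε' : ℝ) (η' W' : Fin (n + 1) → ℝ),
      Sta m n (pP m) (pR n (qq m n)) F Θ (fun _ => X * LB m n ^ At m n) (fun _ => fB m n)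
        (fun i => ε' * exp (η' i)) W' (fun _ => fB m n) ∧
      0 < ε' ∧ ∑ i, η' i = 0 ∧ (∀ i, |η' i| ≤ 2 * (Z + fB m n)) ∧ ε' ≤ ε * exp 3 * (1 / LB m n) ^ Bt m n ∧
      (∀ k, W' k ≤ 3 / 2 * (X * EB m n * LB m n ^ Wx m n (TT m n) k)) ∧
      (∀ k, 1 / (20 * 3 ^ m) * (X * (1 / EB m n) * LB m n ^ Wx m n (TT m n) k) ≤ F.U k 0) ∧
      ∀ (w : Pt m n) (R : ℝ), (∀ l, |(w.1 l : ℝ)| ≤ R) → ∀ p, |ev Θ w p - ev Θ₀ w p| ≤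
        10 * EB m n ^ 2 * (ε / X) * R / LB m n

/-! ## 3. The prelude and the whole stage -/

/-- **PRS** (300 lines), uses PTG CSB SXG.  A step of the prelude: SXG with `H = HH`, row `i = last`, column `j = τ`, `S' = X Λ₁ ^ (τ+1)`.
`pot` gives `z ≤ 28/10 + 60 D ^ 2 / H ≤ 3`, so by `las` (and `|η| ≤ 6`) `ε e^{-9} (1/Λ₁) ^ (τ(τ+1)/2) ≤ s_last ≤ ε e^9 (1/Λ₁) ^ (τ(τ+1)/2)`.
`H S_l ≤ S'`: `S_l = X Λ₁ ^ (l+1) ≤ X Λ₁ ^ τ` (`l < τ`) or `S_l = S0 l ≤ X e^{1/2}`.  `H W_k s_last ≤ H 3 X ε e^9 ≤ X Λ₁ ε e^{-6} ≤ S' s_k`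
(`k ≠ last`; `HH · 2 e^32 = Λ₁`), `H W_last ≤ 3 X H ≤ S'`.  `te_last ≤ 13/25` (`te0 last ≤ 1/2`: it is `te0 0` or a term of `ste`),
`∑ tx ≤ 1/20 + 2 D / H`.  New `z' = z + 4 tx_j + 12/H + dx0 j`: `log (a/ε) + ((τ+1)(τ+2)/2) ℓ - η = old + log (a S'/(s S_j)) -
log (X / S0 j)` (`(τ+1)(τ+2)/2 = τ(τ+1)/2 + τ + 1`).  `pot`: `12/H + 8/H + 20 n/H ≤ 60 D/H`.  `W' last = 3/2 S0 j ≤ 3/2 e^{1/2} X ≤ 3 X`.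
`mov`: `5 s_last / S' ≤ 5 e^9 (ε/X) (1/Λ₁) ^ bb τ`.  `mob`, `mol` for `j' < τ`: the same with `R = 3 X`
(`|G.X j' p| ≤ 3/2 S0 j' ≤ 3 X` by DMG or `Start.sta`).  For `j' = τ`: `G.v τ = F.v τ = F'.f last`, its error is `a` times
(pattern `± te`), `7/5 + 13/25 ≤ 2`, last coordinate `≥ 7/5 - 13/25 ≥ 0.88`, `ε e^{-9} (1/Λ₁) ^ bb τ ≤ a ≤ ε e^9 (1/Λ₁) ^ bb τ` by the new
`las` (`z' ≤ 3`), `0.88 e^{-9} ≥ e^{-10}`. -/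
def Stmt_PRS : Prop :=
  ∀ (m n : ℕ) (G : Fr m n) (Θ₀ : Mat m n) (X ε : ℝ) (S0 dx0 tx0 : Fin (m + 1) → ℝ)
    (η te0 W0 : Fin (n + 1) → ℝ) (Z : ℝ) (τ : ℕ) (F : Fr m n) (Θ : Mat m n) (S tx : Fin (m + 1) → ℝ)
    (s W te : Fin (n + 1) → ℝ) (z : ℝ),
    Start m n G Θ₀ X ε S0 dx0 tx0 η te0 W0 → Z ≤ 28 / 10 → τ ≤ m →
    Pr m n G Θ₀ X ε S0 dx0 tx0 η te0 Z τ F Θ S tx s W te z →
    ∃ (F' : Fr m n) (Θ' : Mat m n) (S' tx' : Fin (m + 1) → ℝ) (s' W' te' : Fin (n + 1) → ℝ) (z' : ℝ),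
      Pr m n G Θ₀ X ε S0 dx0 tx0 η te0 Z (τ + 1) F' Θ' S' tx' s' W' te' z'

/-- **PRT** (80 lines), uses PRS.  The state `0` of the prelude (`z = 0`, empty sums) and `m + 1` steps. -/
def Stmt_PRT : Prop :=
  ∀ (m n : ℕ) (G : Fr m n) (Θ₀ : Mat m n) (X ε : ℝ) (S0 dx0 tx0 : Fin (m + 1) → ℝ)
    (η te0 W0 : Fin (n + 1) → ℝ), Start m n G Θ₀ X ε S0 dx0 tx0 η te0 W0 →
    ∃ (F : Fr m n) (Θ : Mat m n) (S tx : Fin (m + 1) → ℝ) (s W te : Fin (n + 1) → ℝ) (z : ℝ),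
      Pr m n G Θ₀ X ε S0 dx0 tx0 η te0 (∑ j, dx0 j + 4 * ∑ j, tx0 j + 4 * ∑ i, te0 i) (m + 1) F Θ S tx s W te z

/-- **STH** (300 lines), uses PTG CSB PRT MST.  A stage: the prelude, then MST with `X̃ = X xm`, `δ j = (j + 1 - (m+2)/2) ℓ` (`∑ = 0`, `|δ| ≤ dB`;
`S_j = X Λ₁ ^ (j+1) = X̃ exp (δ j)`), `ε̃ = exp (mean of log s_i)`, `η̃_i = log (s_i / ε̃)`.  `|log (s_i / ε)| ≤ 6` for `i ≠ last` and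
`log (s_last / ε) ∈ [- bb m ℓ - 9, 9]` (`z ≤ 3`), so `ε̃ ≤ ε e^9`, `|η̃| ≤ bb m ℓ + 18 ≤ dB` (`bb m ≤ D (D - 1) / 2`).  `Z` of the main
part is `Z0 + 60 D / H (m + 1) ≤ 29/10`; `te0 0 ≤ 1/2 + 5 D/H ≤ 51/100`; `ste ≤ 1/20 + 5 D ^ 2/H ≤ 3/50`; `W ≤ 3 X ≤ 3/2 X̃ E`.
Results: `Start`: `W' ≤ 3/2 X̃ E Λ₂ ^ (At - 1) ≤ 3 X̃ Λ₂ ^ At` (`Wx T k < At`), `|η'| ≤ 2 (Z0 + 60 D ^ 2 / H + fB) ≤ 6`.
`mov`: `5 e^9 (ε/X) R ∑ (1/Λ₁) ^ bb t ≤ 10 e^9 (ε/X) R / Λ₁` (`bb t ≥ t + 1`) plus `10 E ^ 2 e^9 (ε/X) R / Λ₂`.  `mob`: `2 e^9 (1/Λ₁) ^ bb j +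
30 e^9 (1/Λ₁) ^ (bb j + 2) + 30 E ^ 2 e^9 / Λ₂ ≤ 3 e^9 (1/Λ₁) ^ bb j` (`bb t ≥ bb j + 2 + (t - j - 1)` for `t > j`), `R = 3 X`.  `mol` in the
same way (`e^{-10} / 2 ≥ e^{-11}`). -/
def Stmt_STH : Prop :=
  ∀ (m n : ℕ) (G : Fr m n) (Θ₀ : Mat m n) (X ε : ℝ) (S dx tx : Fin (m + 1) → ℝ) (η te W : Fin (n + 1) → ℝ),
    Start m n G Θ₀ X ε S dx tx η te W →
    ∃ (F : Fr m n) (Θ : Mat m n) (ε' : ℝ) (η' W' : Fin (n + 1) → ℝ),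
      Start m n F Θ (X * KB m n) ε' (fun _ => X * KB m n) (fun _ => 0) (fun _ => fB m n) η' (fun _ => fB m n) W' ∧
      (∀ i, |η' i| ≤ 2 * (∑ j, dx j + 4 * ∑ j, tx j + 4 * ∑ i, te i + 60 * DD m n ^ 2 / HH m n + fB m n)) ∧
      Nx m n G Θ₀ X ε F Θ ε'

/-- **INH** (200 lines), uses PTG CSB.  As `B_INI.lean`: the same frame; only `te_k = pR n q k (last)` for `0 < k < n`. -/
def Stmt_INH : Prop :=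
  ∀ m n : ℕ, ∃ (F : Fr m n) (Θ : Mat m n) (ε : ℝ) (S dx tx : Fin (m + 1) → ℝ) (η te W : Fin (n + 1) → ℝ),
    Start m n F Θ 1 ε S dx tx η te W

/-- **SQH** (120 lines), uses CSB STH INH.  As `B_SEQ.lean`: `|η (s + 1)| ≤ 2 (4 D fB + 60 D ^ 2 / H + fB) ≤ th / 5`
(`fB ≤ th / 10 ^ 6`, `D ≤ ` use `D fB ≤ D th / 10 ^ 6 · ..`; `60 D ^ 2 / H ≤ th / 100`). -/
def Stmt_SQH : Prop :=
  ∀ m n : ℕ, ∃ (F : ℕ → Fr m n) (Θ : ℕ → Mat m n) (ε : ℕ → ℝ) (η W : ℕ → Fin (n + 1) → ℝ), ∀ s,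
    Start m n (F s) (Θ s) (KB m n ^ (s + 1)) (ε s) (fun _ => KB m n ^ (s + 1)) (fun _ => 0) (fun _ => fB m n)
      (η s) (fun _ => fB m n) (W s) ∧
    (∀ i, |η (s + 1) i| ≤ th m n / 5) ∧
    Nx m n (F s) (Θ s) (KB m n ^ (s + 1)) (ε s) (F (s + 1)) (Θ (s + 1)) (ε (s + 1))

/-- **CLH** (350 lines), uses PTG CSB SQH (and `Pool.LG.p_LMT`, `Pool.LG.q_SCH`, `Pool.LG.p_PAT`).  As `B_CLF.lean`.  `μ s = 12 e^9 (ε s / X s) / Λ₁`,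
`X s = KB ^ (s+1)`; `Nx.eps`: `μ (s+1) ≤ e^12 (1/Λ₂) ^ Bt / KB μ s ≤ μ s / 2`.  `Clu` for `F (s+1)`, `X = KB ^ (s+2)`, `ε = ε (s+1)`:
`|U k p| ≤ 3/2 X_s xm E Λ₂ ^ (At - 1) = 3/2 (E / Λ₂) X ≤ fB X`.  Total drift of `f_i` after the stage `s → s+1`: `2 μ (s+1) |U_i| ≤
24 e^9 ε / Λ₁ · 3/2 (E/Λ₂) ≤ fB ε` (`fo`, `he`, `eo`).  Drift of `v_j` after the stage `s+1 → s+2`: `tail = 2 μ (s+2) 3/2 X ≤
36 e^21 ε (1/Λ₂) ^ Bt / Λ₁ / KB ≤ ε qq` (`KB ≥ Λ₂`, `qq ≥ 1/Λ₂ ·` large).  `he`: `fB ε e^{η} + 7/5 ε |e^η - 1| + fB ε ≤ th ε`.  `hv`: `3 e^9 / Λ₁ + qq ≤ th`.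
`xo`: `X_j0 ≥ X (P_j0 - fB)`, `∑_{l > j} |X_l0| ≤ X (P_j0 / 2 + D fB)`, `∑ |U| ≤ D fB X`.  `fo`: `flo`, `fup`, `Wx T l + 1 ≤ Wx T k`,
`D 3/2 E ^ 2 20 3 ^ m < Λ₂`.  `vo`: `b_j ≥ e^{-11} ε (1/Λ₁) ^ bb j - tail`; `∑_{l > j} ≤ D (3 e^9 ε (1/Λ₁) ^ (bb j + 2) + tail)`;
`∑_{k < n} |e(f_k)_last| ≤ 2 ε (qq / 20 + D fB) + D fB ε ≤ ε qq`, `qq ≤ (1/Λ₁) ^ (bb j + 3)`; `e^{-11} > (3 D e^9 + 1) / Λ₁ + ..`.  `eo`: `e(f_k)_last ≥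
ε e^{η_k} (pR_k - fB) - fB ε`, `∑_{l < k} ≤ ε e^{th/5} (pR_k / 2 + D fB) + D fB ε`, `pR_k ≥ qq / (10 3 ^ n)`, `fB ≤ qq th / 1000`. -/
def Stmt_CLH : Prop :=
  ∀ m n : ℕ, ∃ (F : ℕ → Fr m n) (ε : ℕ → ℝ) (Θ : Mat m n), ∀ s, Clu m n (F s) (KB m n ^ (s + 2)) (ε s) Θ

/-! ## 4. The cluster -/

/-- twice the special coordinate of `x(z)`, `z = (∑ σ_j v_j + ∑ τ_k f_k) / 2` -/
noncomputable def aa {m n : ℕ} (F : Fr m n) (σ : Fin (m + 1) → ℤ) (τ : Fin (n + 1) → ℤ) : ℝ :=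
  ∑ j, (σ j : ℝ) * F.X j 0 + ∑ k, (τ k : ℝ) * F.U k 0

/-- twice the special coordinate of the error of `z = (∑ σ_j v_j + ∑ τ_k f_k) / 2` -/
noncomputable def ee {m n : ℕ} (Θ : Mat m n) (F : Fr m n) (σ : Fin (m + 1) → ℤ) (τ : Fin (n + 1) → ℤ) : ℝ :=
  ∑ j, (σ j : ℝ) * ev Θ (F.v j) (Fin.last n) + ∑ k, (τ k : ℝ) * ev Θ (F.f k) (Fin.last n)

/-- **CEH** (250 lines), uses PTG CSB.  Copy of `B_CEC.lean`. -/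
def Stmt_CEH : Prop :=
  ∀ (m n : ℕ) (F : Fr m n) (X ε : ℝ) (Θ : Mat m n), Clu m n F X ε Θ → ∀ z : Pt m n,
    (∀ p, 2 * |(z.1 p : ℝ)| ≤ 3 / 2 * X) → (∀ p, 2 * |ev Θ z p| ≤ 3 / 2 * ε) →
    z = 0 ∨ ∃ (σ : Fin (m + 1) → ℤ) (τ : Fin (n + 1) → ℤ), Sg σ ∧ Sg τ ∧
      z + z = ∑ j, σ j • F.v j + ∑ k, τ k • F.f k

/-- **CLD** (250 lines), uses PTG CSB.  As `B_APX.lean` and `B_CLC.lean` (`|ee| = ε (7/5 ± 1/20 ± D th)`). -/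
def Stmt_CLD : Prop :=
  ∀ (m n : ℕ) (F : Fr m n) (X ε : ℝ) (Θ : Mat m n), Clu m n F X ε Θ →
    ∀ (σ : Fin (m + 1) → ℤ) (τ : Fin (n + 1) → ℤ), Sg σ → Sg τ →
    (∃ z : Pt m n, z + z = ∑ j, σ j • F.v j + ∑ k, τ k • F.f k) ∧
    4 / 3 * X ≤ |aa F σ τ| ∧ |aa F σ τ| ≤ 3 / 2 * X ∧ 4 / 3 * ε ≤ |ee Θ F σ τ| ∧ |ee Θ F σ τ| ≤ 3 / 2 * ε ∧
    (σ 0 = 1 → 0 < aa F σ τ) ∧ (τ (Fin.last n) = -1 → ee Θ F σ τ < 0) ∧ (τ (Fin.last n) = 1 → 0 < ee Θ F σ τ) ∧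
    ∀ z : Pt m n, z + z = ∑ j, σ j • F.v j + ∑ k, τ k • F.f k →
      2 * ‖xv z‖ = |aa F σ τ| ∧ 2 * ‖ev Θ z‖ = |ee Θ F σ τ|

/-- **NMH** (250 lines), uses CLD (and `Pool.LG.p_ORD`).  `b_j = ev Θ (v_j) last`, `e_k = ev Θ (f_k) last`.  (1) `τ' last = 1`: `|ee'| = ee'`, `|ee| = - ee`, so
`∑ σ' b + ∑_{k < n} τ' e ≤ - ∑ σ b - ∑_{k < n} τ e` (the terms `± e_last` cancel); but the difference is at least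
`2 b_0 - 2 (∑_{l > 0} |b_l| + ∑_{k<n} |e_k|) > 0` (`vo` for `j = 0`), a contradiction.  (2) `τ' last = -1`, `σ' ≠ σ`: the smallest index `j` of
difference is not `0`.  `σ j = -1`, `σ' j = 1`: `aa' - aa ≥ 2 (X_j0 - ∑_{l > j} |X_l0| - ∑ |U_k0|) > 0` (`xo`).  `σ j = 1`, `σ' j = -1`:
`ee' - ee ≤ - 2 (b_j - ∑_{l > j} |b_l| - ∑_{k < n} |e_k|) < 0` (`vo`; `τ' last = τ last`), and `ee < 0`, so `|ee'| > |ee|`.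
(3) `σ' = σ`, `τ' ≠ τ`: the largest index `k` of difference is not `last`.  `τ k = -1`, `τ' k = 1`: `aa' > aa` (`fo`, ORD).
`τ k = 1`, `τ' k = -1`: `ee' < ee < 0` (`eo`, ORD). -/
def Stmt_NMH : Prop :=
  ∀ (m n : ℕ) (F : Fr m n) (X ε : ℝ) (Θ : Mat m n), Clu m n F X ε Θ →
    ∀ (σ σ' : Fin (m + 1) → ℤ) (τ τ' : Fin (n + 1) → ℤ), Sg σ → Sg σ' → Sg τ → Sg τ' →
      σ 0 = 1 → σ' 0 = 1 → τ (Fin.last n) = -1 →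
      aa F σ' τ' ≤ aa F σ τ → |ee Θ F σ' τ'| ≤ |ee Θ F σ τ| → σ' = σ ∧ τ' = τ

/-- **BSH** (150 lines), uses CLD CEH NMH.  As `B_BST.lean`. -/
def Stmt_BSH : Prop :=
  ∀ (m n : ℕ) (F : Fr m n) (X ε : ℝ) (Θ : Mat m n), Clu m n F X ε Θ →
    ∀ (σ : Fin (m + 1) → ℤ) (τ : Fin (n + 1) → ℤ), Sg σ → Sg τ → σ 0 = 1 → τ (Fin.last n) = -1 →
    ∃ z : Pt m n, IsB Θ z ∧ 2 * ‖xv z‖ = aa F σ τ ∧ X / 2 < ‖xv z‖ ∧ ‖xv z‖ ≤ X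

/-- **CNH** (200 lines), uses BSH (and `Pool.LG.p_ORD`).  There are `2 ^ m` sign vectors `σ` with `σ 0 = 1` and `2 ^ n` sign vectors `τ` with
`τ last = -1`; `aa` is injective on the pairs: `σ ≠ σ'`: the smallest index of difference `j ≠ 0` and `xo`; `σ = σ'`, `τ ≠ τ'`: the
largest index of difference and `fo`. -/
def Stmt_CNH : Prop :=
  ∀ (m n : ℕ) (F : Fr m n) (X ε : ℝ) (Θ : Mat m n), Clu m n F X ε Θ →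
    ∃ T : Finset ℝ, 2 ^ (m + n) ≤ T.card ∧ ∀ r ∈ T, X / 2 < r ∧ r ≤ X ∧ ∃ z, IsB Θ z ∧ ‖xv z‖ = r

/-! ## 5. The growth rate -/

open Pool.Agent.Work.MP_7453a1_nt_two (Admissible IsBest Lengths G g len err)
open Pool.LE (sn)

/-- **NUH** (150 lines), uses CSB.  `D = m + n + 2`, `ℓ = log Λ₁ = 32 + log 2 + 6 log 10 + 6 log D + D log 3 ≤ 46.6 + 6 (D - 1) + 1.1 D ≤ 28 D`.
`L ≤ D ^ 2 / 4`, `At = L (2 L + 1) ≤ D ^ 4 / 8 + D ^ 2 / 4 ≤ 3/16 D ^ 4`.  `log KB = (m+2)/2 ℓ + 10 D ^ 3 At ℓ ≤ 28 D ^ 2 + 52.5 D ^ 8 ≤ 53 D ^ 8`,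
and `1 / 2 ^ (m + n) = 4 / 2 ^ D`, `4 · 53 ≤ 250`. -/
def Stmt_NUH : Prop :=
  ∀ m n : ℕ, 2 ≤ KB m n ∧
    KB m n ^ (1 / (2 : ℝ) ^ (m + n)) ≤ exp (250 * ((m : ℝ) + n + 2) ^ 8 / 2 ^ (m + n + 2))

/-- **FIH** (80 lines), uses CLH CNH NUH.  As `B_FIN.lean` (`Pool.LG.p_BRG`, `Pool.LG.p_LM2`, `Pool.LE.p_ADM`). -/
def Stmt_FIH : Prop :=
  ∀ m n : ℕ, ∃ Θ : Matrix (Fin (n + 1)) (Fin (m + 1)) ℝ, Admissible Θ ∧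
    (Lengths (sn (m + 1)) (sn (n + 1)) Θ).Infinite ∧
    G (sn (m + 1)) (sn (n + 1)) Θ ≤
      ENNReal.ofReal (exp (250 * ((m : ℝ) + n + 2) ^ 8 / 2 ^ (m + n + 2)))

end Pool.LH
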